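import Pool.Agent.PLS.Cm

/-!
# PLS.Anti: point probabilities of binomial distributions and sequential exposure

`Ex_count`: the number of subsets of size `j` is `choose k j ≤ choose k (k/2)`; `choose (2n) n/4^n ≤ 1/√(3n+1)` (induction: `(2n+1)^2 (3n+4) ≤ (2n+2)^2 (3n+1)`), `choose (2n+1) n/2^(2n+1) = choose (2n+2) (n+1)/4^(n+1)`.
`Ex_peel`: `Ex_union` with `R = s \ ⋃ D u` and `⋃ D u`; for a fixed part in `R` the numbers `a u` are constants and the `D u` are disjoint (induction on `U` with `Ex_union`).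
-/

set_option autoImplicit false

namespace PLS

open Finset Smo PLR

private theorem cb_sq (n : ℕ) : (3 * n + 1) * Nat.centralBinom n ^ 2 ≤ 16 ^ n := by
  induction n with
  | zero => simp
  | succ n ih =>
    have h := Nat.succ_mul_centralBinom_succ n
    have h1 : (n + 1) ^ 2 * Nat.centralBinom (n + 1) ^ 2 =
        4 * (2 * n + 1) ^ 2 * Nat.centralBinom n ^ 2 := by
      calc (n + 1) ^ 2 * Nat.centralBinom (n + 1) ^ 2
          = ((n + 1) * Nat.centralBinom (n + 1)) ^ 2 := by ring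
        _ = (2 * (2 * n + 1) * Nat.centralBinom n) ^ 2 := by rw [h]
        _ = 4 * (2 * n + 1) ^ 2 * Nat.centralBinom n ^ 2 := by ring
    have h2 : (3 * n + 4) * (2 * n + 1) ^ 2 ≤ 4 * (n + 1) ^ 2 * (3 * n + 1) := by nlinarith
    have h3 : ((n + 1) ^ 2 * (3 * n + 1)) *
        ((3 * (n + 1) + 1) * Nat.centralBinom (n + 1) ^ 2) ≤
        ((n + 1) ^ 2 * (3 * n + 1)) * 16 ^ (n + 1) := by
      calc ((n + 1) ^ 2 * (3 * n + 1)) * ((3 * (n + 1) + 1) * Nat.centralBinom (n + 1) ^ 2)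
          = (3 * n + 1) * (3 * n + 4) * ((n + 1) ^ 2 * Nat.centralBinom (n + 1) ^ 2) := by ring
        _ = ((3 * n + 4) * (2 * n + 1) ^ 2 * 4) *
            ((3 * n + 1) * Nat.centralBinom n ^ 2) := by
            rw [h1]
            ring
        _ ≤ (4 * (n + 1) ^ 2 * (3 * n + 1) * 4) * 16 ^ n :=
          Nat.mul_le_mul (Nat.mul_le_mul_right 4 h2) ih
        _ = ((n + 1) ^ 2 * (3 * n + 1)) * 16 ^ (n + 1) := by ring
    exact Nat.le_of_mul_le_mul_left h3 (by positivity)

private theorem choose_sq (N j : ℕ) : N * Nat.choose N j ^ 2 ≤ 4 ^ N := by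
  have h0 : Nat.choose N j ≤ Nat.choose N (N / 2) := Nat.choose_le_middle j N
  refine (Nat.mul_le_mul_left N (Nat.pow_le_pow_left h0 2)).trans ?_
  rcases Nat.even_or_odd' N with ⟨m, rfl | rfl⟩
  · rw [Nat.mul_div_cancel_left m two_pos, ← Nat.centralBinom_eq_two_mul_choose, pow_mul]
    refine le_trans ?_ (cb_sq m)
    exact Nat.mul_le_mul_right _ (by omega)
  · have h1 : (2 * m + 1) / 2 = m := by omega
    rw [h1]
    have h2 : Nat.centralBinom (m + 1) = 2 * Nat.choose (2 * m + 1) m := by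
      rw [Nat.centralBinom_eq_two_mul_choose, show 2 * (m + 1) = (2 * m + 1) + 1 by ring,
        Nat.choose_succ_succ, Nat.choose_symm_half]
      ring
    have h3 := cb_sq (m + 1)
    rw [h2] at h3
    have h4 : 4 * ((2 * m + 1) * Nat.choose (2 * m + 1) m ^ 2) ≤ 4 * 4 ^ (2 * m + 1) := by
      calc 4 * ((2 * m + 1) * Nat.choose (2 * m + 1) m ^ 2)
          = (2 * m + 1) * (2 * Nat.choose (2 * m + 1) m) ^ 2 := by ring
        _ ≤ (3 * (m + 1) + 1) * (2 * Nat.choose (2 * m + 1) m) ^ 2 :=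
          Nat.mul_le_mul_right _ (by omega)
        _ ≤ 16 ^ (m + 1) := h3
        _ = 4 * 4 ^ (2 * m + 1) := by
          rw [show (16 : ℕ) = 4 ^ 2 by norm_num, ← pow_mul]
          ring
    exact Nat.le_of_mul_le_mul_left h4 (by norm_num)

theorem Ex_count {E : Type*} [DecidableEq E] (D : Finset E) (hD : D.Nonempty) (a : ℤ) :
    Ex (fun _ => 1 / 2) D (fun h => ind ((h.card : ℤ) = a)) ≤ 1 / Real.sqrt D.card := by
  have hD0 : (0 : ℝ) < D.card := by exact_mod_cast hD.card_pos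
  have h1 : Ex (fun _ => 1 / 2) D (fun h => ind ((h.card : ℤ) = a)) =
      (1 / 2) ^ D.card * ((D.powerset.filter fun h => (h.card : ℤ) = a).card : ℝ) := by
    unfold Ex
    have e1 : ∀ α ∈ D.powerset, (∏ e ∈ D, if e ∈ α then (1 / 2 : ℝ) else 1 - 1 / 2) *
        ind ((α.card : ℤ) = a) = if (α.card : ℤ) = a then (1 / 2 : ℝ) ^ D.card else 0 := by
      intro α _
      have e2 : (∏ e ∈ D, if e ∈ α then (1 / 2 : ℝ) else 1 - 1 / 2) = (1 / 2) ^ D.card := by
        rw [← Finset.prod_const]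
        refine Finset.prod_congr rfl fun e _ => ?_
        split_ifs <;> norm_num
      rw [e2]
      by_cases h : (α.card : ℤ) = a
      · rw [ind_of h, if_pos h, mul_one]
      · rw [ind_not h, if_neg h, mul_zero]
    rw [Finset.sum_congr rfl e1, ← Finset.sum_filter, Finset.sum_const, nsmul_eq_mul, mul_comm]
  rw [h1]
  obtain ⟨j, hj⟩ : ∃ j : ℕ, (D.powerset.filter fun h => (h.card : ℤ) = a).card ≤
      D.card.choose j := by
    refine ⟨a.toNat, ?_⟩
    rw [← Finset.card_powersetCard]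
    refine Finset.card_le_card fun h hh => ?_
    obtain ⟨h1, h2⟩ := Finset.mem_filter.1 hh
    rw [Finset.mem_powersetCard]
    exact ⟨Finset.mem_powerset.1 h1, by omega⟩
  have h2 : ((D.powerset.filter fun h => (h.card : ℤ) = a).card : ℝ) ≤ (D.card.choose j : ℝ) := by
    exact_mod_cast hj
  have h3 : (D.card : ℝ) * (D.card.choose j : ℝ) ^ 2 ≤ (2 ^ D.card) ^ 2 := by
    have h5 := choose_sq D.card j
    have h4 : ((2 : ℝ) ^ D.card) ^ 2 = 4 ^ D.card := by
      rw [← pow_mul, mul_comm, pow_mul]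
      norm_num
    rw [h4]
    exact_mod_cast h5
  have h4 : Real.sqrt D.card * (D.card.choose j : ℝ) ≤ 2 ^ D.card := by
    refine (pow_le_pow_iff_left₀ (by positivity) (by positivity) two_ne_zero).1 ?_
    rw [mul_pow, Real.sq_sqrt hD0.le]
    exact h3
  rw [le_div_iff₀ (Real.sqrt_pos.2 hD0)]
  calc (1 / 2 : ℝ) ^ D.card * ((D.powerset.filter fun h => (h.card : ℤ) = a).card : ℝ) *
        Real.sqrt D.card
      ≤ (1 / 2 : ℝ) ^ D.card * (D.card.choose j : ℝ) * Real.sqrt D.card :=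
        mul_le_mul_of_nonneg_right (mul_le_mul_of_nonneg_left h2 (by positivity))
          (Real.sqrt_nonneg _)
    _ = (1 / 2 : ℝ) ^ D.card * (Real.sqrt D.card * (D.card.choose j : ℝ)) := by ring
    _ ≤ (1 / 2 : ℝ) ^ D.card * 2 ^ D.card := mul_le_mul_of_nonneg_left h4 (by positivity)
    _ = 1 := by
      rw [← mul_pow]
      norm_num

private theorem peel0 {E κ : Type*} [DecidableEq E] [DecidableEq κ] (D : κ → Finset E)
    {K : ℝ} (hK0 : 0 < K) (c : κ → ℤ) (U : Finset κ) :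
    (∀ u ∈ U, ∀ v ∈ U, u ≠ v → Disjoint (D u) (D v)) → (∀ u ∈ U, K ≤ (D u).card) →
    Ex (fun _ => 1 / 2) (U.biUnion D) (fun β => ∏ u ∈ U, ind (((β ∩ D u).card : ℤ) = c u)) ≤
      (1 / Real.sqrt K) ^ U.card := by
  induction U using Finset.induction_on with
  | empty =>
    intro _ _
    simp [Ex_empty]
  | insert u U hu ih =>
    intro hdis hK
    have ih' := ih (fun v hv w hw => hdis v (mem_insert_of_mem hv) w (mem_insert_of_mem hw))
      (fun v hv => hK v (mem_insert_of_mem hv))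
    have hdU : ∀ v ∈ U, Disjoint (D u) (D v) := fun v hv =>
      hdis u (mem_insert_self u U) v (mem_insert_of_mem hv) (fun h => hu (h ▸ hv))
    have hd : Disjoint (D u) (U.biUnion D) := by
      rw [Finset.disjoint_biUnion_right]
      exact hdU
    have hhalf : ∀ s : Finset E, ∀ e ∈ s, (0 : ℝ) ≤ (fun _ : E => (1 : ℝ) / 2) e ∧
        (fun _ : E => (1 : ℝ) / 2) e ≤ 1 := fun s e _ => by
      constructor <;> norm_num
    rw [biUnion_insert, Ex_union _ hd]
    have e1 : Ex (fun _ => 1 / 2) (D u) (fun α => Ex (fun _ => 1 / 2) (U.biUnion D) (fun β =>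
        ∏ v ∈ insert u U, ind ((((α ∪ β) ∩ D v).card : ℤ) = c v))) =
        Ex (fun _ => 1 / 2) (D u) (fun α => Ex (fun _ => 1 / 2) (U.biUnion D) (fun β =>
          ∏ v ∈ U, ind (((β ∩ D v).card : ℤ) = c v)) * ind ((α.card : ℤ) = c u)) := by
      refine Ex_congr _ _ fun α hα => ?_
      rw [mul_comm, ← Ex_mul_left]
      refine Ex_congr _ _ fun β hβ => ?_
      rw [prod_insert hu]
      have e2 : (α ∪ β) ∩ D u = α := by
        ext x
        simp only [mem_inter, mem_union]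
        constructor
        · rintro ⟨h1 | h1, h2⟩
          · exact h1
          · exact absurd (hβ h1) (Finset.disjoint_left.1 hd h2)
        · exact fun h => ⟨Or.inl h, hα h⟩
      rw [e2]
      congr 1
      refine prod_congr rfl fun v hv => ?_
      have e3 : (α ∪ β) ∩ D v = β ∩ D v := by
        ext x
        simp only [mem_inter, mem_union]
        constructor
        · rintro ⟨h1 | h1, h2⟩
          · exact absurd h2 (Finset.disjoint_left.1 (hdU v hv) (hα h1))
          · exact ⟨h1, h2⟩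
        · exact fun h => ⟨Or.inr h.1, h.2⟩
      rw [e3]
    rw [e1, Ex_mul_left, card_insert_of_notMem hu, pow_succ]
    have hKu := hK u (mem_insert_self u U)
    have hDu : (0 : ℝ) < (D u).card := lt_of_lt_of_le hK0 hKu
    have hne : (D u).Nonempty := by
      rw [← Finset.card_pos]
      exact_mod_cast hDu
    have h1 : Ex (fun _ => 1 / 2) (D u) (fun h => ind ((h.card : ℤ) = c u)) ≤ 1 / Real.sqrt K :=
      (Ex_count (D u) hne (c u)).trans
        (one_div_le_one_div_of_le (Real.sqrt_pos.2 hK0) (Real.sqrt_le_sqrt hKu))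
    exact mul_le_mul ih' h1 (Ex_nonneg (hhalf _) fun _ _ => ind_nonneg _) (by positivity)

theorem Ex_peel {E κ : Type*} [DecidableEq E] [DecidableEq κ] (s : Finset E) (U : Finset κ) (D : κ → Finset E)
    (hDs : ∀ u ∈ U, D u ⊆ s) (hdis : ∀ u ∈ U, ∀ v ∈ U, u ≠ v → Disjoint (D u) (D v)) (F : Finset E → ℝ)
    (a : κ → Finset E → ℤ) (hF : ∀ h ⊆ s, F h ≤ ∏ u ∈ U, ind (((h ∩ D u).card : ℤ) = a u (h \ U.biUnion D)))
    {K : ℝ} (hK0 : 0 < K) (hK : ∀ u ∈ U, K ≤ (D u).card) :
    Ex (fun _ => 1 / 2) s F ≤ (1 / Real.sqrt K) ^ U.card := by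
  have hhalf : ∀ s : Finset E, ∀ e ∈ s, (0 : ℝ) ≤ (fun _ : E => (1 : ℝ) / 2) e ∧
      (fun _ : E => (1 : ℝ) / 2) e ≤ 1 := fun s e _ => by
    constructor <;> norm_num
  have hBs : U.biUnion D ⊆ s := Finset.biUnion_subset.2 hDs
  have hs : s = (s \ U.biUnion D) ∪ U.biUnion D := (Finset.sdiff_union_of_subset hBs).symm
  have hd : Disjoint (s \ U.biUnion D) (U.biUnion D) := Finset.sdiff_disjoint
  rw [hs, Ex_union _ hd]
  refine (Ex_mono (hhalf _) (G := fun _ => (1 / Real.sqrt K) ^ U.card) fun α hα => ?_).trans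
    (le_of_eq (Ex_const _ _ _))
  refine (Ex_mono (hhalf _) fun β hβ => ?_).trans (peel0 D hK0 (fun u => a u α) U hdis hK)
  have hαs : α ⊆ s := hα.trans Finset.sdiff_subset
  refine (hF (α ∪ β) (Finset.union_subset hαs (hβ.trans hBs))).trans (le_of_eq ?_)
  have hαB : Disjoint α (U.biUnion D) := Finset.disjoint_of_subset_left hα hd
  have e1 : (α ∪ β) \ U.biUnion D = α := by
    rw [Finset.union_sdiff_distrib, Finset.sdiff_eq_self_of_disjoint hαB,
      Finset.sdiff_eq_empty_iff_subset.2 hβ, Finset.union_empty]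
  refine prod_congr rfl fun u hu => ?_
  have e2 : (α ∪ β) ∩ D u = β ∩ D u := by
    ext x
    simp only [mem_inter, mem_union]
    constructor
    · rintro ⟨h1 | h1, h2⟩
      · exact absurd (Finset.mem_biUnion.2 ⟨u, hu, h2⟩) (Finset.disjoint_left.1 hαB h1)
      · exact ⟨h1, h2⟩
    · exact fun h => ⟨Or.inr h.1, h.2⟩
  rw [e1, e2]

end PLS
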