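import Pool.Agent.PLS.Cm

/-!
# PLS.Blk: independent blocks

`M` disjoint blocks `B_i`, `i < M`, of `N` vertices of `Fin n` (`φ_i : Fin N ↪ Fin n`, `φ_i x = i N + x`). The event for `Fin n` implies for every `i` that no `S ⊆ B_i` with at least `x` elements is regular; these events depend on the pairs inside `B_i` (`Smo.dep_reg`), disjoint sets, so the probability of all is the product (`PLR.Ex_mul_indep`, induction);
one factor is `1 - P(∃ S ⊆ B_i ..) ≤ 1 - p₀` by transport along `φ_i` (`Ex` over `prs univ` of `Fin N` with `P ∘ Sym2.map φ` equals `Ex` over `prs B_i = (prs univ).map φ` with `P`; `dg` is transported; pairs outside `B_i` do not matter).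
-/

set_option autoImplicit false

namespace PLS

open Finset Smo PLR

theorem Ex_map {E E' : Type*} [DecidableEq E] [DecidableEq E'] (g : E ↪ E') (p : E' → ℝ) (s : Finset E) (F : Finset E' → ℝ) :
    Ex p (s.map g) F = Ex (fun e => p (g e)) s (fun h => F (h.map g)) := by
  induction s using Finset.induction_on generalizing F with
  | empty => rw [Finset.map_empty, Ex_empty, Ex_empty, Finset.map_empty]
  | insert e s he ih =>
    have h1 : g e ∉ s.map g := by
      rw [Finset.mem_map']
      exact he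
    rw [Finset.map_insert, Ex_insert p h1, Ex_insert _ he, ih, ih]
    congr 2
    refine Ex_congr _ s fun α _ => ?_
    rw [Finset.map_insert]

private theorem Blk_dep {E : Type*} [DecidableEq E] {p : E → ℝ} {s B : Finset E} (hB : B ⊆ s) {F : Finset E → ℝ}
    (hF : Dep B F) : Ex p s F = Ex p B F := by
  have hs : B ∪ (s \ B) = s := Finset.union_sdiff_of_subset hB
  have hd : Disjoint B (s \ B) := Finset.disjoint_sdiff
  have h1 := Ex_union p hd F
  rw [hs] at h1
  rw [h1]
  refine Ex_congr p B fun α hα => ?_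
  have h2 : ∀ β ⊆ s \ B, F (α ∪ β) = F α := by
    intro β hβ
    rw [hF (α ∪ β)]
    congr 1
    ext x
    rw [Finset.mem_inter, Finset.mem_union]
    constructor
    · rintro ⟨h | h, h'⟩
      · exact h
      · exact absurd h' (Finset.mem_sdiff.1 (hβ h)).2
    · exact fun h => ⟨Or.inl h, hα h⟩
  rw [Ex_congr p _ h2, Ex_const]

/-- the block event -/
private def BlkR {V : Type*} [DecidableEq V] (x : ℝ) (B : Finset V) (ω : Finset (Sym2 V)) : Prop :=
  ∃ S : Finset V, S ⊆ B ∧ x ≤ S.card ∧ Reg ω S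

private theorem Blk_reg {V : Type*} [DecidableEq V] {B S : Finset V} (h : S ⊆ B) (ω : Finset (Sym2 V)) :
    Reg ω S ↔ Reg (ω ∩ prs B) S := by
  have h1 : ∀ v ∈ S, dg (ω ∩ prs B) S v = dg ω S v := by
    intro v hv
    unfold dg
    congr 1
    ext u
    rw [mem_nb, mem_nb, mem_inter, mem_prs]
    constructor
    · exact fun h => ⟨h.1, h.2.1, h.2.2.1⟩
    · exact fun h' => ⟨h'.1, h'.2.1, h'.2.2, h hv, h h'.1, h'.2.1.symm⟩
  unfold Reg
  constructor
  · rintro ⟨k, hk⟩
    exact ⟨k, fun v hv => (h1 v hv).trans (hk v hv)⟩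
  · rintro ⟨k, hk⟩
    exact ⟨k, fun v hv => (h1 v hv).symm.trans (hk v hv)⟩

private theorem Blk_depR {V : Type*} [DecidableEq V] (x : ℝ) (B : Finset V) : ∀ ω, BlkR x B ω ↔ BlkR x B (ω ∩ prs B) := by
  intro ω
  unfold BlkR
  constructor
  · rintro ⟨S, h1, h2, h3⟩
    exact ⟨S, h1, h2, (Blk_reg h1 ω).1 h3⟩
  · rintro ⟨S, h1, h2, h3⟩
    exact ⟨S, h1, h2, (Blk_reg h1 ω).2 h3⟩

private theorem Blk_ind_congr {P Q : Prop} (h : P ↔ Q) : ind P = ind Q := by
  by_cases hP : P
  · rw [ind_of hP, ind_of (h.1 hP)]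
  · rw [ind_not hP, ind_not fun hQ => hP (h.2 hQ)]

/-- one block -/
private theorem Blk_one {n N : ℕ} {P : Sym2 (Fin n) → ℝ} (hP : ∀ e ∈ prs (univ : Finset (Fin n)), 0 ≤ P e ∧ P e ≤ 1)
    {p₀ x : ℝ} (φ : Fin N ↪ Fin n)
    (h1 : p₀ ≤ Ex (fun e => P (Sym2.map φ e)) (prs (univ : Finset (Fin N)))
      (fun ω => ind (∃ S : Finset (Fin N), x ≤ S.card ∧ Reg ω S))) :
    p₀ ≤ Ex P (prs univ) (fun ω => ind (BlkR x (univ.map φ) ω)) := by
  have hdep : Dep (prs (univ.map φ)) (fun ω => ind (BlkR x (univ.map φ) ω)) := fun ω =>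
    Blk_ind_congr (Blk_depR x _ ω)
  have hsub : prs (univ.map φ) ⊆ prs (univ : Finset (Fin n)) := by
    intro e he
    induction e using Sym2.ind with
    | _ a b =>
      rw [mem_prs] at he ⊢
      exact ⟨mem_univ _, mem_univ _, he.2.2⟩
  have hmap : prs (univ.map φ) = (prs (univ : Finset (Fin N))).map φ.sym2Map := by
    ext e
    rw [Finset.mem_map]
    constructor
    · intro he
      induction e using Sym2.ind with
      | _ a b =>
        rw [mem_prs, Finset.mem_map, Finset.mem_map] at he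
        obtain ⟨⟨a', _, rfl⟩, ⟨b', _, rfl⟩, hab⟩ := he
        exact ⟨s(a', b'), mem_prs.2 ⟨mem_univ _, mem_univ _, fun h => hab (by rw [h])⟩, rfl⟩
    · rintro ⟨e', he', rfl⟩
      induction e' using Sym2.ind with
      | _ a b =>
        rw [mem_prs] at he'
        change s(φ a, φ b) ∈ _
        rw [mem_prs, Finset.mem_map, Finset.mem_map]
        exact ⟨⟨a, mem_univ _, rfl⟩, ⟨b, mem_univ _, rfl⟩, fun h => he'.2.2 (φ.injective h)⟩
  rw [Blk_dep hsub hdep, hmap, Ex_map]
  refine h1.trans ?_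
  have hP' : ∀ e ∈ prs (univ : Finset (Fin N)), 0 ≤ P (φ.sym2Map e) ∧ P (φ.sym2Map e) ≤ 1 := by
    intro e he
    refine hP _ (hsub ?_)
    rw [hmap]
    exact Finset.mem_map_of_mem _ he
  refine Ex_mono (p := fun e => P (φ.sym2Map e)) hP' fun ω _ => ?_
  by_cases hex : ∃ S : Finset (Fin N), x ≤ S.card ∧ Reg ω S
  · rw [ind_of hex]
    obtain ⟨S, hS1, hS2⟩ := hex
    have hR : BlkR x (univ.map φ) (ω.map φ.sym2Map) := by
      refine ⟨S.map φ, Finset.map_subset_map.2 (subset_univ _), by rwa [Finset.card_map], ?_⟩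
      obtain ⟨k, hk⟩ := hS2
      refine ⟨k, fun v hv => ?_⟩
      rw [Finset.mem_map] at hv
      obtain ⟨v', hv', rfl⟩ := hv
      rw [← hk v' hv']
      unfold dg
      rw [← Finset.card_map φ]
      congr 1
      ext u
      constructor
      · intro hu
        rw [mem_nb] at hu
        obtain ⟨h2, h3, h4⟩ := hu
        obtain ⟨u', hu', rfl⟩ := Finset.mem_map.1 h2
        refine Finset.mem_map.2 ⟨u', mem_nb.2 ⟨hu', fun h => h3 (by rw [h]), ?_⟩, rfl⟩
        have h5 : s(φ v', φ u') = φ.sym2Map s(v', u') := rfl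
        rw [h5, Finset.mem_map'] at h4
        exact h4
      · intro hu
        obtain ⟨u', hu', rfl⟩ := Finset.mem_map.1 hu
        rw [mem_nb] at hu' ⊢
        refine ⟨Finset.mem_map_of_mem _ hu'.1, fun h => hu'.2.1 (φ.injective h), ?_⟩
        have h5 : s(φ v', φ u') = φ.sym2Map s(v', u') := rfl
        rw [h5, Finset.mem_map']
        exact hu'.2.2
    rw [ind_of hR]
  · rw [ind_not hex]
    by_cases hR : BlkR x (univ.map φ) (ω.map φ.sym2Map)
    · rw [ind_of hR]
      exact zero_le_one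
    · rw [ind_not hR]

theorem blocks {n N M : ℕ} (h : M * N ≤ n) {P : Sym2 (Fin n) → ℝ} (hP : ∀ e ∈ prs (univ : Finset (Fin n)), 0 ≤ P e ∧ P e ≤ 1)
    {p₀ x : ℝ} (hp₀ : 0 ≤ p₀) (hp₁ : p₀ ≤ 1)
    (h1 : ∀ φ : Fin N ↪ Fin n, p₀ ≤ Ex (fun e => P (Sym2.map φ e)) (prs (univ : Finset (Fin N)))
      (fun ω => ind (∃ S : Finset (Fin N), x ≤ S.card ∧ Reg ω S))) :
    Ex P (prs univ) (fun ω => ind (∀ S : Finset (Fin n), x ≤ S.card → ¬ Reg ω S)) ≤ (1 - p₀) ^ M := by
  classical
  -- the embeddings
  have hlt : ∀ i : Fin M, ∀ y : Fin N, i.val * N + y.val < n := by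
    intro i y
    have h2 : (i.val + 1) * N ≤ M * N := Nat.mul_le_mul_right N i.isLt
    have h3 : (i.val + 1) * N = i.val * N + N := by ring
    have := y.isLt
    omega
  let φ : Fin M → (Fin N ↪ Fin n) := fun i =>
    ⟨fun y => ⟨i.val * N + y.val, hlt i y⟩, fun y y' hy => by
      have := congrArg Fin.val hy
      simp only at this
      exact Fin.ext (by omega)⟩
  have hdisj : ∀ i j : Fin M, i ≠ j → ∀ v, v ∈ univ.map (φ i) → v ∉ univ.map (φ j) := by
    intro i j hij v hv hv'
    rw [Finset.mem_map] at hv hv'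
    obtain ⟨y, _, rfl⟩ := hv
    obtain ⟨y', _, hy'⟩ := hv'
    have h4 : j.val * N + y'.val = i.val * N + y.val := congrArg Fin.val hy'
    have hy1 := y.isLt
    have hy2 := y'.isLt
    have h5 : i.val = j.val := by
      rcases Nat.lt_trichotomy i.val j.val with h6 | h6 | h6
      · have : (i.val + 1) * N ≤ j.val * N := Nat.mul_le_mul_right N h6
        have h7 : (i.val + 1) * N = i.val * N + N := by ring
        omega
      · exact h6
      · have : (j.val + 1) * N ≤ i.val * N := Nat.mul_le_mul_right N h6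
        have h7 : (j.val + 1) * N = j.val * N + N := by ring
        omega
    exact hij (Fin.ext h5)
  let B : Fin M → Finset (Fin n) := fun i => univ.map (φ i)
  have hone : ∀ i, Ex P (prs univ) (fun ω => ind (¬ BlkR x (B i) ω)) ≤ 1 - p₀ := by
    intro i
    have h2 := Blk_one hP (φ i) (h1 (φ i))
    have h3 : Ex P (prs univ) (fun ω => ind (¬ BlkR x (B i) ω)) +
        Ex P (prs univ) (fun ω => ind (BlkR x (B i) ω)) = 1 := by
      rw [← Ex_add]
      have h4 : ∀ ω ⊆ prs (univ : Finset (Fin n)), ind (¬ BlkR x (B i) ω) + ind (BlkR x (B i) ω) = 1 := by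
        intro ω _
        by_cases hR : BlkR x (B i) ω
        · rw [ind_of hR, ind_not (not_not_intro hR), zero_add]
        · rw [ind_not hR, ind_of hR, add_zero]
      rw [Ex_congr _ _ h4, Ex_one]
    have h5 : p₀ ≤ Ex P (prs univ) (fun ω => ind (BlkR x (B i) ω)) := h2
    linarith
  have hnn : ∀ i, 0 ≤ Ex P (prs univ) (fun ω => ind (¬ BlkR x (B i) ω)) := fun i =>
    Ex_nonneg hP fun ω _ => by
      by_cases hR : ¬ BlkR x (B i) ω
      · rw [ind_of hR]
        exact zero_le_one
      · rw [ind_not hR]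
  have hdepi : ∀ i, Dep (prs (B i)) (fun ω => ind (¬ BlkR x (B i) ω)) := fun i ω =>
    Blk_ind_congr (not_congr (Blk_depR x _ ω))
  have hprod : ∀ s : Finset (Fin M), Dep (s.biUnion fun i => prs (B i)) (fun ω => ∏ i ∈ s, ind (¬ BlkR x (B i) ω)) ∧
      Ex P (prs univ) (fun ω => ∏ i ∈ s, ind (¬ BlkR x (B i) ω)) =
        ∏ i ∈ s, Ex P (prs univ) (fun ω => ind (¬ BlkR x (B i) ω)) := by
    intro s
    induction s using Finset.induction_on with
    | empty =>
      refine ⟨fun ω => rfl, ?_⟩
      simp only [Finset.prod_empty]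
      exact Ex_one _ _
    | insert i s hi ih =>
      have hd1 : ∀ ω, ind (¬ BlkR x (B i) ω) = ind (¬ BlkR x (B i) (ω ∩ prs (B i))) := hdepi i
      constructor
      · intro ω
        simp only [Finset.prod_insert hi]
        have e1 : ind (¬ BlkR x (B i) ω) = ind (¬ BlkR x (B i) (ω ∩ (insert i s).biUnion fun i => prs (B i))) := by
          rw [hd1 ω, hd1 (ω ∩ (insert i s).biUnion fun i => prs (B i))]
          congr 3
          ext e
          simp only [Finset.mem_inter, Finset.mem_biUnion, Finset.mem_insert]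
          constructor
          · rintro ⟨h2, h3⟩
            exact ⟨⟨h2, i, Or.inl rfl, h3⟩, h3⟩
          · rintro ⟨⟨h2, _⟩, h3⟩
            exact ⟨h2, h3⟩
        have e2 : ∏ j ∈ s, ind (¬ BlkR x (B j) ω) =
            ∏ j ∈ s, ind (¬ BlkR x (B j) (ω ∩ (insert i s).biUnion fun i => prs (B i))) := by
          have g1 := ih.1 ω
          have g2 := ih.1 (ω ∩ (insert i s).biUnion fun i => prs (B i))
          simp only at g1 g2
          rw [g1, g2]
          have g3 : ω ∩ (s.biUnion fun i => prs (B i)) =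
              (ω ∩ (insert i s).biUnion fun i => prs (B i)) ∩ (s.biUnion fun i => prs (B i)) := by
            ext e
            simp only [Finset.mem_inter, Finset.mem_biUnion, Finset.mem_insert]
            constructor
            · rintro ⟨h2, j, h3, h4⟩
              exact ⟨⟨h2, j, Or.inr h3, h4⟩, j, h3, h4⟩
            · rintro ⟨⟨h2, _⟩, h3⟩
              exact ⟨h2, h3⟩
          rw [g3]
        rw [e1, e2]
      · simp only [Finset.prod_insert hi]
        rw [← ih.2]
        refine Ex_mul_indep (hdepi i) ih.1 ?_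
        ext e
        simp only [Finset.mem_inter, Finset.mem_biUnion, Finset.notMem_empty, iff_false]
        rintro ⟨h2, j, hj, h3⟩
        have hij : i ≠ j := fun h => hi (h ▸ hj)
        induction e using Sym2.ind with
        | _ a b =>
          rw [mem_prs] at h2 h3
          exact hdisj i j hij a h2.1 h3.1
  have hle : Ex P (prs univ) (fun ω => ind (∀ S : Finset (Fin n), x ≤ S.card → ¬ Reg ω S)) ≤
      Ex P (prs univ) (fun ω => ∏ i ∈ (univ : Finset (Fin M)), ind (¬ BlkR x (B i) ω)) := by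
    refine Ex_mono hP fun ω _ => ?_
    by_cases hall : ∀ S : Finset (Fin n), x ≤ S.card → ¬ Reg ω S
    · rw [ind_of hall]
      have : ∀ i ∈ (univ : Finset (Fin M)), ind (¬ BlkR x (B i) ω) = 1 := by
        intro i _
        refine ind_of ?_
        rintro ⟨S, _, h2, h3⟩
        exact hall S h2 h3
      rw [Finset.prod_congr rfl this, Finset.prod_const_one]
    · rw [ind_not hall]
      refine Finset.prod_nonneg fun i _ => ?_
      by_cases hR : ¬ BlkR x (B i) ω
      · rw [ind_of hR]
        exact zero_le_one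
      · rw [ind_not hR]
  refine hle.trans ?_
  rw [(hprod univ).2]
  refine (Finset.prod_le_prod (fun i _ => hnn i) fun i _ => hone i).trans ?_
  rw [Finset.prod_const, Finset.card_univ, Fintype.card_fin]

end PLS
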