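import Pool.Agent.PLS.Defs
import Pool.Agent.PLR.PairM

/-!
# PLS.Cm: product formulas for `Ex`

`Ex_union`: induction on `t` from `Ex_insert`. `Ex_two`: `s = (s ∩ K) ∪ (s \ K)`, `K = B ∩ B'`; given `A ⊆ s ∩ K` the functions `F (A ∪ ·)`, `F' (A ∪ ·)` on `s \ K` depend on disjoint sets (`PLR.Ex_mul_indep`). `Ex_tilt`: induction on `D` or expand as a product (`Finset.prod_add`-like; each factor is
`(1/2)((1+τ)(1+τ') + (1-τ)(1-τ')) = 1 + τ τ'`).
-/

set_option autoImplicit false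

namespace PLS

open Finset Smo PLR

theorem Ex_union {E : Type*} [DecidableEq E] (p : E → ℝ) {s t : Finset E} (hst : Disjoint s t) (F : Finset E → ℝ) :
    Ex p (s ∪ t) F = Ex p s (fun α => Ex p t (fun β => F (α ∪ β))) := by
  induction s using Finset.induction_on generalizing F with
  | empty =>
    rw [Ex_empty, empty_union]
    exact Ex_congr p t fun β _ => by rw [empty_union]
  | insert e s he ih =>
    rw [disjoint_insert_left] at hst
    have h1 : e ∉ s ∪ t := fun h => (mem_union.1 h).elim he hst.1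
    rw [insert_union, Ex_insert p h1, Ex_insert p he, ih hst.2, ih hst.2]
    congr 2
    refine Ex_congr p s fun α _ => Ex_congr p t fun β _ => ?_
    rw [insert_union]

theorem Ex_two {V : Type*} [DecidableEq V] {p : Sym2 V → ℝ} {s B B' : Finset (Sym2 V)} {F F' : Finset (Sym2 V) → ℝ}
    (hF : Dep B F) (hF' : Dep B' F') :
    Ex p s (fun h => F h * F' h) = Ex p ((B ∩ B') ∩ s) (fun A =>
      Ex p (s \ (B ∩ B')) (fun h => F (A ∪ h)) * Ex p (s \ (B ∩ B')) (fun h => F' (A ∪ h))) := by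
  have hs : ((B ∩ B') ∩ s) ∪ (s \ (B ∩ B')) = s := by
    ext x
    simp only [mem_union, mem_inter, mem_sdiff]
    tauto
  have hd : Disjoint ((B ∩ B') ∩ s) (s \ (B ∩ B')) := by
    rw [disjoint_left]
    intro x hx hx'
    exact (mem_sdiff.1 hx').2 (mem_inter.1 hx).1
  have h1 := Ex_union p hd (fun h => F h * F' h)
  rw [hs] at h1
  rw [h1]
  refine Ex_congr p _ fun A hA => ?_
  have hdep : ∀ (C : Finset (Sym2 V)) (G : Finset (Sym2 V) → ℝ), Dep C G →
      Dep (C \ (B ∩ B')) (fun h => G (A ∪ (h \ (B ∩ B')))) := by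
    intro C G hG h
    show G (A ∪ (h \ (B ∩ B'))) = G (A ∪ ((h ∩ (C \ (B ∩ B'))) \ (B ∩ B')))
    rw [hG (A ∪ (h \ (B ∩ B'))), hG (A ∪ ((h ∩ (C \ (B ∩ B'))) \ (B ∩ B')))]
    congr 1
    ext x
    simp only [mem_union, mem_inter, mem_sdiff]
    tauto
  have hsub : ∀ h ⊆ s \ (B ∩ B'), h \ (B ∩ B') = h := by
    intro h hh
    ext x
    rw [mem_sdiff]
    exact ⟨fun hx => hx.1, fun hx => ⟨hx, (mem_sdiff.1 (hh hx)).2⟩⟩
  have hemp : (B \ (B ∩ B')) ∩ (B' \ (B ∩ B')) = ∅ := by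
    ext x
    simp only [mem_inter, mem_sdiff, notMem_empty, iff_false]
    tauto
  have h2 := Ex_mul_indep (p := p) (s := s \ (B ∩ B')) (hdep B F hF) (hdep B' F' hF') hemp
  have h3 : Ex p (s \ (B ∩ B')) (fun h => F (A ∪ (h \ (B ∩ B')))) =
      Ex p (s \ (B ∩ B')) (fun h => F (A ∪ h)) :=
    Ex_congr p _ fun h hh => by rw [hsub h hh]
  have h4 : Ex p (s \ (B ∩ B')) (fun h => F' (A ∪ (h \ (B ∩ B')))) =
      Ex p (s \ (B ∩ B')) (fun h => F' (A ∪ h)) :=
    Ex_congr p _ fun h hh => by rw [hsub h hh]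
  have h5 : Ex p (s \ (B ∩ B')) (fun h => F (A ∪ (h \ (B ∩ B'))) * F' (A ∪ (h \ (B ∩ B')))) =
      Ex p (s \ (B ∩ B')) (fun h => F (A ∪ h) * F' (A ∪ h)) :=
    Ex_congr p _ fun h hh => by rw [hsub h hh]
  rw [h3, h4, h5] at h2
  exact h2

theorem Ex_tilt {E : Type*} [DecidableEq E] (D : Finset E) (τ τ' : E → ℝ) :
    Ex (fun _ => 1 / 2) D (fun A => (∏ e ∈ D, (if e ∈ A then 1 + τ e else 1 - τ e)) *
      ∏ e ∈ D, (if e ∈ A then 1 + τ' e else 1 - τ' e)) = ∏ e ∈ D, (1 + τ e * τ' e) := by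
  induction D using Finset.induction_on with
  | empty => simp [Ex_empty]
  | insert e D he ih =>
    have h1 : ∀ (σ : E → ℝ), ∀ A ⊆ D, ∏ x ∈ insert e D, (if x ∈ A then 1 + σ x else 1 - σ x) =
        (1 - σ e) * ∏ x ∈ D, (if x ∈ A then 1 + σ x else 1 - σ x) := by
      intro σ A hA
      rw [prod_insert he, if_neg fun h => he (hA h)]
    have h2 : ∀ (σ : E → ℝ), ∀ A ⊆ D,
        ∏ x ∈ insert e D, (if x ∈ insert e A then 1 + σ x else 1 - σ x) =
        (1 + σ e) * ∏ x ∈ D, (if x ∈ A then 1 + σ x else 1 - σ x) := by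
      intro σ A hA
      rw [prod_insert he, if_pos (mem_insert_self e A)]
      congr 1
      refine prod_congr rfl fun x hx => ?_
      have hxe : x ≠ e := fun h => he (h ▸ hx)
      simp only [mem_insert, hxe, false_or]
    rw [Ex_insert _ he, prod_insert he, ← ih]
    have h3 : Ex (fun _ => 1 / 2) D (fun A =>
        (∏ x ∈ insert e D, (if x ∈ A then 1 + τ x else 1 - τ x)) *
        ∏ x ∈ insert e D, (if x ∈ A then 1 + τ' x else 1 - τ' x)) =
        ((1 - τ e) * (1 - τ' e)) * Ex (fun _ => 1 / 2) D (fun A =>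
        (∏ x ∈ D, (if x ∈ A then 1 + τ x else 1 - τ x)) *
        ∏ x ∈ D, (if x ∈ A then 1 + τ' x else 1 - τ' x)) := by
      rw [← Ex_mul_left]
      refine Ex_congr _ _ fun A hA => ?_
      rw [h1 τ A hA, h1 τ' A hA]
      ring
    have h4 : Ex (fun _ => 1 / 2) D (fun A =>
        (∏ x ∈ insert e D, (if x ∈ insert e A then 1 + τ x else 1 - τ x)) *
        ∏ x ∈ insert e D, (if x ∈ insert e A then 1 + τ' x else 1 - τ' x)) =
        ((1 + τ e) * (1 + τ' e)) * Ex (fun _ => 1 / 2) D (fun A =>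
        (∏ x ∈ D, (if x ∈ A then 1 + τ x else 1 - τ x)) *
        ∏ x ∈ D, (if x ∈ A then 1 + τ' x else 1 - τ' x)) := by
      rw [← Ex_mul_left]
      refine Ex_congr _ _ fun A hA => ?_
      rw [h2 τ A hA, h2 τ' A hA]
      ring
    rw [h3, h4]
    ring

end PLS
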