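import Pool.Agent.PLS.Anti

/-!
# PLS.Ext: given the coins inside `T`, the vertices outside `T` pay `1/√(δ|T|)` each

`U = {v ∈ S \ T : δ |T| ≤ #{u ∈ T : s(v,u) ∈ r}}`; `|(S \ T) \ U| < L` by `DenseR` for `A = (S \ T) \ U` and `T` (otherwise `δ |A||T| ≤ |btw r A T| = ∑_(v in A) #{..} < δ |A||T|`). `D v = {s(v,u) : u ∈ T} ∩ r` for `v ∈ U`: disjoint, contained in `r \ prs T`. If `dg (c ∪ (A ∪ h)) S v = k` then
`|h ∩ D v| = k - (number of u ∈ S.erase v with s(v,u) ∈ c ∪ A ∪ (h \ ⋃ D) ...)`: for `v ∈ U`, `u ∈ T`: `s(v,u) ∈ c ∪ A ∪ h` iff in `c` or in `h ∩ D v` (`h ⊆ r`, `c`, `r` disjoint, `A ⊆ prs T`); for `u ∈ S \ T` the pair is in no `D w`. `Ex_peel` with `K = δ |T|`; `U.card ≥ |S| - |T| - L`, `1/√K ≤ 1`.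
-/

set_option autoImplicit false

namespace PLS

open Finset Smo PLR

theorem ext_bound {V : Type*} [DecidableEq V] {c r : Finset (Sym2 V)} (hd : Disjoint c r) (hnd : ∀ e ∈ c ∪ r, ¬ e.IsDiag)
    {δ : ℝ} {L : ℕ} (hD : DenseR δ L r) {S T : Finset V} (hT : T ⊆ S) (hTL : L ≤ T.card) (hT1 : 1 ≤ δ * T.card) (k : ℕ)
    {A : Finset (Sym2 V)} (hA : A ⊆ prs T ∩ r) :
    Ex (fun _ => 1 / 2) (r \ prs T) (fun h => ind (∀ v ∈ S, dg (c ∪ (A ∪ h)) S v = k)) ≤
      (1 / Real.sqrt (δ * T.card)) ^ (S.card - T.card - L) := by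
  let nT : V → Finset V := fun v => T.filter fun u => s(v, u) ∈ r
  let D : V → Finset (Sym2 V) := fun v => (nT v).image fun u => s(v, u)
  let U : Finset V := (S \ T).filter fun v => δ * T.card ≤ (nT v).card
  have hinj : ∀ v : V, Function.Injective fun u => s(v, u) := fun v a b h => Sym2.congr_right.1 h
  have hDc : ∀ v, (D v).card = (nT v).card := fun v => card_image_of_injective _ (hinj v)
  have hUS : ∀ v ∈ U, v ∈ S ∧ v ∉ T := fun v hv => mem_sdiff.1 (mem_filter.1 hv).1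
  have hmD : ∀ v e, e ∈ D v ↔ ∃ u ∈ T, s(v, u) ∈ r ∧ s(v, u) = e := by
    intro v e
    simp only [D, nT, mem_image, mem_filter]
    constructor
    · rintro ⟨u, ⟨h1, h2⟩, h3⟩
      exact ⟨u, h1, h2, h3⟩
    · rintro ⟨u, h1, h2, h3⟩
      exact ⟨u, ⟨h1, h2⟩, h3⟩
  have hDs : ∀ v ∈ U, D v ⊆ r \ prs T := by
    intro v hv e he
    obtain ⟨u, hu, hr, rfl⟩ := (hmD v e).1 he
    rw [mem_sdiff, mem_prs]
    exact ⟨hr, fun h => (hUS v hv).2 h.1⟩
  have hdis : ∀ u ∈ U, ∀ v ∈ U, u ≠ v → Disjoint (D u) (D v) := by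
    intro v hv w hw hvw
    rw [disjoint_left]
    intro e he he'
    obtain ⟨u, hu, -, rfl⟩ := (hmD v e).1 he
    obtain ⟨u', hu', -, h⟩ := (hmD w _).1 he'
    rcases Sym2.eq_iff.1 h with ⟨h1, -⟩ | ⟨h1, -⟩
    · exact hvw h1.symm
    · exact (hUS w hw).2 (by rw [h1]; exact hu)
  have key : ∀ h ⊆ r \ prs T, ∀ v ∈ U, dg (c ∪ (A ∪ h)) S v =
      dg (c ∪ (A ∪ (h \ U.biUnion D))) S v + (h ∩ D v).card := by
    intro h hh v hv
    obtain ⟨hvS, hvT⟩ := hUS v hv
    have hr : ∀ e ∈ h, e ∈ r := fun e he => (mem_sdiff.1 (hh he)).1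
    have h1 : nb (c ∪ (A ∪ h)) S v =
        nb (c ∪ (A ∪ (h \ U.biUnion D))) S v ∪ nb (h ∩ D v) S v := by
      ext u
      rw [mem_union, mem_nb, mem_nb, mem_nb, mem_union, mem_union, mem_union, mem_union, mem_sdiff,
        mem_inter]
      constructor
      · rintro ⟨hu, huv, h1 | h1 | h1⟩
        · exact Or.inl ⟨hu, huv, Or.inl h1⟩
        · exact Or.inl ⟨hu, huv, Or.inr (Or.inl h1)⟩
        · by_cases huT : u ∈ T
          · exact Or.inr ⟨hu, huv, h1, (hmD _ _).2 ⟨u, huT, hr _ h1, rfl⟩⟩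
          · refine Or.inl ⟨hu, huv, Or.inr (Or.inr ⟨h1, fun h2 => ?_⟩)⟩
            obtain ⟨w, hw, hwD⟩ := mem_biUnion.1 h2
            obtain ⟨u', hu', -, h3⟩ := (hmD w _).1 hwD
            rcases Sym2.eq_iff.1 h3 with ⟨-, h4⟩ | ⟨-, h4⟩
            · exact huT (by rw [← h4]; exact hu')
            · exact hvT (by rw [← h4]; exact hu')
      · rintro (⟨hu, huv, h1 | h1 | h1⟩ | ⟨hu, huv, h1⟩)
        · exact ⟨hu, huv, Or.inl h1⟩
        · exact ⟨hu, huv, Or.inr (Or.inl h1)⟩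
        · exact ⟨hu, huv, Or.inr (Or.inr h1.1)⟩
        · exact ⟨hu, huv, Or.inr (Or.inr h1.1)⟩
    have h2 : Disjoint (nb (c ∪ (A ∪ (h \ U.biUnion D))) S v) (nb (h ∩ D v) S v) := by
      rw [disjoint_left]
      intro u hu hu'
      rw [mem_nb, mem_union, mem_union, mem_sdiff] at hu
      rw [mem_nb, mem_inter] at hu'
      rcases hu.2.2 with h3 | h3 | h3
      · exact disjoint_left.1 hd h3 (hr _ hu'.2.2.1)
      · exact hvT (mem_prs.1 (mem_inter.1 (hA h3)).1).1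
      · exact h3.2 (mem_biUnion.2 ⟨v, hv, hu'.2.2.2⟩)
    have h3 : (nb (h ∩ D v) S v).image (fun u => s(v, u)) = h ∩ D v := by
      ext e
      rw [mem_image]
      constructor
      · rintro ⟨u, hu, rfl⟩
        exact (mem_nb.1 hu).2.2
      · intro he
        obtain ⟨u, hu, h4, rfl⟩ := (hmD v e).1 (mem_inter.1 he).2
        exact ⟨u, mem_nb.2 ⟨hT hu, fun h5 => hvT (by rw [← h5]; exact hu), he⟩, rfl⟩
    have h4 : (nb (h ∩ D v) S v).card = (h ∩ D v).card := by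
      rw [← card_image_of_injective _ (hinj v), h3]
    unfold dg
    rw [h1, card_union_of_disjoint h2, h4]
  have hUc : S.card - T.card - L ≤ U.card := by
    let A' : Finset V := (S \ T).filter fun v => ¬ δ * T.card ≤ (nT v).card
    have h1 : U.card + A'.card = (S \ T).card := card_filter_add_card_filter_not _
    have h2 : (S \ T).card = S.card - T.card := card_sdiff_of_subset hT
    have h3 : A'.card ≤ L := by
      by_contra hcon
      push Not at hcon
      have hdAT : Disjoint A' T := by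
        rw [disjoint_left]
        intro v hv
        exact (mem_sdiff.1 (mem_filter.1 hv).1).2
      have h4 := hD A' T hdAT hcon.le hTL
      have h5 : btw r A' T ⊆ A'.biUnion D := by
        intro e he
        unfold PLR.btw at he
        obtain ⟨h6, a, ha, b, hb, rfl⟩ := mem_filter.1 he
        exact mem_biUnion.2 ⟨a, ha, (hmD a _).2 ⟨b, hb, h6, rfl⟩⟩
      have h6 : (btw r A' T).card ≤ ∑ v ∈ A', (nT v).card := by
        refine (card_le_card h5).trans (card_biUnion_le.trans (le_of_eq ?_))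
        exact sum_congr rfl fun v _ => hDc v
      have h7 : ((btw r A' T).card : ℝ) ≤ ∑ v ∈ A', ((nT v).card : ℝ) := by exact_mod_cast h6
      have h8 : ∑ v ∈ A', ((nT v).card : ℝ) < ∑ v ∈ A', (δ * T.card) := by
        refine sum_lt_sum_of_nonempty (card_pos.1 (by omega)) fun v hv => ?_
        exact not_le.1 (mem_filter.1 hv).2
      rw [sum_const, nsmul_eq_mul] at h8
      linarith
    omega
  have hK0 : 0 < δ * T.card := by linarith
  have hF : ∀ h ⊆ r \ prs T, (fun h => ind (∀ v ∈ S, dg (c ∪ (A ∪ h)) S v = k)) h ≤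
      ∏ u ∈ U, ind (((h ∩ D u).card : ℤ) =
        (fun v R => (k : ℤ) - (dg (c ∪ (A ∪ R)) S v : ℤ)) u (h \ U.biUnion D)) := by
    intro h hh
    simp only
    by_cases hk : ∀ v ∈ S, dg (c ∪ (A ∪ h)) S v = k
    · rw [ind_of hk]
      refine le_of_eq (prod_eq_one fun v hv => ind_of ?_).symm
      have h1 := key h hh v hv
      rw [hk v (hUS v hv).1] at h1
      rw [h1]
      push_cast
      ring
    · rw [ind_not hk]
      exact prod_nonneg fun v _ => ind_nonneg _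
  have hK : ∀ v ∈ U, δ * T.card ≤ (D v).card := by
    intro v hv
    rw [hDc]
    exact (mem_filter.1 hv).2
  refine (Ex_peel (r \ prs T) U D hDs hdis (fun h => ind (∀ v ∈ S, dg (c ∪ (A ∪ h)) S v = k))
    (fun v R => (k : ℤ) - (dg (c ∪ (A ∪ R)) S v : ℤ)) hF hK0 hK).trans ?_
  have h1 : 1 / Real.sqrt (δ * T.card) ≤ 1 := by
    rw [div_le_one (Real.sqrt_pos.2 hK0)]
    exact Real.one_le_sqrt.2 hT1
  exact pow_le_pow_of_le_one (by positivity) h1 hUc

end PLS
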