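import Pool.Agent.PLS.PairT
import Pool.Agent.PLS.Ext
import Pool.Agent.PLR.PairM

/-!
# PLS.Large: pairs of sets with a large intersection

`T = S ∩ S'`, `j = |T| ≥ c₂ s`. `PLR.Ex_mul_cond` with `B = prs S`, `B' = prs S'` and `ext_bound` for `S'`: the left side is at most `qS S (1/√(δ j))^(|S'| - j - L)`. `pairT` for `S'`: `1 ≤ exp(C s) √s^|S'| qS S'`. `δ j ≥ β c₂ s`: `(1/√(β c₂ s))^e √s^|S'| = (β c₂)^(-e/2) √s^(|S'| - e)`, `e = |S'| - j - L` (natural subtraction),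
`|S'| - e ≤ j + L` (`√s ≥ 1`), `(β c₂)^(-e/2) ≤ exp(C' s)` as `e ≤ 2 s`.
-/

set_option autoImplicit false

namespace PLS

open Finset Smo PLR

private theorem Large_dep {V : Type*} [DecidableEq V] (c : Finset (Sym2 V)) (S : Finset V) (k : ℕ) :
    Dep (prs S) (fun h => ind (∀ v ∈ S, dg (c ∪ h) S v = k)) := by
  intro ω
  have h1 : ∀ v ∈ S, dg (c ∪ (ω ∩ prs S)) S v = dg (c ∪ ω) S v := by
    intro v hv
    unfold dg
    congr 1
    ext u
    rw [mem_nb, mem_nb, mem_union, mem_union, mem_inter, mem_prs]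
    constructor
    · rintro ⟨a1, a2, a3 | a3⟩
      · exact ⟨a1, a2, Or.inl a3⟩
      · exact ⟨a1, a2, Or.inr a3.1⟩
    · rintro ⟨a1, a2, a3 | a3⟩
      · exact ⟨a1, a2, Or.inl a3⟩
      · exact ⟨a1, a2, Or.inr ⟨a3, hv, a1, a2.symm⟩⟩
  show ind (∀ v ∈ S, dg (c ∪ ω) S v = k) = ind (∀ v ∈ S, dg (c ∪ (ω ∩ prs S)) S v = k)
  congr 1
  apply propext
  exact ⟨fun h v hv => (h1 v hv).trans (h v hv), fun h v hv => (h1 v hv).symm.trans (h v hv)⟩

/-- the numerical inequality -/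
private theorem Large_num {b s δ' : ℝ} (hb : 0 < b) (hb1 : b ≤ 1) (hs : 1 ≤ s) (hδ : b * s ≤ δ') {N j L : ℕ}
    (hN : (N : ℝ) ≤ 2 * s) : (1 / Real.sqrt δ') ^ (N - j - L) * Real.sqrt s ^ N ≤
      Real.exp (2 * Real.log (1 / Real.sqrt b) * s) * Real.sqrt s ^ (j + L) := by
  have hs0 : 0 < s := by linarith
  have hsb : 0 < Real.sqrt b := Real.sqrt_pos.2 hb
  have hss : 1 ≤ Real.sqrt s := Real.one_le_sqrt.2 hs
  have hss0 : 0 < Real.sqrt s := by linarith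
  have h1 : 1 / Real.sqrt δ' ≤ (1 / Real.sqrt b) * (1 / Real.sqrt s) := by
    have h0 : (1 / Real.sqrt b) * (1 / Real.sqrt s) = 1 / Real.sqrt (b * s) := by
      rw [Real.sqrt_mul hb.le, one_div_mul_one_div]
    rw [h0]
    exact one_div_le_one_div_of_le (Real.sqrt_pos.2 (mul_pos hb hs0)) (Real.sqrt_le_sqrt hδ)
  have hB1 : 1 ≤ 1 / Real.sqrt b := by
    rw [le_div_iff₀ hsb, one_mul]
    exact Real.sqrt_le_one.2 hb1
  have hB0 : 0 < 1 / Real.sqrt b := by positivity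
  have hlog : 0 ≤ Real.log (1 / Real.sqrt b) := Real.log_nonneg hB1
  obtain ⟨e, he⟩ : ∃ e, e = N - j - L := ⟨_, rfl⟩
  have heN : e ≤ N := by omega
  have h2 : (1 / Real.sqrt b) ^ e ≤ Real.exp (2 * Real.log (1 / Real.sqrt b) * s) := by
    have h3 : (1 / Real.sqrt b) ^ e = Real.exp (e * Real.log (1 / Real.sqrt b)) := by
      rw [Real.exp_nat_mul, Real.exp_log hB0]
    rw [h3]
    apply Real.exp_le_exp.2
    have h4 : (e : ℝ) ≤ 2 * s := le_trans (by exact_mod_cast heN) hN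
    nlinarith
  have h5 : (1 / Real.sqrt s) ^ e * Real.sqrt s ^ N ≤ Real.sqrt s ^ (j + L) := by
    have h6 : Real.sqrt s ^ N = Real.sqrt s ^ e * Real.sqrt s ^ (N - e) := by
      rw [← pow_add]
      congr 1
      omega
    rw [h6, ← mul_assoc, ← mul_pow, one_div_mul_cancel hss0.ne', one_pow, one_mul]
    exact pow_le_pow_right₀ hss (by omega)
  rw [← he]
  calc (1 / Real.sqrt δ') ^ e * Real.sqrt s ^ N ≤ ((1 / Real.sqrt b) * (1 / Real.sqrt s)) ^ e * Real.sqrt s ^ N :=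
        mul_le_mul_of_nonneg_right (pow_le_pow_left₀ (by positivity) h1 e) (by positivity)
    _ = (1 / Real.sqrt b) ^ e * ((1 / Real.sqrt s) ^ e * Real.sqrt s ^ N) := by rw [mul_pow, mul_assoc]
    _ ≤ _ := mul_le_mul h2 h5 (by positivity) (Real.exp_pos _).le

theorem pair_large (β c₂ : ℝ) (hβ : 0 < β) (hβ1 : β ≤ 1) (hc₂ : 0 < c₂) (hc₂1 : c₂ ≤ 1) : ∃ C η : ℝ, ∃ m₀ : ℕ, 1 ≤ C ∧ 0 < η ∧
    ∀ (V : Type) [DecidableEq V] (c r : Finset (Sym2 V)) (δ s X : ℝ) (L k : ℕ) (S S' : Finset V),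
      Disjoint c r → (∀ e ∈ c ∪ r, ¬ e.IsDiag) → DenseR δ L r → β ≤ δ → Even k → GoodT c r s X β k S → GoodT c r s X β k S' →
      (L : ℝ) ≤ β / 32 * s → (L : ℝ) ≤ c₂ * s → (m₀ : ℝ) ≤ s / 2 → 1 ≤ s → 0 ≤ X → X ≤ η * s → c₂ * s ≤ (S ∩ S').card →
      Ex (fun _ => 1 / 2) r (fun h => ind (∀ v ∈ S, dg (c ∪ h) S v = k) * ind (∀ v ∈ S', dg (c ∪ h) S' v = k)) ≤
        Real.exp (C * s) * Real.sqrt s ^ ((S ∩ S').card + L) * (qS c r k S * qS c r k S') := by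
  obtain ⟨C, η, m₀, hC, hη, hpT⟩ := pairT β hβ hβ1
  have hb : 0 < β * c₂ := mul_pos hβ hc₂
  have hb1 : β * c₂ ≤ 1 := by
    calc β * c₂ ≤ 1 * 1 := mul_le_mul hβ1 hc₂1 hc₂.le zero_le_one
      _ = 1 := one_mul 1
  have hB1 : 1 ≤ 1 / Real.sqrt (β * c₂) := by
    rw [le_div_iff₀ (Real.sqrt_pos.2 hb), one_mul]
    exact Real.sqrt_le_one.2 hb1
  have hlog : 0 ≤ Real.log (1 / Real.sqrt (β * c₂)) := Real.log_nonneg hB1
  refine ⟨C + 2 * Real.log (1 / Real.sqrt (β * c₂)), η, max m₀ ⌈1 / (β * c₂)⌉₊, by linarith, hη, ?_⟩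
  intro V _ c r δ s X L k S S' hd hnd hD hβδ hk hS hS' hL hL2 hm hs hX hXη hj
  have hm1 : (m₀ : ℝ) ≤ s / 2 := le_trans (by exact_mod_cast le_max_left _ _) hm
  have hm2 : 1 / (β * c₂) ≤ s / 2 := by
    have h1 : 1 / (β * c₂) ≤ (⌈1 / (β * c₂)⌉₊ : ℝ) := Nat.le_ceil _
    have h2 : ((⌈1 / (β * c₂)⌉₊ : ℕ) : ℝ) ≤ ((max m₀ ⌈1 / (β * c₂)⌉₊ : ℕ) : ℝ) := by
      exact_mod_cast le_max_right _ _
    linarith
  have hs0 : 0 < s := by linarith
  have hbs : 1 ≤ β * c₂ * s := by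
    rw [div_le_iff₀ hb] at hm2
    nlinarith
  have hδ0 : 0 < δ := by linarith
  have hδj : β * c₂ * s ≤ δ * (S ∩ S').card := by
    have h1 : β * (c₂ * s) ≤ δ * (S ∩ S').card :=
      mul_le_mul hβδ hj (mul_nonneg hc₂.le hs0.le) hδ0.le
    linarith
  have hT := hpT V c r δ s X L k S' hd hnd hD hβδ hk hS' hL hm1 hs hX hXη
  have hp : ∀ e ∈ r, (0 : ℝ) ≤ (fun _ : Sym2 V => (1 : ℝ) / 2) e ∧ (fun _ : Sym2 V => (1 : ℝ) / 2) e ≤ 1 :=
    fun e _ => ⟨by norm_num, by norm_num⟩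
  have hq : ∀ S : Finset V, 0 ≤ qS c r k S := fun S => Ex_nonneg hp fun _ _ => ind_nonneg _
  have hmain := Ex_mul_cond (p := fun _ => 1 / 2) (s := r) (B := prs S) (B' := prs S') hp (Large_dep c S k)
    (Large_dep c S' k) (fun _ => ind_nonneg _) (fun _ => ind_nonneg _)
    (K := (1 / Real.sqrt (δ * (S ∩ S').card)) ^ (S'.card - (S ∩ S').card - L)) (by
      intro A hA
      rw [prs_inter] at hA ⊢
      refine ext_bound hd hnd hD inter_subset_right ?_ (hbs.trans hδj) k hA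
      have h1 : (L : ℝ) ≤ (S ∩ S').card := hL2.trans hj
      exact_mod_cast h1)
  refine hmain.trans ?_
  have hN : (S'.card : ℝ) ≤ 2 * s := hS'.1.2.1
  have hnum := Large_num hb hb1 hs hδj (N := S'.card) (j := (S ∩ S').card) (L := L) hN
  obtain ⟨K, hK⟩ : ∃ K, K = (1 / Real.sqrt (δ * (S ∩ S').card)) ^ (S'.card - (S ∩ S').card - L) := ⟨_, rfl⟩
  have hK0 : 0 ≤ K := by rw [hK]; positivity
  rw [← hK] at hnum ⊢
  have hqS : Ex (fun _ => 1 / 2) r (fun h => ind (∀ v ∈ S, dg (c ∪ h) S v = k)) = qS c r k S := rfl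
  rw [hqS]
  calc qS c r k S * K ≤ qS c r k S * K * (Real.exp (C * s) * Real.sqrt s ^ S'.card * qS c r k S') :=
        le_mul_of_one_le_right (mul_nonneg (hq S) hK0) hT
    _ = (K * Real.sqrt s ^ S'.card) * (Real.exp (C * s) * (qS c r k S * qS c r k S')) := by ring
    _ ≤ (Real.exp (2 * Real.log (1 / Real.sqrt (β * c₂)) * s) * Real.sqrt s ^ ((S ∩ S').card + L)) *
          (Real.exp (C * s) * (qS c r k S * qS c r k S')) :=
        mul_le_mul_of_nonneg_right hnum (mul_nonneg (Real.exp_pos _).le (mul_nonneg (hq S) (hq S')))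
    _ = _ := by
        rw [add_mul, Real.exp_add]
        ring

end PLS
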