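import Pool.Agent.PLS.PairA
import Pool.Agent.PLS.Cm

/-!
# PLS.Small: pairs of sets with a small intersection

`T = S ∩ S'`, `Ex_two` with `B = prs S`, `B' = prs S'` (`prs_inter`; `Dep` as in `PLR.Cond`), `pairA` for `S` and `S'` (tilts `y`, `y'`), `Ex_mono`, `Ex_tilt`: `∏_(e in prs T ∩ r) (1 + tanh tanh') ≤ exp(|prs T| (C X/s)^2)`, `|tanh u| ≤ |u|`, `|sm y e/2| ≤ C X/s`, `|prs T| ≤ |T|^2`.
-/

set_option autoImplicit false

namespace PLS

open Finset Smo PLR

private theorem ps_hasDerivAt_tanh (s : ℝ) : HasDerivAt Real.tanh (1 - Real.tanh s ^ 2) s := by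
  have h : HasDerivAt (fun x => Real.sinh x / Real.cosh x)
      ((Real.cosh s * Real.cosh s - Real.sinh s * Real.sinh s) / Real.cosh s ^ 2) s :=
    (Real.hasDerivAt_sinh s).div (Real.hasDerivAt_cosh s) (Real.cosh_pos s).ne'
  have h2 : Real.tanh = fun x => Real.sinh x / Real.cosh x := by
    funext x
    exact Real.tanh_eq_sinh_div_cosh x
  rw [h2]
  convert h using 1
  have := Real.cosh_pos s
  field_simp

private theorem ps_mono : Monotone fun s : ℝ => s - Real.tanh s := by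
  have hd : ∀ s : ℝ, HasDerivAt (fun s : ℝ => s - Real.tanh s) (1 - (1 - Real.tanh s ^ 2)) s :=
    fun s => (hasDerivAt_id s).sub (ps_hasDerivAt_tanh s)
  refine monotone_of_deriv_nonneg (fun s => (hd s).differentiableAt) fun s => ?_
  rw [(hd s).deriv]
  nlinarith [sq_nonneg (Real.tanh s)]

private theorem ps_abs_tanh (s : ℝ) : |Real.tanh s| ≤ |s| := by
  have h0 : (0 : ℝ) - Real.tanh 0 = 0 := by rw [Real.tanh_zero, sub_zero]
  have hpos : ∀ u : ℝ, 0 ≤ u → |Real.tanh u| ≤ u := by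
    intro u hu
    have h1 := ps_mono hu
    simp only [h0] at h1
    have h2 : 0 ≤ Real.tanh u := by
      rw [Real.tanh_eq_sinh_div_cosh]
      exact div_nonneg (Real.sinh_nonneg_iff.mpr hu) (Real.cosh_pos u).le
    rw [abs_of_nonneg h2]
    linarith
  rcases le_total 0 s with h | h
  · rw [abs_of_nonneg h]
    exact hpos s h
  · have h1 := hpos (-s) (by linarith)
    rw [Real.tanh_neg, abs_neg] at h1
    rw [abs_of_nonpos h]
    exact h1

private theorem ps_dep_ev {V : Type*} [DecidableEq V] (c : Finset (Sym2 V)) (S : Finset V) (k : ℕ) :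
    Dep (prs S) (fun h => ind (∀ v ∈ S, dg (c ∪ h) S v = k)) := by
  intro ω
  have h1 : ∀ v ∈ S, dg (c ∪ (ω ∩ prs S)) S v = dg (c ∪ ω) S v := by
    intro v hv
    unfold dg
    congr 1
    ext u
    rw [mem_nb, mem_nb, mem_union, mem_union, mem_inter, mem_prs]
    constructor
    · rintro ⟨a1, a2, a3 | a3⟩
      · exact ⟨a1, a2, Or.inl a3⟩
      · exact ⟨a1, a2, Or.inr a3.1⟩
    · rintro ⟨a1, a2, a3 | a3⟩
      · exact ⟨a1, a2, Or.inl a3⟩
      · exact ⟨a1, a2, Or.inr ⟨a3, hv, a1, a2.symm⟩⟩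
  show ind (∀ v ∈ S, dg (c ∪ ω) S v = k) = ind (∀ v ∈ S, dg (c ∪ (ω ∩ prs S)) S v = k)
  congr 1
  apply propext
  exact ⟨fun h v hv => (h1 v hv).trans (h v hv), fun h v hv => (h1 v hv).symm.trans (h v hv)⟩

/-- the product of the tilts is nonnegative -/
private theorem ps_prod_nonneg {V : Type*} [DecidableEq V] (D A : Finset (Sym2 V)) (y : V → ℝ) :
    0 ≤ ∏ e ∈ D, (if e ∈ A then 1 + Real.tanh (sm y e / 2) else 1 - Real.tanh (sm y e / 2)) := by
  apply prod_nonneg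
  intro e _
  have h1 := Real.tanh_lt_one (sm y e / 2)
  have h2 := Real.neg_one_lt_tanh (sm y e / 2)
  split_ifs <;> linarith

private theorem ps_tanh_le {V : Type*} {y : V → ℝ} {K : ℝ} (hy : ∀ v, |y v| ≤ K) (e : Sym2 V) :
    |Real.tanh (sm y e / 2)| ≤ K := by
  refine (ps_abs_tanh _).trans ?_
  induction e using Sym2.ind with
  | _ a b =>
    rw [sm_mk, abs_div, abs_of_pos (by norm_num : (0 : ℝ) < 2), div_le_iff₀ (by norm_num)]
    have h1 := abs_add_le (y a) (y b)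
    linarith [hy a, hy b]

theorem pair_small (β : ℝ) (hβ : 0 < β) (hβ1 : β ≤ 1) : ∃ C c₁ η : ℝ, ∃ m₀ : ℕ, 1 ≤ C ∧ 0 < c₁ ∧ 0 < η ∧
    ∀ (V : Type) [DecidableEq V] (c r : Finset (Sym2 V)) (δ s X : ℝ) (L k : ℕ) (S S' : Finset V),
      Disjoint c r → (∀ e ∈ c ∪ r, ¬ e.IsDiag) → DenseR δ L r → β ≤ δ → Even k → GoodS c r s X β k S → GoodS c r s X β k S' →
      (L : ℝ) ≤ β / 32 * s → (m₀ : ℝ) ≤ s / 2 → 1 ≤ s → 0 ≤ X → X ≤ η * s → ((S ∩ S').card : ℝ) ≤ c₁ * s →
      Ex (fun _ => 1 / 2) r (fun h => ind (∀ v ∈ S, dg (c ∪ h) S v = k) * ind (∀ v ∈ S', dg (c ∪ h) S' v = k)) ≤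
        C * Real.exp (C * (S ∩ S').card ^ 2 * (1 + X ^ 2 / s) / s) * (qS c r k S * qS c r k S') := by
  obtain ⟨C, c₁, η, m₀, hC, hc₁, hη, H⟩ := pairA β hβ hβ1
  refine ⟨2 * C ^ 2, c₁, η, m₀, by nlinarith, hc₁, hη, ?_⟩
  intro V _ c r δ s X L k S S' hcr hnd hD hβδ hk hS hS' hL hm hs hX hXs hT
  obtain ⟨y, hy, hA⟩ := H V c r δ s X L k S hcr hnd hD hβδ hk hS hL hm hs hX hXs
  obtain ⟨y', hy', hA'⟩ := H V c r δ s X L k S' hcr hnd hD hβδ hk hS' hL hm hs hX hXs
  have hs0 : 0 < s := by linarith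
  have hC0 : 0 < C := by linarith
  set T : Finset V := S ∩ S' with hTdef
  set j : ℝ := (T.card : ℝ) with hj
  set D : Finset (Sym2 V) := prs T ∩ r with hDdef
  set q : ℝ := qS c r k S with hq
  set q' : ℝ := qS c r k S' with hq'
  have hp : ∀ (s' : Finset (Sym2 V)), ∀ e ∈ s', (0 : ℝ) ≤ (fun _ : Sym2 V => (1 : ℝ) / 2) e ∧
      (fun _ : Sym2 V => (1 : ℝ) / 2) e ≤ 1 := fun _ _ _ => ⟨by norm_num, by norm_num⟩
  have hq0 : 0 ≤ q := Ex_nonneg (hp r) fun _ _ => ind_nonneg _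
  have hq0' : 0 ≤ q' := Ex_nonneg (hp r) fun _ _ => ind_nonneg _
  set K : ℝ := C * Real.exp (C * j ^ 2 / s) with hK
  have hK0 : 0 < K := by positivity
  have h1 := Ex_two (p := fun _ => (1 : ℝ) / 2) (s := r) (ps_dep_ev c S k) (ps_dep_ev c S' k)
  rw [prs_inter, ← hTdef, ← hDdef] at h1
  rw [h1]
  have h2 : Ex (fun _ => (1 : ℝ) / 2) D (fun A =>
      Ex (fun _ => 1 / 2) (r \ prs T) (fun h => ind (∀ v ∈ S, dg (c ∪ (A ∪ h)) S v = k)) *
      Ex (fun _ => 1 / 2) (r \ prs T) (fun h => ind (∀ v ∈ S', dg (c ∪ (A ∪ h)) S' v = k))) ≤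
      Ex (fun _ => (1 : ℝ) / 2) D (fun A => (K * K * (q * q')) *
        ((∏ e ∈ D, (if e ∈ A then 1 + Real.tanh (sm y e / 2) else 1 - Real.tanh (sm y e / 2))) *
          ∏ e ∈ D, (if e ∈ A then 1 + Real.tanh (sm y' e / 2) else 1 - Real.tanh (sm y' e / 2)))) := by
    apply Ex_mono (hp D)
    intro A hAD
    have b1 := hA T inter_subset_left hT A hAD
    have b2 := hA' T inter_subset_right hT A hAD
    have n1 : 0 ≤ Ex (fun _ => (1 : ℝ) / 2) (r \ prs T) (fun h => ind (∀ v ∈ S', dg (c ∪ (A ∪ h)) S' v = k)) :=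
      Ex_nonneg (hp _) fun _ _ => ind_nonneg _
    have n2 := ps_prod_nonneg D A y
    have n3 : 0 ≤ K * (∏ e ∈ D, (if e ∈ A then 1 + Real.tanh (sm y e / 2) else 1 - Real.tanh (sm y e / 2))) * q :=
      mul_nonneg (mul_nonneg hK0.le n2) hq0
    calc _ ≤ (K * (∏ e ∈ D, (if e ∈ A then 1 + Real.tanh (sm y e / 2) else 1 - Real.tanh (sm y e / 2))) * q) *
          (K * (∏ e ∈ D, (if e ∈ A then 1 + Real.tanh (sm y' e / 2) else 1 - Real.tanh (sm y' e / 2))) * q') :=
          mul_le_mul b1 b2 n1 n3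
      _ = _ := by ring
  refine h2.trans ?_
  rw [Ex_mul_left, Ex_tilt D (fun e => Real.tanh (sm y e / 2)) (fun e => Real.tanh (sm y' e / 2))]
  -- the product
  set M : ℝ := C * X / s with hM
  have hM0 : 0 ≤ M := by positivity
  have h3 : ∏ e ∈ D, (1 + Real.tanh (sm y e / 2) * Real.tanh (sm y' e / 2)) ≤ Real.exp (j ^ 2 * M ^ 2) := by
    have h4 : ∏ e ∈ D, (1 + Real.tanh (sm y e / 2) * Real.tanh (sm y' e / 2)) ≤ ∏ _e ∈ D, Real.exp (M ^ 2) := by
      apply prod_le_prod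
      · intro e _
        have a1 := Real.abs_tanh_lt_one (sm y e / 2)
        have a2 := Real.abs_tanh_lt_one (sm y' e / 2)
        have a3 : |Real.tanh (sm y e / 2) * Real.tanh (sm y' e / 2)| ≤ 1 := by
          rw [abs_mul]
          exact mul_le_one₀ a1.le (abs_nonneg _) a2.le
        linarith [(abs_le.mp a3).1]
      · intro e _
        have a1 := ps_tanh_le hy e
        have a2 := ps_tanh_le hy' e
        have a3 : Real.tanh (sm y e / 2) * Real.tanh (sm y' e / 2) ≤ M ^ 2 := by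
          refine (le_abs_self _).trans ?_
          rw [abs_mul, sq]
          exact mul_le_mul a1 a2 (abs_nonneg _) hM0
        have a4 := Real.add_one_le_exp (M ^ 2)
        linarith
    refine h4.trans ?_
    rw [prod_const, ← Real.exp_nat_mul]
    apply Real.exp_le_exp.mpr
    have h5 : (D.card : ℝ) ≤ j ^ 2 := by
      have h6 : D.card ≤ T.card ^ 2 := (card_le_card inter_subset_left).trans (card_prs_le T)
      rw [hj]
      exact_mod_cast h6
    exact mul_le_mul_of_nonneg_right h5 (sq_nonneg M)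
  have hqq : 0 ≤ q * q' := mul_nonneg hq0 hq0'
  calc K * K * (q * q') * ∏ e ∈ D, (1 + Real.tanh (sm y e / 2) * Real.tanh (sm y' e / 2))
      ≤ K * K * (q * q') * Real.exp (j ^ 2 * M ^ 2) :=
        mul_le_mul_of_nonneg_left h3 (mul_nonneg (mul_nonneg hK0.le hK0.le) hqq)
    _ = C ^ 2 * Real.exp (C * j ^ 2 / s + C * j ^ 2 / s + j ^ 2 * M ^ 2) * (q * q') := by
        rw [hK, Real.exp_add, Real.exp_add]
        ring
    _ ≤ 2 * C ^ 2 * Real.exp (2 * C ^ 2 * j ^ 2 * (1 + X ^ 2 / s) / s) * (q * q') := by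
        apply mul_le_mul_of_nonneg_right _ hqq
        apply mul_le_mul _ _ (Real.exp_pos _).le (by positivity)
        · nlinarith [sq_nonneg C]
        · apply Real.exp_le_exp.mpr
          have h7 : C * j ^ 2 / s + C * j ^ 2 / s + j ^ 2 * M ^ 2 = (2 * C * j ^ 2 + C ^ 2 * j ^ 2 * (X ^ 2 / s)) / s := by
            rw [hM]
            field_simp
            ring
          rw [h7]
          apply div_le_div_of_nonneg_right _ hs0.le
          have h8 : 0 ≤ X ^ 2 / s := by positivity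
          have h9 : 0 ≤ j ^ 2 := sq_nonneg j
          have h10 : 2 * C * j ^ 2 ≤ 2 * C ^ 2 * j ^ 2 := by
            apply mul_le_mul_of_nonneg_right _ h9
            nlinarith
          have h11 : 0 ≤ C ^ 2 * j ^ 2 * (X ^ 2 / s) := by positivity
          nlinarith

end PLS
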