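import Pool.Agent.PLS.Gd

/-!
# PLS.ExS: exponential moment of a sum over the intersection

`exp(a (A + B)) ≤ (exp(2aA) + exp(2aB))/2`; by symmetry (`Smo.Ex_comm`) the expectation is at most `E ind(G S) E' exp(2a ∑_(v in S ∩ S') g S v)`, and for fixed `S ⊆ W` with `G S`: `∑_(v in S ∩ S') = ∑_(v in S') (if v ∈ S then g S v else 0)`, `Ex_prod`: `∏_(v in W) (1 + f v (exp(2a g) - 1)) ≤ exp(∑_(v in S) f v (exp(2 a g) - 1)) ≤ exp(h ∑_S 4 a g) ≤ exp(4 a h Q)`
(`exp z - 1 ≤ 2 z` for `0 ≤ z ≤ 1`, `z = 2 a g ≤ 2 a Y ≤ 1`).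
-/

set_option autoImplicit false

namespace PLS

open Finset Smo PLR

variable {V : Type*} [DecidableEq V]

theorem ex_small {f : V → ℝ} {W : Finset V} (hf : ∀ v ∈ W, 0 ≤ f v ∧ f v ≤ 1) (G : Finset V → Prop) (g : Finset V → V → ℝ)
    {h a Q Y : ℝ} (hh : ∀ v ∈ W, f v ≤ h) (hh0 : 0 ≤ h) (ha : 0 ≤ a) (hQ0 : 0 ≤ Q)
    (hg : ∀ S ⊆ W, G S → ∀ v ∈ S, 0 ≤ g S v ∧ g S v ≤ Y) (hQ : ∀ S ⊆ W, G S → ∑ v ∈ S, g S v ≤ Q) (haY : 2 * a * Y ≤ 1) :
    Ex f W (fun S => Ex f W (fun S' => ind (G S) * ind (G S') * Real.exp (a * ∑ v ∈ S ∩ S', (g S v + g S' v)))) ≤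
      Real.exp (4 * a * h * Q) := by
  set T : ℝ := Real.exp (4 * a * h * Q) with hT
  have hT0 : 0 ≤ T := (Real.exp_pos _).le
  -- one of the two sums
  have key : ∀ S ⊆ W, Ex f W (fun S' => ind (G S) * Real.exp (2 * a * ∑ v ∈ S ∩ S', g S v)) ≤ T := by
    intro S hS
    by_cases hGS : G S
    · rw [ind_of hGS]
      have h1 : Ex f W (fun S' => 1 * Real.exp (2 * a * ∑ v ∈ S ∩ S', g S v)) =
          Ex f W (fun S' => ∏ v ∈ S', if v ∈ S then Real.exp (2 * a * g S v) else 1) := by
        apply Ex_congr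
        intro S' _
        rw [one_mul, mul_sum, Real.exp_sum, ← prod_filter]
        apply prod_congr _ fun _ _ => rfl
        ext v
        rw [mem_inter, mem_filter, and_comm]
      rw [h1, Ex_prod]
      have h2 : ∀ v ∈ W, 1 - f v + f v * (if v ∈ S then Real.exp (2 * a * g S v) else 1) ≤
          Real.exp (if v ∈ S then h * (4 * a * g S v) else 0) := by
        intro v hv
        by_cases hvS : v ∈ S
        · rw [if_pos hvS, if_pos hvS]
          obtain ⟨hg0, hgY⟩ := hg S hS hGS v hvS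
          have hz0 : 0 ≤ 2 * a * g S v := by positivity
          have hz1 : 2 * a * g S v ≤ 1 :=
            (mul_le_mul_of_nonneg_left hgY (by positivity)).trans haY
          have h3 := (abs_le.mp (Real.abs_exp_sub_one_sub_id_le (x := 2 * a * g S v)
            (by rw [abs_of_nonneg hz0]; exact hz1))).2
          have h4 : Real.exp (2 * a * g S v) - 1 ≤ 4 * a * g S v := by nlinarith
          have h5 : f v * (Real.exp (2 * a * g S v) - 1) ≤ h * (4 * a * g S v) := by
            have h6 : 0 ≤ 4 * a * g S v := by positivity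
            calc f v * (Real.exp (2 * a * g S v) - 1) ≤ f v * (4 * a * g S v) :=
                  mul_le_mul_of_nonneg_left h4 (hf v hv).1
              _ ≤ h * (4 * a * g S v) := mul_le_mul_of_nonneg_right (hh v hv) h6
          have h7 := Real.add_one_le_exp (h * (4 * a * g S v))
          nlinarith
        · rw [if_neg hvS, if_neg hvS, Real.exp_zero]
          linarith
      have h3 : ∀ v ∈ W, 0 ≤ 1 - f v + f v * (if v ∈ S then Real.exp (2 * a * g S v) else 1) := by
        intro v hv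
        have h4 := hf v hv
        have h5 : (0 : ℝ) ≤ if v ∈ S then Real.exp (2 * a * g S v) else 1 := by
          split_ifs
          · exact (Real.exp_pos _).le
          · exact zero_le_one
        have h6 := mul_nonneg h4.1 h5
        linarith
      refine (prod_le_prod h3 h2).trans ?_
      rw [← Real.exp_sum]
      apply Real.exp_le_exp.mpr
      rw [← sum_filter]
      have h4 : W.filter (fun v => v ∈ S) = S := by
        ext v
        rw [mem_filter]
        exact ⟨fun h => h.2, fun h => ⟨hS h, h⟩⟩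
      rw [h4]
      calc ∑ v ∈ S, h * (4 * a * g S v) = h * (4 * a) * ∑ v ∈ S, g S v := by
            rw [mul_sum]
            exact sum_congr rfl fun v _ => by ring
        _ ≤ h * (4 * a) * Q := mul_le_mul_of_nonneg_left (hQ S hS hGS) (by positivity)
        _ = 4 * a * h * Q := by ring
    · have h1 : Ex f W (fun S' => ind (G S) * Real.exp (2 * a * ∑ v ∈ S ∩ S', g S v)) = 0 := by
        rw [ind_not hGS, Ex_mul_left, zero_mul]
      rw [h1]
      exact hT0
  have hA : Ex f W (fun S => Ex f W (fun S' => ind (G S) * Real.exp (2 * a * ∑ v ∈ S ∩ S', g S v))) ≤ T := by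
    refine (Ex_mono hf key).trans ?_
    rw [Ex_const]
  have hB : Ex f W (fun S => Ex f W (fun S' => ind (G S') * Real.exp (2 * a * ∑ v ∈ S ∩ S', g S' v))) ≤ T := by
    rw [Ex_comm]
    refine le_trans (le_of_eq ?_) hA
    apply Ex_congr
    intro S _
    apply Ex_congr
    intro S' _
    rw [inter_comm]
  have hpt : ∀ S ⊆ W, Ex f W (fun S' => ind (G S) * ind (G S') * Real.exp (a * ∑ v ∈ S ∩ S', (g S v + g S' v))) ≤
      1 / 2 * Ex f W (fun S' => ind (G S) * Real.exp (2 * a * ∑ v ∈ S ∩ S', g S v)) +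
        1 / 2 * Ex f W (fun S' => ind (G S') * Real.exp (2 * a * ∑ v ∈ S ∩ S', g S' v)) := by
    intro S _
    rw [← Ex_mul_left, ← Ex_mul_left, ← Ex_add]
    apply Ex_mono hf
    intro S' _
    have e1 : Real.exp (a * ∑ v ∈ S ∩ S', (g S v + g S' v)) =
        Real.exp (a * ∑ v ∈ S ∩ S', g S v) * Real.exp (a * ∑ v ∈ S ∩ S', g S' v) := by
      rw [← Real.exp_add, sum_add_distrib]
      congr 1
      ring
    have e2 : Real.exp (2 * a * ∑ v ∈ S ∩ S', g S v) = Real.exp (a * ∑ v ∈ S ∩ S', g S v) ^ 2 := by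
      rw [← Real.exp_nat_mul]
      congr 1
      push_cast
      ring
    have e3 : Real.exp (2 * a * ∑ v ∈ S ∩ S', g S' v) = Real.exp (a * ∑ v ∈ S ∩ S', g S' v) ^ 2 := by
      rw [← Real.exp_nat_mul]
      congr 1
      push_cast
      ring
    rw [e1, e2, e3]
    set x := Real.exp (a * ∑ v ∈ S ∩ S', g S v)
    set y := Real.exp (a * ∑ v ∈ S ∩ S', g S' v)
    have hi0 := ind_nonneg (G S)
    have hi1 := ind_le_one (G S)
    have hj0 := ind_nonneg (G S')
    have hj1 := ind_le_one (G S')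
    have hx : 0 < x := Real.exp_pos _
    have hy : 0 < y := Real.exp_pos _
    have h1 : ind (G S) * ind (G S') ≤ ind (G S) := mul_le_of_le_one_right hi0 hj1
    have h2 : ind (G S) * ind (G S') ≤ ind (G S') := mul_le_of_le_one_left hj0 hi1
    have h3 : 0 ≤ ind (G S) * ind (G S') := mul_nonneg hi0 hj0
    have h4 : x * y ≤ 1 / 2 * x ^ 2 + 1 / 2 * y ^ 2 := by nlinarith [sq_nonneg (x - y)]
    calc ind (G S) * ind (G S') * (x * y)
        ≤ ind (G S) * ind (G S') * (1 / 2 * x ^ 2 + 1 / 2 * y ^ 2) := mul_le_mul_of_nonneg_left h4 h3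
      _ = ind (G S) * ind (G S') * (1 / 2 * x ^ 2) + ind (G S) * ind (G S') * (1 / 2 * y ^ 2) := by ring
      _ ≤ ind (G S) * (1 / 2 * x ^ 2) + ind (G S') * (1 / 2 * y ^ 2) :=
          add_le_add (mul_le_mul_of_nonneg_right h1 (by positivity)) (mul_le_mul_of_nonneg_right h2 (by positivity))
      _ = 1 / 2 * (ind (G S) * x ^ 2) + 1 / 2 * (ind (G S') * y ^ 2) := by ring
  refine (Ex_mono hf hpt).trans ?_
  rw [Ex_add, Ex_mul_left, Ex_mul_left]
  linarith

end PLS
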