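import Pool.Agent.PLS.PZ

/-!
# PLS.PZG: Paley and Zygmund with a general bound `R S S'`. Same proof as `pz` (`PLS/PZ.lean`).
-/

set_option autoImplicit false

namespace PLS

open Finset Smo PLR

variable {V : Type*} [DecidableEq V]

theorem pzg {p : Sym2 V → ℝ} {s : Finset (Sym2 V)} (hp : ∀ e ∈ s, 0 ≤ p e ∧ p e ≤ 1) {f : V → ℝ} {W : Finset V}
    (hf : ∀ v ∈ W, 0 ≤ f v ∧ f v ≤ 1) (Ev : Finset (Sym2 V) → Finset V → Prop) (G : Finset V → Prop)
    (R : Finset V → Finset V → ℝ) {M : ℝ} (hgood : 1 / 8 ≤ Ex f W (fun S => ind (G S)))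
    (hM : Ex f W (fun S => Ex f W (fun S' => ind (G S) * ind (G S') * R S S')) ≤ M)
    (hq : ∀ S ⊆ W, G S → 0 < Ex p s (fun ω => ind (Ev ω S)))
    (h2 : ∀ S ⊆ W, ∀ S' ⊆ W, G S → G S' →
      Ex p s (fun ω => ind (Ev ω S) * ind (Ev ω S')) ≤
        R S S' * (Ex p s (fun ω => ind (Ev ω S)) * Ex p s (fun ω => ind (Ev ω S')))) :
    1 / 64 ≤ M * Ex p s (fun ω => ind (∃ S ⊆ W, G S ∧ Ev ω S)) := by
  set q : Finset V → ℝ := fun S => Ex p s (fun ω => ind (Ev ω S)) with hqdef
  set H : Finset V → ℝ := fun S => ind (G S) with hGdef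
  set g : Finset V → ℝ := fun S => H S / q S with hgdef
  set m0 : ℝ := Ex f W H with hm0
  set P : ℝ := Ex p s (fun ω => ind (∃ S ⊆ W, G S ∧ Ev ω S)) with hPdef
  have hq0 : ∀ S, 0 ≤ q S := fun S => Ex_nonneg hp fun ω _ => ind_nonneg _
  have hG0 : ∀ S, 0 ≤ H S := fun S => ind_nonneg _
  have hg0 : ∀ S, 0 ≤ g S := fun S => div_nonneg (hG0 S) (hq0 S)
  have hqpos : ∀ S ⊆ W, G S → 0 < q S := fun S hSW hS => hq S hSW hS
  have hgq : ∀ S ⊆ W, g S * q S = H S := by
    intro S hSW
    by_cases hS : G S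
    · rw [hgdef]
      dsimp only
      rw [div_mul_cancel₀]
      exact (hqpos S hSW hS).ne'
    · have : H S = 0 := ind_not hS
      rw [hgdef]
      dsimp only
      rw [this]
      simp
  set X : Finset (Sym2 V) → ℝ := fun ω => Ex f W (fun S => g S * ind (Ev ω S)) with hX
  -- first moment
  have hEX : Ex p s X = m0 := by
    rw [hX, Ex_comm, hm0]
    apply Ex_congr
    intro S hSW
    rw [Ex_mul_left]
    exact hgq S hSW
  -- second moment
  have hEX2 : Ex p s (fun ω => X ω ^ 2) ≤ M := by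
    have e1 : Ex p s (fun ω => X ω ^ 2) =
        Ex f W (fun S => Ex f W (fun S' => g S * g S' * Ex p s (fun ω => ind (Ev ω S) * ind (Ev ω S')))) := by
      have e2 : ∀ ω ⊆ s, X ω ^ 2 = Ex f W (fun S => Ex f W (fun S' => g S * g S' * (ind (Ev ω S) * ind (Ev ω S')))) := by
        intro ω _
        rw [sq, hX]
        dsimp only
        rw [← Ex_mul_right]
        apply Ex_congr
        intro S _
        rw [← Ex_mul_left]
        apply Ex_congr
        intro S' _
        ring
      rw [Ex_congr p s e2, Ex_comm]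
      apply Ex_congr
      intro S _
      rw [Ex_comm]
      apply Ex_congr
      intro S' _
      rw [Ex_mul_left]
    rw [e1]
    have e3 : ∀ S ⊆ W, ∀ S' ⊆ W, g S * g S' * Ex p s (fun ω => ind (Ev ω S) * ind (Ev ω S')) ≤
        ind (G S) * ind (G S') * R S S' := by
      intro S hSW S' hSW'
      by_cases hS : G S
      swap
      · have h0 : g S = 0 := by
          rw [hgdef]
          dsimp only
          rw [show H S = 0 from ind_not hS, zero_div]
        rw [h0, ind_not hS]
        simp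
      by_cases hS' : G S'
      swap
      · have h0 : g S' = 0 := by
          rw [hgdef]
          dsimp only
          rw [show H S' = 0 from ind_not hS', zero_div]
        rw [h0, ind_not hS']
        simp
      have hqS := hqpos S hSW hS
      have hqS' := hqpos S' hSW' hS'
      have hqq := mul_pos hqS hqS'
      have hP2 := h2 S hSW S' hSW' hS hS'
      have hgS : g S = 1 / q S := by
        rw [hgdef]
        dsimp only
        rw [show H S = 1 from ind_of hS]
      have hgS' : g S' = 1 / q S' := by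
        rw [hgdef]
        dsimp only
        rw [show H S' = 1 from ind_of hS']
      rw [hgS, hgS', ind_of hS, ind_of hS', one_mul, one_mul]
      have hform : 1 / q S * (1 / q S') * Ex p s (fun ω => ind (Ev ω S) * ind (Ev ω S')) =
          Ex p s (fun ω => ind (Ev ω S) * ind (Ev ω S')) / (q S * q S') := by
        field_simp
      rw [hform, div_le_iff₀ hqq]
      exact hP2
    exact (Ex_mono hf fun S hS => Ex_mono hf fun S' hS' => e3 S hS S' hS').trans hM
  -- Cauchy-Schwarz
  have hP0 : 0 ≤ P := Ex_nonneg hp fun ω _ => ind_nonneg _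
  have hXI : ∀ ω, X ω * ind (∃ S ⊆ W, G S ∧ Ev ω S) = X ω := by
    intro ω
    by_cases hR : ∃ S ⊆ W, G S ∧ Ev ω S
    · rw [ind_of hR, mul_one]
    · have hXz : X ω = 0 := by
        have : X ω = Ex f W (fun _ => 0) := by
          rw [hX]
          apply Ex_congr
          intro S hSW
          by_cases hS : G S
          · rw [ind_not (fun h => hR ⟨S, hSW, hS, h⟩), mul_zero]
          · have h0 : g S = 0 := by
              rw [hgdef]
              dsimp only
              rw [show H S = 0 from ind_not hS, zero_div]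
            rw [h0, zero_mul]
        rw [this, Ex_const]
      rw [hXz, zero_mul]
  have hII : ∀ ω, ind (∃ S ⊆ W, G S ∧ Ev ω S) * ind (∃ S ⊆ W, G S ∧ Ev ω S) =
      ind (∃ S ⊆ W, G S ∧ Ev ω S) := by
    intro ω
    by_cases hR : ∃ S ⊆ W, G S ∧ Ev ω S
    · rw [ind_of hR, mul_one]
    · rw [ind_not hR, mul_zero]
  have hquad : ∀ t : ℝ, 0 ≤ P * (t * t) + (-(2 * m0)) * t + Ex p s (fun ω => X ω ^ 2) := by
    intro t
    have h3 : 0 ≤ Ex p s (fun ω => (X ω - t * ind (∃ S ⊆ W, G S ∧ Ev ω S)) ^ 2) :=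
      Ex_nonneg hp fun ω _ => sq_nonneg _
    have h4 : Ex p s (fun ω => (X ω - t * ind (∃ S ⊆ W, G S ∧ Ev ω S)) ^ 2) =
        Ex p s (fun ω => (t * t) * ind (∃ S ⊆ W, G S ∧ Ev ω S) + (-(2 * t) * X ω + X ω ^ 2)) := by
      apply Ex_congr
      intro ω _
      have a1 := hXI ω
      have a2 := hII ω
      calc (X ω - t * ind (∃ S ⊆ W, G S ∧ Ev ω S)) ^ 2
          = (t * t) * (ind (∃ S ⊆ W, G S ∧ Ev ω S) * ind (∃ S ⊆ W, G S ∧ Ev ω S)) +
            (-(2 * t) * (X ω * ind (∃ S ⊆ W, G S ∧ Ev ω S)) + X ω ^ 2) := by ring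
        _ = _ := by rw [a1, a2]
    rw [h4, Ex_add, Ex_add, Ex_mul_left, Ex_mul_left, hEX] at h3
    change 0 ≤ t * t * P + _ at h3
    linarith
  have hdis := discrim_le_zero hquad
  unfold discrim at hdis
  have h7 : Ex p s (fun ω => X ω ^ 2) * P ≤ M * P := mul_le_mul_of_nonneg_right hEX2 hP0
  have h9 : 1 / 64 ≤ m0 ^ 2 := by
    have : 1 / 8 ≤ m0 := hgood
    nlinarith
  nlinarith

end PLS
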