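import Pool.Agent.PLS.PairA3
import Pool.Agent.PLS.Small

/-!
# PLS.Small3: pairs of sets with a small intersection, square mean form

As `pair_small` (`PLS/Small.lean`) with `pairA3`: `∏_(e in prs T ∩ r) (1 + τ_e τ'_e) ≤ exp(∑ (τ_e^2 + τ'_e^2)/2)`, `τ_e^2 ≤ (sm y e/2)^2 ≤ (y_u^2 + y_v^2)/2`, every `v ∈ T` lies in at most `|T|` pairs of `prs T`: `∑_e τ_e^2 ≤ |T| ∑_(v in T) y_v^2`, `y_v^2 ≤ 2 C^2 (dvS^2 + s)/s^2`.
-/

set_option autoImplicit false

namespace PLS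

open Finset Smo PLR

private theorem p3_hasDerivAt_tanh (s : ℝ) : HasDerivAt Real.tanh (1 - Real.tanh s ^ 2) s := by
  have h : HasDerivAt (fun x => Real.sinh x / Real.cosh x)
      ((Real.cosh s * Real.cosh s - Real.sinh s * Real.sinh s) / Real.cosh s ^ 2) s :=
    (Real.hasDerivAt_sinh s).div (Real.hasDerivAt_cosh s) (Real.cosh_pos s).ne'
  have h2 : Real.tanh = fun x => Real.sinh x / Real.cosh x := by
    funext x
    exact Real.tanh_eq_sinh_div_cosh x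
  rw [h2]
  convert h using 1
  have := Real.cosh_pos s
  field_simp

private theorem p3_mono : Monotone fun s : ℝ => s - Real.tanh s := by
  have hd : ∀ s : ℝ, HasDerivAt (fun s : ℝ => s - Real.tanh s) (1 - (1 - Real.tanh s ^ 2)) s :=
    fun s => (hasDerivAt_id s).sub (p3_hasDerivAt_tanh s)
  refine monotone_of_deriv_nonneg (fun s => (hd s).differentiableAt) fun s => ?_
  rw [(hd s).deriv]
  nlinarith [sq_nonneg (Real.tanh s)]

private theorem p3_abs_tanh (s : ℝ) : |Real.tanh s| ≤ |s| := by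
  have h0 : (0 : ℝ) - Real.tanh 0 = 0 := by rw [Real.tanh_zero, sub_zero]
  have hpos : ∀ u : ℝ, 0 ≤ u → |Real.tanh u| ≤ u := by
    intro u hu
    have h1 := p3_mono hu
    simp only [h0] at h1
    have h2 : 0 ≤ Real.tanh u := by
      rw [Real.tanh_eq_sinh_div_cosh]
      exact div_nonneg (Real.sinh_nonneg_iff.mpr hu) (Real.cosh_pos u).le
    rw [abs_of_nonneg h2]
    linarith
  rcases le_total 0 s with h | h
  · rw [abs_of_nonneg h]
    exact hpos s h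
  · have h1 := hpos (-s) (by linarith)
    rw [Real.tanh_neg, abs_neg] at h1
    rw [abs_of_nonpos h]
    exact h1

private theorem p3_dep_ev {V : Type*} [DecidableEq V] (c : Finset (Sym2 V)) (S : Finset V) (k : ℕ) :
    Dep (prs S) (fun h => ind (∀ v ∈ S, dg (c ∪ h) S v = k)) := by
  intro ω
  have h1 : ∀ v ∈ S, dg (c ∪ (ω ∩ prs S)) S v = dg (c ∪ ω) S v := by
    intro v hv
    unfold dg
    congr 1
    ext u
    rw [mem_nb, mem_nb, mem_union, mem_union, mem_inter, mem_prs]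
    constructor
    · rintro ⟨a1, a2, a3 | a3⟩
      · exact ⟨a1, a2, Or.inl a3⟩
      · exact ⟨a1, a2, Or.inr a3.1⟩
    · rintro ⟨a1, a2, a3 | a3⟩
      · exact ⟨a1, a2, Or.inl a3⟩
      · exact ⟨a1, a2, Or.inr ⟨a3, hv, a1, a2.symm⟩⟩
  show ind (∀ v ∈ S, dg (c ∪ ω) S v = k) = ind (∀ v ∈ S, dg (c ∪ (ω ∩ prs S)) S v = k)
  congr 1
  apply propext
  exact ⟨fun h v hv => (h1 v hv).trans (h v hv), fun h v hv => (h1 v hv).symm.trans (h v hv)⟩

/-- the product of the tilts is nonnegative -/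
private theorem p3_prod_nonneg {V : Type*} [DecidableEq V] (D A : Finset (Sym2 V)) (y : V → ℝ) :
    0 ≤ ∏ e ∈ D, (if e ∈ A then 1 + Real.tanh (sm y e / 2) else 1 - Real.tanh (sm y e / 2)) := by
  apply prod_nonneg
  intro e _
  have h1 := Real.tanh_lt_one (sm y e / 2)
  have h2 := Real.neg_one_lt_tanh (sm y e / 2)
  split_ifs <;> linarith

/-- `τ^2 ≤ (y_a^2 + y_b^2)/2` for the pair `s(a, b)` -/
private theorem p3_tanh_sq {V : Type*} (y : V → ℝ) (a b : V) :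
    Real.tanh (sm y s(a, b) / 2) ^ 2 ≤ (y a ^ 2 + y b ^ 2) / 2 := by
  have h1 := p3_abs_tanh (sm y s(a, b) / 2)
  have h2 : Real.tanh (sm y s(a, b) / 2) ^ 2 ≤ (sm y s(a, b) / 2) ^ 2 := sq_le_sq.mpr h1
  refine h2.trans ?_
  rw [sm_mk]
  nlinarith [sq_nonneg (y a - y b)]

private theorem p3_sum {V : Type*} [DecidableEq V] (T : Finset V) (D : Finset (Sym2 V)) (hD : D ⊆ prs T) (y : V → ℝ) :
    ∑ e ∈ D, Real.tanh (sm y e / 2) ^ 2 ≤ T.card * ∑ v ∈ T, y v ^ 2 := by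
  have hout : ∀ e : Sym2 V, s((Quot.out e).1, (Quot.out e).2) = e := fun e => Quot.out_eq e
  have hinj : Function.Injective (fun e : Sym2 V => (Quot.out e : V × V)) := by
    intro e e' h
    have h' : (Quot.out e : V × V) = Quot.out e' := h
    rw [← hout e, ← hout e', h']
  calc ∑ e ∈ D, Real.tanh (sm y e / 2) ^ 2
      ≤ ∑ e ∈ D, ((y (Quot.out e).1 ^ 2 + y (Quot.out e).2 ^ 2) / 2) := by
        apply sum_le_sum
        intro e _
        have h1 := p3_tanh_sq y (Quot.out e).1 (Quot.out e).2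
        rw [hout e] at h1
        exact h1
    _ = ∑ x ∈ D.image (fun e : Sym2 V => (Quot.out e : V × V)), ((y x.1 ^ 2 + y x.2 ^ 2) / 2) :=
        (sum_image (f := fun x : V × V => (y x.1 ^ 2 + y x.2 ^ 2) / 2) (fun e _ e' _ h => hinj h)).symm
    _ ≤ ∑ x ∈ T ×ˢ T, ((y x.1 ^ 2 + y x.2 ^ 2) / 2) := by
        apply sum_le_sum_of_subset_of_nonneg
        · intro x hx
          obtain ⟨e, he, rfl⟩ := mem_image.mp hx
          have h1 := hD he
          rw [← hout e, mem_prs] at h1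
          exact mem_product.mpr ⟨h1.1, h1.2.1⟩
        · intro x _ _
          positivity
    _ = T.card * ∑ v ∈ T, y v ^ 2 := by
        rw [sum_product]
        have h1 : ∀ a ∈ T, ∑ b ∈ T, ((y a ^ 2 + y b ^ 2) / 2) = T.card * y a ^ 2 / 2 + (∑ b ∈ T, y b ^ 2) / 2 := by
          intro a _
          rw [← sum_div, sum_add_distrib, sum_const, nsmul_eq_mul]
          ring
        rw [sum_congr rfl h1, sum_add_distrib, sum_const, nsmul_eq_mul, ← sum_div, ← mul_sum]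
        ring

/-- the bound for one tilt -/
private theorem p3_one {V : Type} [DecidableEq V] {c r : Finset (Sym2 V)} {s C : ℝ} {k : ℕ} {S T : Finset V} {y : V → ℝ}
    (hs : 0 < s) (hC : 0 ≤ C) (hy : ∀ v ∈ S, |y v| ≤ C * (|dvS c r k S v| + Real.sqrt s) / s) (hT : T ⊆ S) :
    ∑ v ∈ T, y v ^ 2 ≤ 2 * C ^ 2 / s ^ 2 * ∑ v ∈ T, dvS c r k S v ^ 2 + 2 * C ^ 2 * T.card / s := by
  have h1 : ∀ v ∈ T, y v ^ 2 ≤ 2 * C ^ 2 / s ^ 2 * dvS c r k S v ^ 2 + 2 * C ^ 2 / s := by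
    intro v hv
    have a1 := hy v (hT hv)
    have a2 : 0 ≤ C * (|dvS c r k S v| + Real.sqrt s) / s := by positivity
    have a3 : y v ^ 2 ≤ (C * (|dvS c r k S v| + Real.sqrt s) / s) ^ 2 := by
      rw [← sq_abs (y v)]
      exact pow_le_pow_left₀ (abs_nonneg _) a1 2
    refine a3.trans ?_
    have a4 : (|dvS c r k S v| + Real.sqrt s) ^ 2 ≤ 2 * (dvS c r k S v ^ 2 + s) := by
      have e1 := sq_abs (dvS c r k S v)
      have e2 := Real.sq_sqrt hs.le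
      nlinarith [sq_nonneg (|dvS c r k S v| - Real.sqrt s)]
    have a5 : (C * (|dvS c r k S v| + Real.sqrt s) / s) ^ 2 = C ^ 2 / s ^ 2 * (|dvS c r k S v| + Real.sqrt s) ^ 2 := by
      field_simp
    rw [a5]
    calc C ^ 2 / s ^ 2 * (|dvS c r k S v| + Real.sqrt s) ^ 2 ≤ C ^ 2 / s ^ 2 * (2 * (dvS c r k S v ^ 2 + s)) :=
          mul_le_mul_of_nonneg_left a4 (by positivity)
      _ = 2 * C ^ 2 / s ^ 2 * dvS c r k S v ^ 2 + 2 * C ^ 2 / s := by
          field_simp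
  refine (sum_le_sum h1).trans (le_of_eq ?_)
  rw [sum_add_distrib, ← mul_sum, sum_const, nsmul_eq_mul]
  ring

theorem pair_small3 (β : ℝ) (hβ : 0 < β) (hβ1 : β ≤ 1) : ∃ C c₁ η : ℝ, ∃ m₀ : ℕ, 1 ≤ C ∧ 0 < c₁ ∧ 0 < η ∧
    ∀ (V : Type) [DecidableEq V] (c r : Finset (Sym2 V)) (δ s X : ℝ) (L k : ℕ) (S S' : Finset V),
      Disjoint c r → (∀ e ∈ c ∪ r, ¬ e.IsDiag) → DenseR δ L r → β ≤ δ → Even k → GoodT c r s X β k S → GoodT c r s X β k S' →
      (L : ℝ) ≤ β / 32 * s → (m₀ : ℝ) ≤ s / 2 → 1 ≤ s → 0 ≤ X → X ≤ η * s → ((S ∩ S').card : ℝ) ≤ c₁ * s →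
      Ex (fun _ => 1 / 2) r (fun h => ind (∀ v ∈ S, dg (c ∪ h) S v = k) * ind (∀ v ∈ S', dg (c ∪ h) S' v = k)) ≤
        C * Real.exp (C * (S ∩ S').card ^ 2 / s + C * (S ∩ S').card / s ^ 2 *
          ∑ v ∈ S ∩ S', (dvS c r k S v ^ 2 + dvS c r k S' v ^ 2)) * (qS c r k S * qS c r k S') := by
  obtain ⟨C, c₁, η, m₀, hC, hc₁, hη, H⟩ := pairA3 β hβ hβ1
  refine ⟨4 * C ^ 2, c₁, η, m₀, by nlinarith, hc₁, hη, ?_⟩
  intro V _ c r δ s X L k S S' hcr hnd hD hβδ hk hS hS' hL hm hs hX hXs hT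
  obtain ⟨y, hy, hA⟩ := H V c r δ s X L k S hcr hnd hD hβδ hk hS hL hm hs hX hXs
  obtain ⟨y', hy', hA'⟩ := H V c r δ s X L k S' hcr hnd hD hβδ hk hS' hL hm hs hX hXs
  have hs0 : 0 < s := by linarith
  have hC0 : 0 < C := by linarith
  set T : Finset V := S ∩ S' with hTdef
  set j : ℝ := (T.card : ℝ) with hj
  have hj0 : 0 ≤ j := Nat.cast_nonneg _
  set D : Finset (Sym2 V) := prs T ∩ r with hDdef
  set q : ℝ := qS c r k S with hq
  set q' : ℝ := qS c r k S' with hq'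
  have hp : ∀ (s' : Finset (Sym2 V)), ∀ e ∈ s', (0 : ℝ) ≤ (fun _ : Sym2 V => (1 : ℝ) / 2) e ∧
      (fun _ : Sym2 V => (1 : ℝ) / 2) e ≤ 1 := fun _ _ _ => ⟨by norm_num, by norm_num⟩
  have hq0 : 0 ≤ q := Ex_nonneg (hp r) fun _ _ => ind_nonneg _
  have hq0' : 0 ≤ q' := Ex_nonneg (hp r) fun _ _ => ind_nonneg _
  set K : ℝ := C * Real.exp (C * j ^ 2 / s) with hK
  have hK0 : 0 < K := by positivity
  have h1 := Ex_two (p := fun _ => (1 : ℝ) / 2) (s := r) (p3_dep_ev c S k) (p3_dep_ev c S' k)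
  rw [prs_inter, ← hTdef, ← hDdef] at h1
  rw [h1]
  have h2 : Ex (fun _ => (1 : ℝ) / 2) D (fun A =>
      Ex (fun _ => 1 / 2) (r \ prs T) (fun h => ind (∀ v ∈ S, dg (c ∪ (A ∪ h)) S v = k)) *
      Ex (fun _ => 1 / 2) (r \ prs T) (fun h => ind (∀ v ∈ S', dg (c ∪ (A ∪ h)) S' v = k))) ≤
      Ex (fun _ => (1 : ℝ) / 2) D (fun A => (K * K * (q * q')) *
        ((∏ e ∈ D, (if e ∈ A then 1 + Real.tanh (sm y e / 2) else 1 - Real.tanh (sm y e / 2))) *
          ∏ e ∈ D, (if e ∈ A then 1 + Real.tanh (sm y' e / 2) else 1 - Real.tanh (sm y' e / 2)))) := by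
    apply Ex_mono (hp D)
    intro A hAD
    have b1 := hA T inter_subset_left hT A hAD
    have b2 := hA' T inter_subset_right hT A hAD
    have n1 : 0 ≤ Ex (fun _ => (1 : ℝ) / 2) (r \ prs T) (fun h => ind (∀ v ∈ S', dg (c ∪ (A ∪ h)) S' v = k)) :=
      Ex_nonneg (hp _) fun _ _ => ind_nonneg _
    have n2 := p3_prod_nonneg D A y
    have n3 : 0 ≤ K * (∏ e ∈ D, (if e ∈ A then 1 + Real.tanh (sm y e / 2) else 1 - Real.tanh (sm y e / 2))) * q :=
      mul_nonneg (mul_nonneg hK0.le n2) hq0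
    calc _ ≤ (K * (∏ e ∈ D, (if e ∈ A then 1 + Real.tanh (sm y e / 2) else 1 - Real.tanh (sm y e / 2))) * q) *
          (K * (∏ e ∈ D, (if e ∈ A then 1 + Real.tanh (sm y' e / 2) else 1 - Real.tanh (sm y' e / 2))) * q') :=
          mul_le_mul b1 b2 n1 n3
      _ = _ := by ring
  refine h2.trans ?_
  rw [Ex_mul_left, Ex_tilt D (fun e => Real.tanh (sm y e / 2)) (fun e => Real.tanh (sm y' e / 2))]
  -- the product
  have hDs : D ⊆ prs T := inter_subset_left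
  have g1 := p3_sum T D hDs y
  have g2 := p3_sum T D hDs y'
  have g3 := p3_one hs0 hC0.le hy (inter_subset_left : T ⊆ S)
  have g4 := p3_one hs0 hC0.le hy' (inter_subset_right : T ⊆ S')
  set Z : ℝ := ∑ v ∈ T, (dvS c r k S v ^ 2 + dvS c r k S' v ^ 2) with hZ
  have hZ0 : 0 ≤ Z := sum_nonneg fun v _ => by positivity
  have hZ1 : Z = ∑ v ∈ T, dvS c r k S v ^ 2 + ∑ v ∈ T, dvS c r k S' v ^ 2 := sum_add_distrib
  have h3 : ∏ e ∈ D, (1 + Real.tanh (sm y e / 2) * Real.tanh (sm y' e / 2)) ≤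
      Real.exp (2 * C ^ 2 * j ^ 2 / s + C ^ 2 * j / s ^ 2 * Z) := by
    have h4 : ∏ e ∈ D, (1 + Real.tanh (sm y e / 2) * Real.tanh (sm y' e / 2)) ≤
        ∏ e ∈ D, Real.exp ((Real.tanh (sm y e / 2) ^ 2 + Real.tanh (sm y' e / 2) ^ 2) / 2) := by
      apply prod_le_prod
      · intro e _
        have a1 := Real.abs_tanh_lt_one (sm y e / 2)
        have a2 := Real.abs_tanh_lt_one (sm y' e / 2)
        have a3 : |Real.tanh (sm y e / 2) * Real.tanh (sm y' e / 2)| ≤ 1 := by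
          rw [abs_mul]
          exact mul_le_one₀ a1.le (abs_nonneg _) a2.le
        linarith [(abs_le.mp a3).1]
      · intro e _
        have a4 := Real.add_one_le_exp ((Real.tanh (sm y e / 2) ^ 2 + Real.tanh (sm y' e / 2) ^ 2) / 2)
        nlinarith [sq_nonneg (Real.tanh (sm y e / 2) - Real.tanh (sm y' e / 2))]
    refine h4.trans ?_
    rw [← Real.exp_sum]
    apply Real.exp_le_exp.mpr
    rw [← sum_div, sum_add_distrib]
    have g5 : j * ∑ v ∈ T, y v ^ 2 ≤ j * (2 * C ^ 2 / s ^ 2 * ∑ v ∈ T, dvS c r k S v ^ 2 + 2 * C ^ 2 * j / s) :=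
      mul_le_mul_of_nonneg_left g3 hj0
    have g6 : j * ∑ v ∈ T, y' v ^ 2 ≤ j * (2 * C ^ 2 / s ^ 2 * ∑ v ∈ T, dvS c r k S' v ^ 2 + 2 * C ^ 2 * j / s) :=
      mul_le_mul_of_nonneg_left g4 hj0
    have g7 : (j * (2 * C ^ 2 / s ^ 2 * ∑ v ∈ T, dvS c r k S v ^ 2 + 2 * C ^ 2 * j / s) +
        j * (2 * C ^ 2 / s ^ 2 * ∑ v ∈ T, dvS c r k S' v ^ 2 + 2 * C ^ 2 * j / s)) / 2 =
        2 * C ^ 2 * j ^ 2 / s + C ^ 2 * j / s ^ 2 * Z := by
      rw [hZ1]
      ring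
    rw [← g7]
    linarith
  have hqq : 0 ≤ q * q' := mul_nonneg hq0 hq0'
  calc K * K * (q * q') * ∏ e ∈ D, (1 + Real.tanh (sm y e / 2) * Real.tanh (sm y' e / 2))
      ≤ K * K * (q * q') * Real.exp (2 * C ^ 2 * j ^ 2 / s + C ^ 2 * j / s ^ 2 * Z) :=
        mul_le_mul_of_nonneg_left h3 (mul_nonneg (mul_nonneg hK0.le hK0.le) hqq)
    _ = C ^ 2 * Real.exp (C * j ^ 2 / s + C * j ^ 2 / s + (2 * C ^ 2 * j ^ 2 / s + C ^ 2 * j / s ^ 2 * Z)) * (q * q') := by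
        rw [Real.exp_add (C * j ^ 2 / s + C * j ^ 2 / s), Real.exp_add (C * j ^ 2 / s) (C * j ^ 2 / s), hK]
        generalize Real.exp (2 * C ^ 2 * j ^ 2 / s + C ^ 2 * j / s ^ 2 * Z) = w
        ring
    _ ≤ 4 * C ^ 2 * Real.exp (4 * C ^ 2 * j ^ 2 / s + 4 * C ^ 2 * j / s ^ 2 * Z) * (q * q') := by
        apply mul_le_mul_of_nonneg_right _ hqq
        apply mul_le_mul _ _ (Real.exp_pos _).le (by positivity)
        · nlinarith [sq_nonneg C]
        · apply Real.exp_le_exp.mpr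
          have h10 : 2 * C * (j ^ 2 / s) ≤ 2 * C ^ 2 * (j ^ 2 / s) := by
            apply mul_le_mul_of_nonneg_right _ (by positivity)
            nlinarith
          have h11 : 0 ≤ C ^ 2 * j / s ^ 2 * Z := by positivity
          have h12 : C * j ^ 2 / s + C * j ^ 2 / s + (2 * C ^ 2 * j ^ 2 / s + C ^ 2 * j / s ^ 2 * Z) =
              2 * C * (j ^ 2 / s) + 2 * C ^ 2 * (j ^ 2 / s) + C ^ 2 * j / s ^ 2 * Z := by ring
          have h13 : 4 * C ^ 2 * j ^ 2 / s + 4 * C ^ 2 * j / s ^ 2 * Z =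
              4 * C ^ 2 * (j ^ 2 / s) + 4 * (C ^ 2 * j / s ^ 2 * Z) := by ring
          rw [h12, h13]
          linarith

end PLS
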