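import Pool.Agent.PLS.Sel3
import Pool.Agent.PLS.Small3
import Pool.Agent.PLS.Large
import Pool.Agent.PLS.PZG
import Pool.Agent.PLS.ExS

/-!
# PLS.Cnd3: the conditional bound with explicit parameters, square mean form (compare `PLS/Cnd.lean`)

`β = δ/32`, `C = max` of the constants of `pair_small`, `pair_small3`, `c₁ = min`, 1. `sel3`, `pzg` with `Ev h S = ∀ v ∈ S, dg (c ∪ h) S v = k`, `G = GoodT`,
`R S S' = C exp(C J^2/s) exp(a ∑_(v in S ∩ S') (dvS S v ^2 + dvS S' v ^2)) + K₁ l₁^j + K₂ l₂^j + K₃ l₃^j`, `j = |S ∩ S'|`, `a = C J/s^2`: `j ≤ J`: `pair_small3`; `J < j ≤ c₂ s`: `pair_small`; `c₂ s ≤ j`: `pair_large`. `M`: `ex_small` with `g S v = dvS^2 ≤ X^2 = Y`, `Q = 1000 s^2`, `h = 2 s √s/n`: `4 a h Q = 8000 C J s √s/n`; `sel3` for the powers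
(`ind ind' ≤ 1`).
-/

set_option autoImplicit false

namespace PLS

open Finset Smo PLR

private theorem ind_mono3 {P Q : Prop} (h : P → Q) : ind P ≤ ind Q := by
  by_cases hP : P
  · rw [ind_of hP, ind_of (h hP)]
  · rw [ind_not hP]
    exact ind_nonneg Q

private theorem lin3 {V : Type*} [DecidableEq V] (f : V → ℝ) (W : Finset V) (F₁ F₂ F₃ F₄ : Finset V → Finset V → ℝ)
    (A₁ A₂ A₃ A₄ : ℝ) :
    Ex f W (fun S => Ex f W (fun S' => A₁ * F₁ S S' + A₂ * F₂ S S' + A₃ * F₃ S S' + A₄ * F₄ S S')) =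
      A₁ * Ex f W (fun S => Ex f W (fun S' => F₁ S S')) + A₂ * Ex f W (fun S => Ex f W (fun S' => F₂ S S')) +
        A₃ * Ex f W (fun S => Ex f W (fun S' => F₃ S S')) + A₄ * Ex f W (fun S => Ex f W (fun S' => F₄ S S')) := by
  simp only [Ex_add, Ex_mul_left]

theorem cnd3 (δ : ℝ) (hδ : 0 < δ) (hδ1 : δ ≤ 1) : ∃ C c₁ : ℝ, 1 ≤ C ∧ 0 < c₁ ∧ c₁ ≤ 1 ∧ ∀ c₂ : ℝ, 0 < c₂ → c₂ ≤ c₁ →
    ∃ C₂ η : ℝ, ∃ m₀ : ℕ, 1 ≤ C₂ ∧ 0 < η ∧
    ∀ (n : ℕ), 1 ≤ n → ∀ (c r : Finset (Sym2 (Fin n))), Disjoint c r → (∀ e ∈ c ∪ r, ¬ e.IsDiag) →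
    ∀ (s X J : ℝ) (L : ℕ) (l₁ l₂ l₃ K₁ K₂ K₃ : ℝ), 1 ≤ L → DenseR δ L r → 1 ≤ s → 64 * s * Real.sqrt s * (L + 1) ≤ δ * n →
      8 * Real.sqrt s + 8 ≤ X → X ≤ s → 8 * Real.exp (-(s / 16)) ≤ 1 → 8 * s * Real.exp (-(X ^ 2 / (16 * s))) ≤ 1 →
      16 * s * Real.exp (-(δ ^ 2 * s / 2000)) ≤ 1 → (m₀ : ℝ) ≤ s / 2 → X ≤ η * s → (L : ℝ) ≤ δ / 1024 * s → (L : ℝ) ≤ c₂ * s →
      0 ≤ J → J ≤ c₂ * s → 2 * C * J * X ^ 2 ≤ s ^ 2 →
      1 ≤ l₁ → 1 ≤ l₂ → 1 ≤ l₃ → 0 ≤ K₁ → 0 ≤ K₂ → 0 ≤ K₃ →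
      (∀ j : ℕ, J ≤ j → (j : ℝ) ≤ c₂ * s → C * Real.exp (C * j ^ 2 * (1 + X ^ 2 / s) / s) ≤ K₁ * l₁ ^ j + K₂ * l₂ ^ j) →
      (∀ j : ℕ, c₂ * s ≤ j → Real.exp (C₂ * s) * Real.sqrt s ^ (j + L) ≤ K₃ * l₃ ^ j) →
      1 / 64 ≤ (C * Real.exp (C * J ^ 2 / s) * Real.exp (8000 * C * J * s * Real.sqrt s / n) +
        K₁ * Real.exp ((l₁ - 1) * (2 * s ^ 2 * Real.sqrt s / n)) + K₂ * Real.exp ((l₂ - 1) * (2 * s ^ 2 * Real.sqrt s / n)) +
        K₃ * Real.exp ((l₃ - 1) * (2 * s ^ 2 * Real.sqrt s / n))) *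
        Ex (fun _ => 1 / 2) r (fun h => ind (∃ S : Finset (Fin n), s / 2 ≤ S.card ∧ Reg (c ∪ h) S)) := by
  obtain ⟨Ca, ca, ηa, ma, hCa, hca, hηa, hsa⟩ := pair_small (δ / 32) (by positivity) (by linarith)
  obtain ⟨Cb, cb, ηb, mb, hCb, hcb, hηb, hsb⟩ := pair_small3 (δ / 32) (by positivity) (by linarith)
  obtain ⟨C, hCe⟩ : ∃ C, C = max Ca Cb := ⟨_, rfl⟩
  have hCaC : Ca ≤ C := by rw [hCe]; exact le_max_left _ _
  have hCbC : Cb ≤ C := by rw [hCe]; exact le_max_right _ _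
  have hC : 1 ≤ C := hCa.trans hCaC
  refine ⟨C, min (min ca cb) 1, hC, lt_min (lt_min hca hcb) one_pos, min_le_right _ _, ?_⟩
  intro c₂ hc₂ hc₂1
  have hc₂a : c₂ ≤ ca := hc₂1.trans ((min_le_left _ _).trans (min_le_left _ _))
  have hc₂c : c₂ ≤ cb := hc₂1.trans ((min_le_left _ _).trans (min_le_right _ _))
  have hc₂b : c₂ ≤ 1 := hc₂1.trans (min_le_right _ _)
  obtain ⟨C₂, η₂, m₂, hC₂, hη₂, hla⟩ := pair_large (δ / 32) c₂ (by positivity) (by linarith) hc₂ hc₂b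
  obtain ⟨C₃, η₃, m₃, hC₃, hη₃, hT⟩ := pairT (δ / 32) (by positivity) (by linarith)
  refine ⟨C₂, min (min ηa ηb) (min η₂ η₃), max (max ma mb) (max m₂ m₃), hC₂, lt_min (lt_min hηa hηb) (lt_min hη₂ hη₃), ?_⟩
  intro n hn c r hd hnd s X J L l₁ l₂ l₃ K₁ K₂ K₃ hL hD hs hF hX hXs hc1 hc2 hc3 hm0 hXη hLs hLc hJ0 hJ hJX hl₁ hl₂ hl₃
    hK₁ hK₂ hK₃ hj1 hj2
  obtain ⟨f, W, k, hk, hf, hfh, hgood, hlam⟩ := sel3 hn hd hnd hδ hδ1 hL hD hs hF hX hXs hc1 hc2 hc3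
  have hs0 : 0 < s := by linarith
  have hC0 : 0 < C := by linarith
  have hn0 : (0 : ℝ) < n := by exact_mod_cast hn
  have hX0 : 0 ≤ X := by
    have := Real.sqrt_nonneg s
    linarith
  have hβδ : δ / 32 ≤ δ := by linarith
  have hL32 : (L : ℝ) ≤ δ / 32 / 32 * s := by
    have e : δ / 32 / 32 * s = δ / 1024 * s := by ring
    rw [e]
    exact hLs
  have hma : (ma : ℝ) ≤ s / 2 :=
    le_trans (by exact_mod_cast (le_max_left ma mb).trans (le_max_left _ (max m₂ m₃))) hm0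
  have hmb : (mb : ℝ) ≤ s / 2 :=
    le_trans (by exact_mod_cast (le_max_right ma mb).trans (le_max_left _ (max m₂ m₃))) hm0
  have hm2 : (m₂ : ℝ) ≤ s / 2 :=
    le_trans (by exact_mod_cast (le_max_left m₂ m₃).trans (le_max_right (max ma mb) _)) hm0
  have hm3 : (m₃ : ℝ) ≤ s / 2 :=
    le_trans (by exact_mod_cast (le_max_right m₂ m₃).trans (le_max_right (max ma mb) _)) hm0
  have hηa' : X ≤ ηa * s :=
    hXη.trans (mul_le_mul_of_nonneg_right ((min_le_left _ _).trans (min_le_left _ _)) hs0.le)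
  have hηb' : X ≤ ηb * s :=
    hXη.trans (mul_le_mul_of_nonneg_right ((min_le_left _ _).trans (min_le_right _ _)) hs0.le)
  have hη2' : X ≤ η₂ * s :=
    hXη.trans (mul_le_mul_of_nonneg_right ((min_le_right _ _).trans (min_le_left _ _)) hs0.le)
  have hη3' : X ≤ η₃ * s :=
    hXη.trans (mul_le_mul_of_nonneg_right ((min_le_right _ _).trans (min_le_right _ _)) hs0.le)
  have hp : ∀ e ∈ r, (0 : ℝ) ≤ (fun _ : Sym2 (Fin n) => (1 : ℝ) / 2) e ∧ (fun _ : Sym2 (Fin n) => (1 : ℝ) / 2) e ≤ 1 :=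
    fun e _ => ⟨by norm_num, by norm_num⟩
  have hq0 : ∀ S : Finset (Fin n), 0 ≤ qS c r k S := fun S => Ex_nonneg hp fun _ _ => ind_nonneg _
  have hl1j : ∀ j : ℕ, 0 ≤ K₁ * l₁ ^ j := fun j => mul_nonneg hK₁ (pow_nonneg (by linarith) j)
  have hl2j : ∀ j : ℕ, 0 ≤ K₂ * l₂ ^ j := fun j => mul_nonneg hK₂ (pow_nonneg (by linarith) j)
  have hl3j : ∀ j : ℕ, 0 ≤ K₃ * l₃ ^ j := fun j => mul_nonneg hK₃ (pow_nonneg (by linarith) j)
  obtain ⟨A, hA⟩ : ∃ A : ℝ, A = C * Real.exp (C * J ^ 2 / s) := ⟨_, rfl⟩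
  have hA0 : 0 < A := by rw [hA]; positivity
  obtain ⟨a, ha⟩ : ∃ a : ℝ, a = C * J / s ^ 2 := ⟨_, rfl⟩
  have ha0 : 0 ≤ a := by rw [ha]; positivity
  -- the exponential moment
  have hexp : Ex f W (fun S => Ex f W (fun S' => ind (GoodT c r s X (δ / 32) k S) * ind (GoodT c r s X (δ / 32) k S') *
      Real.exp (a * ∑ v ∈ S ∩ S', (dvS c r k S v ^ 2 + dvS c r k S' v ^ 2)))) ≤
      Real.exp (8000 * C * J * s * Real.sqrt s / n) := by
    have h1 := ex_small hf (GoodT c r s X (δ / 32) k) (fun S v => dvS c r k S v ^ 2) (h := 2 * s * Real.sqrt s / n)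
      (a := a) (Q := 1000 * s ^ 2) (Y := X ^ 2) hfh (by positivity) ha0 (by positivity) ?_ ?_ ?_
    · refine h1.trans (le_of_eq ?_)
      congr 1
      rw [ha]
      field_simp
      ring
    · intro S _ hG v hv
      refine ⟨sq_nonneg _, ?_⟩
      have h2 := hG.1.2.2.1 v hv
      exact sq_le_sq' (neg_le_of_abs_le h2) (le_of_abs_le h2)
    · intro S _ hG
      exact hG.2
    · rw [ha]
      have e : 2 * (C * J / s ^ 2) * X ^ 2 = 2 * C * J * X ^ 2 / s ^ 2 := by ring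
      rw [e, div_le_one (by positivity)]
      exact hJX
  have hM : Ex f W (fun S => Ex f W (fun S' => ind (GoodT c r s X (δ / 32) k S) * ind (GoodT c r s X (δ / 32) k S') *
      (A * Real.exp (a * ∑ v ∈ S ∩ S', (dvS c r k S v ^ 2 + dvS c r k S' v ^ 2)) + K₁ * l₁ ^ (S ∩ S').card +
        K₂ * l₂ ^ (S ∩ S').card + K₃ * l₃ ^ (S ∩ S').card))) ≤
      A * Real.exp (8000 * C * J * s * Real.sqrt s / n) +
        K₁ * Real.exp ((l₁ - 1) * (2 * s ^ 2 * Real.sqrt s / n)) + K₂ * Real.exp ((l₂ - 1) * (2 * s ^ 2 * Real.sqrt s / n)) +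
        K₃ * Real.exp ((l₃ - 1) * (2 * s ^ 2 * Real.sqrt s / n)) := by
    have h1 : Ex f W (fun S => Ex f W (fun S' => ind (GoodT c r s X (δ / 32) k S) * ind (GoodT c r s X (δ / 32) k S') *
      (A * Real.exp (a * ∑ v ∈ S ∩ S', (dvS c r k S v ^ 2 + dvS c r k S' v ^ 2)) + K₁ * l₁ ^ (S ∩ S').card +
        K₂ * l₂ ^ (S ∩ S').card + K₃ * l₃ ^ (S ∩ S').card))) ≤
      Ex f W (fun S => Ex f W (fun S' => A * (ind (GoodT c r s X (δ / 32) k S) * ind (GoodT c r s X (δ / 32) k S') *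
        Real.exp (a * ∑ v ∈ S ∩ S', (dvS c r k S v ^ 2 + dvS c r k S' v ^ 2))) + K₁ * l₁ ^ (S ∩ S').card +
        K₂ * l₂ ^ (S ∩ S').card + K₃ * l₃ ^ (S ∩ S').card)) := by
      refine Ex_mono hf fun S _ => Ex_mono hf fun S' _ => ?_
      have i0 : 0 ≤ ind (GoodT c r s X (δ / 32) k S) * ind (GoodT c r s X (δ / 32) k S') :=
        mul_nonneg (ind_nonneg _) (ind_nonneg _)
      have i1 : ind (GoodT c r s X (δ / 32) k S) * ind (GoodT c r s X (δ / 32) k S') ≤ 1 :=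
        mul_le_one₀ (ind_le_one _) (ind_nonneg _) (ind_le_one _)
      obtain ⟨I, hI⟩ : ∃ I, I = ind (GoodT c r s X (δ / 32) k S) * ind (GoodT c r s X (δ / 32) k S') := ⟨_, rfl⟩
      rw [← hI] at i0 i1 ⊢
      have j1 := mul_le_of_le_one_left (hl1j (S ∩ S').card) i1
      have j2 := mul_le_of_le_one_left (hl2j (S ∩ S').card) i1
      have j3 := mul_le_of_le_one_left (hl3j (S ∩ S').card) i1
      have e : I * (A * Real.exp (a * ∑ v ∈ S ∩ S', (dvS c r k S v ^ 2 + dvS c r k S' v ^ 2)) + K₁ * l₁ ^ (S ∩ S').card +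
        K₂ * l₂ ^ (S ∩ S').card + K₃ * l₃ ^ (S ∩ S').card) =
        A * (I * Real.exp (a * ∑ v ∈ S ∩ S', (dvS c r k S v ^ 2 + dvS c r k S' v ^ 2))) + I * (K₁ * l₁ ^ (S ∩ S').card) +
        I * (K₂ * l₂ ^ (S ∩ S').card) + I * (K₃ * l₃ ^ (S ∩ S').card) := by ring
      rw [e]
      linarith
    refine h1.trans ?_
    rw [lin3 f W (fun S S' => ind (GoodT c r s X (δ / 32) k S) * ind (GoodT c r s X (δ / 32) k S') *
        Real.exp (a * ∑ v ∈ S ∩ S', (dvS c r k S v ^ 2 + dvS c r k S' v ^ 2))) (fun S S' => l₁ ^ (S ∩ S').card)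
        (fun S S' => l₂ ^ (S ∩ S').card) (fun S S' => l₃ ^ (S ∩ S').card) A K₁ K₂ K₃]
    have m1 := mul_le_mul_of_nonneg_left hexp hA0.le
    have m2 := mul_le_mul_of_nonneg_left (hlam l₁ hl₁) hK₁
    have m3 := mul_le_mul_of_nonneg_left (hlam l₂ hl₂) hK₂
    have m4 := mul_le_mul_of_nonneg_left (hlam l₃ hl₃) hK₃
    linarith
  have hmain := pzg (p := fun _ => 1 / 2) (s := r) hp hf
    (fun h S => ∀ v ∈ S, dg (c ∪ h) S v = k) (GoodT c r s X (δ / 32) k)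
    (fun S S' => A * Real.exp (a * ∑ v ∈ S ∩ S', (dvS c r k S v ^ 2 + dvS c r k S' v ^ 2)) + K₁ * l₁ ^ (S ∩ S').card +
        K₂ * l₂ ^ (S ∩ S').card + K₃ * l₃ ^ (S ∩ S').card) hgood hM ?_ ?_
  · rw [← hA]
    refine hmain.trans (mul_le_mul_of_nonneg_left ?_ ?_)
    · refine Ex_mono hp fun h _ => ind_mono3 ?_
      rintro ⟨S, _, hGS, hEv⟩
      exact ⟨S, hGS.1.1, k, hEv⟩
    · have e0 := mul_nonneg hA0.le (Real.exp_pos (8000 * C * J * s * Real.sqrt s / n)).le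
      have e1 := mul_nonneg hK₁ (Real.exp_pos ((l₁ - 1) * (2 * s ^ 2 * Real.sqrt s / n))).le
      have e2 := mul_nonneg hK₂ (Real.exp_pos ((l₂ - 1) * (2 * s ^ 2 * Real.sqrt s / n))).le
      have e3 := mul_nonneg hK₃ (Real.exp_pos ((l₃ - 1) * (2 * s ^ 2 * Real.sqrt s / n))).le
      linarith
  · intro S _ hGS
    have h1 := hT (Fin n) c r δ s X L k S hd hnd hD hβδ hk hGS hL32 hm3 hs hX0 hη3'
    show 0 < qS c r k S
    refine lt_of_le_of_ne (hq0 S) fun h3 => ?_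
    rw [← h3, mul_zero] at h1
    linarith
  · intro S _ S' _ hGS hGS'
    show _ ≤ _ * (qS c r k S * qS c r k S')
    have hqq : 0 ≤ qS c r k S * qS c r k S' := mul_nonneg (hq0 S) (hq0 S')
    have hSg : 0 ≤ ∑ v ∈ S ∩ S', (dvS c r k S v ^ 2 + dvS c r k S' v ^ 2) := sum_nonneg fun v _ => by positivity
    have hE : 0 ≤ A * Real.exp (a * ∑ v ∈ S ∩ S', (dvS c r k S v ^ 2 + dvS c r k S' v ^ 2)) := by positivity
    have z1 := hl1j (S ∩ S').card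
    have z2 := hl2j (S ∩ S').card
    have z3 := hl3j (S ∩ S').card
    have hj0 : (0 : ℝ) ≤ ((S ∩ S').card : ℝ) := Nat.cast_nonneg _
    rcases le_total ((S ∩ S').card : ℝ) (c₂ * s) with h | h
    · rcases le_total ((S ∩ S').card : ℝ) J with hJj | hJj
      · have h1 := hsb (Fin n) c r δ s X L k S S' hd hnd hD hβδ hk hGS hGS' hL32 hmb hs hX0 hηb'
          (h.trans (mul_le_mul_of_nonneg_right hc₂c hs0.le))
        refine h1.trans (mul_le_mul_of_nonneg_right ?_ hqq)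
        have h2 : Cb * Real.exp (Cb * (S ∩ S').card ^ 2 / s + Cb * (S ∩ S').card / s ^ 2 *
            ∑ v ∈ S ∩ S', (dvS c r k S v ^ 2 + dvS c r k S' v ^ 2)) ≤
            A * Real.exp (a * ∑ v ∈ S ∩ S', (dvS c r k S v ^ 2 + dvS c r k S' v ^ 2)) := by
          rw [hA, ha, mul_assoc, ← Real.exp_add]
          refine mul_le_mul hCbC (Real.exp_le_exp.2 (add_le_add ?_ ?_)) (Real.exp_pos _).le hC0.le
          · refine div_le_div_of_nonneg_right ?_ hs0.le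
            exact mul_le_mul hCbC (pow_le_pow_left₀ hj0 hJj 2) (by positivity) hC0.le
          · refine mul_le_mul_of_nonneg_right ?_ hSg
            refine div_le_div_of_nonneg_right ?_ (by positivity)
            exact mul_le_mul hCbC hJj hj0 hC0.le
        linarith
      · have h1 := hsa (Fin n) c r δ s X L k S S' hd hnd hD hβδ hk hGS.1 hGS'.1 hL32 hma hs hX0 hηa'
          (h.trans (mul_le_mul_of_nonneg_right hc₂a hs0.le))
        refine h1.trans (mul_le_mul_of_nonneg_right ?_ hqq)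
        have h2 : Ca * Real.exp (Ca * (S ∩ S').card ^ 2 * (1 + X ^ 2 / s) / s) ≤
            C * Real.exp (C * (S ∩ S').card ^ 2 * (1 + X ^ 2 / s) / s) := by
          refine mul_le_mul hCaC (Real.exp_le_exp.2 ?_) (Real.exp_pos _).le hC0.le
          refine div_le_div_of_nonneg_right ?_ hs0.le
          refine mul_le_mul_of_nonneg_right ?_ (by positivity)
          exact mul_le_mul_of_nonneg_right hCaC (by positivity)
        have h3 := hj1 _ hJj h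
        linarith
    · have h1 := hla (Fin n) c r δ s X L k S S' hd hnd hD hβδ hk hGS hGS' hL32 hLc hm2 hs hX0 hη2' h
      refine h1.trans (mul_le_mul_of_nonneg_right ((hj2 _ h).trans ?_) hqq)
      linarith

end PLS
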