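import Pool.Agent.PLR.Defs

/-!
# PLS.Defs: the sharp exponent `1/2`, definitions
-/

set_option autoImplicit false

namespace PLS

open Finset Smo PLR

/-- the sets that are used: `PLR.GoodS` and a bound for the sum of the squares of the deviations -/
def GoodT {V : Type*} [DecidableEq V] (c r : Finset (Sym2 V)) (s X β : ℝ) (k : ℕ) (S : Finset V) : Prop :=
  GoodS c r s X β k S ∧ ∑ v ∈ S, (∑ u ∈ S.erase v, ph c r s(v, u) - k) ^ 2 ≤ 1000 * s ^ 2

/-- the probability that all degrees inside `S` are `k` -/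
noncomputable def qS {V : Type*} [DecidableEq V] (c r : Finset (Sym2 V)) (k : ℕ) (S : Finset V) : ℝ :=
  Ex (fun _ => 1 / 2) r (fun h => ind (∀ v ∈ S, dg (c ∪ h) S v = k))

end PLS
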