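import Pool.Agent.PLS.One3
import Pool.Agent.PLS.Blk

/-!
# PLS.FinS: final theorem, exact order of magnitude

`M = ⌊t^2⌋` (`t^2/2 ≤ M ≤ t^2 ≤ n^(1/6)`), `N = ⌊n/M⌋ ≥ n/(2M)`, so `N ≥ n^(5/6)/2 ≥ n^(4/5)` for large `n` and `N^(1/4) ≥ n^(1/5)`: the density hypothesis passes to `P ∘ Sym2.map φ` on `Fin N` (see `PLS/FinG.lean`). `one3`: size `κ √N ≥ κ √n/(√2 t)`. `blocks`: at most `(1-p₀)^M ≤ exp(-p₀ t^2/2)`. `c = min(κ/2, p₀/2)`.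
-/

set_option autoImplicit false

namespace PLS

open Finset Smo PLR

private theorem numS {p₀ : ℝ} (hp : 0 < p₀) (hp1 : p₀ ≤ 1) (n₁ : ℕ) :
    ∃ n₀ : ℕ, ∀ n : ℕ, n₀ ≤ n → ∀ t : ℝ, 1 ≤ t → t ≤ (n : ℝ) ^ (1 / 12 : ℝ) →
      ∃ M N : ℕ, M * N ≤ n ∧ n₁ ≤ N ∧ Real.sqrt n / (2 * t) ≤ Real.sqrt N ∧
      (n : ℝ) ^ (1 / 5 : ℝ) ≤ (N : ℝ) ^ (1 / 4 : ℝ) ∧
      (1 - p₀) ^ M ≤ Real.exp (-(p₀ / 2 * t ^ 2)) := by
  have t1 : Filter.Tendsto (fun n : ℕ => (n : ℝ) ^ (1 / 30 : ℝ)) Filter.atTop Filter.atTop :=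
    (tendsto_rpow_atTop (by norm_num)).comp tendsto_natCast_atTop_atTop
  have t2 : Filter.Tendsto (fun n : ℕ => (n : ℝ) ^ (4 / 5 : ℝ)) Filter.atTop Filter.atTop :=
    (tendsto_rpow_atTop (by norm_num)).comp tendsto_natCast_atTop_atTop
  obtain ⟨n₀, hn₀⟩ := Filter.eventually_atTop.1 (((t1.eventually_ge_atTop 2).and
    (t2.eventually_ge_atTop (n₁ : ℝ))).and (Filter.eventually_ge_atTop 1))
  refine ⟨n₀, fun n hn t ht1 htn => ?_⟩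
  obtain ⟨⟨h1, h2⟩, h3⟩ := hn₀ n hn
  have hn1 : (1 : ℝ) ≤ n := by exact_mod_cast h3
  have hn0 : (0 : ℝ) < n := by linarith
  have hprod : (n : ℝ) = (n : ℝ) ^ (4 / 5 : ℝ) * (n : ℝ) ^ (1 / 30 : ℝ) * (n : ℝ) ^ (1 / 6 : ℝ) := by
    rw [← Real.rpow_add hn0, ← Real.rpow_add hn0]
    have e1 : (4 / 5 : ℝ) + 1 / 30 + 1 / 6 = 1 := by norm_num
    rw [e1, Real.rpow_one]
  have hw2 : ((n : ℝ) ^ (1 / 12 : ℝ)) ^ 2 = (n : ℝ) ^ (1 / 6 : ℝ) := by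
    rw [← Real.rpow_natCast, ← Real.rpow_mul hn0.le]
    congr 1
    norm_num
  have hwn : (n : ℝ) ^ (1 / 6 : ℝ) ≤ n := by
    calc (n : ℝ) ^ (1 / 6 : ℝ) ≤ (n : ℝ) ^ (1 : ℝ) :=
          Real.rpow_le_rpow_of_exponent_le hn1 (by norm_num)
      _ = n := Real.rpow_one _
  have hz1 : 1 ≤ (n : ℝ) ^ (4 / 5 : ℝ) := Real.one_le_rpow hn1 (by norm_num)
  have hw1 : 1 ≤ (n : ℝ) ^ (1 / 6 : ℝ) := Real.one_le_rpow hn1 (by norm_num)
  have hzz : (n : ℝ) ^ (1 / 5 : ℝ) = ((n : ℝ) ^ (4 / 5 : ℝ)) ^ (1 / 4 : ℝ) := by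
    rw [← Real.rpow_mul hn0.le]
    congr 1
    norm_num
  rw [hzz]
  have ht2 : t ^ 2 ≤ (n : ℝ) ^ (1 / 6 : ℝ) := by
    rw [← hw2]
    exact pow_le_pow_left₀ (by linarith) htn 2
  generalize (n : ℝ) ^ (4 / 5 : ℝ) = z at h2 hprod hz1 ⊢
  generalize (n : ℝ) ^ (1 / 30 : ℝ) = y at h1 hprod
  generalize (n : ℝ) ^ (1 / 6 : ℝ) = w at hprod hwn hw1 ht2
  have htt : 1 ≤ t ^ 2 := by nlinarith
  have hM1 : (⌊t ^ 2⌋₊ : ℝ) ≤ t ^ 2 := Nat.floor_le (by positivity)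
  have hM2 : t ^ 2 < (⌊t ^ 2⌋₊ : ℝ) + 1 := Nat.lt_floor_add_one _
  have hM3 : 1 ≤ ⌊t ^ 2⌋₊ := by
    rw [Nat.one_le_floor_iff]
    exact htt
  generalize ⌊t ^ 2⌋₊ = M at hM1 hM2 hM3
  have hM3' : (1 : ℝ) ≤ M := by exact_mod_cast hM3
  have hMt : t ^ 2 / 2 ≤ M := by linarith
  have hMn : M ≤ n := by
    have : (M : ℝ) ≤ n := by linarith
    exact_mod_cast this
  have hN1 : 1 ≤ n / M := Nat.div_pos hMn (by omega)
  have hN1' : (1 : ℝ) ≤ ((n / M : ℕ) : ℝ) := by exact_mod_cast hN1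
  have hlt : (n : ℝ) < M * (((n / M : ℕ) : ℝ) + 1) := by
    exact_mod_cast Nat.lt_mul_div_succ n (by omega : 0 < M)
  have hle := Nat.mul_div_le n M
  obtain ⟨N, hNd⟩ : ∃ N, N = n / M := ⟨_, rfl⟩
  rw [← hNd] at hN1' hlt hle
  have hlt2 : (n : ℝ) < 2 * t ^ 2 * N := by
    calc (n : ℝ) < M * ((N : ℝ) + 1) := hlt
      _ ≤ t ^ 2 * (2 * N) := mul_le_mul hM1 (by linarith) (by linarith) (by positivity)
      _ = 2 * t ^ 2 * N := by ring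
  have hN : z ≤ N := by
    have h4 : z * y * w < 2 * N * w := by
      rw [← hprod]
      calc (n : ℝ) < 2 * t ^ 2 * N := hlt2
        _ = 2 * N * t ^ 2 := by ring
        _ ≤ 2 * N * w := mul_le_mul_of_nonneg_left ht2 (by positivity)
    have h5 : z * y < 2 * N := lt_of_mul_lt_mul_right h4 (by linarith)
    nlinarith
  refine ⟨M, N, hle, ?_, ?_, ?_, ?_⟩
  · have : (n₁ : ℝ) ≤ N := h2.trans hN
    exact_mod_cast this
  · apply Real.le_sqrt_of_sq_le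
    rw [div_pow, Real.sq_sqrt hn0.le, div_le_iff₀ (by positivity)]
    have h6 : (0 : ℝ) ≤ t ^ 2 * N := by positivity
    calc (n : ℝ) ≤ 2 * t ^ 2 * N := hlt2.le
      _ ≤ N * (2 * t) ^ 2 := by nlinarith
  · exact Real.rpow_le_rpow (by linarith) hN (by norm_num)
  · calc (1 - p₀) ^ M ≤ Real.exp (-p₀) ^ M :=
          pow_le_pow_left₀ (by linarith) (Real.one_sub_le_exp_neg p₀) M
      _ = Real.exp (-(p₀ * M)) := by
        rw [← Real.exp_nat_mul]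
        congr 1
        ring
      _ ≤ Real.exp (-(p₀ / 2 * t ^ 2)) := Real.exp_le_exp.2 (by nlinarith)

private theorem map_mem_prs {n N : ℕ} (φ : Fin N ↪ Fin n) {e : Sym2 (Fin N)}
    (he : e ∈ prs (univ : Finset (Fin N))) : Sym2.map φ e ∈ prs (univ : Finset (Fin n)) := by
  induction e using Sym2.ind with
  | _ a b =>
    rw [mem_prs] at he
    rw [Sym2.map_mk, mem_prs]
    exact ⟨mem_univ _, mem_univ _, fun h => he.2.2 (φ.injective h)⟩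

private theorem mem_btw' {V : Type*} [DecidableEq V] {E : Finset (Sym2 V)} {A B : Finset V}
    {e : Sym2 V} : e ∈ PLR.btw E A B ↔ e ∈ E ∧ ∃ a ∈ A, ∃ b ∈ B, e = s(a, b) := by
  unfold PLR.btw
  exact mem_filter

private theorem dense_map {n N : ℕ} (φ : Fin N ↪ Fin n) {P : Sym2 (Fin n) → ℝ} {δ : ℝ} {L : ℕ}
    (hD : DenseR δ L ((prs (univ : Finset (Fin n))).filter fun e => δ ≤ P e ∧ P e ≤ 1 - δ)) :
    DenseR δ L ((prs (univ : Finset (Fin N))).filter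
      fun e => δ ≤ P (Sym2.map φ e) ∧ P (Sym2.map φ e) ≤ 1 - δ) := by
  intro A B hAB hA hB
  have h1 := hD (A.map φ) (B.map φ) ((Finset.disjoint_map φ).2 hAB)
    (by rw [card_map]; exact hA) (by rw [card_map]; exact hB)
  rw [card_map, card_map] at h1
  refine h1.trans ?_
  have h2 : (btw ((prs (univ : Finset (Fin n))).filter fun e => δ ≤ P e ∧ P e ≤ 1 - δ)
      (A.map φ) (B.map φ)).card ≤ (btw ((prs (univ : Finset (Fin N))).filter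
      fun e => δ ≤ P (Sym2.map φ e) ∧ P (Sym2.map φ e) ≤ 1 - δ) A B).card := by
    have h3 : btw ((prs (univ : Finset (Fin n))).filter fun e => δ ≤ P e ∧ P e ≤ 1 - δ)
        (A.map φ) (B.map φ) ⊆ (btw ((prs (univ : Finset (Fin N))).filter
        fun e => δ ≤ P (Sym2.map φ e) ∧ P (Sym2.map φ e) ≤ 1 - δ) A B).image (Sym2.map φ) := by
      intro e he
      obtain ⟨he1, a', ha', b', hb', rfl⟩ := mem_btw'.1 he
      obtain ⟨a, ha, rfl⟩ := mem_map.1 ha'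
      obtain ⟨b, hb, rfl⟩ := mem_map.1 hb'
      refine mem_image.2 ⟨s(a, b), ?_, rfl⟩
      refine mem_btw'.2 ⟨mem_filter.2 ⟨?_, (mem_filter.1 he1).2⟩, a, ha, b, hb, rfl⟩
      rw [mem_prs]
      exact ⟨mem_univ _, mem_univ _, fun h => Finset.disjoint_left.1 hAB ha (h ▸ hb)⟩
    exact (card_le_card h3).trans card_image_le
  exact_mod_cast h2

theorem core5 (δ : ℝ) (hδ : 0 < δ) (hδ1 : δ ≤ 1 / 4) : ∃ c : ℝ, 0 < c ∧ ∃ n₀ : ℕ, ∀ n : ℕ, n₀ ≤ n →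
    ∀ P : Sym2 (Fin n) → ℝ, (∀ e ∈ prs (univ : Finset (Fin n)), 0 ≤ P e ∧ P e ≤ 1) →
      (∀ L : ℕ, (n : ℝ) ^ (1 / 5 : ℝ) ≤ L →
        DenseR δ L ((prs (univ : Finset (Fin n))).filter fun e => δ ≤ P e ∧ P e ≤ 1 - δ)) →
      ∀ t : ℝ, 1 ≤ t → t ≤ (n : ℝ) ^ (1 / 12 : ℝ) →
      Ex P (prs univ) (fun ω => ind (∀ S : Finset (Fin n), c * Real.sqrt n / t ≤ S.card → ¬ Reg ω S)) ≤
        Real.exp (-(c * t ^ 2)) := by
  obtain ⟨p₀, κ, hp, hp1, hκ, n₁, hn₁⟩ := one3 δ hδ hδ1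
  obtain ⟨n₀, hn₀⟩ := numS hp hp1 n₁
  refine ⟨min (κ / 2) (p₀ / 2), lt_min (by positivity) (by positivity), n₀,
    fun n hn P hP hD t ht htn => ?_⟩
  have hc1 : min (κ / 2) (p₀ / 2) ≤ κ / 2 := min_le_left _ _
  have hc2 : min (κ / 2) (p₀ / 2) ≤ p₀ / 2 := min_le_right _ _
  generalize min (κ / 2) (p₀ / 2) = c at hc1 hc2 ⊢
  obtain ⟨M, N, hMN, hN, hx, hL, hex⟩ := hn₀ n hn t ht htn
  have hex' : (1 - p₀) ^ M ≤ Real.exp (-(c * t ^ 2)) := by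
    refine hex.trans (Real.exp_le_exp.2 ?_)
    have := mul_le_mul_of_nonneg_right hc2 (sq_nonneg t)
    linarith
  have hxc : c * Real.sqrt n / t ≤ κ * Real.sqrt N := by
    have ht0 : 0 < t := by linarith
    have h0 : 0 ≤ Real.sqrt n := Real.sqrt_nonneg _
    calc c * Real.sqrt n / t ≤ κ / 2 * Real.sqrt n / t := by
          gcongr
      _ = κ * (Real.sqrt n / (2 * t)) := by
        field_simp
      _ ≤ κ * Real.sqrt N := mul_le_mul_of_nonneg_left hx hκ.le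
  refine (blocks hMN hP hp.le hp1 (x := c * Real.sqrt n / t) fun φ => ?_).trans hex'
  have hP' : ∀ e ∈ prs (univ : Finset (Fin N)), 0 ≤ P (Sym2.map φ e) ∧ P (Sym2.map φ e) ≤ 1 :=
    fun e he => hP _ (map_mem_prs φ he)
  have h1 := hn₁ N hN (fun e => P (Sym2.map φ e)) hP'
    (fun L hNL => dense_map φ (hD L (hL.trans hNL)))
  refine h1.trans (Ex_mono hP' fun ω _ => ?_)
  by_cases h : ∃ S : Finset (Fin N), κ * Real.sqrt N ≤ S.card ∧ Reg ω S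
  · obtain ⟨S, hS, hR⟩ := h
    have h2 : ∃ S : Finset (Fin N), c * Real.sqrt n / t ≤ S.card ∧ Reg ω S :=
      ⟨S, hxc.trans hS, hR⟩
    exact (ind_le_one _).trans (le_of_eq (ind_of h2).symm)
  · rw [ind_not h]
    exact ind_nonneg _

end PLS
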