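import Pool.Agent.PLS.Defs

/-!
# PLS.Gd: random sets with a window of width `w`

`Ex_good'`: copy of `Smo.Ex_good` (`Smo/Sel.lean`) with `w` instead of `1` (there `D0 - 1`, here `D0 - w`).
`Ex_sq`: `∑_(v in S) g(v, S) = ∑_(v in W) ind(v ∈ S) g(v, S)`; given `v ∈ S` the sum `∑_(u in S.erase v) p s(v,u)` has mean `∑_(u in W.erase v) p s(v,u) f u` (within `w` of `c`) and variance at most `∑ f u p^2 ≤ s`; so the expectation is at most `∑_v f v (s + w^2)`.
(Condition on `v`: `Ex_insert` with `W = insert v (W.erase v)`; second moment of a sum of independent variables, e.g. by induction on the set.) `Ex_pair'`: the proof of `Smo.Ex_pair`, `∏ (1 + f^2 (lam - 1)) ≤ exp((lam - 1) ∑ f^2)`.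
-/

set_option autoImplicit false

namespace PLS

open Finset Smo PLR

variable {V : Type*} [DecidableEq V]

/-- second moment of a sum of independent variables -/
private theorem gd_sq {f a : V → ℝ} (W : Finset V) : ∀ c : ℝ,
    Ex f W (fun S => (∑ u ∈ S, a u - c) ^ 2) =
      ∑ u ∈ W, f u * (1 - f u) * a u ^ 2 + (∑ u ∈ W, a u * f u - c) ^ 2 := by
  induction W using Finset.induction_on with
  | empty => intro c; simp [Ex_empty]
  | insert e W he ih =>
    intro c
    rw [Ex_insert f he, ih c]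
    have h1 : Ex f W (fun S => (∑ u ∈ insert e S, a u - c) ^ 2) =
        Ex f W (fun S => (∑ u ∈ S, a u - (c - a e)) ^ 2) := by
      apply Ex_congr
      intro S hS
      rw [sum_insert (fun h => he (hS h))]
      ring
    rw [h1, ih (c - a e), sum_insert he, sum_insert he]
    ring

theorem Ex_good' {p : Sym2 V → ℝ} {f : V → ℝ} {W : Finset V} (hf : ∀ v ∈ W, 0 ≤ f v ∧ f v ≤ 1)
    (hp : ∀ u ∈ W, ∀ v ∈ W, u ≠ v → 0 ≤ p s(u, v) ∧ p s(u, v) ≤ 1) {s c D0 t w : ℝ}
    (hs : ∑ v ∈ W, f v = s) (hw : ∀ v ∈ W, |∑ u ∈ W.erase v, p s(v, u) * f u - c| ≤ w)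
    (ht : 0 ≤ t) (ht1 : t ≤ 1) (hc1 : 8 * Real.exp (-(s / 16)) ≤ 1)
    (hc2 : 8 * s * Real.exp (t ^ 2 * s - t * (D0 - w)) ≤ 1) :
    1 / 2 ≤ Ex f W (fun S => ind (Good p s c D0 S)) := by
  set m : V → ℝ := fun v => ∑ u ∈ W.erase v, p s(v, u) * f u with hm
  have hs0 : 0 ≤ s := hs ▸ sum_nonneg fun v hv => (hf v hv).1
  -- pointwise bound
  set Z : Finset V → ℝ := fun S => Real.exp (-(s / 8)) *
    (Real.exp (1 / 4 * (∑ u ∈ S, (1 : ℝ) - ∑ u ∈ W, 1 * f u)) +
      Real.exp (-(1 / 4) * (∑ u ∈ S, (1 : ℝ) - ∑ u ∈ W, 1 * f u))) with hZ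
  set Y : V → Finset V → ℝ := fun v S => if v ∈ S then Real.exp (-(t * (D0 - w))) *
    (Real.exp (t * (∑ u ∈ S.erase v, p s(v, u) - m v)) +
      Real.exp (-t * (∑ u ∈ S.erase v, p s(v, u) - m v))) else 0 with hY
  have hZ0 : ∀ S, 0 ≤ Z S := fun S => by positivity
  have hY0 : ∀ v S, 0 ≤ Y v S := by
    intro v S
    rw [hY]
    dsimp only
    split_ifs
    · positivity
    · exact le_refl 0
  have hsum1 : ∑ u ∈ W, 1 * f u = s := by
    rw [← hs]
    exact sum_congr rfl fun u _ => one_mul _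
  have hpt : ∀ S ⊆ W, 1 + (-1) * (Z S + ∑ v ∈ W, Y v S) ≤ ind (Good p s c D0 S) := by
    intro S hSW
    have hYs : 0 ≤ ∑ v ∈ W, Y v S := sum_nonneg fun v _ => hY0 v S
    by_cases hG : Good p s c D0 S
    · rw [ind_of hG]
      linarith [hZ0 S]
    · rw [ind_not hG]
      have hcard : ∑ u ∈ S, (1 : ℝ) = S.card := by rw [sum_const, nsmul_eq_mul, mul_one]
      have hZS : Z S = Real.exp (-(s / 8)) * (Real.exp (1 / 4 * (S.card - s)) + Real.exp (-(1 / 4) * (S.card - s))) := by
        rw [hZ]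
        dsimp only
        rw [hcard, hsum1]
      by_cases h1 : s / 2 ≤ S.card
      · by_cases h2 : (S.card : ℝ) ≤ 2 * s
        · have h3 : ∃ v ∈ S, D0 < |∑ u ∈ S.erase v, p s(v, u) - c| := by
            by_contra hno
            push Not at hno
            exact hG ⟨h1, h2, hno⟩
          obtain ⟨v, hv, hvD⟩ := h3
          have h4 := single_le_sum (fun v _ => hY0 v S) (hSW hv)
          have h5 : 1 ≤ Y v S := by
            rw [hY]
            dsimp only
            rw [if_pos hv, mul_add, ← Real.exp_add, ← Real.exp_add]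
            have h6 := abs_le.mp (hw v (hSW hv))
            change -w ≤ m v - c ∧ m v - c ≤ w at h6
            rcases le_total 0 (∑ u ∈ S.erase v, p s(v, u) - c) with h7 | h7
            · rw [abs_of_nonneg h7] at hvD
              have : 1 ≤ Real.exp (-(t * (D0 - w)) + t * (∑ u ∈ S.erase v, p s(v, u) - m v)) := by
                rw [Real.one_le_exp_iff]
                nlinarith [h6.1, h6.2]
              linarith [Real.exp_pos (-(t * (D0 - w)) + -t * (∑ u ∈ S.erase v, p s(v, u) - m v))]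
            · rw [abs_of_nonpos h7] at hvD
              have : 1 ≤ Real.exp (-(t * (D0 - w)) + -t * (∑ u ∈ S.erase v, p s(v, u) - m v)) := by
                rw [Real.one_le_exp_iff]
                nlinarith [h6.1, h6.2]
              linarith [Real.exp_pos (-(t * (D0 - w)) + t * (∑ u ∈ S.erase v, p s(v, u) - m v))]
          linarith [hZ0 S]
        · push Not at h2
          have h3 : 1 ≤ Z S := by
            rw [hZS, mul_add, ← Real.exp_add, ← Real.exp_add]
            have : 1 ≤ Real.exp (-(s / 8) + 1 / 4 * (S.card - s)) := by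
              rw [Real.one_le_exp_iff]
              linarith
            linarith [Real.exp_pos (-(s / 8) + -(1 / 4) * ((S.card : ℝ) - s))]
          linarith
      · push Not at h1
        have h3 : 1 ≤ Z S := by
          rw [hZS, mul_add, ← Real.exp_add, ← Real.exp_add]
          have : 1 ≤ Real.exp (-(s / 8) + -(1 / 4) * (S.card - s)) := by
            rw [Real.one_le_exp_iff]
            linarith
          linarith [Real.exp_pos (-(s / 8) + 1 / 4 * ((S.card : ℝ) - s))]
        linarith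
  refine le_trans ?_ (Ex_mono hf hpt)
  rw [Ex_add, Ex_one, Ex_mul_left, Ex_add, Ex_sum]
  have hZE : Ex f W Z ≤ 1 / 4 := by
    rw [hZ, Ex_mul_left, Ex_add]
    have h1 := Ex_exp_sum hf (a := fun _ => 1) (fun v _ => ⟨zero_le_one, le_refl 1⟩) (x := 1 / 4)
      (by rw [abs_of_nonneg] <;> norm_num) hs.le
    have h2 := Ex_exp_sum hf (a := fun _ => 1) (fun v _ => ⟨zero_le_one, le_refl 1⟩) (x := -(1 / 4))
      (by rw [abs_neg, abs_of_nonneg] <;> norm_num) hs.le
    have h3 : Real.exp (-(s / 16)) = Real.exp (-(s / 8)) * Real.exp ((1 / 4) ^ 2 * s) := by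
      rw [← Real.exp_add]
      congr 1
      ring
    have h4 : Real.exp (-(s / 16)) = Real.exp (-(s / 8)) * Real.exp ((-(1 / 4)) ^ 2 * s) := by
      rw [← Real.exp_add]
      congr 1
      ring
    have h5 := mul_le_mul_of_nonneg_left h1 (Real.exp_pos (-(s / 8))).le
    have h6 := mul_le_mul_of_nonneg_left h2 (Real.exp_pos (-(s / 8))).le
    rw [← h3] at h5
    rw [← h4] at h6
    rw [mul_add]
    linarith
  have hYE : ∀ v ∈ W, Ex f W (Y v) ≤ f v * (2 * Real.exp (t ^ 2 * s - t * (D0 - w))) := by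
    intro v hv
    have hins : insert v (W.erase v) = W := insert_erase hv
    have hnot : v ∉ W.erase v := notMem_erase v W
    have e1 : Ex f W (Y v) = (1 - f v) * Ex f (W.erase v) (Y v) +
        f v * Ex f (W.erase v) (fun S => Y v (insert v S)) := by
      conv_lhs => rw [← hins]
      exact Ex_insert f hnot _
    have e2 : Ex f (W.erase v) (Y v) = 0 := by
      have : Ex f (W.erase v) (Y v) = Ex f (W.erase v) (fun _ => 0) := by
        apply Ex_congr
        intro S hS
        rw [hY]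
        dsimp only
        rw [if_neg]
        exact fun h => hnot (hS h)
      rw [this, Ex_const]
    have e3 : Ex f (W.erase v) (fun S => Y v (insert v S)) = Real.exp (-(t * (D0 - w))) *
        (Ex f (W.erase v) (fun S => Real.exp (t * (∑ u ∈ S, p s(v, u) - m v))) +
          Ex f (W.erase v) (fun S => Real.exp (-t * (∑ u ∈ S, p s(v, u) - m v)))) := by
      rw [← Ex_add, ← Ex_mul_left]
      apply Ex_congr
      intro S hS
      rw [hY]
      dsimp only
      rw [if_pos (mem_insert_self v S), erase_insert (fun h => hnot (hS h))]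
    have hf' : ∀ u ∈ W.erase v, 0 ≤ f u ∧ f u ≤ 1 := fun u hu => hf u (mem_of_mem_erase hu)
    have hp' : ∀ u ∈ W.erase v, 0 ≤ p s(v, u) ∧ p s(v, u) ≤ 1 := fun u hu =>
      hp v hv u (mem_of_mem_erase hu) (ne_of_mem_erase hu).symm
    have hs' : ∑ u ∈ W.erase v, f u ≤ s := by
      rw [← hs, ← add_sum_erase W f hv]
      linarith [(hf v hv).1]
    have h1 := Ex_exp_sum hf' (a := fun u => p s(v, u)) hp' (x := t) (by rw [abs_of_nonneg ht]; exact ht1) hs'
    have h2 := Ex_exp_sum hf' (a := fun u => p s(v, u)) hp' (x := -t)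
      (by rw [abs_neg, abs_of_nonneg ht]; exact ht1) hs'
    rw [neg_sq] at h2
    rw [e1, e2, mul_zero, zero_add, e3]
    apply mul_le_mul_of_nonneg_left _ (hf v hv).1
    have h8 : 2 * Real.exp (t ^ 2 * s - t * (D0 - w)) =
        Real.exp (-(t * (D0 - w))) * (Real.exp (t ^ 2 * s) + Real.exp (t ^ 2 * s)) := by
      rw [sub_eq_add_neg, Real.exp_add]
      ring
    rw [h8]
    exact mul_le_mul_of_nonneg_left (add_le_add h1 h2) (Real.exp_pos _).le
  have hYS : ∑ v ∈ W, Ex f W (Y v) ≤ 1 / 4 := by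
    refine (sum_le_sum hYE).trans ?_
    rw [← sum_mul, hs]
    linarith
  linarith

theorem Ex_sq {p : Sym2 V → ℝ} {f : V → ℝ} {W : Finset V} (hf : ∀ v ∈ W, 0 ≤ f v ∧ f v ≤ 1)
    (hp : ∀ u ∈ W, ∀ v ∈ W, u ≠ v → 0 ≤ p s(u, v) ∧ p s(u, v) ≤ 1) {s c w : ℝ}
    (hs : ∑ v ∈ W, f v = s) (hw : ∀ v ∈ W, |∑ u ∈ W.erase v, p s(v, u) * f u - c| ≤ w) :
    Ex f W (fun S => ∑ v ∈ S, (∑ u ∈ S.erase v, p s(v, u) - c) ^ 2) ≤ s * (s + w ^ 2) := by
  have h0 : ∀ S ⊆ W, ∑ v ∈ S, (∑ u ∈ S.erase v, p s(v, u) - c) ^ 2 =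
      ∑ v ∈ W, (if v ∈ S then (∑ u ∈ S.erase v, p s(v, u) - c) ^ 2 else 0) := by
    intro S hS
    rw [← sum_filter]
    congr 1
    ext v
    rw [mem_filter]
    exact ⟨fun h => ⟨hS h, h⟩, fun h => h.2⟩
  rw [Ex_congr f W h0, Ex_sum]
  have h2 : ∀ v ∈ W, Ex f W (fun S => if v ∈ S then (∑ u ∈ S.erase v, p s(v, u) - c) ^ 2 else 0) ≤
      f v * (s + w ^ 2) := by
    intro v hv
    have hins : insert v (W.erase v) = W := insert_erase hv
    have hnot : v ∉ W.erase v := notMem_erase v W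
    have e1 : Ex f W (fun S => if v ∈ S then (∑ u ∈ S.erase v, p s(v, u) - c) ^ 2 else 0) =
        (1 - f v) * Ex f (W.erase v)
          (fun S => if v ∈ S then (∑ u ∈ S.erase v, p s(v, u) - c) ^ 2 else 0) +
        f v * Ex f (W.erase v) (fun S => if v ∈ insert v S then
          (∑ u ∈ (insert v S).erase v, p s(v, u) - c) ^ 2 else 0) := by
      conv_lhs => rw [← hins]
      exact Ex_insert f hnot _
    have e2 : Ex f (W.erase v) (fun S => if v ∈ S then (∑ u ∈ S.erase v, p s(v, u) - c) ^ 2 else 0) = 0 := by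
      have h3 : Ex f (W.erase v) (fun S => if v ∈ S then (∑ u ∈ S.erase v, p s(v, u) - c) ^ 2 else 0) =
          Ex f (W.erase v) (fun _ => 0) := by
        apply Ex_congr
        intro S hS
        rw [if_neg fun h => hnot (hS h)]
      rw [h3, Ex_const]
    have e3 : Ex f (W.erase v) (fun S => if v ∈ insert v S then
        (∑ u ∈ (insert v S).erase v, p s(v, u) - c) ^ 2 else 0) =
        Ex f (W.erase v) (fun S => (∑ u ∈ S, p s(v, u) - c) ^ 2) := by
      apply Ex_congr
      intro S hS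
      rw [if_pos (mem_insert_self v S), erase_insert fun h => hnot (hS h)]
    rw [e1, e2, e3, mul_zero, zero_add, gd_sq (a := fun u => p s(v, u)) (W.erase v) c]
    refine mul_le_mul_of_nonneg_left (add_le_add ?_ ?_) (hf v hv).1
    · have h4 : ∑ u ∈ W.erase v, f u * (1 - f u) * p s(v, u) ^ 2 ≤ ∑ u ∈ W.erase v, f u := by
        refine sum_le_sum fun u hu => ?_
        have h5 := hf u (mem_of_mem_erase hu)
        have h6 := hp v hv u (mem_of_mem_erase hu) (ne_of_mem_erase hu).symm
        have h7 : p s(v, u) ^ 2 ≤ 1 := by nlinarith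
        have h8 : f u * (1 - f u) ≤ f u := by nlinarith
        have h9 : 0 ≤ f u * (1 - f u) := mul_nonneg h5.1 (by linarith [h5.2])
        calc f u * (1 - f u) * p s(v, u) ^ 2 ≤ f u * (1 - f u) * 1 := mul_le_mul_of_nonneg_left h7 h9
          _ ≤ f u := by rw [mul_one]; exact h8
      refine h4.trans ?_
      rw [← hs, ← add_sum_erase W f hv]
      linarith [(hf v hv).1]
    · have h5 := hw v hv
      rw [← sq_abs]
      exact pow_le_pow_left₀ (abs_nonneg _) h5 2
  refine (sum_le_sum h2).trans ?_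
  rw [← sum_mul, hs]

theorem Ex_pair' {f : V → ℝ} {W : Finset V} (hf : ∀ v ∈ W, 0 ≤ f v ∧ f v ≤ 1) {lam : ℝ} (hlam : 1 ≤ lam) :
    Ex f W (fun S => Ex f W (fun S' => lam ^ (S ∩ S').card)) ≤ Real.exp ((lam - 1) * ∑ v ∈ W, f v ^ 2) := by
  have h1 : ∀ S ⊆ W, Ex f W (fun S' => lam ^ (S ∩ S').card) = ∏ u ∈ S, (1 + f u * (lam - 1)) := by
    intro S hS
    have h2 : Ex f W (fun S' => lam ^ (S ∩ S').card) = Ex f W (fun S' => ∏ u ∈ S', if u ∈ S then lam else 1) := by
      apply Ex_congr
      intro S' _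
      rw [prod_ite, prod_const_one, mul_one, prod_const]
      congr 2
      ext u
      rw [mem_inter, mem_filter, and_comm]
    rw [h2, Ex_prod]
    have h3 : ∏ u ∈ W, (1 - f u + f u * (if u ∈ S then lam else 1)) =
        ∏ u ∈ W, (if u ∈ S then 1 + f u * (lam - 1) else 1) := by
      apply prod_congr rfl
      intro u _
      split_ifs <;> ring
    rw [h3, prod_ite, prod_const_one, mul_one]
    congr 1
    ext u
    rw [mem_filter]
    exact ⟨fun h => h.2, fun h => ⟨hS h, h⟩⟩
  rw [Ex_congr f W h1, Ex_prod]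
  calc ∏ u ∈ W, (1 - f u + f u * (1 + f u * (lam - 1))) ≤ ∏ u ∈ W, Real.exp ((lam - 1) * f u ^ 2) := by
        apply prod_le_prod
        · intro u hu
          have := hf u hu
          have h4 : 0 ≤ f u * (f u * (lam - 1)) := by
            apply mul_nonneg this.1
            exact mul_nonneg this.1 (by linarith)
          nlinarith
        · intro u hu
          have h5 := Real.add_one_le_exp ((lam - 1) * f u ^ 2)
          nlinarith
    _ = Real.exp (∑ u ∈ W, (lam - 1) * f u ^ 2) := by rw [Real.exp_sum]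
    _ = Real.exp ((lam - 1) * ∑ v ∈ W, f v ^ 2) := by rw [← mul_sum]

end PLS
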