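import Pool.Agent.PLS.FinS
import Pool.Agent.Smo.Fin

/-!
# PLS.Graph5: translation of `PLS.core5` to simple graphs
-/

set_option autoImplicit false

namespace PLS

open Finset Smo PLR

private theorem g5_mem {V : Type*} [DecidableEq V] {R : Finset (Sym2 V)} {A B : Finset V} {e : Sym2 V} :
    e ∈ btw R A B ↔ e ∈ R ∧ ∃ a ∈ A, ∃ b ∈ B, e = s(a, b) := by
  unfold PLR.btw
  exact Finset.mem_filter

/-- pairs between disjoint sets, counted as ordered pairs or as unordered ones -/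
private theorem g5_card {V : Type*} [DecidableEq V] (R : Finset (Sym2 V)) {A B : Finset V} (h : Disjoint A B) :
    ((A ×ˢ B).filter fun x => s(x.1, x.2) ∈ R).card ≤ (btw R A B).card := by
  apply card_le_card_of_injOn (fun x : V × V => s(x.1, x.2))
  · intro x hx
    rw [mem_coe, mem_filter, mem_product] at hx
    exact g5_mem.2 ⟨hx.2, x.1, hx.1.1, x.2, hx.1.2, rfl⟩
  · intro x hx y hy hxy
    rw [mem_coe, mem_filter, mem_product] at hx hy
    dsimp only at hxy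
    rw [Sym2.eq_iff] at hxy
    rcases hxy with ⟨h1, h2⟩ | ⟨h1, h2⟩
    · exact Prod.ext h1 h2
    · exfalso
      exact disjoint_left.mp h hx.1.1 (h1 ▸ hy.1.2)

open Classical in
theorem main5 (δ : ℝ) (hδ : 0 < δ) : ∃ c : ℝ, 0 < c ∧ ∃ n₀ : ℕ, ∀ n : ℕ, n₀ ≤ n →
    ∀ p : Fin n → Fin n → ℝ, (∀ i j, p i j = p j i) → (∀ i j, i ≠ j → 0 ≤ p i j ∧ p i j ≤ 1) →
      (∀ A B : Finset (Fin n), Disjoint A B → (n : ℝ) ^ (1 / 5 : ℝ) ≤ A.card → (n : ℝ) ^ (1 / 5 : ℝ) ≤ B.card →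
        δ * A.card * B.card ≤ ((A ×ˢ B).filter fun x => δ ≤ p x.1 x.2 ∧ p x.1 x.2 ≤ 1 - δ).card) →
      ∀ t : ℝ, 1 ≤ t → t ≤ (n : ℝ) ^ (1 / 12 : ℝ) →
      ∑ G : SimpleGraph (Fin n) with ∀ S : Finset (Fin n), c * Real.sqrt n / t ≤ S.card →
        ¬ ∃ k : ℕ, ∀ v ∈ S, (S.filter fun w => G.Adj v w).card = k, wt p G ≤ Real.exp (-(c * t ^ 2)) := by
  set δ' : ℝ := min δ (1 / 4) with hδ'
  have h2 : δ' ≤ δ := min_le_left _ _
  have hδ'0 : 0 < δ' := lt_min hδ (by norm_num)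
  obtain ⟨c, hc0, n₀, hn₀⟩ := core5 δ' hδ'0 (min_le_right _ _)
  refine ⟨c, hc0, n₀, fun n hn p hp hp01 hden t ht1 ht2 => ?_⟩
  have hP : ∀ e ∈ prs (univ : Finset (Fin n)), 0 ≤ lift p hp e ∧ lift p hp e ≤ 1 := by
    intro e
    induction e using Sym2.ind with
    | _ a b =>
      intro he
      rw [mem_prs] at he
      exact hp01 a b he.2.2
  have hD : ∀ L : ℕ, (n : ℝ) ^ (1 / 5 : ℝ) ≤ L →
      DenseR δ' L ((prs (univ : Finset (Fin n))).filter fun e => δ' ≤ lift p hp e ∧ lift p hp e ≤ 1 - δ') := by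
    intro L hL A B hAB hA hB
    have hA' : (n : ℝ) ^ (1 / 5 : ℝ) ≤ A.card := hL.trans (by exact_mod_cast hA)
    have hB' : (n : ℝ) ^ (1 / 5 : ℝ) ≤ B.card := hL.trans (by exact_mod_cast hB)
    have h3 := hden A B hAB hA' hB'
    have h4 := g5_card ((prs (univ : Finset (Fin n))).filter fun e => δ' ≤ lift p hp e ∧ lift p hp e ≤ 1 - δ') hAB
    have h5 : ((A ×ˢ B).filter fun x => δ ≤ p x.1 x.2 ∧ p x.1 x.2 ≤ 1 - δ).card ≤
        ((A ×ˢ B).filter fun x => s(x.1, x.2) ∈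
          (prs (univ : Finset (Fin n))).filter fun e => δ' ≤ lift p hp e ∧ lift p hp e ≤ 1 - δ').card := by
      apply card_le_card
      intro x hx
      rw [mem_filter, mem_product] at hx ⊢
      refine ⟨hx.1, ?_⟩
      rw [mem_filter, mem_prs]
      refine ⟨⟨mem_univ _, mem_univ _, fun h => disjoint_left.mp hAB hx.1.1 (h ▸ hx.1.2)⟩, ?_⟩
      change δ' ≤ p x.1 x.2 ∧ p x.1 x.2 ≤ 1 - δ'
      exact ⟨by linarith [hx.2.1], by linarith [hx.2.2]⟩
    have h6 : (((A ×ˢ B).filter fun x => δ ≤ p x.1 x.2 ∧ p x.1 x.2 ≤ 1 - δ).card : ℝ) ≤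
        (btw ((prs (univ : Finset (Fin n))).filter fun e => δ' ≤ lift p hp e ∧ lift p hp e ≤ 1 - δ') A B).card := by
      exact_mod_cast h5.trans h4
    refine le_trans ?_ (h3.trans h6)
    have h7 : (0 : ℝ) ≤ (A.card : ℝ) * B.card := by positivity
    nlinarith
  have hc := hn₀ n hn (lift p hp) hP hD t ht1 ht2
  refine le_trans ?_ hc
  rw [← sum_wt p hp, sum_filter]
  have hwt0 : ∀ G : SimpleGraph (Fin n), 0 ≤ wt p G := by
    intro G
    unfold wt
    apply prod_nonneg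
    intro x hx
    have h1 := hp01 x.1 x.2 (mem_filter.mp hx).2.ne
    split_ifs <;> linarith [h1.1, h1.2]
  apply sum_le_sum
  intro G _
  split_ifs with hG
  · rw [ind_of, mul_one]
    intro S hS hReg
    exact hG S hS ((reg_iff G S).mp hReg)
  · exact mul_nonneg (hwt0 G) (ind_nonneg _)

end PLS
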