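import Pool.Agent.PLS.Up3
import Pool.Agent.Smo.Fin

/-!
# PLS.GraphU: translation of `PLS.upper_ex` to simple graphs
-/

set_option autoImplicit false

namespace PLS

open Finset Smo PLR

open Classical in
theorem main_up (n : ℕ) : ∃ p : Fin n → Fin n → ℝ, (∀ i j, p i j = p j i) ∧ (∀ i j, 1 / 4 ≤ p i j ∧ p i j ≤ 3 / 4) ∧
    ∑ G : SimpleGraph (Fin n) with ∃ S : Finset (Fin n), 8 * Real.sqrt n ≤ S.card ∧
      ∃ k : ℕ, ∀ v ∈ S, (S.filter fun w => G.Adj v w).card = k, wt p G ≤ Real.exp (-Real.sqrt n) := by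
  obtain ⟨w, hw, hE⟩ := upper_ex n
  have hp : ∀ i j : Fin n, (fun i j => w (min i j)) i j = (fun i j => w (min i j)) j i := by
    intro i j
    show w (min i j) = w (min j i)
    rw [min_comm]
  refine ⟨fun i j => w (min i j), hp, fun i j => hw _, ?_⟩
  have hl : Ex (lift (fun i j => w (min i j)) hp) (prs univ)
      (fun ω => ind (∃ S : Finset (Fin n), 8 * Real.sqrt n ≤ S.card ∧ Reg ω S)) =
      Ex (pw w) (prs univ) (fun ω => ind (∃ S : Finset (Fin n), 8 * Real.sqrt n ≤ S.card ∧ Reg ω S)) := by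
    congr 1
    ext e
    induction e using Sym2.ind with
    | _ a b => rfl
  refine le_trans ?_ hE
  rw [← hl, ← sum_wt _ hp, sum_filter]
  have hwt0 : ∀ G : SimpleGraph (Fin n), 0 ≤ wt (fun i j => w (min i j)) G := by
    intro G
    unfold wt
    apply prod_nonneg
    intro x _
    have h1 := hw (min x.1 x.2)
    split_ifs <;> linarith [h1.1, h1.2]
  apply sum_le_sum
  intro G _
  split_ifs with hG
  · rw [ind_of, mul_one]
    obtain ⟨S, hS, hr⟩ := hG
    exact ⟨S, hS, (reg_iff G S).mpr hr⟩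
  · exact mul_nonneg (hwt0 G) (ind_nonneg _)

end PLS
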