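import Pool.Agent.PLR.Defs

/-!
# PLS.Prm3b: parameters, intersections above `c₂ s`, for `s = 2 κ √n`

`c₂ = min(c₁, 1/(272 C))`. `κ` small: `(2κ)^4 ≤ 1/(256000 C)`, `(2κ) ≤ δ/128`, `c₂ log(1/(8κ^2)) ≥ C₂ + 2`. `s = 2 κ √n`, `X = 4 √(s log n)`, `L = ⌈n^(1/4)⌉`, `k₀ = 2 s^2 √s/n = 2 (2κ)^(5/2) n^(1/4)`, `J = 16 k₀`, `Λ = 1 + 16 log n ≤ 17 log n`.
`J^2/s = 1024 s^4/n^2 = 1024 (2κ)^4`, so `C exp(C J^2/s) ≤ C e`; `8000 C J s √s/n = 256000 C s^4/n^2 ≤ 1`; `2 C J X^2/s^2 = 1024 C s^(3/2) log n/n ≤ 1` (large `n`).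
`l₁ = 4`, `K₁ = C 2^(-J)`: for `J ≤ j ≤ J₂ = s log 2/(C Λ)`: `C exp(C j^2 Λ/s) ≤ C 2^j ≤ K₁ 4^j`; `K₁ exp(3 k₀) = C exp(3 k₀ - 16 k₀ log 2) ≤ C`.
`l₂ = n^(1/8)`, `K₂ = C n^(-J₂/16)`: for `J₂ ≤ j ≤ c₂ s`: `C j^2 Λ/s ≤ 17 C c₂ j log n ≤ (j/16) log n`; `K₂ exp(l₂ k₀) ≤ C exp(2 n^(3/8) - s log 2/(272 C)) ≤ C` (large `n`).
`l₃ = √s x`, `x = n/(2 s^2) = 1/(8 κ^2)`, `K₃ = exp(C₂ s) √s^L x^(-c₂ s)`: `l₃ k₀ = s`, exponent `C₂ s + s + (L/2) log s - c₂ s log x ≤ 0` for large `n`. Sum at most `C e^2 + C + C + 1 ≤ 11 C`.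
`64 s √s (L+1) ≤ 64 (2κ)^(3/2) n^(3/4) (n^(1/4) + 2) ≤ δ n`. The rest as in `PLS/PrmG.lean`. Here: `l₃`. Compare `PLS/Prm2G.lean`.
-/

set_option autoImplicit false

namespace PLS

open Finset Smo PLR

private theorem prm3b_core {c₂ C₂ κ N s : ℝ} (hκ : 0 < κ) (hκ1 : κ ≤ 1 / 4)
    (hκ2 : C₂ + 2 ≤ c₂ * Real.log (1 / (8 * κ ^ 2))) (hN : 1 ≤ N) (ha : 8 / κ ≤ N ^ (1 / 8 : ℝ))
    (hs : s = 2 * κ * Real.sqrt N) (L : ℕ) (hL : (L : ℝ) ≤ N ^ (1 / 4 : ℝ) + 1) :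
    ∃ l₃ K₃ : ℝ, 1 ≤ l₃ ∧ 0 ≤ K₃ ∧
      (∀ j : ℕ, c₂ * s ≤ j → Real.exp (C₂ * s) * Real.sqrt s ^ (j + L) ≤ K₃ * l₃ ^ j) ∧
      K₃ * Real.exp ((l₃ - 1) * (2 * s ^ 2 * Real.sqrt s / N)) ≤ 1 := by
  have hN0 : 0 < N := by linarith
  have hlog : 0 ≤ Real.log N := Real.log_nonneg hN
  obtain ⟨x, hx⟩ : ∃ x : ℝ, x = 1 / (8 * κ ^ 2) := ⟨_, rfl⟩
  rw [← hx] at hκ2
  have hκsq : κ ^ 2 ≤ 1 / 16 := by nlinarith
  have hx1 : 1 ≤ x := by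
    rw [hx, le_div_iff₀ (by positivity)]
    linarith
  have hx0 : 0 < x := by linarith
  have hxκ : x * (8 * κ ^ 2) = 1 := by
    rw [hx]
    field_simp
  -- powers of N
  have h8 : 8 ≤ κ * N ^ (1 / 8 : ℝ) := by
    rw [div_le_iff₀ hκ] at ha
    linarith
  have h38 : N ^ (1 / 8 : ℝ) * N ^ (3 / 8 : ℝ) = Real.sqrt N := by
    rw [← Real.rpow_add hN0, Real.sqrt_eq_rpow]
    norm_num
  have h14 : N ^ (1 / 4 : ℝ) * N ^ (1 / 8 : ℝ) = N ^ (3 / 8 : ℝ) := by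
    rw [← Real.rpow_add hN0]
    norm_num
  have h1 : 1 ≤ N ^ (1 / 4 : ℝ) := Real.one_le_rpow hN (by norm_num)
  have h2 : 1 ≤ N ^ (3 / 8 : ℝ) := Real.one_le_rpow hN (by norm_num)
  have hs16 : 16 * N ^ (3 / 8 : ℝ) ≤ s := by
    have h3 := mul_le_mul_of_nonneg_right h8 (show 0 ≤ N ^ (3 / 8 : ℝ) by positivity)
    rw [hs, ← h38]
    linarith
  have hs1 : 1 ≤ s := by linarith
  have hs0 : 0 < s := by linarith
  have hq1 : 1 ≤ Real.sqrt N := Real.one_le_sqrt.2 hN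
  have hq : Real.sqrt N * Real.sqrt N = N := Real.mul_self_sqrt hN0.le
  have hsN : s ≤ N := by
    have h3 : 2 * κ * Real.sqrt N ≤ 1 * Real.sqrt N :=
      mul_le_mul_of_nonneg_right (by linarith) (Real.sqrt_nonneg N)
    have h4 : 1 * Real.sqrt N ≤ Real.sqrt N * Real.sqrt N :=
      mul_le_mul_of_nonneg_right hq1 (Real.sqrt_nonneg N)
    rw [hs]
    linarith
  have hss : Real.sqrt s * Real.sqrt s = s := Real.mul_self_sqrt hs0.le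
  have hsq1 : 1 ≤ Real.sqrt s := Real.one_le_sqrt.2 hs1
  have hsqN : Real.sqrt s ≤ N := by
    have h3 : Real.sqrt s * 1 ≤ Real.sqrt s * Real.sqrt s :=
      mul_le_mul_of_nonneg_left hsq1 (Real.sqrt_nonneg s)
    linarith
  have hs2 : s ^ 2 = 4 * κ ^ 2 * N := by
    rw [hs, mul_pow, mul_pow, Real.sq_sqrt hN0.le]
    ring
  refine ⟨Real.sqrt s * x, Real.exp (C₂ * s) * Real.sqrt s ^ L * x ^ (-(c₂ * s)), ?_, by positivity, ?_, ?_⟩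
  · exact one_le_mul_of_one_le_of_one_le hsq1 hx1
  · intro j hj
    have h4 : 1 ≤ x ^ (-(c₂ * s)) * x ^ j := by
      rw [← Real.rpow_natCast x j, ← Real.rpow_add hx0]
      exact Real.one_le_rpow hx1 (by linarith)
    calc Real.exp (C₂ * s) * Real.sqrt s ^ (j + L) = Real.exp (C₂ * s) * Real.sqrt s ^ (j + L) * 1 := by ring
      _ ≤ Real.exp (C₂ * s) * Real.sqrt s ^ (j + L) * (x ^ (-(c₂ * s)) * x ^ j) :=
          mul_le_mul_of_nonneg_left h4 (by positivity)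
      _ = Real.exp (C₂ * s) * Real.sqrt s ^ L * x ^ (-(c₂ * s)) * (Real.sqrt s * x) ^ j := by
          rw [mul_pow, pow_add]
          ring
  · have h3 : Real.sqrt s * x * (2 * s ^ 2 * Real.sqrt s / N) = s := by
      have h4 : Real.sqrt s * x * (2 * s ^ 2 * Real.sqrt s / N) =
          (Real.sqrt s * Real.sqrt s) * x * (2 * s ^ 2) / N := by ring
      rw [h4, hss, hs2]
      have h5 : s * x * (2 * (4 * κ ^ 2 * N)) / N = s * (x * (8 * κ ^ 2)) := by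
        rw [div_eq_iff hN0.ne']
        ring
      rw [h5, hxκ, mul_one]
    have h4 : (Real.sqrt s * x - 1) * (2 * s ^ 2 * Real.sqrt s / N) ≤ s := by
      have h5 : 0 ≤ 2 * s ^ 2 * Real.sqrt s / N := by positivity
      rw [sub_mul, one_mul, h3]
      linarith
    have h5 : Real.sqrt s ^ L ≤ Real.exp (L * Real.log N) := by
      have h6 : Real.exp (L * Real.log N) = N ^ L := by
        rw [Real.exp_nat_mul, Real.exp_log hN0]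
      rw [h6]
      exact pow_le_pow_left₀ (Real.sqrt_nonneg _) hsqN _
    have h6 : x ^ (-(c₂ * s)) = Real.exp (-(c₂ * s) * Real.log x) := by
      rw [Real.rpow_def_of_pos hx0, mul_comm]
    have h7 : (L : ℝ) * Real.log N ≤ s := by
      have h9 : Real.log N ≤ 8 * N ^ (1 / 8 : ℝ) := by
        have := Real.log_le_rpow_div hN0.le (show (0 : ℝ) < 1 / 8 by norm_num)
        linarith
      calc (L : ℝ) * Real.log N ≤ (2 * N ^ (1 / 4 : ℝ)) * (8 * N ^ (1 / 8 : ℝ)) :=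
            mul_le_mul (by linarith) h9 hlog (by positivity)
        _ = 16 * (N ^ (1 / 4 : ℝ) * N ^ (1 / 8 : ℝ)) := by ring
        _ = 16 * N ^ (3 / 8 : ℝ) := by rw [h14]
        _ ≤ s := hs16
    have h9 : (C₂ + 2) * s ≤ c₂ * Real.log x * s := mul_le_mul_of_nonneg_right hκ2 hs0.le
    calc Real.exp (C₂ * s) * Real.sqrt s ^ L * x ^ (-(c₂ * s)) *
          Real.exp ((Real.sqrt s * x - 1) * (2 * s ^ 2 * Real.sqrt s / N)) ≤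
          Real.exp (C₂ * s) * Real.exp (L * Real.log N) * Real.exp (-(c₂ * s) * Real.log x) * Real.exp s := by
          rw [h6]
          gcongr
      _ = Real.exp (C₂ * s + L * Real.log N + -(c₂ * s) * Real.log x + s) := by
          rw [Real.exp_add, Real.exp_add, Real.exp_add]
      _ ≤ 1 := by
          rw [Real.exp_le_one_iff]
          linarith

/-- intersections above `c₂ s` -/
theorem prm3b (c₂ C₂ κ : ℝ) (hc₂ : 0 < c₂) (hC₂ : 1 ≤ C₂) (hκ : 0 < κ) (hκ1 : κ ≤ 1 / 4)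
    (hκ2 : C₂ + 2 ≤ c₂ * Real.log (1 / (8 * κ ^ 2))) :
    ∃ n₀ : ℕ, 2 ≤ n₀ ∧ ∀ n : ℕ, n₀ ≤ n → ∀ s : ℝ, s = 2 * κ * Real.sqrt n → ∀ L : ℕ, (L : ℝ) ≤ (n : ℝ) ^ (1 / 4 : ℝ) + 1 →
      ∃ l₃ K₃ : ℝ, 1 ≤ l₃ ∧ 0 ≤ K₃ ∧
      (∀ j : ℕ, c₂ * s ≤ j → Real.exp (C₂ * s) * Real.sqrt s ^ (j + L) ≤ K₃ * l₃ ^ j) ∧
      K₃ * Real.exp ((l₃ - 1) * (2 * s ^ 2 * Real.sqrt s / n)) ≤ 1 := by
  have hcast := tendsto_natCast_atTop_atTop (R := ℝ)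
  have e1 : ∀ᶠ n : ℕ in Filter.atTop, 8 / κ ≤ (n : ℝ) ^ (1 / 8 : ℝ) :=
    ((tendsto_rpow_atTop (by norm_num : (0 : ℝ) < 1 / 8)).comp hcast).eventually_ge_atTop _
  obtain ⟨n1, h1⟩ := Filter.eventually_atTop.1 e1
  refine ⟨max n1 2, le_max_right _ _, ?_⟩
  intro n hn s hs L hL
  have h5 : (1 : ℝ) ≤ n := by exact_mod_cast le_trans (by omega : 1 ≤ max n1 2) hn
  exact prm3b_core hκ hκ1 hκ2 h5 (h1 n (le_trans (le_max_left _ _) hn)) hs L hL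

end PLS
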