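import Pool.Agent.PLS.Prm3a
import Pool.Agent.PLS.Prm3b

/-!
# PLS.Prm4: all parameters for `s = 2 κ √n`

See the head of `PLS/Prm3a.lean`; `prm3a`, `prm3b`; the other conditions as in `PLS/PrmG.lean` (`X = 4 √(s log n)`, `X^2/s = 16 log n`, `X^2 = 16 s log n`; `L = ⌈n^(1/4)⌉`). `κ = min` of `1/4`, `δ/256`, `(1/(256000 C))`/2 (then `(2κ)^4 ≤ 2κ ≤ 1/(256000 C)`), `exp(-(C₂+2)/(2 c₂))/3` (then `1/(8κ^2) ≥ exp((C₂+2)/c₂)`).
-/

set_option autoImplicit false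

namespace PLS

open Finset Smo PLR

private theorem prm4_ev1 (a K : ℝ) (ha : 0 < a) : ∀ᶠ l : ℝ in Filter.atTop, K ≤ Real.exp (a * l) :=
  (Real.tendsto_exp_atTop.comp (Filter.Tendsto.const_mul_atTop ha Filter.tendsto_id)).eventually
    (Filter.eventually_ge_atTop K)

private theorem prm4_ev2 (a K : ℝ) (ha : 0 < a) : ∀ᶠ l : ℝ in Filter.atTop, K * l ≤ Real.exp (a * l) := by
  filter_upwards [Filter.eventually_ge_atTop (0 : ℝ), Filter.eventually_ge_atTop (2 * K / a ^ 2)] with l h0 h1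
  have h2 := Real.pow_div_factorial_le_exp (a * l) (by positivity) 2
  have h3 : ((Nat.factorial 2 : ℕ) : ℝ) = 2 := by norm_num [Nat.factorial]
  rw [h3] at h2
  rw [div_le_iff₀ (by positivity)] at h1
  have h4 : 2 * K * l ≤ l * a ^ 2 * l := mul_le_mul_of_nonneg_right h1 h0
  calc K * l = 2 * K * l / 2 := by ring
    _ ≤ l * a ^ 2 * l / 2 := div_le_div_of_nonneg_right h4 (by norm_num)
    _ = (a * l) ^ 2 / 2 := by ring
    _ ≤ _ := h2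

/-- the conditions in terms of `l = log n` -/
private theorem prm4_cond (δ κ c₂ η C₀ : ℝ) (m₀ : ℕ) (hδ : 0 < δ) (hκ : 0 < κ) (hκ1 : κ ≤ 1 / 4) (hκ2 : κ ≤ δ / 256)
    (hc₂ : 0 < c₂) (hη : 0 < η) : ∀ᶠ l : ℝ in Filter.atTop, ∀ (s : ℝ) (L : ℕ), s = 2 * κ * Real.exp (1 / 2 * l) →
      L = ⌈Real.exp (1 / 4 * l)⌉₊ →
      C₀ * l ≤ L ∧ 1 ≤ s ∧ 64 * s * Real.sqrt s * (L + 1) ≤ δ * Real.exp l ∧
      8 * Real.sqrt s + 8 ≤ 4 * Real.sqrt (s * l) ∧ 4 * Real.sqrt (s * l) ≤ s ∧ 8 * Real.exp (-(s / 16)) ≤ 1 ∧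
      8 * s * Real.exp (-l) ≤ 1 ∧
      16 * s * Real.exp (-(δ ^ 2 * s / 2000)) ≤ 1 ∧ (m₀ : ℝ) ≤ s / 2 ∧ 4 * Real.sqrt (s * l) ≤ η * s ∧
      (L : ℝ) ≤ δ / 1024 * s ∧ (L : ℝ) ≤ c₂ * s := by
  filter_upwards [Filter.eventually_ge_atTop (32 : ℝ), prm4_ev2 (1 / 4) C₀ (by norm_num),
    prm4_ev1 (1 / 2) (96 / (2 * κ)) (by norm_num), prm4_ev1 (1 / 2) ((m₀ : ℝ) / κ) (by norm_num),
    prm4_ev1 (1 / 2) (32 * (2000 / δ ^ 2) ^ 2 / (2 * κ)) (by norm_num),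
    prm4_ev2 (1 / 2) (16 / (2 * κ)) (by norm_num), prm4_ev2 (1 / 2) (16 / η ^ 2 / (2 * κ)) (by norm_num),
    prm4_ev1 (1 / 4) (1024 / (δ * κ)) (by norm_num), prm4_ev1 (1 / 4) (1 / (c₂ * κ)) (by norm_num)]
    with l h1 h2 h4 h5 h6 h7 h8 h9 h10
  intro s L hs hL
  have hl0 : 0 ≤ l := by linarith
  have h2κ : 0 < 2 * κ := by linarith
  have hE : 0 < Real.exp (1 / 2 * l) := Real.exp_pos _
  have hs96 : 96 ≤ s := by
    rw [div_le_iff₀ h2κ] at h4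
    rw [hs]; linarith
  have hs0 : 0 < s := by linarith
  have hLge : Real.exp (1 / 4 * l) ≤ (L : ℝ) := by rw [hL]; exact Nat.le_ceil _
  have hE1 : 9 ≤ Real.exp (1 / 4 * l) := by
    have := Real.add_one_le_exp (1 / 4 * l)
    linarith
  have hLle : (L : ℝ) ≤ Real.exp (1 / 4 * l) + 1 := by
    rw [hL]; exact (Nat.ceil_lt_add_one (Real.exp_pos _).le).le
  have hLle2 : (L : ℝ) ≤ 2 * Real.exp (1 / 4 * l) := by linarith
  have hsqs : 1 ≤ Real.sqrt s := by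
    rw [Real.one_le_sqrt]; linarith
  have hsplit : Real.exp (1 / 2 * l) = Real.exp (1 / 4 * l) * Real.exp (1 / 4 * l) := by
    rw [← Real.exp_add]; congr 1; ring
  have hsplit2 : Real.exp l = Real.exp (1 / 2 * l) * Real.exp (1 / 2 * l) := by
    rw [← Real.exp_add]; congr 1; ring
  refine ⟨h2.trans hLge, by linarith, ?_, ?_, ?_, ?_, ?_, ?_, ?_, ?_, ?_, ?_⟩
  · -- 64 s √s (L+1) ≤ δ exp l
    have ha : (L : ℝ) + 1 ≤ 2 * Real.exp (1 / 4 * l) := by linarith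
    have hb : Real.sqrt s ≤ Real.exp (1 / 4 * l) := by
      rw [Real.sqrt_le_left (by positivity), hs, sq, ← hsplit]
      have : 2 * κ * Real.exp (1 / 2 * l) ≤ 1 * Real.exp (1 / 2 * l) :=
        mul_le_mul_of_nonneg_right (by linarith) hE.le
      linarith
    calc 64 * s * Real.sqrt s * (L + 1)
        ≤ 64 * s * (Real.exp (1 / 4 * l)) * (2 * Real.exp (1 / 4 * l)) := by
          apply mul_le_mul (mul_le_mul_of_nonneg_left hb (by positivity)) ha (by positivity) (by positivity)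
      _ = 256 * κ * Real.exp l := by
          rw [hs, hsplit2, hsplit]; ring
      _ ≤ δ * Real.exp l := mul_le_mul_of_nonneg_right (by linarith) (Real.exp_pos _).le
  · -- 8 √s + 8 ≤ X
    have ha : 4 ≤ Real.sqrt l := Real.le_sqrt_of_sq_le (by linarith)
    rw [Real.sqrt_mul hs0.le]
    have hb : Real.sqrt s * 4 ≤ Real.sqrt s * Real.sqrt l := mul_le_mul_of_nonneg_left ha (Real.sqrt_nonneg _)
    linarith
  · -- X ≤ s
    have ha : Real.sqrt (s * l) ≤ s / 4 := by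
      rw [Real.sqrt_le_left (by positivity)]
      have hb : 16 * l ≤ s := by
        rw [div_mul_eq_mul_div, div_le_iff₀ h2κ] at h7
        rw [hs]; linarith
      calc s * l = s * (16 * l) / 16 := by ring
        _ ≤ s * s / 16 := div_le_div_of_nonneg_right (mul_le_mul_of_nonneg_left hb hs0.le) (by norm_num)
        _ = (s / 4) ^ 2 := by ring
    linarith
  · -- 8 exp (-s/16) ≤ 1
    have ha : Real.exp (-(s / 16)) ≤ Real.exp (-3) := Real.exp_le_exp.2 (by linarith)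
    have h3 : (8 : ℝ) ≤ Real.exp 3 := by
      have := Real.quadratic_le_exp_of_nonneg (x := 3) (by norm_num)
      linarith
    rw [Real.exp_neg 3] at ha
    have hb : (Real.exp 3)⁻¹ ≤ 1 / 8 := by
      rw [← one_div]
      exact one_div_le_one_div_of_le (by norm_num) h3
    linarith
  · -- 8 s exp (-l) ≤ 1
    have ha : 16 ≤ Real.exp (1 / 2 * l) := by
      have := Real.add_one_le_exp (1 / 2 * l)
      linarith
    have hb : s ≤ 1 / 2 * Real.exp (1 / 2 * l) := by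
      rw [hs]
      exact mul_le_mul_of_nonneg_right (by linarith) hE.le
    have hc : 8 * s ≤ Real.exp l := by
      rw [hsplit2]
      have he := mul_le_mul_of_nonneg_right ha (Real.exp_pos (1 / 2 * l)).le
      linarith
    rw [Real.exp_neg, ← div_eq_mul_inv, div_le_one (Real.exp_pos _)]
    exact hc
  · -- 16 s exp (-δ² s/2000) ≤ 1
    have ha : (δ ^ 2 * s / 2000) ^ 2 / 2 ≤ Real.exp (δ ^ 2 * s / 2000) := by
      have := Real.pow_div_factorial_le_exp (δ ^ 2 * s / 2000) (by positivity) 2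
      simpa [Nat.factorial] using this
    have h9a : 32 * (2000 / δ ^ 2) ^ 2 ≤ s := by
      rw [div_le_iff₀ h2κ] at h6
      rw [hs]; linarith
    have hb : 16 * s ≤ (δ ^ 2 * s / 2000) ^ 2 / 2 := by
      have h9' : 32 * 2000 ^ 2 ≤ s * (δ ^ 2) ^ 2 := by
        rw [div_pow, ← mul_div_assoc, div_le_iff₀ (by positivity)] at h9a
        exact h9a
      calc 16 * s = (32 * 2000 ^ 2) * s / (2 * 2000 ^ 2) := by ring
        _ ≤ (s * (δ ^ 2) ^ 2) * s / (2 * 2000 ^ 2) := by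
            apply div_le_div_of_nonneg_right _ (by norm_num)
            exact mul_le_mul_of_nonneg_right h9' hs0.le
        _ = _ := by ring
    rw [Real.exp_neg, ← div_eq_mul_inv, div_le_one (Real.exp_pos _)]
    linarith
  · -- m₀ ≤ s/2
    rw [div_le_iff₀ hκ] at h5
    rw [hs]; linarith
  · -- X ≤ η s
    have ha : Real.sqrt (s * l) ≤ η * s / 4 := by
      rw [Real.sqrt_le_left (by positivity)]
      have hb : 16 * l ≤ η ^ 2 * s := by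
        have hb1 : 16 / η ^ 2 * l ≤ s := by
          rw [div_mul_eq_mul_div, div_le_iff₀ h2κ] at h8
          rw [hs]; linarith
        rw [div_mul_eq_mul_div, div_le_iff₀ (by positivity)] at hb1
        linarith
      calc s * l = s * (16 * l) / 16 := by ring
        _ ≤ s * (η ^ 2 * s) / 16 := div_le_div_of_nonneg_right (mul_le_mul_of_nonneg_left hb hs0.le) (by norm_num)
        _ = (η * s / 4) ^ 2 := by ring
    linarith
  · -- L ≤ δ/1024 s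
    have ha : 1024 ≤ δ * κ * Real.exp (1 / 4 * l) := by
      rw [div_le_iff₀ (by positivity)] at h9
      linarith
    have hb : 1024 * (2 * Real.exp (1 / 4 * l)) ≤ δ * s := by
      calc 1024 * (2 * Real.exp (1 / 4 * l)) ≤ (δ * κ * Real.exp (1 / 4 * l)) * (2 * Real.exp (1 / 4 * l)) :=
            mul_le_mul_of_nonneg_right ha (by positivity)
        _ = δ * s := by rw [hs, hsplit]; ring
    linarith
  · -- L ≤ c₂ s
    have ha : 1 ≤ c₂ * κ * Real.exp (1 / 4 * l) := by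
      rw [div_le_iff₀ (by positivity)] at h10
      linarith
    calc (L : ℝ) ≤ 1 * (2 * Real.exp (1 / 4 * l)) := by linarith
      _ ≤ (c₂ * κ * Real.exp (1 / 4 * l)) * (2 * Real.exp (1 / 4 * l)) := mul_le_mul_of_nonneg_right ha (by positivity)
      _ = c₂ * s := by rw [hs, hsplit]; ring

private theorem prm4_kappa (δ C c₂ C₂ : ℝ) (hδ : 0 < δ) (hC : 1 ≤ C) (hc₂ : 0 < c₂) :
    ∃ κ : ℝ, 0 < κ ∧ κ ≤ 1 / 4 ∧ κ ≤ δ / 256 ∧ 256000 * C * (2 * κ) ^ 4 ≤ 1 ∧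
      C₂ + 2 ≤ c₂ * Real.log (1 / (8 * κ ^ 2)) := by
  obtain ⟨κ, hκ⟩ : ∃ κ : ℝ, κ = min (min (1 / 4) (δ / 256)) (min (1 / (512000 * C)) (Real.exp (-((C₂ + 2) / (2 * c₂))) / 3)) :=
    ⟨_, rfl⟩
  have hC0 : 0 < C := by linarith
  have h0 : 0 < κ := by
    rw [hκ]
    have := Real.exp_pos (-((C₂ + 2) / (2 * c₂)))
    positivity
  have h1 : κ ≤ 1 / 4 := by rw [hκ]; exact (min_le_left _ _).trans (min_le_left _ _)
  have h2 : κ ≤ δ / 256 := by rw [hκ]; exact (min_le_left _ _).trans (min_le_right _ _)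
  have h3 : κ ≤ 1 / (512000 * C) := by rw [hκ]; exact (min_le_right _ _).trans (min_le_left _ _)
  have h4 : κ ≤ Real.exp (-((C₂ + 2) / (2 * c₂))) / 3 := by rw [hκ]; exact (min_le_right _ _).trans (min_le_right _ _)
  refine ⟨κ, h0, h1, h2, ?_, ?_⟩
  · rw [le_div_iff₀ (by positivity)] at h3
    have h5 : (2 * κ) ^ 4 ≤ 2 * κ := by
      have h6 : (2 * κ) ^ 3 ≤ 1 := pow_le_one₀ (by positivity) (by linarith)
      calc (2 * κ) ^ 4 = (2 * κ) ^ 3 * (2 * κ) := by ring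
        _ ≤ 1 * (2 * κ) := mul_le_mul_of_nonneg_right h6 (by positivity)
        _ = 2 * κ := one_mul _
    calc 256000 * C * (2 * κ) ^ 4 ≤ 256000 * C * (2 * κ) := mul_le_mul_of_nonneg_left h5 (by positivity)
      _ ≤ 1 := by linarith
  · have h5 : 8 * κ ^ 2 ≤ Real.exp (-((C₂ + 2) / c₂)) := by
      have h6 : κ ^ 2 ≤ (Real.exp (-((C₂ + 2) / (2 * c₂))) / 3) ^ 2 := pow_le_pow_left₀ h0.le h4 2
      have h7 : Real.exp (-((C₂ + 2) / (2 * c₂))) ^ 2 = Real.exp (-((C₂ + 2) / c₂)) := by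
        rw [← Real.exp_nat_mul]; congr 1; push_cast; field_simp
      rw [div_pow, h7] at h6
      have h8 := Real.exp_pos (-((C₂ + 2) / c₂))
      linarith
    have h6 : (C₂ + 2) / c₂ ≤ Real.log (1 / (8 * κ ^ 2)) := by
      rw [Real.le_log_iff_exp_le (by positivity), le_div_iff₀ (by positivity)]
      calc Real.exp ((C₂ + 2) / c₂) * (8 * κ ^ 2) ≤ Real.exp ((C₂ + 2) / c₂) * Real.exp (-((C₂ + 2) / c₂)) :=
            mul_le_mul_of_nonneg_left h5 (Real.exp_pos _).le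
        _ = 1 := by rw [← Real.exp_add]; simp
    rw [div_le_iff₀ hc₂] at h6
    linarith

theorem prm4 (δ C c₁ : ℝ) (hδ : 0 < δ) (hδ1 : δ ≤ 1) (hC : 1 ≤ C) (hc₁ : 0 < c₁) (hc₁1 : c₁ ≤ 1) :
    ∃ c₂ : ℝ, 0 < c₂ ∧ c₂ ≤ c₁ ∧ ∀ (C₂ η C₀ : ℝ) (m₀ : ℕ), 1 ≤ C₂ → 0 < η → ∃ κ : ℝ, 0 < κ ∧ ∃ n₀ : ℕ, 2 ≤ n₀ ∧ ∀ n : ℕ, n₀ ≤ n →
      ∃ (s X J : ℝ) (L : ℕ) (l₁ l₂ l₃ K₁ K₂ K₃ : ℝ), (n : ℝ) ^ (1 / 4 : ℝ) ≤ L ∧ κ * Real.sqrt n ≤ s / 2 ∧ C₀ * Real.log n ≤ L ∧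
      1 ≤ L ∧ 1 ≤ s ∧ 64 * s * Real.sqrt s * (L + 1) ≤ δ * n ∧
      8 * Real.sqrt s + 8 ≤ X ∧ X ≤ s ∧ 8 * Real.exp (-(s / 16)) ≤ 1 ∧ 8 * s * Real.exp (-(X ^ 2 / (16 * s))) ≤ 1 ∧
      16 * s * Real.exp (-(δ ^ 2 * s / 2000)) ≤ 1 ∧ (m₀ : ℝ) ≤ s / 2 ∧ X ≤ η * s ∧ (L : ℝ) ≤ δ / 1024 * s ∧ (L : ℝ) ≤ c₂ * s ∧
      0 ≤ J ∧ J ≤ c₂ * s ∧ 2 * C * J * X ^ 2 ≤ s ^ 2 ∧
      1 ≤ l₁ ∧ 1 ≤ l₂ ∧ 1 ≤ l₃ ∧ 0 ≤ K₁ ∧ 0 ≤ K₂ ∧ 0 ≤ K₃ ∧
      (∀ j : ℕ, J ≤ j → (j : ℝ) ≤ c₂ * s → C * Real.exp (C * j ^ 2 * (1 + X ^ 2 / s) / s) ≤ K₁ * l₁ ^ j + K₂ * l₂ ^ j) ∧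
      (∀ j : ℕ, c₂ * s ≤ j → Real.exp (C₂ * s) * Real.sqrt s ^ (j + L) ≤ K₃ * l₃ ^ j) ∧
      C * Real.exp (C * J ^ 2 / s) * Real.exp (8000 * C * J * s * Real.sqrt s / n) +
        K₁ * Real.exp ((l₁ - 1) * (2 * s ^ 2 * Real.sqrt s / n)) + K₂ * Real.exp ((l₂ - 1) * (2 * s ^ 2 * Real.sqrt s / n)) +
        K₃ * Real.exp ((l₃ - 1) * (2 * s ^ 2 * Real.sqrt s / n)) ≤ 11 * C := by
  have hC0 : 0 < C := by linarith
  obtain ⟨c₂, hc₂⟩ : ∃ c₂ : ℝ, c₂ = min c₁ (1 / (272 * C)) := ⟨_, rfl⟩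
  have hc₂0 : 0 < c₂ := by rw [hc₂]; positivity
  have hc₂1 : c₂ ≤ c₁ := by rw [hc₂]; exact min_le_left _ _
  have hc₂2 : 272 * C * c₂ ≤ 1 := by
    have h : c₂ ≤ 1 / (272 * C) := by rw [hc₂]; exact min_le_right _ _
    rw [le_div_iff₀ (by positivity)] at h
    linarith
  refine ⟨c₂, hc₂0, hc₂1, ?_⟩
  intro C₂ η C₀ m₀ hC₂ hη
  obtain ⟨κ, hκ0, hκ1, hκ2, hκ3, hκ4⟩ := prm4_kappa δ C c₂ C₂ hδ hC hc₂0
  refine ⟨κ, hκ0, ?_⟩
  obtain ⟨n1, hn1, h1⟩ := prm3a C c₂ κ hC hc₂0 hc₂2 hκ0 hκ3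
  obtain ⟨n2, hn2, h2⟩ := prm3b c₂ C₂ κ hc₂0 hC₂ hκ0 hκ1 hκ4
  have h3 := (Real.tendsto_log_atTop.comp (tendsto_natCast_atTop_atTop (R := ℝ))).eventually
    (prm4_cond δ κ c₂ η C₀ m₀ hδ hκ0 hκ1 hκ2 hc₂0 hη)
  obtain ⟨n3, h3⟩ := Filter.eventually_atTop.1 h3
  refine ⟨max n1 (max n2 n3), hn1.trans (le_max_left _ _), ?_⟩
  intro n hn
  have hnn1 : n1 ≤ n := (le_max_left _ _).trans hn
  have hnn2 : n2 ≤ n := ((le_max_left _ _).trans (le_max_right _ _)).trans hn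
  have hnn3 : n3 ≤ n := ((le_max_right _ _).trans (le_max_right _ _)).trans hn
  have hn0 : (0 : ℝ) < n := by
    have : 0 < n := by omega
    exact_mod_cast this
  have hrp : ∀ a : ℝ, (n : ℝ) ^ a = Real.exp (a * Real.log n) := by
    intro a
    rw [Real.rpow_def_of_pos hn0, mul_comm]
  have hsq : Real.sqrt n = Real.exp (1 / 2 * Real.log n) := by
    rw [Real.sqrt_eq_rpow, hrp]
  obtain ⟨s, hs⟩ : ∃ s : ℝ, s = 2 * κ * Real.sqrt n := ⟨_, rfl⟩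
  have hs' : s = 2 * κ * Real.exp (1 / 2 * Real.log n) := by rw [hs, hsq]
  obtain ⟨J, hJ⟩ : ∃ J : ℝ, J = 16 * (2 * s ^ 2 * Real.sqrt s / n) := ⟨_, rfl⟩
  have h4 := h3 n hnn3 s ⌈Real.exp (1 / 4 * Real.log n)⌉₊ hs' rfl
  simp only [Function.comp_apply] at h4
  obtain ⟨a1, a2, a3, a4, a5, a6, a7, a8, a9, a10, a11, a12⟩ := h4
  obtain ⟨l₁, l₂, K₁, K₂, b1, b2, b3, b4, b5, b6, b7, b8⟩ := h1 n hnn1 s J hs hJ
  obtain ⟨l₃, K₃, d1, d2, d3, d4⟩ := h2 n hnn2 s hs ⌈Real.exp (1 / 4 * Real.log n)⌉₊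
    (by rw [hrp]; exact (Nat.ceil_lt_add_one (Real.exp_pos _).le).le)
  have hs0 : 0 < s := by linarith
  have hlog : 0 ≤ Real.log n := Real.log_natCast_nonneg n
  have hX2 : (4 * Real.sqrt (s * Real.log n)) ^ 2 = 16 * s * Real.log n := by
    rw [mul_pow, Real.sq_sqrt (by positivity)]; ring
  have hX2s : (4 * Real.sqrt (s * Real.log n)) ^ 2 / s = 16 * Real.log n := by
    rw [hX2]; field_simp
  have hX2t : (4 * Real.sqrt (s * Real.log n)) ^ 2 / (16 * s) = Real.log n := by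
    rw [hX2]; field_simp
  refine ⟨s, 4 * Real.sqrt (s * Real.log n), J, ⌈Real.exp (1 / 4 * Real.log n)⌉₊, l₁, l₂, l₃, K₁, K₂, K₃,
    ?_, ?_, a1, ?_, a2, ?_, a4, a5, a6, ?_, a8, a9, a10, a11, a12, ?_, b5, ?_, b1, b2, d1, b3, b4, d2, ?_, d3, ?_⟩
  · rw [hrp]; exact Nat.le_ceil _
  · rw [hs]; linarith
  · rw [Nat.one_le_ceil_iff]; exact Real.exp_pos _
  · rw [Real.exp_log hn0] at a3; exact a3
  · rw [hX2t]; exact a7
  · rw [hJ]; positivity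
  · rw [hX2]; exact b6
  · intro j hj1 hj2
    rw [hX2s]; exact b7 j hj1 hj2
  · linarith

end PLS
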