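import Pool.Agent.PLS.Cnd3
import Pool.Agent.PLS.Prm4
import Pool.Agent.PLR.Reveal
import Pool.Agent.PLR.Dense2

/-!
# PLS.One3: success with constant probability at the size `κ √n`, undecided pairs dense at the scale `n^(1/4)`

As `PLS/OneG.lean` with `cnd3` and `prm4` (for `δ^2/4`): the inner expectation is at least `1/(64 * 11 C)`, `p₀ = 1/(1408 C)`.
-/

set_option autoImplicit false

namespace PLS

open Finset Smo PLR

private theorem o3_mono {P Q : Prop} (h : P → Q) : ind P ≤ ind Q := by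
  by_cases hP : P
  · rw [ind_of hP, ind_of (h hP)]
  · rw [ind_not hP]
    exact ind_nonneg Q

private theorem o3_split {V : Type*} [DecidableEq V] (p : Sym2 V → ℝ) (s R : Finset (Sym2 V))
    (F : Finset (Sym2 V) → ℝ) :
    Ex p s F = Ex p (s \ R) (fun c => Ex p (s ∩ R) (fun h => F (c ∪ h))) := by
  induction s using Finset.induction_on generalizing F with
  | empty => simp [Ex_empty]
  | insert e s he ih =>
    by_cases heR : e ∈ R
    · have h1 : insert e s \ R = s \ R := insert_sdiff_of_mem _ heR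
      have h2 : insert e s ∩ R = insert e (s ∩ R) := insert_inter_of_mem heR
      have h3 : e ∉ s ∩ R := fun h => he (mem_inter.1 h).1
      rw [h1, h2, Ex_insert p he, ih, ih, ← Ex_mul_left, ← Ex_mul_left, ← Ex_add]
      refine Ex_congr _ _ fun c _ => ?_
      rw [Ex_insert p h3]
      simp only [union_insert]
    · have h1 : insert e s \ R = insert e (s \ R) := insert_sdiff_of_notMem _ heR
      have h2 : insert e s ∩ R = s ∩ R := insert_inter_of_notMem heR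
      have h3 : e ∉ s \ R := fun h => he (mem_sdiff.1 h).1
      rw [h1, h2, Ex_insert p he, ih, ih, Ex_insert p h3]
      simp only [insert_union]

theorem one3 (δ : ℝ) (hδ : 0 < δ) (hδ1 : δ ≤ 1 / 4) : ∃ p₀ κ : ℝ, 0 < p₀ ∧ p₀ ≤ 1 ∧ 0 < κ ∧
    ∃ n₀ : ℕ, ∀ n : ℕ, n₀ ≤ n → ∀ P : Sym2 (Fin n) → ℝ, (∀ e ∈ prs (univ : Finset (Fin n)), 0 ≤ P e ∧ P e ≤ 1) →
      (∀ L : ℕ, (n : ℝ) ^ (1 / 4 : ℝ) ≤ L →
        DenseR δ L ((prs (univ : Finset (Fin n))).filter fun e => δ ≤ P e ∧ P e ≤ 1 - δ)) →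
      p₀ ≤ Ex P (prs univ) (fun ω => ind (∃ S : Finset (Fin n), κ * Real.sqrt n ≤ S.card ∧ Reg ω S)) := by
  have hδ' : 0 < δ ^ 2 / 4 := by positivity
  have hδ1' : δ ^ 2 / 4 ≤ 1 := by nlinarith
  obtain ⟨C, c₁, hC, hc₁, hc₁1, hcnd0⟩ := cnd3 (δ ^ 2 / 4) hδ' hδ1'
  have hC0 : 0 < C := by linarith
  obtain ⟨c₂, hc₂, hc₂1, hprm0⟩ := prm4 (δ ^ 2 / 4) C c₁ hδ' hδ1' hC hc₁ hc₁1
  obtain ⟨C₂, η, m₀, hC₂, hη, hcnd⟩ := hcnd0 c₂ hc₂ hc₂1
  obtain ⟨C₀, n₁, hC₀, hdense⟩ := dense_whp2 δ hδ (by linarith)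
  obtain ⟨κ, hκ, n₂, hn₂, hprm⟩ := hprm0 C₂ η C₀ m₀ hC₂ hη
  refine ⟨1 / (1408 * C), κ, by positivity, ?_, hκ, max n₁ n₂, fun n hn P hP hD => ?_⟩
  · rw [div_le_one (by positivity)]
    linarith
  have hna : n₁ ≤ n := (le_max_left _ _).trans hn
  have hnb : n₂ ≤ n := (le_max_right _ _).trans hn
  have hn2 : 2 ≤ n := hn₂.trans hnb
  obtain ⟨s, X, J, L, l₁, l₂, l₃, K₁, K₂, K₃, hLn, hs2, hCL, hL1, hs1, h64, hX8, hXs, e1, e2, e3, hm, hXη, hLδ, hLc,
    hJ0, hJc, hJX, hl1, hl2, hl3, hK1, hK2, hK3, hj1, hj2, htot⟩ := hprm n hnb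
  obtain ⟨R, hR⟩ : ∃ R, R = (prs (univ : Finset (Fin n))).filter fun e => δ ≤ P e ∧ P e ≤ 1 - δ :=
    ⟨_, rfl⟩
  have hRs : R ⊆ prs (univ : Finset (Fin n)) := by
    rw [hR]
    exact filter_subset _ _
  have hRp : ∀ e ∈ R, δ ≤ P e ∧ P e ≤ 1 - δ := by
    intro e he
    rw [hR] at he
    exact (mem_filter.1 he).2
  have hRD : DenseR δ L R := by
    rw [hR]
    exact hD L hLn
  have hdg : ∀ e ∈ prs (univ : Finset (Fin n)), ¬ e.IsDiag := fun e he => (mem_filter.1 he).2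
  have hP2 := hdense n hna L hCL R hRs hRD
  have hi : prs (univ : Finset (Fin n)) ∩ R = R := inter_eq_right.2 hRs
  have hhalf : ∀ r : Finset (Sym2 (Fin n)), ∀ e ∈ r, (0 : ℝ) ≤ (fun _ : Sym2 (Fin n) => (1 : ℝ) / 2) e ∧
      (fun _ : Sym2 (Fin n) => (1 : ℝ) / 2) e ≤ 1 := fun r e _ => ⟨by norm_num, by norm_num⟩
  -- the bound for a fixed `c` outside `R`
  have hmain : ∀ c ⊆ prs (univ : Finset (Fin n)) \ R, 1 / (1408 * C) ≤
      Ex P R (fun h => ind (∃ S : Finset (Fin n), κ * Real.sqrt n ≤ S.card ∧ Reg (c ∪ h) S)) := by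
    intro c hc
    rw [reveal hδ (by linarith) R
      (fun h => ind (∃ S : Finset (Fin n), κ * Real.sqrt n ≤ S.card ∧ Reg (c ∪ h) S))]
    have hq : ∀ e ∈ R, 0 ≤ (fun e => (P e - δ) / (1 - 2 * δ)) e ∧
        (fun e => (P e - δ) / (1 - 2 * δ)) e ≤ 1 := by
      intro e he
      have h1 := hRp e he
      have h2 : 0 < 1 - 2 * δ := by linarith
      constructor
      · exact div_nonneg (by linarith [h1.1]) h2.le
      · show (P e - δ) / (1 - 2 * δ) ≤ 1
        rw [div_le_one h2]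
        linarith [h1.2]
    have hstep : ∀ r ⊆ R, 1 / (704 * C) * 1 + -(1 / (704 * C)) * ind (¬ DenseR (δ ^ 2 / 4) L r) ≤
        Ex (fun e => (P e - δ) / (1 - 2 * δ)) (R \ r)
        (fun c' => Ex (fun _ => 1 / 2) r (fun h =>
          ind (∃ S : Finset (Fin n), κ * Real.sqrt n ≤ S.card ∧ Reg (c ∪ (c' ∪ h)) S))) := by
      intro r hr
      have hq' : ∀ e ∈ R \ r, 0 ≤ (fun e => (P e - δ) / (1 - 2 * δ)) e ∧
          (fun e => (P e - δ) / (1 - 2 * δ)) e ≤ 1 := fun e he => hq e (mem_sdiff.1 he).1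
      rw [← Ex_const (fun e => (P e - δ) / (1 - 2 * δ)) (R \ r)
        (1 / (704 * C) * 1 + -(1 / (704 * C)) * ind (¬ DenseR (δ ^ 2 / 4) L r))]
      refine Ex_mono hq' fun c' hc' => ?_
      by_cases hDr : DenseR (δ ^ 2 / 4) L r
      · have h0 : ind (¬ DenseR (δ ^ 2 / 4) L r) = 0 := ind_not (not_not.2 hDr)
        rw [h0, mul_zero, add_zero, mul_one]
        have hdis : Disjoint (c ∪ c') r := by
          rw [disjoint_left]
          intro e he her
          rcases mem_union.1 he with h | h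
          · exact (mem_sdiff.1 (hc h)).2 (hr her)
          · exact (mem_sdiff.1 (hc' h)).2 her
        have hnd : ∀ e ∈ (c ∪ c') ∪ r, ¬ e.IsDiag := by
          intro e he
          apply hdg
          rcases mem_union.1 he with h | h
          · rcases mem_union.1 h with h | h
            · exact (mem_sdiff.1 (hc h)).1
            · exact hRs (mem_sdiff.1 (hc' h)).1
          · exact hRs (hr h)
        have h1 := hcnd n (by omega) (c ∪ c') r hdis hnd s X J L l₁ l₂ l₃ K₁ K₂ K₃ hL1 hDr hs1 h64 hX8 hXs e1 e2 e3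
          hm hXη hLδ hLc hJ0 hJc hJX hl1 hl2 hl3 hK1 hK2 hK3 hj1 hj2
        obtain ⟨Q, hQ⟩ : ∃ Q : ℝ, Q = Ex (fun _ => (1 : ℝ) / 2) r (fun h =>
          ind (∃ S : Finset (Fin n), s / 2 ≤ S.card ∧ Reg ((c ∪ c') ∪ h) S)) := ⟨_, rfl⟩
        rw [← hQ] at h1
        have hQ0 : 0 ≤ Q := by
          rw [hQ, ← Ex_const (fun _ => (1 : ℝ) / 2) r 0]
          exact Ex_mono (hhalf r) fun h _ => ind_nonneg _
        have h2 : 1 / 64 ≤ 11 * C * Q := h1.trans (mul_le_mul_of_nonneg_right htot hQ0)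
        have h3 : 1 / (704 * C) ≤ Q := by
          rw [div_le_iff₀ (by positivity)]
          nlinarith
        refine h3.trans ?_
        rw [hQ]
        refine Ex_mono (hhalf r) fun h _ => o3_mono ?_
        rintro ⟨S, hS, hreg⟩
        refine ⟨S, hs2.trans hS, ?_⟩
        rw [← union_assoc]
        exact hreg
      · have h0 : ind (¬ DenseR (δ ^ 2 / 4) L r) = 1 := ind_of hDr
        rw [h0]
        have h1 : (0 : ℝ) ≤ Ex (fun _ => (1 : ℝ) / 2) r (fun h =>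
            ind (∃ S : Finset (Fin n), κ * Real.sqrt n ≤ S.card ∧ Reg (c ∪ (c' ∪ h)) S)) := by
          rw [← Ex_const (fun _ => (1 : ℝ) / 2) r 0]
          exact Ex_mono (hhalf r) fun h _ => ind_nonneg _
        linarith
    have h2δ : ∀ e ∈ R, 0 ≤ (fun _ : Sym2 (Fin n) => 2 * δ) e ∧
        (fun _ : Sym2 (Fin n) => 2 * δ) e ≤ 1 := by
      intro e _
      constructor
      · show 0 ≤ 2 * δ
        linarith
      · show 2 * δ ≤ 1
        linarith
    refine le_trans ?_ (Ex_mono h2δ hstep)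
    rw [Ex_add, Ex_const, Ex_mul_left]
    have h4 : (1 : ℝ) / n ≤ 1 / 2 := by
      apply one_div_le_one_div_of_le (by norm_num)
      exact_mod_cast hn2
    have h5 : 1 / (1408 * C) = 1 / (704 * C) * (1 / 2) := by
      field_simp
      norm_num
    have h6 : 0 < 1 / (704 * C) := by positivity
    rw [h5]
    nlinarith [mul_le_mul_of_nonneg_left (hP2.trans h4) h6.le]
  have hPr : ∀ e ∈ prs (univ : Finset (Fin n)) \ R, 0 ≤ P e ∧ P e ≤ 1 :=
    fun e he => hP e (mem_sdiff.1 he).1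
  rw [o3_split P (prs univ) R, hi, ← Ex_const P (prs (univ : Finset (Fin n)) \ R) (1 / (1408 * C))]
  exact Ex_mono hPr hmain

end PLS
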