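import Pool.Agent.PLS.Rat3
import Pool.Agent.PLS.PairA

/-!
# PLS.PairA3: `ratio3` for vertex sets

Copy of `PLS/PairA.lean` with `ratio3` (`B = 64`: `∑ dev^2 ≤ 1000 s^2 ≤ 4000 |S|^2`). The deviation at `v ∈ S` is `dvS c r k S v`; `|S| ≥ s/2`, `|S| ≤ 2 s`.
-/

set_option autoImplicit false

namespace PLS

open Finset Smo PLR

/-- the deviation of the expected degree of `v` inside `S` from `k` -/
noncomputable def dvS {V : Type*} [DecidableEq V] (c r : Finset (Sym2 V)) (k : ℕ) (S : Finset V) (v : V) : ℝ :=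
  ∑ u ∈ S.erase v, ph c r s(v, u) - k

private theorem pa3_sum {V : Type} [DecidableEq V] (c r : Finset (Sym2 V)) (S : Finset V) (v : V) :
    ∑ u ∈ S.erase v, ph c r s(v, u) = dg c S v + dg r S v / 2 := by
  have h1 : ∀ ω : Finset (Sym2 V), ∑ u ∈ S.erase v, (if s(v, u) ∈ ω then (1 : ℝ) else 0) = dg ω S v := by
    intro ω
    rw [sum_boole]
    unfold dg nb
    congr 2
    ext u
    simp only [mem_filter, mem_erase]
    tauto
  have h2 : ∀ u ∈ S.erase v, ph c r s(v, u) =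
      (if s(v, u) ∈ c then (1 : ℝ) else 0) + 1 / 2 * (if s(v, u) ∈ r then (1 : ℝ) else 0) := by
    intro u _
    unfold ph
    split_ifs <;> norm_num
  rw [sum_congr rfl h2, sum_add_distrib, ← mul_sum, h1, h1]
  ring

private theorem pa3_qS_nonneg {V : Type} [DecidableEq V] (c r : Finset (Sym2 V)) (k : ℕ) (S : Finset V) :
    0 ≤ qS c r k S := by
  unfold qS
  exact Ex_nonneg (fun _ _ => ⟨by norm_num, by norm_num⟩) fun _ _ => ind_nonneg _

private theorem pa3_fac_nonneg (x : ℝ) : 0 ≤ 1 + Real.tanh x ∧ 0 ≤ 1 - Real.tanh x := by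
  have hc := Real.cosh_pos x
  have h1 : Real.tanh x * Real.cosh x = Real.sinh x := by
    rw [Real.tanh_eq_sinh_div_cosh]; field_simp
  have h2 := Real.cosh_add_sinh x
  have h3 := Real.cosh_sub_sinh x
  constructor
  · have : 0 < (1 + Real.tanh x) * Real.cosh x := by
      have e1 : (1 + Real.tanh x) * Real.cosh x = Real.exp x := by rw [add_mul, one_mul, h1, h2]
      rw [e1]; exact Real.exp_pos x
    exact (pos_of_mul_pos_left this hc.le).le
  · have : 0 < (1 - Real.tanh x) * Real.cosh x := by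
      have e1 : (1 - Real.tanh x) * Real.cosh x = Real.exp (-x) := by rw [sub_mul, one_mul, h1, h3]
      rw [e1]; exact Real.exp_pos _
    exact (pos_of_mul_pos_left this hc.le).le

private theorem pa3_Es_sub {V : Type} [DecidableEq V] {S T : Finset V} {A r : Finset (Sym2 V)} (hA : A ⊆ prs T ∩ r) :
    Es S A ⊆ Es S r ∩ prs (univ.filter fun v : {v // v ∈ S} => v.1 ∈ T) := by
  intro e he
  unfold Es at he
  obtain ⟨-, he1, he2⟩ := mem_filter.1 he
  have h1 := mem_inter.1 (hA he1)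
  rw [mem_inter]
  constructor
  · unfold Es
    exact mem_filter.2 ⟨mem_univ _, h1.2, he2⟩
  · induction e using Sym2.ind with
    | _ a b =>
      have h2 := h1.1
      rw [Sym2.map_mk, mem_prs] at h2
      rw [mem_prs]
      refine ⟨mem_filter.2 ⟨mem_univ _, h2.1⟩, mem_filter.2 ⟨mem_univ _, h2.2.1⟩, ?_⟩
      intro hab
      exact h2.2.2 (congrArg Subtype.val hab)

private theorem pa3_prod {V : Type} [DecidableEq V] {S T : Finset V} {A r : Finset (Sym2 V)} (hT : T ⊆ S)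
    (y : V → ℝ) (y' : {v // v ∈ S} → ℝ) (hy : ∀ v, y v.1 = y' v) :
    ∏ e ∈ Es S r ∩ prs (univ.filter fun v : {v // v ∈ S} => v.1 ∈ T),
      (if e ∈ Es S A then 1 + Real.tanh (sm y' e / 2) else 1 - Real.tanh (sm y' e / 2)) =
    ∏ e ∈ prs T ∩ r, (if e ∈ A then 1 + Real.tanh (sm y e / 2) else 1 - Real.tanh (sm y e / 2)) := by
  refine prod_nbij (Sym2.map Subtype.val) ?_ ?_ ?_ ?_
  · intro e he
    obtain ⟨h1, h2⟩ := mem_inter.1 he
    unfold Es at h1
    obtain ⟨-, h3, h4⟩ := mem_filter.1 h1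
    rw [mem_inter]
    refine ⟨?_, h3⟩
    induction e using Sym2.ind with
    | _ a b =>
      rw [mem_prs] at h2
      rw [Sym2.map_mk, mem_prs]
      refine ⟨(mem_filter.1 h2.1).2, (mem_filter.1 h2.2.1).2, ?_⟩
      intro hab
      exact h2.2.2 (Subtype.ext hab)
  · exact (Sym2.map.injective Subtype.val_injective).injOn
  · intro e he
    rw [mem_coe, mem_inter] at he
    obtain ⟨h1, h2⟩ := he
    induction e using Sym2.ind with
    | _ a b =>
      rw [mem_prs] at h1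
      refine ⟨s(⟨a, hT h1.1⟩, ⟨b, hT h1.2.1⟩), ?_, by rw [Sym2.map_mk]⟩
      rw [mem_coe, mem_inter]
      constructor
      · unfold Es
        refine mem_filter.2 ⟨mem_univ _, by rw [Sym2.map_mk]; exact h2, ?_⟩
        rw [Sym2.mk_isDiag_iff]
        intro hab
        exact h1.2.2 (congrArg Subtype.val hab)
      · rw [mem_prs]
        refine ⟨mem_filter.2 ⟨mem_univ _, h1.1⟩, mem_filter.2 ⟨mem_univ _, h1.2.1⟩, ?_⟩
        intro hab
        exact h1.2.2 (congrArg Subtype.val hab)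
  · intro e he
    obtain ⟨h1, h2⟩ := mem_inter.1 he
    unfold Es at h1
    obtain ⟨-, h3, h4⟩ := mem_filter.1 h1
    have e1 : sm y (Sym2.map Subtype.val e) = sm y' e := by
      induction e using Sym2.ind with
      | _ a b => rw [Sym2.map_mk, sm_mk, sm_mk, hy, hy]
    have e2 : e ∈ Es S A ↔ Sym2.map Subtype.val e ∈ A := by
      unfold Es
      rw [mem_filter]
      exact ⟨fun h => h.2.1, fun h => ⟨mem_univ _, h, h4⟩⟩
    rw [e1]
    by_cases h : e ∈ Es S A
    · rw [if_pos h, if_pos (e2.1 h)]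
    · rw [if_neg h, if_neg fun h' => h (e2.2 h')]

theorem pairA3 (β : ℝ) (hβ : 0 < β) (hβ1 : β ≤ 1) : ∃ C c₁ η : ℝ, ∃ m₀ : ℕ, 1 ≤ C ∧ 0 < c₁ ∧ 0 < η ∧
    ∀ (V : Type) [DecidableEq V] (c r : Finset (Sym2 V)) (δ s X : ℝ) (L k : ℕ) (S : Finset V),
      Disjoint c r → (∀ e ∈ c ∪ r, ¬ e.IsDiag) → DenseR δ L r → β ≤ δ → Even k → GoodT c r s X β k S →
      (L : ℝ) ≤ β / 32 * s → (m₀ : ℝ) ≤ s / 2 → 1 ≤ s → 0 ≤ X → X ≤ η * s →
      ∃ y : V → ℝ, (∀ v ∈ S, |y v| ≤ C * (|dvS c r k S v| + Real.sqrt s) / s) ∧ ∀ T ⊆ S, (T.card : ℝ) ≤ c₁ * s → ∀ A ⊆ prs T ∩ r,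
        Ex (fun _ => 1 / 2) (r \ prs T) (fun h => ind (∀ v ∈ S, dg (c ∪ (A ∪ h)) S v = k)) ≤
          C * Real.exp (C * T.card ^ 2 / s) *
            (∏ e ∈ prs T ∩ r, (if e ∈ A then 1 + Real.tanh (sm y e / 2) else 1 - Real.tanh (sm y e / 2))) * qS c r k S := by
  obtain ⟨C1, c1, η1, m1, hC1, hc1, hη1, h1⟩ := ratio3 β 64 hβ hβ1 (by norm_num)
  refine ⟨4 * C1, c1 / 2, η1 / 2, m1, by linarith, by positivity, by positivity, ?_⟩
  intro V _ c r δ s X L k S hd hnd hD hβδ hk hST hL hm hs hX0 hX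
  obtain ⟨hS, hSq⟩ := hST
  have hcard : Fintype.card {v // v ∈ S} = S.card := Fintype.card_coe S
  have hS1 : s / 2 ≤ S.card := hS.1
  have hS2 : (S.card : ℝ) ≤ 2 * s := hS.2.1
  have hS0 : (0 : ℝ) < S.card := by linarith
  have hL' : (L : ℝ) ≤ β / 16 * S.card := by
    have : β / 16 * (s / 2) ≤ β / 16 * S.card := mul_le_mul_of_nonneg_left hS1 (by positivity)
    linarith
  have hdn : DN β (β / 16) (Es S r) :=
    dn_of_good hD (fun e he => hnd e (mem_union_right _ he)) hβδ hS hL'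
  obtain ⟨t, ht⟩ : ∃ t : {v // v ∈ S} → ℤ, t = fun v => (k : ℤ) - dg c S v.1 := ⟨_, rfl⟩
  have hev : Even (∑ i, t i) := by
    rw [ht]
    exact even_targets S hk
  have hdev : ∀ i : {v // v ∈ S}, (dgE (Es S r) i : ℝ) / 2 - t i = dvS c r k S i.1 := by
    intro i
    unfold dvS
    rw [pa3_sum, dgE_Es, ht]
    push_cast
    ring
  have hx : ∀ i, |(dgE (Es S r) i : ℝ) / 2 - t i| ≤ X := by
    intro i
    rw [hdev]
    exact hS.2.2.1 i.1 i.2
  have hr : qS c r k S = PD (Es S r) (fun _ => 1 / 2) t := by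
    rw [ht]
    exact Ex_reg hd S k
  have hq := pa3_qS_nonneg c r k S
  have hm1 : m1 ≤ Fintype.card {v // v ∈ S} := by
    rw [hcard]
    exact_mod_cast hm.trans hS1
  have hX1 : X ≤ η1 * Fintype.card {v // v ∈ S} := by
    rw [hcard]
    have : η1 * (s / 2) ≤ η1 * S.card := mul_le_mul_of_nonneg_left hS1 hη1.le
    linarith
  have hsq : ∑ i, ((dgE (Es S r) i : ℝ) / 2 - t i) ^ 2 ≤ 64 ^ 2 * (Fintype.card {v // v ∈ S} : ℝ) ^ 2 := by
    rw [hcard]
    have e1 : ∑ i, ((dgE (Es S r) i : ℝ) / 2 - t i) ^ 2 = ∑ v ∈ S, (dvS c r k S v) ^ 2 := by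
      rw [← sum_coe_sort S (fun v => (dvS c r k S v) ^ 2)]
      exact sum_congr rfl fun i _ => by rw [hdev]
    rw [e1]
    refine le_trans hSq ?_
    have h4 : s ^ 2 ≤ (2 * S.card) ^ 2 := pow_le_pow_left₀ (by linarith) (by linarith) 2
    nlinarith
  obtain ⟨y', hy', h2⟩ := h1 {v // v ∈ S} (Es S r) t X hdn hm1 hev hx hX0 hX1 hsq
  rw [hcard] at hy' h2
  refine ⟨fun v => if h : v ∈ S then y' ⟨v, h⟩ else 0, ?_, ?_⟩
  · intro v h
    simp only [h, dif_pos]
    refine (hy' ⟨v, h⟩).trans ?_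
    rw [hdev]
    have h5 : Real.sqrt S.card ≤ 2 * Real.sqrt s := by
      rw [show (2 : ℝ) * Real.sqrt s = Real.sqrt (4 * s) by
        rw [Real.sqrt_mul (by norm_num), show (4 : ℝ) = 2 ^ 2 by norm_num, Real.sqrt_sq (by norm_num)]]
      exact Real.sqrt_le_sqrt (by linarith)
    rw [div_le_div_iff₀ hS0 (by linarith)]
    have h6 : 0 ≤ |dvS c r k S v| := abs_nonneg _
    have h7 : 0 ≤ Real.sqrt s := Real.sqrt_nonneg _
    have h8 : C1 * (|dvS c r k S v| + Real.sqrt S.card) ≤ C1 * (2 * (|dvS c r k S v| + Real.sqrt s)) :=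
      mul_le_mul_of_nonneg_left (by linarith) (by linarith)
    have h9 : 0 ≤ C1 * (2 * (|dvS c r k S v| + Real.sqrt s)) := by positivity
    calc C1 * (|dvS c r k S v| + Real.sqrt S.card) * s
        ≤ C1 * (2 * (|dvS c r k S v| + Real.sqrt s)) * (2 * S.card) :=
          mul_le_mul h8 (by linarith) (by linarith) h9
      _ = 4 * C1 * (|dvS c r k S v| + Real.sqrt s) * S.card := by ring
  · intro T hT hTc A hA
    have hTc' : ((univ.filter fun v : {v // v ∈ S} => v.1 ∈ T).card : ℝ) = T.card := by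
      congr 1
      rw [← card_map (Function.Embedding.subtype (· ∈ S))]
      congr 1
      ext v
      simp only [mem_map, mem_filter, mem_univ, true_and, Function.Embedding.coe_subtype,
        Subtype.exists, exists_and_left, exists_prop]
      constructor
      · rintro ⟨a, ha, -, rfl⟩
        exact ha
      · intro hv
        exact ⟨v, hv, hT hv, rfl⟩
    have hAT : A ⊆ prs T := fun e he => (mem_inter.1 (hA he)).1
    have hAr : A ⊆ r := fun e he => (mem_inter.1 (hA he)).2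
    have hcA : Disjoint c A := hd.mono_right hAr
    have hd2 : Disjoint (c ∪ A) (r \ prs T) := by
      rw [disjoint_union_left]
      exact ⟨hd.mono_right sdiff_subset, (disjoint_sdiff_self_right).mono_left hAT⟩
    have e1 : (fun h : Finset (Sym2 V) => ind (∀ v ∈ S, dg (c ∪ (A ∪ h)) S v = k)) =
        fun h => ind (∀ v ∈ S, dg ((c ∪ A) ∪ h) S v = k) := by
      funext h
      rw [union_assoc]
    rw [e1, Ex_reg hd2 S k, Es_sdiff]
    have e2 : (fun v : {v // v ∈ S} => (k : ℤ) - dg (c ∪ A) S v.1) =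
        fun v => t v - dgE (Es S A) v := by
      funext v
      rw [dgE_Es, dg_union hcA, ht]
      push_cast
      ring
    rw [e2]
    have h3 := h2 (univ.filter fun v : {v // v ∈ S} => v.1 ∈ T) (by
      rw [hTc']
      have : c1 * (s / 2) ≤ c1 * S.card := mul_le_mul_of_nonneg_left hS1 hc1.le
      linarith) (Es S A) (pa3_Es_sub hA)
    rw [hTc', ← hr, pa3_prod hT (fun v => if h : v ∈ S then y' ⟨v, h⟩ else 0) y' (by
      intro v
      simp)] at h3
    refine h3.trans ?_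
    refine mul_le_mul_of_nonneg_right (mul_le_mul_of_nonneg_right ?_ ?_) hq
    · refine mul_le_mul (by linarith) (Real.exp_le_exp.2 ?_) (Real.exp_pos _).le (by linarith)
      rw [div_le_div_iff₀ hS0 (by linarith)]
      have h4 : 0 ≤ C1 * (T.card : ℝ) ^ 2 := by positivity
      nlinarith
    · refine prod_nonneg fun e _ => ?_
      split_ifs
      · exact (pa3_fac_nonneg _).1
      · exact (pa3_fac_nonneg _).2

end PLS
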