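import Pool.Agent.PLS.TrB
import Pool.Agent.PLR.PairR

/-!
# PLS.PairT: `triv2` for vertex sets

As the second part of `PLR.pair_bounds` (`PLR/PairR.lean`). `|S| ≤ 2 s`, `|S| ≥ s/2`, `∑ dev^2 ≤ 1000 s^2` (`GoodT`), so the exponent is at most `C 2000 s`; `(C √|S|)^|S| ≤ exp(C' s) √s^|S|` as `|S| ≤ 2 s`.
-/

set_option autoImplicit false

namespace PLS

open Finset Smo PLR

private theorem pt_sum {V : Type} [DecidableEq V] (c r : Finset (Sym2 V)) (S : Finset V) (v : V) :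
    ∑ u ∈ S.erase v, ph c r s(v, u) = dg c S v + dg r S v / 2 := by
  have h1 : ∀ ω : Finset (Sym2 V), ∑ u ∈ S.erase v, (if s(v, u) ∈ ω then (1 : ℝ) else 0) = dg ω S v := by
    intro ω
    rw [sum_boole]
    unfold dg nb
    congr 2
    ext u
    simp only [mem_filter, mem_erase]
    tauto
  have h2 : ∀ u ∈ S.erase v, ph c r s(v, u) =
      (if s(v, u) ∈ c then (1 : ℝ) else 0) + 1 / 2 * (if s(v, u) ∈ r then (1 : ℝ) else 0) := by
    intro u _
    unfold ph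
    split_ifs <;> norm_num
  rw [sum_congr rfl h2, sum_add_distrib, ← mul_sum, h1, h1]
  ring

private theorem pt_pd_nonneg {ι : Type} [DecidableEq ι] (E : Finset (Sym2 ι)) (t : ι → ℤ) :
    0 ≤ PD E (fun _ => 1 / 2) t := by
  unfold PD
  exact Ex_nonneg (fun _ _ => ⟨by norm_num, by norm_num⟩) fun _ _ => ind_nonneg _

private theorem pt_num {C s M D : ℝ} {n : ℕ} (hC : 1 ≤ C) (hs : 1 ≤ s) (hn : (n : ℝ) = M) (h1 : s / 2 ≤ M) (h2 : M ≤ 2 * s)
    (hD : D ≤ 1000 * s ^ 2) :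
    (C * Real.sqrt M) ^ n * Real.exp (C * D / M) ≤
      Real.exp ((2 * Real.log (2 * C) + 2000 * C) * s) * Real.sqrt s ^ n := by
  have hM0 : 0 < M := by linarith
  have hlog : 0 ≤ Real.log (2 * C) := Real.log_nonneg (by linarith)
  have e1 : Real.exp (C * D / M) ≤ Real.exp (2000 * C * s) := by
    apply Real.exp_le_exp.2
    rw [div_le_iff₀ hM0]
    have e2 : C * D ≤ C * (1000 * s ^ 2) := mul_le_mul_of_nonneg_left hD (by linarith)
    have e3 : 2000 * C * s * (s / 2) ≤ 2000 * C * s * M := mul_le_mul_of_nonneg_left h1 (by positivity)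
    linarith
  have e4 : Real.sqrt M ≤ 2 * Real.sqrt s := by
    rw [Real.sqrt_le_left (by positivity), mul_pow, Real.sq_sqrt (by linarith)]
    linarith
  have e5 : (C * Real.sqrt M) ^ n ≤ (2 * C) ^ n * Real.sqrt s ^ n := by
    rw [← mul_pow]
    refine pow_le_pow_left₀ (by positivity) ?_ n
    calc C * Real.sqrt M ≤ C * (2 * Real.sqrt s) := mul_le_mul_of_nonneg_left e4 (by linarith)
      _ = 2 * C * Real.sqrt s := by ring
  have e6 : (2 * C) ^ n ≤ Real.exp (2 * Real.log (2 * C) * s) := by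
    have e7 : (2 * C) ^ n = Real.exp (n * Real.log (2 * C)) := by
      rw [Real.exp_nat_mul, Real.exp_log (by linarith)]
    rw [e7, hn]
    apply Real.exp_le_exp.2
    nlinarith [mul_le_mul_of_nonneg_right h2 hlog]
  calc (C * Real.sqrt M) ^ n * Real.exp (C * D / M)
      ≤ ((2 * C) ^ n * Real.sqrt s ^ n) * Real.exp (2000 * C * s) :=
        mul_le_mul e5 e1 (Real.exp_pos _).le (by positivity)
    _ ≤ (Real.exp (2 * Real.log (2 * C) * s) * Real.sqrt s ^ n) * Real.exp (2000 * C * s) :=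
        mul_le_mul_of_nonneg_right (mul_le_mul_of_nonneg_right e6 (by positivity)) (Real.exp_pos _).le
    _ = Real.exp ((2 * Real.log (2 * C) + 2000 * C) * s) * Real.sqrt s ^ n := by
        rw [add_mul, Real.exp_add]
        ring

theorem pairT (β : ℝ) (hβ : 0 < β) (hβ1 : β ≤ 1) : ∃ C η : ℝ, ∃ m₀ : ℕ, 1 ≤ C ∧ 0 < η ∧
    ∀ (V : Type) [DecidableEq V] (c r : Finset (Sym2 V)) (δ s X : ℝ) (L k : ℕ) (S : Finset V),
      Disjoint c r → (∀ e ∈ c ∪ r, ¬ e.IsDiag) → DenseR δ L r → β ≤ δ → Even k → GoodT c r s X β k S →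
      (L : ℝ) ≤ β / 32 * s → (m₀ : ℝ) ≤ s / 2 → 1 ≤ s → 0 ≤ X → X ≤ η * s →
      1 ≤ Real.exp (C * s) * Real.sqrt s ^ S.card * qS c r k S := by
  obtain ⟨C2, η2, m2, hC2, hη2, h2⟩ := triv2 β hβ hβ1
  have hlog : 0 ≤ Real.log (2 * C2) := Real.log_nonneg (by linarith)
  refine ⟨2 * Real.log (2 * C2) + 2000 * C2, η2 / 2, m2, by linarith, by positivity, ?_⟩
  intro V _ c r δ s X L k S hd hnd hD hβδ hk hST hL hm hs1 hX0 hX
  obtain ⟨hS, hsq⟩ := hST
  have hMs : s / 2 ≤ (S.card : ℝ) := hS.1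
  have hM2 : (S.card : ℝ) ≤ 2 * s := hS.2.1
  have hcard : Fintype.card {v // v ∈ S} = S.card := Fintype.card_coe S
  have hL' : (L : ℝ) ≤ β / 16 * S.card := by
    have e1 : β / 16 * (s / 2) ≤ β / 16 * S.card := mul_le_mul_of_nonneg_left hMs (by positivity)
    linarith
  have hdn : DN β (β / 16) (Es S r) :=
    dn_of_good hD (fun e he => hnd e (mem_union_right _ he)) hβδ hS hL'
  obtain ⟨t, ht⟩ : ∃ t : {v // v ∈ S} → ℤ, t = fun v => (k : ℤ) - dg c S v.1 := ⟨_, rfl⟩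
  have hev : Even (∑ i, t i) := by
    rw [ht]
    exact even_targets S hk
  have hdev : ∀ i : {v // v ∈ S}, (dgE (Es S r) i : ℝ) / 2 - t i = ∑ u ∈ S.erase i.1, ph c r s(i.1, u) - k := by
    intro i
    rw [pt_sum, dgE_Es, ht]
    push_cast
    ring
  have hx : ∀ i, |(dgE (Es S r) i : ℝ) / 2 - t i| ≤ X := by
    intro i
    rw [hdev i]
    exact hS.2.2.1 i.1 i.2
  have hr := Ex_reg hd S k
  rw [← ht] at hr
  have hpd := pt_pd_nonneg (Es S r) t
  have hm2 : m2 ≤ Fintype.card {v // v ∈ S} := by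
    rw [hcard]
    exact_mod_cast hm.trans hMs
  have hX2 : X ≤ η2 * Fintype.card {v // v ∈ S} := by
    rw [hcard]
    have e1 : η2 * (s / 2) ≤ η2 * S.card := mul_le_mul_of_nonneg_left hMs hη2.le
    linarith
  have h3 := h2 {v // v ∈ S} (Es S r) t X hdn hm2 hev hx hX0 hX2
  have hD : ∑ i : {v // v ∈ S}, ((dgE (Es S r) i : ℝ) / 2 - t i) ^ 2 ≤ 1000 * s ^ 2 := by
    have e1 : ∑ i : {v // v ∈ S}, ((dgE (Es S r) i : ℝ) / 2 - t i) ^ 2 =
        ∑ v ∈ S, (∑ u ∈ S.erase v, ph c r s(v, u) - k) ^ 2 := by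
      rw [← Finset.sum_coe_sort S (fun v => (∑ u ∈ S.erase v, ph c r s(v, u) - k) ^ 2)]
      exact sum_congr rfl fun i _ => by rw [hdev i]
    rw [e1]
    exact hsq
  rw [hcard] at h3
  have h4 := pt_num (M := (S.card : ℝ)) hC2 hs1 rfl hMs hM2 hD
  unfold qS
  rw [hr]
  exact h3.trans (mul_le_mul_of_nonneg_right h4 hpd)

end PLS
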