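import Pool.Agent.PLR.Defs

/-!
# PLS.Prm3a: parameters, intersections up to `c₂ s`, for `s = 2 κ √n`

`c₂ = min(c₁, 1/(272 C))`. `κ` small: `(2κ)^4 ≤ 1/(256000 C)`, `(2κ) ≤ δ/128`, `c₂ log(1/(8κ^2)) ≥ C₂ + 2`. `s = 2 κ √n`, `X = 4 √(s log n)`, `L = ⌈n^(1/4)⌉`, `k₀ = 2 s^2 √s/n = 2 (2κ)^(5/2) n^(1/4)`, `J = 16 k₀`, `Λ = 1 + 16 log n ≤ 17 log n`.
`J^2/s = 1024 s^4/n^2 = 1024 (2κ)^4`, so `C exp(C J^2/s) ≤ C e`; `8000 C J s √s/n = 256000 C s^4/n^2 ≤ 1`; `2 C J X^2/s^2 = 1024 C s^(3/2) log n/n ≤ 1` (large `n`).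
`l₁ = 4`, `K₁ = C 2^(-J)`: for `J ≤ j ≤ J₂ = s log 2/(C Λ)`: `C exp(C j^2 Λ/s) ≤ C 2^j ≤ K₁ 4^j`; `K₁ exp(3 k₀) = C exp(3 k₀ - 16 k₀ log 2) ≤ C`.
`l₂ = n^(1/8)`, `K₂ = C n^(-J₂/16)`: for `J₂ ≤ j ≤ c₂ s`: `C j^2 Λ/s ≤ 17 C c₂ j log n ≤ (j/16) log n`; `K₂ exp(l₂ k₀) ≤ C exp(2 n^(3/8) - s log 2/(272 C)) ≤ C` (large `n`).
`l₃ = √s x`, `x = n/(2 s^2) = 1/(8 κ^2)`, `K₃ = exp(C₂ s) √s^L x^(-c₂ s)`: `l₃ k₀ = s`, exponent `C₂ s + s + (L/2) log s - c₂ s log x ≤ 0` for large `n`. Sum at most `C e^2 + C + C + 1 ≤ 11 C`.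
`64 s √s (L+1) ≤ 64 (2κ)^(3/2) n^(3/4) (n^(1/4) + 2) ≤ δ n`. The rest as in `PLS/PrmG.lean`. Here: `l₁`, `l₂` and the first sum.
-/

set_option autoImplicit false

namespace PLS

open Finset Smo PLR

private theorem p3_lin (a K : ℝ) (ha : 0 < a) :
    ∀ᶠ l : ℝ in Filter.atTop, K * (l + 1) ≤ Real.exp (a * l) := by
  filter_upwards [Filter.eventually_ge_atTop (max 1 (4 * |K| / a ^ 2))] with l hl
  have hl1 : 1 ≤ l := (le_max_left _ _).trans hl
  have hl2 : 4 * |K| / a ^ 2 ≤ l := (le_max_right _ _).trans hl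
  have h2 : (a * l) ^ 2 / 2 ≤ Real.exp (a * l) := by
    have h := Real.quadratic_le_exp_of_nonneg (show 0 ≤ a * l by positivity)
    have h' : 0 ≤ a * l := by positivity
    linarith
  have h3 : 4 * |K| ≤ l * a ^ 2 := by
    rwa [div_le_iff₀ (by positivity)] at hl2
  have h4 : K * (l + 1) ≤ |K| * (2 * l) := by
    have h5 := mul_le_mul_of_nonneg_right (le_abs_self K) (show 0 ≤ l + 1 by linarith)
    have h6 := mul_le_mul_of_nonneg_left (show l + 1 ≤ 2 * l by linarith) (abs_nonneg K)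
    linarith
  have h7 : 4 * |K| * l ≤ l * a ^ 2 * l := mul_le_mul_of_nonneg_right h3 (by linarith)
  have h8 : (a * l) ^ 2 / 2 = l * a ^ 2 * l / 2 := by ring
  have h9 : |K| * (2 * l) = 4 * |K| * l / 2 := by ring
  linarith

private theorem p3_main (C c₂ l s k₀ J t : ℝ) (hC : 1 ≤ C) (hc₂ : 0 < c₂) (hc₂1 : 272 * C * c₂ ≤ 1)
    (hl : 1 ≤ l) (hs : 0 < s) (hk : 0 ≤ k₀) (hJ : J = 16 * k₀) (h1 : C * J ^ 2 / s ≤ 1) (h2 : t ≤ 1)
    (hkey : Real.exp (l / 8) * k₀ ≤ s * Real.log 2 / (272 * C)) :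
    ∃ l₁ l₂ K₁ K₂ : ℝ, 1 ≤ l₁ ∧ 1 ≤ l₂ ∧ 0 ≤ K₁ ∧ 0 ≤ K₂ ∧
      (∀ j : ℕ, J ≤ j → (j : ℝ) ≤ c₂ * s → C * Real.exp (C * j ^ 2 * (1 + 16 * l) / s) ≤ K₁ * l₁ ^ j + K₂ * l₂ ^ j) ∧
      C * Real.exp (C * J ^ 2 / s) * Real.exp t +
        K₁ * Real.exp ((l₁ - 1) * k₀) + K₂ * Real.exp ((l₂ - 1) * k₀) ≤ 10 * C := by
  obtain ⟨Λ, hΛ⟩ : ∃ Λ, Λ = 1 + 16 * l := ⟨_, rfl⟩
  have hΛ0 : 0 < Λ := by linarith
  have hΛ1 : Λ ≤ 17 * l := by linarith
  have hC0 : 0 < C := by linarith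
  have hl0 : 0 < l := by linarith
  have hlog : 0 < Real.log 2 := Real.log_pos (by norm_num)
  have hlog1 : 0.6931471803 < Real.log 2 := Real.log_two_gt_d9
  obtain ⟨J₂, hJ₂⟩ : ∃ J₂, J₂ = s * Real.log 2 / (C * Λ) := ⟨_, rfl⟩
  have hD : 0 < C * Λ := by positivity
  rw [← hΛ]
  refine ⟨4, Real.exp (l / 8), C * Real.exp (-(J * Real.log 2)), C * Real.exp (-(J₂ * l / 16)),
    by norm_num, Real.one_le_exp (by positivity), by positivity, by positivity, ?_, ?_⟩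
  · intro j hJj hj
    have hj0 : (0 : ℝ) ≤ j := Nat.cast_nonneg _
    rcases le_total (j : ℝ) J₂ with h | h
    · have e1 : (j : ℝ) * (C * Λ) ≤ s * Real.log 2 := by
        rw [hJ₂, le_div_iff₀ hD] at h
        exact h
      have e2 : C * (j : ℝ) ^ 2 * Λ / s ≤ j * Real.log 2 := by
        rw [div_le_iff₀ hs]
        have e3 := mul_le_mul_of_nonneg_left e1 hj0
        linarith
      have e3 : C * Real.exp (-(J * Real.log 2)) * 4 ^ j =
          C * Real.exp (-(J * Real.log 2) + j * (2 * Real.log 2)) := by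
        have e4 : (4 : ℝ) ^ j = Real.exp (j * (2 * Real.log 2)) := by
          rw [Real.exp_nat_mul, two_mul, Real.exp_add, Real.exp_log (by norm_num)]
          norm_num
        rw [e4, Real.exp_add, mul_assoc]
      have e4 : C * (j : ℝ) ^ 2 * Λ / s ≤ -(J * Real.log 2) + j * (2 * Real.log 2) := by
        have e5 := mul_le_mul_of_nonneg_right hJj hlog.le
        linarith
      have e5 : 0 ≤ C * Real.exp (-(J₂ * l / 16)) * Real.exp (l / 8) ^ j := by positivity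
      have e6 := mul_le_mul_of_nonneg_left (Real.exp_le_exp.2 e4) hC0.le
      rw [e3]
      linarith
    · have e1 : C * (j : ℝ) ^ 2 * Λ / s ≤ l / 16 * j := by
        rw [div_le_iff₀ hs]
        have e2 : (C * j * Λ) * (j : ℝ) ≤ (C * j * Λ) * (c₂ * s) :=
          mul_le_mul_of_nonneg_left hj (by positivity)
        have e3 : (C * j * c₂ * s) * Λ ≤ (C * j * c₂ * s) * (17 * l) :=
          mul_le_mul_of_nonneg_left hΛ1 (by positivity)
        have e4 : (l * j * s) * (272 * C * c₂) ≤ (l * j * s) * 1 :=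
          mul_le_mul_of_nonneg_left hc₂1 (by positivity)
        linarith
      have e2 : C * Real.exp (-(J₂ * l / 16)) * Real.exp (l / 8) ^ j =
          C * Real.exp (-(J₂ * l / 16) + j * (l / 8)) := by
        rw [← Real.exp_nat_mul, Real.exp_add, mul_assoc]
      have e3 : C * (j : ℝ) ^ 2 * Λ / s ≤ -(J₂ * l / 16) + j * (l / 8) := by
        have e4 := mul_le_mul_of_nonneg_left h (show 0 ≤ l / 16 by positivity)
        linarith
      have e5 : 0 ≤ C * Real.exp (-(J * Real.log 2)) * 4 ^ j := by positivity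
      have e6 := mul_le_mul_of_nonneg_left (Real.exp_le_exp.2 e3) hC0.le
      rw [e2]
      linarith
  · have a1 : C * Real.exp (C * J ^ 2 / s) * Real.exp t ≤ C * 8 := by
      rw [mul_assoc]
      refine mul_le_mul_of_nonneg_left ?_ hC0.le
      have b1 := Real.exp_le_exp.2 h1
      have b2 := Real.exp_le_exp.2 h2
      have b3 := Real.exp_one_lt_d9
      have b4 : Real.exp (C * J ^ 2 / s) ≤ 2.72 := by linarith
      have b5 : Real.exp t ≤ 2.72 := by linarith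
      have b6 := mul_le_mul b4 b5 (Real.exp_pos t).le (by norm_num)
      linarith
    have a2 : C * Real.exp (-(J * Real.log 2)) * Real.exp ((4 - 1) * k₀) ≤ C := by
      rw [mul_assoc, ← Real.exp_add]
      have b1 : Real.exp (-(J * Real.log 2) + (4 - 1) * k₀) ≤ 1 := by
        apply Real.exp_le_one_iff.2
        rw [hJ]
        have b2 := mul_le_mul_of_nonneg_left hlog1.le hk
        linarith
      have b2 := mul_le_mul_of_nonneg_left b1 hC0.le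
      linarith
    have a3 : (Real.exp (l / 8) - 1) * k₀ ≤ J₂ * l / 16 := by
      have b1 : (Real.exp (l / 8) - 1) * k₀ ≤ Real.exp (l / 8) * k₀ := by
        have b2 : (Real.exp (l / 8) - 1) * k₀ = Real.exp (l / 8) * k₀ - k₀ := by ring
        linarith
      refine b1.trans (hkey.trans ?_)
      have b2 : J₂ * l / 16 = (s * Real.log 2 * l) / (16 * (C * Λ)) := by
        rw [hJ₂]
        field_simp
      rw [b2, div_le_div_iff₀ (by positivity) (by positivity)]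
      have b3 := mul_le_mul_of_nonneg_left hΛ1 (show 0 ≤ s * Real.log 2 * (16 * C) by positivity)
      linarith
    have a4 : C * Real.exp (-(J₂ * l / 16)) * Real.exp ((Real.exp (l / 8) - 1) * k₀) ≤ C := by
      rw [mul_assoc, ← Real.exp_add]
      have b1 : Real.exp (-(J₂ * l / 16) + (Real.exp (l / 8) - 1) * k₀) ≤ 1 :=
        Real.exp_le_one_iff.2 (by linarith)
      have b2 := mul_le_mul_of_nonneg_left b1 hC0.le
      linarith
    exact (add_le_add (add_le_add a1 a2) a4).trans (by linarith)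

/-- intersections up to `c₂ s` -/
theorem prm3a (C c₂ κ : ℝ) (hC : 1 ≤ C) (hc₂ : 0 < c₂) (hc₂1 : 272 * C * c₂ ≤ 1) (hκ : 0 < κ) (hκ1 : 256000 * C * (2 * κ) ^ 4 ≤ 1) :
    ∃ n₀ : ℕ, 2 ≤ n₀ ∧ ∀ n : ℕ, n₀ ≤ n → ∀ s J : ℝ, s = 2 * κ * Real.sqrt n → J = 16 * (2 * s ^ 2 * Real.sqrt s / n) →
      ∃ l₁ l₂ K₁ K₂ : ℝ, 1 ≤ l₁ ∧ 1 ≤ l₂ ∧ 0 ≤ K₁ ∧ 0 ≤ K₂ ∧ J ≤ c₂ * s ∧ 2 * C * J * (16 * s * Real.log n) ≤ s ^ 2 ∧
      (∀ j : ℕ, J ≤ j → (j : ℝ) ≤ c₂ * s → C * Real.exp (C * j ^ 2 * (1 + 16 * Real.log n) / s) ≤ K₁ * l₁ ^ j + K₂ * l₂ ^ j) ∧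
      C * Real.exp (C * J ^ 2 / s) * Real.exp (8000 * C * J * s * Real.sqrt s / n) +
        K₁ * Real.exp ((l₁ - 1) * (2 * s ^ 2 * Real.sqrt s / n)) + K₂ * Real.exp ((l₂ - 1) * (2 * s ^ 2 * Real.sqrt s / n)) ≤ 10 * C := by
  have hC0 : 0 < C := by linarith
  obtain ⟨a, ha⟩ : ∃ a, a = 2 * κ := ⟨_, rfl⟩
  have ha0 : 0 < a := by rw [ha]; positivity
  obtain ⟨B, hB⟩ : ∃ B, B = 2 * a ^ 2 * Real.sqrt a := ⟨_, rfl⟩
  have hB0 : 0 < B := by rw [hB]; positivity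
  have hlog : 0 < Real.log 2 := Real.log_pos (by norm_num)
  have h := (Filter.eventually_ge_atTop (1 : ℝ)).and
    ((p3_lin (1 / 4) (16 * B / (c₂ * a) + 512 * C * B / a) (by norm_num)).and
      (p3_lin (1 / 8) (B * 272 * C / (a * Real.log 2)) (by norm_num)))
  have h2 := (Real.tendsto_log_atTop.comp (tendsto_natCast_atTop_atTop (R := ℝ))).eventually h
  obtain ⟨n₁, hn₁⟩ := Filter.eventually_atTop.1 h2
  refine ⟨max 2 n₁, le_max_left _ _, fun n hn s J hs hJ => ?_⟩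
  have hn2 : 2 ≤ n := (le_max_left _ _).trans hn
  have hn0 : (0 : ℝ) < n := by exact_mod_cast (by omega : 0 < n)
  obtain ⟨a1, a2, a3⟩ := hn₁ n ((le_max_right _ _).trans hn)
  simp only [Function.comp_apply] at a1 a2 a3
  obtain ⟨l, hl⟩ : ∃ l, l = Real.log n := ⟨_, rfl⟩
  rw [← hl] at a1 a2 a3 ⊢
  have hnl : (n : ℝ) = Real.exp l := by rw [hl, Real.exp_log hn0]
  obtain ⟨y, hy⟩ : ∃ y, y = Real.exp (1 / 4 * l) := ⟨_, rfl⟩
  have hy0 : 0 < y := hy ▸ Real.exp_pos _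
  have hny : (n : ℝ) = y ^ 4 := by
    rw [hnl, hy, ← Real.exp_nat_mul]
    congr 1
    push_cast
    ring
  have hsq : Real.sqrt n = y ^ 2 := by
    rw [hny, show y ^ 4 = (y ^ 2) ^ 2 by ring, Real.sqrt_sq (by positivity)]
  have hsa : s = a * y ^ 2 := by rw [hs, hsq, ha]
  have hs0 : 0 < s := by rw [hsa]; positivity
  have hss : Real.sqrt s = Real.sqrt a * y := by
    rw [hsa, Real.sqrt_mul ha0.le, Real.sqrt_sq hy0.le]
  obtain ⟨k₀, hk₀⟩ : ∃ k₀, k₀ = 2 * s ^ 2 * Real.sqrt s / n := ⟨_, rfl⟩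
  rw [← hk₀] at hJ ⊢
  have hkB : k₀ = B * y := by
    rw [hk₀, hss, hny, hsa, hB]
    field_simp
  have hk0 : 0 ≤ k₀ := by rw [hkB]; positivity
  have hl0 : 0 < l := by linarith
  have hK1 : 0 < 16 * B / (c₂ * a) := by positivity
  have hK2 : 0 < 512 * C * B / a := by positivity
  rw [← hy] at a2
  have b1 : 16 * B ≤ c₂ * a * y := by
    have c1 : 16 * B / (c₂ * a) ≤ y := by
      have c2 : 16 * B / (c₂ * a) * 1 ≤ 16 * B / (c₂ * a) * (l + 1) :=
        mul_le_mul_of_nonneg_left (by linarith) hK1.le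
      have c3 : 0 ≤ 512 * C * B / a * (l + 1) := by positivity
      linarith
    rw [div_le_iff₀ (by positivity)] at c1
    linarith
  have b2 : 512 * C * B * l ≤ a * y := by
    have c1 : 512 * C * B / a * l ≤ y := by
      have c2 : 512 * C * B / a * l ≤ 512 * C * B / a * (l + 1) :=
        mul_le_mul_of_nonneg_left (by linarith) hK2.le
      have c3 : 0 ≤ 16 * B / (c₂ * a) * (l + 1) := by positivity
      linarith
    rw [div_mul_eq_mul_div, div_le_iff₀ ha0] at c1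
    linarith
  have hsn : C * s ^ 4 / (n : ℝ) ^ 2 = C * a ^ 4 := by
    rw [hny, hsa]
    field_simp
  have hCa : 256000 * (C * a ^ 4) ≤ 1 := by
    rw [ha]
    linarith
  have hk2 : k₀ ^ 2 = 4 * s ^ 5 / (n : ℝ) ^ 2 := by
    rw [hk₀, div_pow, mul_pow, Real.sq_sqrt hs0.le]
    ring
  have hCa0 : 0 < C * a ^ 4 := by positivity
  have c1 : C * J ^ 2 / s ≤ 1 := by
    have c2 : C * J ^ 2 / s = 1024 * (C * s ^ 4 / (n : ℝ) ^ 2) := by
      rw [hJ, mul_pow, hk2]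
      field_simp
      ring
    rw [c2, hsn]
    linarith
  have c2 : 8000 * C * J * s * Real.sqrt s / n ≤ 1 := by
    have c3 : 8000 * C * J * s * Real.sqrt s / n = 256000 * (C * s ^ 4 / (n : ℝ) ^ 2) := by
      rw [hJ, hk₀]
      have c4 : 8000 * C * (16 * (2 * s ^ 2 * Real.sqrt s / n)) * s * Real.sqrt s / n =
          256000 * (C * s ^ 3 * Real.sqrt s ^ 2 / (n : ℝ) ^ 2) := by
        field_simp
        ring
      rw [c4, Real.sq_sqrt hs0.le]
      ring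
    rw [c3, hsn]
    exact hCa
  have c3 : Real.exp (l / 8) * k₀ ≤ s * Real.log 2 / (272 * C) := by
    have d1 : y = Real.exp (l / 8) * Real.exp (l / 8) := by
      rw [hy, ← Real.exp_add]
      congr 1
      ring
    have d2 : B * 272 * C / (a * Real.log 2) ≤ Real.exp (l / 8) := by
      have d3 : B * 272 * C / (a * Real.log 2) * 1 ≤ B * 272 * C / (a * Real.log 2) * (l + 1) :=
        mul_le_mul_of_nonneg_left (by linarith) (by positivity)
      rw [show 1 / 8 * l = l / 8 by ring] at a3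
      linarith
    rw [div_le_iff₀ (by positivity)] at d2
    rw [le_div_iff₀ (by positivity), hkB, hsa]
    have d3 := mul_le_mul_of_nonneg_left d2 (show 0 ≤ Real.exp (l / 8) * y by positivity)
    have d4 : Real.exp (l / 8) * y * (Real.exp (l / 8) * (a * Real.log 2)) = a * y ^ 2 * Real.log 2 := by
      have d5 : Real.exp (l / 8) * y * (Real.exp (l / 8) * (a * Real.log 2)) =
          (Real.exp (l / 8) * Real.exp (l / 8)) * y * (a * Real.log 2) := by ring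
      rw [d5, ← d1]
      ring
    linarith
  obtain ⟨l₁, l₂, K₁, K₂, e1, e2, e3, e4, e5, e6⟩ := p3_main C c₂ l s k₀ J
    (8000 * C * J * s * Real.sqrt s / n) hC hc₂ hc₂1 a1 hs0 hk0 hJ c1 c2 c3
  refine ⟨l₁, l₂, K₁, K₂, e1, e2, e3, e4, ?_, ?_, e5, e6⟩
  · rw [hJ, hkB, hsa]
    have f1 := mul_le_mul_of_nonneg_right b1 hy0.le
    linarith
  · rw [hJ, hkB]
    have f1 := mul_le_mul_of_nonneg_left b2 (show 0 ≤ s * y by positivity)
    have f2 : s ^ 2 = s * y * (a * y) := by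
      rw [sq, hsa]
      ring
    rw [f2]
    linarith

end PLS
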