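import Pool.Agent.PLR.Ratio
import Pool.Agent.PLS.Defs

/-!
# PLS.Rat: the probability given the pairs inside `T`, with the tilts kept

`x_i = dgE E i/2 - t_i`, `y` the tilt for `E`, `x` (`tilt_exists`, `tilt_bound`: `|y_i| ≤ C X/m`). `E' = cutT E T`, `D = E ∩ prs T`, `t' = t - dgE A`. `tilt_id` for `(E', t', y)` and `(E, t, y)`; the quotient of the two prefactors is
`∏_(e in D) cosh(s_e/2)^(-1) exp(∑_i y_i (dgE A i - dgE D i/2)) = ∏_(e in D) (1 ± tanh(s_e/2))` (`+` on `A`, `-` off `A`; `sum_sm` for `A` and `D`; `exp(u)/cosh u = 1 + tanh u`).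
`upper` for `E'` (`dn_cut`, `qr_of_dn`, `dn_mono`, as in `PLR.ratio`), `lower` for `E`, and `GF E' (tp y) ≤ exp(C |T|^2/m) GF E (tp y)`: `Vr` is unchanged off `T`; for `i ∈ T`: `Vr E i ≥ (6/25) δ m`, `Vr E' i ≥ Vr E i - |T|/4`, `(1 - z)^(-1/2) ≤ exp(z)` for `0 ≤ z ≤ 1/2`, `|T|` factors.
-/

set_option autoImplicit false

namespace PLS

open Finset Smo PLR

variable {ι : Type*} [Fintype ι] [DecidableEq ι]

private theorem rq_hasDerivAt_tanh (s : ℝ) : HasDerivAt Real.tanh (1 - Real.tanh s ^ 2) s := by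
  have h : HasDerivAt (fun x => Real.sinh x / Real.cosh x)
      ((Real.cosh s * Real.cosh s - Real.sinh s * Real.sinh s) / Real.cosh s ^ 2) s :=
    (Real.hasDerivAt_sinh s).div (Real.hasDerivAt_cosh s) (Real.cosh_pos s).ne'
  have h2 : Real.tanh = fun x => Real.sinh x / Real.cosh x := by
    funext x
    exact Real.tanh_eq_sinh_div_cosh x
  rw [h2]
  convert h using 1
  have := Real.cosh_pos s
  field_simp

private theorem rq_mono : Monotone fun s : ℝ => s - Real.tanh s := by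
  have hd : ∀ s : ℝ, HasDerivAt (fun s : ℝ => s - Real.tanh s) (1 - (1 - Real.tanh s ^ 2)) s :=
    fun s => (hasDerivAt_id s).sub (rq_hasDerivAt_tanh s)
  refine monotone_of_deriv_nonneg (fun s => (hd s).differentiableAt) fun s => ?_
  rw [(hd s).deriv]
  nlinarith [sq_nonneg (Real.tanh s)]

private theorem rq_abs_tanh (s : ℝ) : |Real.tanh s| ≤ |s| := by
  have h0 : (0 : ℝ) - Real.tanh 0 = 0 := by rw [Real.tanh_zero, sub_zero]
  have hpos : ∀ u : ℝ, 0 ≤ u → |Real.tanh u| ≤ u := by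
    intro u hu
    have h1 := rq_mono hu
    simp only [h0] at h1
    have h2 : 0 ≤ Real.tanh u := by
      rw [Real.tanh_eq_sinh_div_cosh]
      exact div_nonneg (Real.sinh_nonneg_iff.mpr hu) (Real.cosh_pos u).le
    rw [abs_of_nonneg h2]
    linarith
  rcases le_total 0 s with h | h
  · rw [abs_of_nonneg h]
    exact hpos s h
  · have h1 := hpos (-s) (by linarith)
    rw [Real.tanh_neg, abs_neg] at h1
    rw [abs_of_nonpos h]
    exact h1

omit [Fintype ι] in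
private theorem rq_cut_off {E : Finset (Sym2 ι)} {T : Finset ι} {i : ι} (hi : i ∉ T) :
    (cutT E T).filter (fun e => i ∈ e) = E.filter (fun e => i ∈ e) := by
  ext e
  rw [Finset.mem_filter, Finset.mem_filter, cutT, Finset.mem_sdiff]
  constructor
  · rintro ⟨⟨h1, _⟩, h2⟩
    exact ⟨h1, h2⟩
  · rintro ⟨h1, h2⟩
    refine ⟨⟨h1, fun h3 => hi ?_⟩, h2⟩
    unfold prs at h3
    rw [Finset.mem_filter, Finset.mem_sym2_iff] at h3
    exact h3.1 i h2

omit [Fintype ι] in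
private theorem rq_inside_card (E : Finset (Sym2 ι)) (T : Finset ι) (i : ι) :
    ((E ∩ prs T).filter (fun e => i ∈ e)).card ≤ T.card := by
  have h1 : (E ∩ prs T).filter (fun e => i ∈ e) ⊆ T.image (fun j => s(i, j)) := by
    intro e he
    rw [Finset.mem_filter, Finset.mem_inter] at he
    rw [Finset.mem_image]
    obtain ⟨⟨_, hp⟩, hi⟩ := he
    obtain ⟨j, rfl⟩ := hi
    exact ⟨j, (mem_prs.mp hp).2.1, rfl⟩
  exact (Finset.card_le_card h1).trans Finset.card_image_le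

omit [Fintype ι] [DecidableEq ι] in
private theorem rq_tp_var (y : ι → ℝ) (e : Sym2 ι) :
    tp y e * (1 - tp y e) = (1 - Real.tanh (sm y e / 2) ^ 2) / 4 := by
  unfold tp
  ring

omit [Fintype ι] [DecidableEq ι] in
private theorem rq_sm_abs {y : ι → ℝ} {ρ : ℝ} (hy : ∀ i, |y i| ≤ ρ) (e : Sym2 ι) : |sm y e / 2| ≤ ρ := by
  induction e using Sym2.ind with
  | _ a b =>
    rw [sm_mk]
    have h1 := abs_le.mp (hy a)
    have h2 := abs_le.mp (hy b)
    rw [abs_le]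
    constructor <;> linarith [h1.1, h1.2, h2.1, h2.2]

omit [Fintype ι] in
private theorem rq_le_Vr (E : Finset (Sym2 ι)) {y : ι → ℝ} {ρ : ℝ} (hy : ∀ i, |y i| ≤ ρ) (i : ι) :
    (1 - ρ ^ 2) * (dgE E i : ℝ) / 4 ≤ Vr E (tp y) i := by
  unfold Vr sw
  have h : ∀ e ∈ E.filter (fun e => i ∈ e), (1 - ρ ^ 2) / 4 ≤ tp y e * (1 - tp y e) := by
    intro e _
    rw [rq_tp_var]
    have h1 := (rq_abs_tanh (sm y e / 2)).trans (rq_sm_abs hy e)
    have h2 : Real.tanh (sm y e / 2) ^ 2 ≤ ρ ^ 2 := by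
      rw [← sq_abs]
      exact pow_le_pow_left₀ (abs_nonneg _) h1 2
    linarith
  refine (le_of_eq ?_).trans (Finset.sum_le_sum h)
  rw [Finset.sum_const, nsmul_eq_mul, dgE]
  ring

omit [Fintype ι] in
private theorem rq_Vr_cut (E : Finset (Sym2 ι)) (T : Finset ι) (y : ι → ℝ) (i : ι) :
    Vr E (tp y) i ≤ Vr (cutT E T) (tp y) i + (T.card : ℝ) / 4 := by
  have h1 : E.filter (fun e => i ∈ e) = (cutT E T).filter (fun e => i ∈ e) ∪ (E ∩ prs T).filter (fun e => i ∈ e) := by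
    rw [← Finset.filter_union, cutT, Finset.sdiff_union_inter]
  have h2 : Disjoint ((cutT E T).filter (fun e => i ∈ e)) ((E ∩ prs T).filter (fun e => i ∈ e)) := by
    apply Finset.disjoint_filter_filter
    rw [cutT]
    exact Finset.disjoint_sdiff_inter E (prs T)
  unfold Vr sw
  rw [h1, Finset.sum_union h2]
  have h3 : ∀ e ∈ (E ∩ prs T).filter (fun e => i ∈ e), tp y e * (1 - tp y e) ≤ 1 / 4 := by
    intro e _
    rw [rq_tp_var]
    nlinarith [sq_nonneg (Real.tanh (sm y e / 2))]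
  have h4 := Finset.sum_le_sum h3
  rw [Finset.sum_const, nsmul_eq_mul] at h4
  have h5 : (((E ∩ prs T).filter (fun e => i ∈ e)).card : ℝ) ≤ T.card := by exact_mod_cast rq_inside_card E T i
  linarith

private theorem rq_exp_two {u : ℝ} (h0 : 0 ≤ u) (h1 : u ≤ 1 / 2) : 1 ≤ (1 - u) * Real.exp (2 * u) := by
  have h := Real.add_one_le_exp (2 * u)
  nlinarith [mul_le_mul_of_nonneg_left h (by linarith : (0 : ℝ) ≤ 1 - u)]

private theorem rq_sqrt_inv {V V' r : ℝ} (hV : 0 < V) (hV' : 0 < V') (hr : 0 ≤ r) (h : V ≤ r ^ 2 * V') :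
    (Real.sqrt (2 * Real.pi * V'))⁻¹ ≤ r * (Real.sqrt (2 * Real.pi * V))⁻¹ := by
  have hp := Real.pi_pos
  have h1 : 0 < Real.sqrt (2 * Real.pi * V') := Real.sqrt_pos.mpr (by positivity)
  have h2 : 0 < Real.sqrt (2 * Real.pi * V) := Real.sqrt_pos.mpr (by positivity)
  have h3 : Real.sqrt (2 * Real.pi * V) ≤ r * Real.sqrt (2 * Real.pi * V') := by
    rw [Real.sqrt_le_left (by positivity), mul_pow, Real.sq_sqrt (by positivity)]
    nlinarith
  rw [inv_eq_one_div, ← div_eq_mul_inv, div_le_div_iff₀ h1 h2, one_mul]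
  exact h3

private theorem rq_GF {δ : ℝ} (hδ : 0 < δ) {E : Finset (Sym2 ι)} {T : Finset ι} {y : ι → ℝ} {ρ : ℝ}
    (hm : 0 < Fintype.card ι) (hy : ∀ i, |y i| ≤ ρ) (hρ : ρ ^ 2 ≤ 1 / 5)
    (hdeg : ∀ i, δ * Fintype.card ι ≤ dgE E i) (hT : (T.card : ℝ) ≤ δ / 4 * Fintype.card ι) :
    GF (cutT E T) (tp y) ≤ Real.exp (2 / δ * (T.card : ℝ) ^ 2 / Fintype.card ι) * GF E (tp y) := by
  have hm' : (0 : ℝ) < Fintype.card ι := by exact_mod_cast hm
  obtain ⟨u, hu⟩ : ∃ u : ℝ, u = 5 / 4 * T.card / (δ * Fintype.card ι) := ⟨_, rfl⟩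
  have hu0 : 0 ≤ u := by
    rw [hu]
    positivity
  have hu1 : u ≤ 1 / 2 := by
    rw [hu, div_le_iff₀ (by positivity)]
    nlinarith
  have hone : ∀ i : ι, (Real.sqrt (2 * Real.pi * Vr (cutT E T) (tp y) i))⁻¹ ≤
      (if i ∈ T then Real.exp u else 1) * (Real.sqrt (2 * Real.pi * Vr E (tp y) i))⁻¹ := by
    intro i
    have hlowE : 1 / 5 * (δ * Fintype.card ι) ≤ Vr E (tp y) i := by
      refine le_trans ?_ (rq_le_Vr E hy i)
      have h1 := hdeg i
      have h2 : 0 ≤ δ * Fintype.card ι := by positivity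
      nlinarith [mul_nonneg (by linarith : (0 : ℝ) ≤ 1 / 5 - ρ ^ 2) (le_trans h2 h1)]
    have hV : 0 < Vr E (tp y) i := lt_of_lt_of_le (by positivity) hlowE
    by_cases hi : i ∈ T
    · rw [if_pos hi]
      have hcut := rq_Vr_cut E T y i
      have huT : (T.card : ℝ) / 4 ≤ u * Vr E (tp y) i := by
        have h1 : u * (1 / 5 * (δ * Fintype.card ι)) = (T.card : ℝ) / 4 := by
          rw [hu]
          field_simp
        rw [← h1]
        exact mul_le_mul_of_nonneg_left hlowE hu0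
      have hlow' : (1 - u) * Vr E (tp y) i ≤ Vr (cutT E T) (tp y) i := by linarith
      have hV' : 0 < Vr (cutT E T) (tp y) i := lt_of_lt_of_le (mul_pos (by linarith) hV) hlow'
      refine rq_sqrt_inv hV hV' (Real.exp_pos _).le ?_
      have he := rq_exp_two hu0 hu1
      have he2 : Real.exp u ^ 2 = Real.exp (2 * u) := by
        rw [← Real.exp_nat_mul]
        norm_num
      rw [he2]
      calc Vr E (tp y) i = 1 * Vr E (tp y) i := (one_mul _).symm
        _ ≤ ((1 - u) * Real.exp (2 * u)) * Vr E (tp y) i := mul_le_mul_of_nonneg_right he hV.le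
        _ = Real.exp (2 * u) * ((1 - u) * Vr E (tp y) i) := by ring
        _ ≤ _ := mul_le_mul_of_nonneg_left hlow' (Real.exp_pos _).le
    · rw [if_neg hi, one_mul]
      unfold Vr sw
      rw [rq_cut_off hi]
  unfold GF
  have hprod : ∏ i : ι, (if i ∈ T then Real.exp u else 1) = Real.exp (T.card * u) := by
    rw [Finset.prod_ite_mem, Finset.univ_inter, Finset.prod_const, ← Real.exp_nat_mul]
  have hexp : Real.exp (T.card * u) ≤ Real.exp (2 / δ * (T.card : ℝ) ^ 2 / Fintype.card ι) := by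
    apply Real.exp_le_exp.mpr
    rw [hu]
    have h1 : (T.card : ℝ) * (5 / 4 * T.card / (δ * Fintype.card ι)) =
        5 / 4 * ((T.card : ℝ) ^ 2 / (δ * Fintype.card ι)) := by ring
    have h2 : 2 / δ * (T.card : ℝ) ^ 2 / Fintype.card ι = 2 * ((T.card : ℝ) ^ 2 / (δ * Fintype.card ι)) := by
      field_simp
    rw [h1, h2]
    have : 0 ≤ (T.card : ℝ) ^ 2 / (δ * Fintype.card ι) := by positivity
    linarith
  have hG0 : 0 ≤ ∏ i : ι, (Real.sqrt (2 * Real.pi * Vr E (tp y) i))⁻¹ :=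
    Finset.prod_nonneg fun i _ => inv_nonneg.mpr (Real.sqrt_nonneg _)
  calc ∏ i : ι, (Real.sqrt (2 * Real.pi * Vr (cutT E T) (tp y) i))⁻¹
      ≤ ∏ i : ι, ((if i ∈ T then Real.exp u else 1) * (Real.sqrt (2 * Real.pi * Vr E (tp y) i))⁻¹) :=
        Finset.prod_le_prod (fun i _ => inv_nonneg.mpr (Real.sqrt_nonneg _)) fun i _ => hone i
    _ = Real.exp (T.card * u) * ∏ i : ι, (Real.sqrt (2 * Real.pi * Vr E (tp y) i))⁻¹ := by
        rw [Finset.prod_mul_distrib, hprod]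
    _ ≤ _ := mul_le_mul_of_nonneg_right hexp hG0

/-- the factor of a pair inside `T` -/
private theorem rq_factor (u : ℝ) (b : Prop) [Decidable b] :
    Real.cosh u * (1 + (if b then Real.tanh u else -Real.tanh u)) = Real.exp (if b then u else -u) := by
  have hc := (Real.cosh_pos u).ne'
  split_ifs
  · rw [mul_add, mul_one, Real.tanh_eq_sinh_div_cosh, mul_div_cancel₀ _ hc, Real.cosh_add_sinh]
  · rw [mul_add, mul_one, Real.tanh_eq_sinh_div_cosh, mul_neg, mul_div_cancel₀ _ hc, ← sub_eq_add_neg,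
      Real.cosh_sub_sinh]

private theorem rq_identity {E : Finset (Sym2 ι)} (hE : ∀ e ∈ E, ¬ e.IsDiag) (T : Finset ι) {h : Finset (Sym2 ι)}
    (hh : h ⊆ E ∩ prs T) (y : ι → ℝ) (t : ι → ℤ) :
    (∏ e ∈ cutT E T, Real.cosh (sm y e / 2)) *
        Real.exp (∑ i, y i * ((dgE (cutT E T) i : ℝ) / 2 - ((t i - dgE h i : ℤ) : ℝ))) =
      (∏ e ∈ E, Real.cosh (sm y e / 2)) * Real.exp (∑ i, y i * ((dgE E i : ℝ) / 2 - t i)) *
        ∏ e ∈ E ∩ prs T, (1 + (if e ∈ h then Real.tanh (sm y e / 2) else -Real.tanh (sm y e / 2))) := by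
  have hcut : cutT E T ⊆ E := Finset.sdiff_subset
  have hin : E ∩ prs T ⊆ E := Finset.inter_subset_left
  have hEs := sum_sm hE y
  have hCs := sum_sm (fun e he => hE e (hcut he)) y
  have hHs := sum_sm (fun e he => hE e (hin (hh he))) y
  have e1 : ∑ i, y i * ((dgE (cutT E T) i : ℝ) / 2 - ((t i - dgE h i : ℤ) : ℝ)) =
      (∑ e ∈ cutT E T, sm y e) / 2 - ∑ i, y i * t i + ∑ e ∈ h, sm y e := by
    rw [hCs, hHs, Finset.sum_div, ← Finset.sum_sub_distrib, ← Finset.sum_add_distrib]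
    refine Finset.sum_congr rfl fun i _ => ?_
    push_cast
    ring
  have e2 : ∑ i, y i * ((dgE E i : ℝ) / 2 - t i) = (∑ e ∈ E, sm y e) / 2 - ∑ i, y i * t i := by
    rw [hEs, Finset.sum_div, ← Finset.sum_sub_distrib]
    refine Finset.sum_congr rfl fun i _ => ?_
    ring
  have hP : ∏ e ∈ E, Real.cosh (sm y e / 2) =
      (∏ e ∈ E ∩ prs T, Real.cosh (sm y e / 2)) * ∏ e ∈ cutT E T, Real.cosh (sm y e / 2) := by
    rw [cutT, Finset.prod_inter_mul_prod_sdiff]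
  have hS : ∑ e ∈ E, sm y e = ∑ e ∈ E ∩ prs T, sm y e + ∑ e ∈ cutT E T, sm y e := by
    rw [cutT, Finset.sum_inter_add_sum_sdiff]
  have hF : (∏ e ∈ E ∩ prs T, Real.cosh (sm y e / 2)) *
      ∏ e ∈ E ∩ prs T, (1 + (if e ∈ h then Real.tanh (sm y e / 2) else -Real.tanh (sm y e / 2))) =
      Real.exp (∑ e ∈ E ∩ prs T, (if e ∈ h then sm y e / 2 else -(sm y e / 2))) := by
    rw [← Finset.prod_mul_distrib, Real.exp_sum]
    exact Finset.prod_congr rfl fun e _ => rq_factor _ _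
  have hH : ∑ e ∈ h, sm y e = ∑ e ∈ E ∩ prs T, (if e ∈ h then sm y e else 0) := by
    rw [Finset.sum_ite_mem, Finset.inter_eq_right.mpr hh]
  have hL : ∑ e ∈ E ∩ prs T, (if e ∈ h then sm y e / 2 else -(sm y e / 2)) =
      ∑ e ∈ h, sm y e - (∑ e ∈ E ∩ prs T, sm y e) / 2 := by
    rw [hH, Finset.sum_div, ← Finset.sum_sub_distrib]
    refine Finset.sum_congr rfl fun e _ => ?_
    split_ifs <;> ring
  rw [e1, e2, hP]
  calc (∏ e ∈ cutT E T, Real.cosh (sm y e / 2)) *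
        Real.exp ((∑ e ∈ cutT E T, sm y e) / 2 - ∑ i, y i * t i + ∑ e ∈ h, sm y e)
      = (∏ e ∈ cutT E T, Real.cosh (sm y e / 2)) * (Real.exp ((∑ e ∈ E, sm y e) / 2 - ∑ i, y i * t i) *
          Real.exp (∑ e ∈ E ∩ prs T, (if e ∈ h then sm y e / 2 else -(sm y e / 2)))) := by
        rw [← Real.exp_add, hL, hS]
        congr 2
        ring
    _ = _ := by
        rw [← hF]
        ring

theorem ratio2 (δ : ℝ) (hδ : 0 < δ) (hδ1 : δ ≤ 1) : ∃ C c₁ η : ℝ, ∃ m₀ : ℕ, 1 ≤ C ∧ 0 < c₁ ∧ 0 < η ∧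
    ∀ (ι : Type) [Fintype ι] [DecidableEq ι] (E : Finset (Sym2 ι)) (t : ι → ℤ) (X : ℝ),
      DN δ (δ / 16) E → m₀ ≤ Fintype.card ι → Even (∑ i, t i) → (∀ i, |(dgE E i : ℝ) / 2 - t i| ≤ X) →
      0 ≤ X → X ≤ η * Fintype.card ι →
      ∃ y : ι → ℝ, (∀ i, |y i| ≤ C * X / Fintype.card ι) ∧
        ∀ T : Finset ι, (T.card : ℝ) ≤ c₁ * Fintype.card ι → ∀ A ⊆ E ∩ prs T,
          PD (cutT E T) (fun _ => 1 / 2) (fun i => t i - dgE A i) ≤
            C * Real.exp (C * T.card ^ 2 / Fintype.card ι) *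
              (∏ e ∈ E ∩ prs T, (if e ∈ A then 1 + Real.tanh (sm y e / 2) else 1 - Real.tanh (sm y e / 2))) *
              PD E (fun _ => 1 / 2) t := by
  obtain ⟨c, hc, hqr⟩ := qr_of_dn δ hδ
  obtain ⟨c2, hc2, hqr2⟩ := qr_of_dn (δ / 2) (by positivity)
  obtain ⟨c₁, hc₁, -, hcut⟩ := dn_cut δ hδ hδ1
  obtain ⟨Cu, hCu, hupper⟩ := upper c2 hc2
  obtain ⟨c', η₀, m₀, hc', hη₀, hη₁, hlower⟩ := lower c hc
  obtain ⟨Ct, ηt, hCt, hηt, htilt⟩ := tilt_bound c hc
  have hK0 : 0 < Cu / c' := by positivity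
  have hδ2 : 0 < 2 / δ := by positivity
  refine ⟨1 + Cu / c' + Ct + 2 / δ, min c₁ (δ / 4), min (c / 4) (min ηt (η₀ / Ct)), max m₀ (⌈32 / δ⌉₊ + 1),
    by linarith, lt_min hc₁ (by positivity), lt_min (by positivity) (lt_min hηt (by positivity)), ?_⟩
  intro ι _ _ E t X hDN hm heven hx hX0 hXm
  have hm1 : m₀ ≤ Fintype.card ι := le_trans (le_max_left _ _) hm
  have hm2 : ⌈32 / δ⌉₊ + 1 ≤ Fintype.card ι := le_trans (le_max_right _ _) hm
  have hmpos : 0 < Fintype.card ι := by omega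
  have hmR : (0 : ℝ) < Fintype.card ι := by exact_mod_cast hmpos
  have hm32 : 32 ≤ δ * Fintype.card ι := by
    have h1 : 32 / δ ≤ (Fintype.card ι : ℝ) := by
      refine (Nat.le_ceil _).trans ?_
      exact_mod_cast (by omega : ⌈32 / δ⌉₊ ≤ Fintype.card ι)
    rw [div_le_iff₀ hδ] at h1
    linarith
  have : Nonempty ι := Fintype.card_pos_iff.mp hmpos
  have hX1 : X ≤ c / 4 * Fintype.card ι := hXm.trans (mul_le_mul_of_nonneg_right (min_le_left _ _) hmR.le)
  have hX2 : X ≤ ηt * Fintype.card ι := hXm.trans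
    (mul_le_mul_of_nonneg_right ((min_le_right _ _).trans (min_le_left _ _)) hmR.le)
  have hX3 : X ≤ η₀ / Ct * Fintype.card ι := hXm.trans
    (mul_le_mul_of_nonneg_right ((min_le_right _ _).trans (min_le_right _ _)) hmR.le)
  have hQ : QR c E := hqr ι E (dn_mono hDN (by linarith)) (by linarith)
  obtain ⟨x, hxdef⟩ : ∃ x : ι → ℝ, x = fun i => (dgE E i : ℝ) / 2 - t i := ⟨_, rfl⟩
  have hxX : ∀ i, |x i| ≤ X := by
    intro i
    rw [hxdef]
    exact hx i
  obtain ⟨y, hy⟩ := tilt_exists hQ hxX (by nlinarith [mul_pos hc hmR])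
  have hyb := (htilt ι E x y X hQ hX0 hX2 hxX hy).1
  obtain ⟨ρ, hρdef⟩ : ∃ ρ : ℝ, ρ = Ct * X / Fintype.card ι := ⟨_, rfl⟩
  rw [← hρdef] at hyb
  have hρ0 : 0 ≤ ρ := by
    rw [hρdef]
    positivity
  have hρη : ρ ≤ η₀ := by
    rw [hρdef, div_le_iff₀ hmR]
    calc Ct * X ≤ Ct * (η₀ / Ct * Fintype.card ι) := mul_le_mul_of_nonneg_left hX3 hCt.le
      _ = η₀ * Fintype.card ι := by field_simp
  have hρ1 : ρ ≤ 1 / 10 := hρη.trans hη₁
  have hρ2 : ρ ^ 2 ≤ 1 / 5 := by nlinarith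
  have htanh : ∀ e, |Real.tanh (sm y e / 2)| ≤ ρ := fun e => (rq_abs_tanh _).trans (rq_sm_abs hyb e)
  have htp : ∀ e, |2 * tp y e - 1| ≤ ρ := by
    intro e
    have h1 : 2 * tp y e - 1 = Real.tanh (sm y e / 2) := by
      unfold tp
      ring
    rw [h1]
    exact htanh e
  have hsw : ∀ i, sw E (tp y) i = t i := by
    intro i
    have h1 : sw E (tp y) i = (dgE E i : ℝ) / 2 + sw E (fun e => Real.tanh (sm y e / 2) / 2) i := by
      unfold sw dgE tp
      rw [← nsmul_one, div_eq_mul_inv, smul_mul_assoc, one_mul, ← Finset.sum_const, ← Finset.sum_add_distrib]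
      refine Finset.sum_congr rfl fun e _ => ?_
      ring
    rw [h1, hy, hxdef]
    ring
  have hL : c' * GF E (tp y) ≤ PD E (tp y) t :=
    hlower ι E (tp y) t hQ hm1 (fun e _ => (htp e).trans hρη) hsw heven
  refine ⟨y, fun i => ?_, ?_⟩
  · refine (hyb i).trans ?_
    rw [hρdef]
    apply div_le_div_of_nonneg_right _ hmR.le
    exact mul_le_mul_of_nonneg_right (by linarith) hX0
  intro T hT h hh
  have hT1 : (T.card : ℝ) ≤ c₁ * Fintype.card ι := hT.trans (mul_le_mul_of_nonneg_right (min_le_left _ _) hmR.le)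
  have hT2 : (T.card : ℝ) ≤ δ / 4 * Fintype.card ι := hT.trans (mul_le_mul_of_nonneg_right (min_le_right _ _) hmR.le)
  have hQ2 : QR c2 (cutT E T) := by
    refine hqr2 ι (cutT E T) ?_ (by linarith)
    have h := hcut ι E T hDN hT1
    have e1 : δ / 2 / 8 = δ / 16 := by ring
    rw [e1]
    exact h
  have hnd := hDN.nd
  have hnd' : ∀ e ∈ cutT E T, ¬ e.IsDiag := hQ2.nd
  have hU : PD (cutT E T) (tp y) (fun i => t i - dgE h i) ≤ Cu * GF (cutT E T) (tp y) :=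
    hupper ι (cutT E T) (tp y) _ hQ2 fun e _ => (htp e).trans hρ1
  have hG := rq_GF (T := T) hδ hmpos hyb hρ2 hDN.deg hT2
  have hid := tilt_id hnd y t
  have hid' := tilt_id hnd' y (fun i => t i - dgE h i)
  have hI := rq_identity hnd T hh y t
  obtain ⟨F, hF⟩ : ∃ F : ℝ, F = ∏ e ∈ E ∩ prs T,
      (1 + (if e ∈ h then Real.tanh (sm y e / 2) else -Real.tanh (sm y e / 2))) := ⟨_, rfl⟩
  have hF0 : 0 ≤ F := by
    rw [hF]
    refine Finset.prod_nonneg fun e _ => ?_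
    have h1 := abs_le.mp ((htanh e).trans hρ1)
    split_ifs <;> linarith [h1.1, h1.2]
  obtain ⟨Z, hZ⟩ : ∃ Z : ℝ, Z = (∏ e ∈ E, Real.cosh (sm y e / 2)) *
      Real.exp (∑ i, y i * ((dgE E i : ℝ) / 2 - t i)) := ⟨_, rfl⟩
  have hZ0 : 0 ≤ Z := by
    rw [hZ]
    exact mul_nonneg (Finset.prod_nonneg fun e _ => (Real.cosh_pos _).le) (Real.exp_pos _).le
  rw [← hF, ← hZ] at hI
  rw [← hZ] at hid
  have hP0 : 0 ≤ PD E (tp y) t := le_trans (mul_nonneg hc'.le (Finset.prod_nonneg fun i _ =>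
    inv_nonneg.mpr (Real.sqrt_nonneg _))) hL
  have hG0 : 0 ≤ GF E (tp y) := Finset.prod_nonneg fun i _ => inv_nonneg.mpr (Real.sqrt_nonneg _)
  have hPD' : PD (cutT E T) (tp y) (fun i => t i - dgE h i) ≤
      Cu / c' * Real.exp (2 / δ * (T.card : ℝ) ^ 2 / Fintype.card ι) * PD E (tp y) t := by
    calc PD (cutT E T) (tp y) (fun i => t i - dgE h i) ≤ Cu * GF (cutT E T) (tp y) := hU
      _ ≤ Cu * (Real.exp (2 / δ * (T.card : ℝ) ^ 2 / Fintype.card ι) * GF E (tp y)) :=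
          mul_le_mul_of_nonneg_left hG hCu.le
      _ = Cu / c' * Real.exp (2 / δ * (T.card : ℝ) ^ 2 / Fintype.card ι) * (c' * GF E (tp y)) := by field_simp
      _ ≤ _ := mul_le_mul_of_nonneg_left hL (by positivity)
  have hcoef : Cu / c' * Real.exp (2 / δ * (T.card : ℝ) ^ 2 / Fintype.card ι) ≤
      (1 + Cu / c' + Ct + 2 / δ) * Real.exp ((1 + Cu / c' + Ct + 2 / δ) * (T.card : ℝ) ^ 2 / Fintype.card ι) := by
    refine mul_le_mul (by linarith) (Real.exp_le_exp.mpr ?_) (Real.exp_pos _).le (by linarith)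
    apply div_le_div_of_nonneg_right _ hmR.le
    exact mul_le_mul_of_nonneg_right (by linarith) (sq_nonneg _)
  rw [hid', hI, hid]
  calc Z * F * PD (cutT E T) (tp y) (fun i => t i - dgE h i)
      ≤ Z * F * (Cu / c' * Real.exp (2 / δ * (T.card : ℝ) ^ 2 / Fintype.card ι) * PD E (tp y) t) :=
        mul_le_mul_of_nonneg_left hPD' (mul_nonneg hZ0 hF0)
    _ = (Cu / c' * Real.exp (2 / δ * (T.card : ℝ) ^ 2 / Fintype.card ι)) * (F * (Z * PD E (tp y) t)) := by ring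
    _ ≤ _ := mul_le_mul_of_nonneg_right hcoef (mul_nonneg hF0 (mul_nonneg hZ0 hP0))
    _ = _ := by
        have hFF : F = ∏ e ∈ E ∩ prs T, (if e ∈ h then 1 + Real.tanh (sm y e / 2) else 1 - Real.tanh (sm y e / 2)) := by
          rw [hF]
          refine Finset.prod_congr rfl fun e _ => ?_
          split_ifs
          · rfl
          · exact (sub_eq_add_neg _ _).symm
        rw [← hFF]
        ring

end PLS
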