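import Pool.Agent.PLS.TrB
import Pool.Agent.PLR.TiltB

/-!
# PLS.TiltP: pointwise bound for the tilt

`tilt_bound`: `|y_i| ≤ C₀ X/m ≤ 1/4` (small `η`); `tilt_l2`: `∑ y^2 ≤ (8/(c m))^2 B^2 m^2 = (8B/c)^2`, so `∑ |y_j| ≤ √m 8B/c`. Equation at `i`: `∑_(j~i) tanh((y_i+y_j)/2)/2 = -x_i`, `|tanh((y_i+y_j)/2) - tanh(y_i/2)| ≤ |y_j|/2` (as in `PLR.TiltB`): `deg(i) |tanh(y_i/2)| ≤ 2|x_i| + ∑ |y_j|/2`, `deg(i) ≥ c m`, `|tanh u| ≥ |u|/2` for `|u| ≤ 1`.
-/

set_option autoImplicit false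

namespace PLS

open Finset Smo PLR

private lemma tq_tanh {u : ℝ} (hu : 0 ≤ u) : u / (1 + u) ≤ Real.tanh u := by
  rw [Real.tanh_eq, div_le_div_iff₀ (by positivity) (by positivity)]
  have h1 : Real.exp u = Real.exp (2 * u) * Real.exp (-u) := by
    rw [← Real.exp_add]
    congr 1
    ring
  have h2 := Real.add_one_le_exp (2 * u)
  have h3 := Real.exp_pos (-u)
  have h4 : (2 * u + 1) * Real.exp (-u) ≤ Real.exp u := by
    rw [h1]
    exact mul_le_mul_of_nonneg_right h2 h3.le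
  nlinarith

private lemma tq_half {u : ℝ} (hu : |u| ≤ 1) : |u| / 2 ≤ |Real.tanh u| := by
  have key : ∀ v : ℝ, 0 ≤ v → v ≤ 1 → v / 2 ≤ Real.tanh v := by
    intro v h0 h1
    refine le_trans ?_ (tq_tanh h0)
    exact div_le_div_of_nonneg_left h0 (by positivity) (by linarith)
  rcases abs_cases u with ⟨h, h0⟩ | ⟨h, h0⟩
  · rw [h] at hu ⊢
    exact (key u h0 hu).trans (le_abs_self _)
  · rw [h] at hu ⊢
    have h1 := key (-u) (by linarith) hu
    rw [Real.tanh_neg] at h1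
    exact h1.trans (neg_le_abs _)

private lemma tq_mono {a b : ℝ} (h : b ≤ a) : Real.tanh b ≤ Real.tanh a := by
  have h5 : 0 ≤ Real.tanh a - Real.tanh b := by
    rw [Real.tanh_eq, Real.tanh_eq, div_sub_div _ _ (by positivity) (by positivity)]
    apply div_nonneg _ (by positivity)
    have h6 : Real.exp (-a) * Real.exp b ≤ Real.exp a * Real.exp (-b) := by
      rw [← Real.exp_add, ← Real.exp_add]
      exact Real.exp_le_exp.2 (by linarith)
    nlinarith
  linarith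

private lemma tq_lip {a b : ℝ} (h : b ≤ a) : Real.tanh a - Real.tanh b ≤ 4 * (a - b) := by
  have hp := Real.exp_pos a
  have hq := Real.exp_pos (-a)
  have hr := Real.exp_pos b
  have hs := Real.exp_pos (-b)
  rw [Real.tanh_eq, Real.tanh_eq, div_sub_div _ _ (by positivity) (by positivity),
    div_le_iff₀ (by positivity)]
  have h1 : Real.exp (-a) * Real.exp b =
      Real.exp a * Real.exp (-b) * Real.exp (-(2 * (a - b))) := by
    rw [← Real.exp_add, ← Real.exp_add, ← Real.exp_add]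
    congr 1
    ring
  have h2 := Real.add_one_le_exp (-(2 * (a - b)))
  have h3 : 0 < Real.exp a * Real.exp (-b) := mul_pos hp hs
  have h4 : Real.exp a * Real.exp (-b) - Real.exp (-a) * Real.exp b ≤
      2 * (a - b) * (Real.exp a * Real.exp (-b)) := by
    rw [h1]
    nlinarith
  have h5 : Real.exp a * Real.exp (-b) ≤
      (Real.exp a + Real.exp (-a)) * (Real.exp b + Real.exp (-b)) := by
    nlinarith [mul_pos hp hr, mul_pos hq hr, mul_pos hq hs]
  have h6 : 4 * (a - b) * (Real.exp a * Real.exp (-b)) ≤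
      4 * (a - b) * ((Real.exp a + Real.exp (-a)) * (Real.exp b + Real.exp (-b))) :=
    mul_le_mul_of_nonneg_left h5 (by linarith)
  nlinarith

private lemma tq_abs (a b : ℝ) : |Real.tanh a - Real.tanh b| ≤ 4 * |a - b| := by
  rcases le_total b a with h | h
  · rw [abs_of_nonneg (sub_nonneg.2 (tq_mono h)), abs_of_nonneg (sub_nonneg.2 h)]
    exact tq_lip h
  · rw [abs_sub_comm, abs_sub_comm a b, abs_of_nonneg (sub_nonneg.2 (tq_mono h)),
      abs_of_nonneg (sub_nonneg.2 h)]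
    exact tq_lip h

section comb

variable {ι : Type} [Fintype ι] [DecidableEq ι]

private lemma tq_nb (E : Finset (Sym2 ι)) (i : ι) :
    E.filter (fun e => i ∈ e) =
      (Finset.univ.filter fun j => s(i, j) ∈ E).image (fun j => s(i, j)) := by
  ext e
  rw [Finset.mem_filter, Finset.mem_image]
  constructor
  · rintro ⟨he, hi⟩
    obtain ⟨j, rfl⟩ := Sym2.mem_iff_exists.1 hi
    exact ⟨j, by simp [he], rfl⟩
  · rintro ⟨j, hj, rfl⟩
    rw [Finset.mem_filter] at hj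
    exact ⟨hj.2, Sym2.mem_mk_left i j⟩

omit [Fintype ι] [DecidableEq ι] in
private lemma tq_inj (i : ι) : Function.Injective fun j : ι => s(i, j) := fun _ _ h =>
  Sym2.congr_right.1 h

private lemma tq_sw (E : Finset (Sym2 ι)) (w : Sym2 ι → ℝ) (i : ι) :
    sw E w i = ∑ j ∈ Finset.univ.filter (fun j => s(i, j) ∈ E), w s(i, j) := by
  rw [sw, tq_nb, Finset.sum_image fun j _ k _ h => tq_inj i h]

private lemma tq_dg (E : Finset (Sym2 ι)) (i : ι) :
    dgE E i = (Finset.univ.filter (fun j => s(i, j) ∈ E)).card := by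
  rw [dgE, tq_nb, Finset.card_image_of_injective _ (tq_inj i)]

end comb

theorem tilt_pt (c B : ℝ) (hc : 0 < c) (hB : 0 ≤ B) : ∃ C η : ℝ, 0 < C ∧ 0 < η ∧
    ∀ (ι : Type) [Fintype ι] [DecidableEq ι] (E : Finset (Sym2 ι)) (x y : ι → ℝ) (X : ℝ), QR c E → 0 < Fintype.card ι → 0 ≤ X →
      X ≤ η * Fintype.card ι → (∀ i, |x i| ≤ X) → (∀ i, sw E (fun e => Real.tanh (sm y e / 2) / 2) i = -x i) →
      ∑ i, x i ^ 2 ≤ B ^ 2 * (Fintype.card ι : ℝ) ^ 2 →
      ∀ i, |y i| ≤ C * (|x i| + Real.sqrt (Fintype.card ι)) / Fintype.card ι := by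
  obtain ⟨C₀, η₀, hC₀, hη₀, htb⟩ := tilt_bound c hc
  refine ⟨(8 + 64 * B / c) / c, min η₀ (1 / (4 * C₀)), by positivity, lt_min hη₀ (by positivity), ?_⟩
  intro ι _ _ E x y X hQ hm hX0 hX hx hy hsq i
  have hm' : (0 : ℝ) < Fintype.card ι := by exact_mod_cast hm
  obtain ⟨hyb, -⟩ := htb ι E x y X hQ hX0
    (hX.trans (mul_le_mul_of_nonneg_right (min_le_left _ _) hm'.le)) hx hy
  have hy4 : ∀ i, |y i| ≤ 1 / 4 := by
    intro i
    refine (hyb i).trans ?_
    rw [div_le_iff₀ hm']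
    have h1 : X ≤ 1 / (4 * C₀) * Fintype.card ι := hX.trans (mul_le_mul_of_nonneg_right (min_le_right _ _) hm'.le)
    calc C₀ * X ≤ C₀ * (1 / (4 * C₀) * Fintype.card ι) := mul_le_mul_of_nonneg_left h1 hC₀.le
      _ = 1 / 4 * Fintype.card ι := by field_simp
  have hl2 := tilt_l2 hc hQ hm hy4 hy
  have hY : ∑ i, y i ^ 2 ≤ (8 * B / c) ^ 2 := by
    refine hl2.trans ?_
    calc (8 / (c * Fintype.card ι)) ^ 2 * ∑ i, x i ^ 2 ≤
        (8 / (c * Fintype.card ι)) ^ 2 * (B ^ 2 * (Fintype.card ι : ℝ) ^ 2) :=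
          mul_le_mul_of_nonneg_left hsq (sq_nonneg _)
      _ = (8 * B / c) ^ 2 := by field_simp
  have hs : Real.sqrt (Fintype.card ι : ℝ) ^ 2 = Fintype.card ι := Real.sq_sqrt hm'.le
  have hs0 : 0 < Real.sqrt (Fintype.card ι : ℝ) := Real.sqrt_pos.2 hm'
  have hS : ∑ j, |y j| ≤ Real.sqrt (Fintype.card ι) * (8 * B / c) := by
    have h1 : (∑ j, |y j|) ^ 2 ≤ (Fintype.card ι : ℝ) * ∑ j, y j ^ 2 := by
      have h2 : (∑ j, |y j| * 1) ^ 2 ≤ (∑ j, |y j| ^ 2) * ∑ _j : ι, (1 : ℝ) ^ 2 :=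
        Finset.sum_mul_sq_le_sq_mul_sq _ _ _
      simp only [mul_one, one_pow, sum_const, Finset.card_univ, nsmul_eq_mul, sq_abs] at h2
      linarith [mul_comm (Fintype.card ι : ℝ) (∑ j, y j ^ 2)]
    have h3 : (∑ j, |y j|) ^ 2 ≤ (Real.sqrt (Fintype.card ι) * (8 * B / c)) ^ 2 := by
      rw [mul_pow, hs]
      exact h1.trans (mul_le_mul_of_nonneg_left hY hm'.le)
    exact (abs_le_of_sq_le_sq' h3 (by positivity)).2
  -- the equation at `i`
  have heq := hy i
  rw [tq_sw] at heq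
  have hdeg := hQ.deg i
  rw [tq_dg] at hdeg
  have hlip : ∀ j, |Real.tanh (sm y s(i, j) / 2) - Real.tanh (y i / 2)| ≤ 2 * |y j| := by
    intro j
    refine (tq_abs _ _).trans (le_of_eq ?_)
    rw [sm_mk, show (y i + y j) / 2 - y i / 2 = y j / 2 by ring, abs_div, abs_two]
    ring
  generalize hF : (Finset.univ.filter fun j => s(i, j) ∈ E) = F at heq hdeg
  have h1 : (F.card : ℝ) * |Real.tanh (y i / 2)| ≤ 2 * |x i| + 2 * ∑ j, |y j| := by
    have e1 : (F.card : ℝ) * Real.tanh (y i / 2) = ∑ j ∈ F, Real.tanh (sm y s(i, j) / 2) -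
        ∑ j ∈ F, (Real.tanh (sm y s(i, j) / 2) - Real.tanh (y i / 2)) := by
      rw [Finset.sum_sub_distrib, Finset.sum_const, nsmul_eq_mul]
      ring
    have e2 : ∑ j ∈ F, Real.tanh (sm y s(i, j) / 2) = -(2 * x i) := by
      rw [← Finset.sum_div] at heq
      linarith
    have e3 : |∑ j ∈ F, (Real.tanh (sm y s(i, j) / 2) - Real.tanh (y i / 2))| ≤ 2 * ∑ j, |y j| := by
      refine (Finset.abs_sum_le_sum_abs _ _).trans ?_
      refine (Finset.sum_le_sum fun j _ => hlip j).trans ?_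
      rw [← Finset.mul_sum]
      refine mul_le_mul_of_nonneg_left ?_ (by norm_num)
      exact Finset.sum_le_sum_of_subset_of_nonneg (Finset.subset_univ _) fun j _ _ => abs_nonneg _
    have e4 : (F.card : ℝ) * |Real.tanh (y i / 2)| = |(F.card : ℝ) * Real.tanh (y i / 2)| := by
      rw [abs_mul, Nat.abs_cast]
    rw [e4, e1, e2]
    calc |-(2 * x i) - ∑ j ∈ F, (Real.tanh (sm y s(i, j) / 2) - Real.tanh (y i / 2))|
        ≤ |-(2 * x i)| + |∑ j ∈ F, (Real.tanh (sm y s(i, j) / 2) - Real.tanh (y i / 2))| := abs_sub _ _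
      _ ≤ 2 * |x i| + 2 * ∑ j, |y j| := by
          rw [abs_neg, abs_mul, abs_two]
          linarith
  have h2 : |y i| / 4 ≤ |Real.tanh (y i / 2)| := by
    have h3 : |y i / 2| = |y i| / 2 := by rw [abs_div, abs_two]
    have h4 := tq_half (u := y i / 2) (by rw [h3]; linarith [hy4 i])
    rw [h3] at h4
    linarith
  have h3 : c * Fintype.card ι * (|y i| / 4) ≤ 2 * |x i| + 2 * (Real.sqrt (Fintype.card ι) * (8 * B / c)) := by
    calc c * Fintype.card ι * (|y i| / 4) ≤ (F.card : ℝ) * |Real.tanh (y i / 2)| :=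
          mul_le_mul hdeg h2 (by positivity) (Nat.cast_nonneg _)
      _ ≤ 2 * |x i| + 2 * ∑ j, |y j| := h1
      _ ≤ _ := by linarith
  rw [le_div_iff₀ hm', div_mul_eq_mul_div, le_div_iff₀ hc]
  have h4 : 0 ≤ 64 * B / c := by positivity
  have h5 : 2 * (Real.sqrt (Fintype.card ι) * (8 * B / c)) * 4 = 64 * B / c * Real.sqrt (Fintype.card ι) := by
    field_simp
    ring
  have h6 := abs_nonneg (x i)
  nlinarith [mul_nonneg h4 h6, hs0.le]

end PLS
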