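import Pool.Agent.PLS.Gd
import Pool.Agent.PLR.Sel
import Pool.Agent.Smo.Window

/-!
# PLS.Sel3: `sel2` with the bound `f v ≤ 2 s √s/n`

The proof of `sel2` (`f = (s/F_W) f₀ ≤ (5/4) s √s/n`); copy it with the additional conclusion (or move the proof of `sel2` here as a private theorem of both).
-/

set_option autoImplicit false

namespace PLS

open Finset Smo PLR

private theorem ph_mem {V : Type*} [DecidableEq V] {c r : Finset (Sym2 V)} (hd : Disjoint c r) (e : Sym2 V) :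
    0 ≤ ph c r e ∧ ph c r e ≤ 1 := by
  unfold ph
  by_cases h1 : e ∈ c
  · have h2 : e ∉ r := disjoint_left.mp hd h1
    rw [if_pos h1, if_neg h2]
    norm_num
  · rw [if_neg h1]
    by_cases h2 : e ∈ r
    · rw [if_pos h2]
      norm_num
    · rw [if_neg h2]
      norm_num

private theorem dg_sum {V : Type*} [DecidableEq V] (r : Finset (Sym2 V)) (S : Finset V) (v : V) :
    (dg r S v : ℝ) = ∑ u ∈ S.erase v, (if s(v, u) ∈ r then (1 : ℝ) else 0) := by
  rw [← Finset.sum_filter, Finset.sum_const, nsmul_eq_mul, mul_one]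
  unfold dg
  have h : nb r S v = (S.erase v).filter fun u => s(v, u) ∈ r := by
    ext u
    rw [mem_nb, mem_filter, mem_erase]
    tauto
  rw [h]

private theorem Ex_low {V : Type*} [DecidableEq V] {f : V → ℝ} {W : Finset V} (hf : ∀ v ∈ W, 0 ≤ f v ∧ f v ≤ 1)
    {a : V → V → ℝ} (ha : ∀ v u, 0 ≤ a v u ∧ a v u ≤ 1) {s D y β : ℝ} (hs : ∑ v ∈ W, f v = s)
    (hm : ∀ v ∈ W, β ≤ ∑ u ∈ W.erase v, a v u * f u) (hy : 0 ≤ y) (hy1 : y ≤ 1) :
    Ex f W (fun S => ind (∃ v ∈ S, ∑ u ∈ S.erase v, a v u < β - D)) ≤ s * Real.exp (y ^ 2 * s - y * D) := by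
  set m : V → ℝ := fun v => ∑ u ∈ W.erase v, a v u * f u with hmdef
  set Y : V → Finset V → ℝ := fun v S => if v ∈ S then Real.exp (-(y * D)) *
      Real.exp (-y * (∑ u ∈ S.erase v, a v u - m v)) else 0 with hY
  have hY0 : ∀ v S, 0 ≤ Y v S := by
    intro v S
    rw [hY]
    dsimp only
    split_ifs
    · positivity
    · exact le_refl 0
  have hpt : ∀ S ⊆ W, ind (∃ v ∈ S, ∑ u ∈ S.erase v, a v u < β - D) ≤ ∑ v ∈ W, Y v S := by
    intro S hSW
    by_cases hG : ∃ v ∈ S, ∑ u ∈ S.erase v, a v u < β - D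
    · rw [ind_of hG]
      obtain ⟨v, hv, hvD⟩ := hG
      have h4 := single_le_sum (f := fun v => Y v S) (fun v _ => hY0 v S) (hSW hv)
      refine le_trans ?_ h4
      show 1 ≤ Y v S
      rw [hY]
      dsimp only
      rw [if_pos hv, ← Real.exp_add, Real.one_le_exp_iff]
      have h5 := hm v (hSW hv)
      have h7 : D ≤ m v - ∑ u ∈ S.erase v, a v u := by
        show D ≤ (∑ u ∈ W.erase v, a v u * f u) - ∑ u ∈ S.erase v, a v u
        linarith
      have h8 := mul_le_mul_of_nonneg_left h7 hy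
      linarith
    · rw [ind_not hG]
      exact sum_nonneg fun v _ => hY0 v S
  refine (Ex_mono hf hpt).trans ?_
  rw [Ex_sum]
  have hYE : ∀ v ∈ W, Ex f W (Y v) ≤ f v * Real.exp (y ^ 2 * s - y * D) := by
    intro v hv
    have hins : insert v (W.erase v) = W := insert_erase hv
    have hnot : v ∉ W.erase v := notMem_erase v W
    have e1 : Ex f W (Y v) = (1 - f v) * Ex f (W.erase v) (Y v) +
        f v * Ex f (W.erase v) (fun S => Y v (insert v S)) := by
      conv_lhs => rw [← hins]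
      exact Ex_insert f hnot _
    have e2 : Ex f (W.erase v) (Y v) = 0 := by
      have : Ex f (W.erase v) (Y v) = Ex f (W.erase v) (fun _ => 0) := by
        apply Ex_congr
        intro S hS
        rw [hY]
        dsimp only
        rw [if_neg]
        exact fun h => hnot (hS h)
      rw [this, Ex_const]
    have e3 : Ex f (W.erase v) (fun S => Y v (insert v S)) = Real.exp (-(y * D)) *
        Ex f (W.erase v) (fun S => Real.exp (-y * (∑ u ∈ S, a v u - m v))) := by
      rw [← Ex_mul_left]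
      apply Ex_congr
      intro S hS
      rw [hY]
      dsimp only
      rw [if_pos (mem_insert_self v S), erase_insert (fun h => hnot (hS h))]
    have hf' : ∀ u ∈ W.erase v, 0 ≤ f u ∧ f u ≤ 1 := fun u hu => hf u (mem_of_mem_erase hu)
    have hp' : ∀ u ∈ W.erase v, 0 ≤ a v u ∧ a v u ≤ 1 := fun u _ => ha v u
    have hs' : ∑ u ∈ W.erase v, f u ≤ s := by
      rw [← hs, ← add_sum_erase W f hv]
      linarith [(hf v hv).1]
    have h2 := Ex_exp_sum hf' (a := fun u => a v u) hp' (x := -y)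
      (by rw [abs_neg, abs_of_nonneg hy]; exact hy1) hs'
    rw [neg_sq] at h2
    rw [e1, e2, mul_zero, zero_add, e3]
    apply mul_le_mul_of_nonneg_left _ (hf v hv).1
    have h8 : Real.exp (y ^ 2 * s - y * D) = Real.exp (-(y * D)) * Real.exp (y ^ 2 * s) := by
      rw [← Real.exp_add]
      congr 1
      ring
    rw [h8]
    exact mul_le_mul_of_nonneg_left h2 (Real.exp_pos _).le
  refine (sum_le_sum hYE).trans ?_
  rw [← sum_mul, hs]

theorem sel3 {n : ℕ} (hn : 1 ≤ n) {c r : Finset (Sym2 (Fin n))} (hd : Disjoint c r) (hnd : ∀ e ∈ c ∪ r, ¬ e.IsDiag)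
    {δ s X : ℝ} {L : ℕ} (hδ : 0 < δ) (hδ1 : δ ≤ 1) (hL : 1 ≤ L) (hD : DenseR δ L r) (hs : 1 ≤ s)
    (hF : 64 * s * Real.sqrt s * (L + 1) ≤ δ * n) (hX : 8 * Real.sqrt s + 8 ≤ X) (hX4 : X ≤ s)
    (hc1 : 8 * Real.exp (-(s / 16)) ≤ 1) (hc2 : 8 * s * Real.exp (-(X ^ 2 / (16 * s))) ≤ 1)
    (hc3 : 16 * s * Real.exp (-(δ ^ 2 * s / 2000)) ≤ 1) :
    ∃ (f : Fin n → ℝ) (W : Finset (Fin n)) (k : ℕ), Even k ∧ (∀ v ∈ W, 0 ≤ f v ∧ f v ≤ 1) ∧
      (∀ v ∈ W, f v ≤ 2 * s * Real.sqrt s / n) ∧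
      1 / 8 ≤ Ex f W (fun S => ind (GoodT c r s X (δ / 32) k S)) ∧
      ∀ lam : ℝ, 1 ≤ lam → Ex f W (fun S => Ex f W (fun S' => lam ^ (S ∩ S').card)) ≤
        Real.exp ((lam - 1) * (2 * s ^ 2 * Real.sqrt s / n)) := by
  classical
  have hn0 : (1 : ℝ) ≤ n := by exact_mod_cast hn
  obtain ⟨N, hN⟩ : ∃ N : ℝ, N = n := ⟨_, rfl⟩
  obtain ⟨rs, hrs⟩ : ∃ rs : ℝ, rs = Real.sqrt s := ⟨_, rfl⟩
  rw [← hrs] at hF hX ⊢
  rw [← hN] at hF hn0 ⊢
  have hs0 : 0 < s := by linarith
  have hrr : rs * rs = s := by rw [hrs]; exact Real.mul_self_sqrt hs0.le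
  have hrs0 : 0 ≤ rs := by rw [hrs]; exact Real.sqrt_nonneg _
  have hrs8 : 8 ≤ rs := by
    by_contra hcon
    push Not at hcon
    have h1 := mul_le_mul_of_nonneg_right hcon.le hrs0
    linarith
  have hrspos : 0 < rs := by linarith
  obtain ⟨q, hq⟩ : ∃ q : ℝ, q = N / rs := ⟨_, rfl⟩
  have hqr : q * rs = N := by rw [hq]; field_simp
  have hL0 : (1 : ℝ) ≤ L := by exact_mod_cast hL
  have hqδ : 64 * s * (L + 1) ≤ δ * q := by
    have h1 : 64 * s * (L + 1) * rs ≤ δ * q * rs := by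
      have : δ * q * rs = δ * N := by rw [← hqr]; ring
      rw [this]
      calc 64 * s * (L + 1) * rs = 64 * s * rs * (L + 1) := by ring
        _ ≤ δ * N := hF
    exact le_of_mul_le_mul_right h1 hrspos
  have hqpos : 0 < q := by rw [hq]; positivity
  have hqL : 64 * s * (L + 1) ≤ q := by
    have h1 := mul_le_mul_of_nonneg_right hδ1 hqpos.le
    linarith
  have hsL : s * 1 ≤ s * (L + 1) := mul_le_mul_of_nonneg_left (by linarith) (by linarith)
  have hLs : 1 * ((L : ℝ) + 1) ≤ s * (L + 1) := mul_le_mul_of_nonneg_right hs (by linarith)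
  obtain ⟨T, hT⟩ : ∃ T : ℝ, T = q / rs := ⟨_, rfl⟩
  have hTr : T * rs = q := by rw [hT]; field_simp
  have hT0 : 0 < T := by rw [hT]; positivity
  have hTs : T * s = N := by rw [← hrr, ← hqr, ← hTr]; ring
  have hTN : T ≤ N := by
    have h1 := mul_le_mul_of_nonneg_left hs hT0.le
    linarith
  -- the sweep
  obtain ⟨r₀, f₀, hf0, hw0, hFq⟩ := sweep_real (fun p t : Fin n => ph c r s(p, t))
    (fun p t => (ph_mem hd _).1) (fun p t => (ph_mem hd _).2) (fun p t => by rw [Sym2.eq_swap])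
    (T := T) hT0 (by rw [Fintype.card_fin, ← hN]; exact hTN)
  rw [Fintype.card_fin, ← hN] at hFq
  obtain ⟨F, hFdef⟩ : ∃ F : ℝ, F = ∑ p, f₀ p := ⟨_, rfl⟩
  rw [← hFdef] at hw0 hFq
  have hTq : T * N = q * q := by rw [← hqr, ← hTr]; ring
  rw [hTq] at hFq
  have hF0 : 0 ≤ F := by rw [hFdef]; exact sum_nonneg fun p _ => (hf0 p).1
  have hF1 : 102 / 125 * q ≤ F := by
    by_contra hcon
    push Not at hcon
    have h1 := mul_self_le_mul_self hF0 hcon.le
    have h2 : 0 < q * q := mul_pos hqpos hqpos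
    have h3 : 102 / 125 * q * (102 / 125 * q) = 10404 / 15625 * (q * q) := by ring
    rw [sq] at hFq
    linarith
  -- bad vertices
  have hfb := few_bad hδ hL hD hf0 (by rw [← hFdef]; linarith)
  rw [← hFdef] at hfb
  obtain ⟨I, hI⟩ : ∃ I : Finset (Fin n), I = univ.filter fun v =>
    ∑ u ∈ univ.filter (fun u => u ≠ v ∧ s(v, u) ∈ r), f₀ u < δ / 4 * F := ⟨_, rfl⟩
  rw [← hI] at hfb
  obtain ⟨W, hW⟩ : ∃ W : Finset (Fin n), W = univ.filter fun v => 0 < f₀ v ∧ v ∉ I := ⟨_, rfl⟩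
  have hmW : ∀ v, v ∈ W ↔ (0 < f₀ v ∧ v ∉ I) := by
    intro v
    rw [hW, mem_filter]
    exact ⟨fun h => h.2, fun h => ⟨mem_univ v, h⟩⟩
  have key : ∀ a : Fin n → ℝ, (∀ u, 0 ≤ a u ∧ a u ≤ 1) →
      ∑ u, a u * f₀ u - L ≤ ∑ u ∈ W, a u * f₀ u ∧ ∑ u ∈ W, a u * f₀ u ≤ ∑ u, a u * f₀ u := by
    intro a ha
    have hsplit : ∑ u ∈ W, a u * f₀ u + ∑ u ∈ Wᶜ, a u * f₀ u = ∑ u, a u * f₀ u := sum_add_sum_compl W _
    have hnn : 0 ≤ ∑ u ∈ Wᶜ, a u * f₀ u := sum_nonneg fun u _ => mul_nonneg (ha u).1 (hf0 u).1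
    have hle : ∑ u ∈ Wᶜ, a u * f₀ u ≤ L := by
      calc ∑ u ∈ Wᶜ, a u * f₀ u ≤ ∑ u ∈ Wᶜ, (if u ∈ I then (1 : ℝ) else 0) := by
            apply sum_le_sum
            intro u hu
            rw [mem_compl, hmW] at hu
            by_cases hz : 0 < f₀ u
            · have hi : u ∈ I := by
                by_contra hi
                exact hu ⟨hz, hi⟩
              rw [if_pos hi]
              have := mul_le_mul (ha u).2 (hf0 u).2 (hf0 u).1 zero_le_one
              linarith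
            · have hz0 : f₀ u = 0 := le_antisymm (not_lt.mp hz) (hf0 u).1
              rw [hz0, mul_zero]
              split_ifs
              · exact zero_le_one
              · exact le_refl 0
        _ ≤ ∑ u, (if u ∈ I then (1 : ℝ) else 0) := by
            apply sum_le_sum_of_subset_of_nonneg (subset_univ _)
            intro u _ _
            split_ifs
            · exact zero_le_one
            · exact le_refl 0
        _ = (I.card : ℝ) := by
            rw [← Finset.sum_filter, Finset.sum_const, nsmul_eq_mul, mul_one]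
            congr 2
            ext u
            simp
        _ ≤ L := hfb.le
    constructor <;> linarith
  obtain ⟨FW, hFW⟩ : ∃ FW : ℝ, FW = ∑ u ∈ W, f₀ u := ⟨_, rfl⟩
  have hFW1 : F - L ≤ FW ∧ FW ≤ F := by
    have h := key (fun _ => 1) (fun _ => ⟨zero_le_one, le_refl 1⟩)
    simp only [one_mul] at h
    rw [← hFW, ← hFdef] at h
    exact h
  have hFWq : 4 / 5 * q ≤ FW := by linarith [hFW1.1]
  have hFWpos : 0 < FW := by linarith
  obtain ⟨θ, hθ⟩ : ∃ θ : ℝ, θ = s / FW := ⟨_, rfl⟩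
  have hθ0 : 0 ≤ θ := by rw [hθ]; positivity
  have hθFW : θ * FW = s := by rw [hθ]; field_simp
  have hθq : θ * q ≤ 5 / 4 * s := by
    have := mul_le_mul_of_nonneg_left hFWq hθ0
    linarith
  have hθL : θ * (L + 1) ≤ 1 / 4 := by
    have h1 := mul_le_mul_of_nonneg_left hqL hθ0
    have h2 : s * (64 * (θ * (L + 1))) ≤ s * (5 / 4) := by
      calc s * (64 * (θ * (L + 1))) = θ * (64 * s * (L + 1)) := by ring
        _ ≤ θ * q := h1
        _ ≤ 5 / 4 * s := hθq
        _ = s * (5 / 4) := by ring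
    have h3 := le_of_mul_le_mul_left h2 hs0
    linarith
  have hθ1 : θ ≤ 1 := by
    have h1 := mul_le_mul_of_nonneg_left (show (1 : ℝ) ≤ L + 1 by linarith) hθ0
    linarith
  have hθT : θ * T ≤ 5 / 4 * rs := by
    have h1 : θ * T * rs ≤ 5 / 4 * rs * rs := by
      calc θ * T * rs = θ * q := by rw [← hTr]; ring
        _ ≤ 5 / 4 * s := hθq
        _ = 5 / 4 * rs * rs := by rw [← hrr]; ring
    exact le_of_mul_le_mul_right h1 hrspos
  have hθw : θ * (T + L) ≤ 3 / 2 * rs := by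
    have h1 : θ * (T + L) = θ * T + (θ * (L + 1) - θ) := by ring
    rw [h1]
    linarith
  have hfW : ∀ v ∈ W, 0 ≤ θ * f₀ v ∧ θ * f₀ v ≤ 1 := by
    intro v _
    refine ⟨mul_nonneg hθ0 (hf0 v).1, ?_⟩
    have := mul_le_mul hθ1 (hf0 v).2 (hf0 v).1 zero_le_one
    linarith
  have hsum : ∑ v ∈ W, θ * f₀ v = s := by rw [← mul_sum, ← hFW]; exact hθFW
  have hdiag : ∀ v : Fin n, s(v, v) ∉ c ∧ s(v, v) ∉ r := by
    intro v
    constructor
    · intro h
      exact hnd _ (mem_union_left _ h) (by simp)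
    · intro h
      exact hnd _ (mem_union_right _ h) (by simp)
  obtain ⟨c₀, hc0⟩ : ∃ c₀ : ℝ, c₀ = θ * (r₀ * F) := ⟨_, rfl⟩
  have hw : ∀ v ∈ W, |∑ u ∈ W.erase v, ph c r s(v, u) * (θ * f₀ u) - c₀| ≤ 3 / 2 * rs := by
    intro v hv
    have h1 : ∑ u ∈ W.erase v, ph c r s(v, u) * (θ * f₀ u) = θ * ∑ u ∈ W, ph c r s(v, u) * f₀ u := by
      rw [sum_erase, mul_sum]
      · exact sum_congr rfl fun u _ => by ring
      · unfold ph
        rw [if_neg (hdiag v).1, if_neg (hdiag v).2]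
        ring
    have h2 := key (fun u => ph c r s(v, u)) (fun u => ph_mem hd _)
    have h3 := hw0 v ((hmW v).mp hv).1
    have h4 : Swp.mv (fun p t : Fin n => ph c r s(p, t)) f₀ v = ∑ u, ph c r s(v, u) * f₀ u := rfl
    rw [h4] at h3
    rw [h1, hc0, ← mul_sub, abs_mul, abs_of_nonneg hθ0]
    refine le_trans (mul_le_mul_of_nonneg_left ?_ hθ0) hθw
    rw [abs_le] at h3 ⊢
    constructor <;> linarith [h2.1, h2.2, h3.1, h3.2]
  -- the even number
  obtain ⟨v₀, hv0⟩ : W.Nonempty := by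
    by_contra h
    rw [not_nonempty_iff_eq_empty] at h
    rw [h, sum_empty] at hFW
    linarith
  have hc0' : -(3 / 2 * rs) ≤ c₀ := by
    have h1 := (abs_le.mp (hw v₀ hv0)).2
    have h2 : 0 ≤ ∑ u ∈ W.erase v₀, ph c r s(v₀, u) * (θ * f₀ u) :=
      sum_nonneg fun u _ => mul_nonneg (ph_mem hd _).1 (mul_nonneg hθ0 (hf0 u).1)
    linarith
  obtain ⟨k, hk⟩ : ∃ k : ℕ, k = 2 * ⌊c₀ / 2⌋₊ := ⟨_, rfl⟩
  have hkc : |(k : ℝ) - c₀| ≤ 3 / 2 * rs := by
    rw [hk]
    push_cast
    rcases le_total 0 (c₀ / 2) with h | h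
    · have h1 := Nat.floor_le h
      have h2 := Nat.lt_floor_add_one (c₀ / 2)
      rw [abs_le]
      constructor <;> linarith
    · have h1 : ⌊c₀ / 2⌋₊ = 0 := Nat.floor_of_nonpos h
      rw [h1, abs_le]
      push_cast
      constructor <;> linarith
  have hkeven : Even k := by rw [hk]; exact even_two_mul _
  -- sizes and expected degrees
  have hgood := Ex_good' (p := ph c r) (f := fun v => θ * f₀ v) (W := W) hfW
    (fun u _ v _ _ => ph_mem hd _) (s := s) (c := c₀) (D0 := X - 3 / 2 * rs) (w := 3 / 2 * rs)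
    (t := (X - 3 * rs) / (2 * s)) hsum hw
    (by apply div_nonneg <;> linarith) (by rw [div_le_one (by linarith)]; linarith) hc1
    (by
      refine le_trans (mul_le_mul_of_nonneg_left (Real.exp_le_exp.mpr ?_) (by linarith)) hc2
      have h1 : ((X - 3 * rs) / (2 * s)) ^ 2 * s - (X - 3 * rs) / (2 * s) * (X - 3 / 2 * rs - 3 / 2 * rs) =
          -((X - 3 * rs) ^ 2 / (4 * s)) := by
        field_simp
        ring
      have h2 : X ^ 2 / (16 * s) = (X / 2) ^ 2 / (4 * s) := by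
        field_simp
        ring
      rw [h1, neg_le_neg_iff, h2]
      apply div_le_div_of_nonneg_right _ (by linarith)
      apply pow_le_pow_left₀ (by linarith)
      linarith)
  have hsq := Ex_sq (p := ph c r) (f := fun v => θ * f₀ v) (W := W) hfW
    (fun u _ v _ _ => ph_mem hd _) (s := s) (c := (k : ℝ)) (w := 3 * rs) hsum (by
      intro v hv
      have h1 := hw v hv
      rw [abs_le] at h1 hkc ⊢
      constructor <;> linarith [h1.1, h1.2, hkc.1, hkc.2])
  have hsq2 : Ex (fun v => θ * f₀ v) W (fun S => (1000 * s ^ 2)⁻¹ *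
      ∑ v ∈ S, (∑ u ∈ S.erase v, ph c r s(v, u) - k) ^ 2) ≤ 1 / 100 := by
    rw [Ex_mul_left]
    have h1 : s * (s + (3 * rs) ^ 2) = 10 * s ^ 2 := by
      have : (3 * rs) ^ 2 = 9 * (rs * rs) := by ring
      rw [this, hrr]
      ring
    rw [h1] at hsq
    have h2 : (0 : ℝ) < (1000 * s ^ 2)⁻¹ := by positivity
    calc (1000 * s ^ 2)⁻¹ * _ ≤ (1000 * s ^ 2)⁻¹ * (10 * s ^ 2) := mul_le_mul_of_nonneg_left hsq h2.le
      _ = 1 / 100 := by field_simp; norm_num
  -- degrees in r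
  have hlowm : ∀ v ∈ W, δ / 8 * s ≤ ∑ u ∈ W.erase v, (if s(v, u) ∈ r then (1 : ℝ) else 0) * (θ * f₀ u) := by
    intro v hv
    have h1 : ∑ u ∈ W.erase v, (if s(v, u) ∈ r then (1 : ℝ) else 0) * (θ * f₀ u) =
        θ * ∑ u ∈ W, (if s(v, u) ∈ r then (1 : ℝ) else 0) * f₀ u := by
      rw [sum_erase, mul_sum]
      · exact sum_congr rfl fun u _ => by ring
      · rw [if_neg (hdiag v).2]
        ring
    have h2 := (key (fun u => if s(v, u) ∈ r then (1 : ℝ) else 0) (fun u => by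
      split_ifs
      · exact ⟨zero_le_one, le_refl 1⟩
      · exact ⟨le_refl 0, zero_le_one⟩)).1
    have h3 : v ∉ I := ((hmW v).mp hv).2
    rw [hI, mem_filter] at h3
    have h4 : δ / 4 * F ≤ ∑ u ∈ univ.filter (fun u => u ≠ v ∧ s(v, u) ∈ r), f₀ u := by
      by_contra hcon
      push Not at hcon
      exact h3 ⟨mem_univ v, hcon⟩
    have h5 : ∑ u ∈ univ.filter (fun u => u ≠ v ∧ s(v, u) ∈ r), f₀ u =
        ∑ u, (if s(v, u) ∈ r then (1 : ℝ) else 0) * f₀ u := by
      rw [sum_filter]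
      apply sum_congr rfl
      intro u _
      by_cases hu : s(v, u) ∈ r
      · have hne : u ≠ v := by
          rintro rfl
          exact (hdiag u).2 hu
        rw [if_pos ⟨hne, hu⟩, if_pos hu, one_mul]
      · rw [if_neg (fun h => hu h.2), if_neg hu, zero_mul]
    rw [h5] at h4
    rw [h1]
    have h6 : δ / 8 * FW ≤ ∑ u ∈ W, (if s(v, u) ∈ r then (1 : ℝ) else 0) * f₀ u := by
      have h7 : δ / 8 * FW ≤ δ / 8 * F := mul_le_mul_of_nonneg_left hFW1.2 (by linarith)
      have h8 : δ * (102 / 125 * q) ≤ δ * F := mul_le_mul_of_nonneg_left hF1 hδ.le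
      linarith
    have h9 := mul_le_mul_of_nonneg_left h6 hθ0
    have h10 : θ * (δ / 8 * FW) = δ / 8 * s := by rw [← hθFW]; ring
    linarith
  have hlow := Ex_low (f := fun v => θ * f₀ v) (W := W) hfW
    (a := fun v u => if s(v, u) ∈ r then (1 : ℝ) else 0) (fun v u => by
      split_ifs
      · exact ⟨zero_le_one, le_refl 1⟩
      · exact ⟨le_refl 0, zero_le_one⟩) (s := s) (D := δ / 16 * s) (y := δ / 32) (β := δ / 8 * s) hsum hlowm
    (by linarith) (by linarith)
  have hlow2 : s * Real.exp ((δ / 32) ^ 2 * s - δ / 32 * (δ / 16 * s)) ≤ 1 / 16 := by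
    have h1 : Real.exp ((δ / 32) ^ 2 * s - δ / 32 * (δ / 16 * s)) ≤ Real.exp (-(δ ^ 2 * s / 2000)) := by
      apply Real.exp_le_exp.mpr
      have h2 : 0 ≤ δ ^ 2 * s := by positivity
      linarith
    have h3 := mul_le_mul_of_nonneg_left h1 hs0.le
    linarith
  have hθN : ∀ v ∈ W, θ * f₀ v ≤ 2 * s * rs / N := by
    intro v _
    rw [le_div_iff₀ (by linarith)]
    have h4 : θ * f₀ v * N ≤ θ * N := by
      have h5 := mul_le_mul_of_nonneg_left (hf0 v).2 (show 0 ≤ θ * N by positivity)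
      calc θ * f₀ v * N = θ * N * f₀ v := by ring
        _ ≤ θ * N * 1 := h5
        _ = θ * N := mul_one _
    have h6 : θ * N = rs * (θ * q) := by rw [← hqr]; ring
    have h7 := mul_le_mul_of_nonneg_left hθq hrs0
    have h8 : 0 ≤ s * rs := by positivity
    linarith
  refine ⟨fun v => θ * f₀ v, W, k, hkeven, hfW, hθN, ?_, ?_⟩
  · have hpt : ∀ S ⊆ W, ind (Good (ph c r) s c₀ (X - 3 / 2 * rs) S) +
        (-1) * (ind (∃ v ∈ S, ∑ u ∈ S.erase v, (if s(v, u) ∈ r then (1 : ℝ) else 0) < δ / 8 * s - δ / 16 * s) +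
          (1000 * s ^ 2)⁻¹ * ∑ v ∈ S, (∑ u ∈ S.erase v, ph c r s(v, u) - k) ^ 2) ≤
        ind (GoodT c r s X (δ / 32) k S) := by
      intro S _
      have hnn : 0 ≤ (1000 * s ^ 2)⁻¹ * ∑ v ∈ S, (∑ u ∈ S.erase v, ph c r s(v, u) - k) ^ 2 :=
        mul_nonneg (by positivity) (sum_nonneg fun v _ => sq_nonneg _)
      by_cases h1 : Good (ph c r) s c₀ (X - 3 / 2 * rs) S
      · by_cases h2 : ∃ v ∈ S, ∑ u ∈ S.erase v, (if s(v, u) ∈ r then (1 : ℝ) else 0) < δ / 8 * s - δ / 16 * s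
        · rw [ind_of h1, ind_of h2]
          linarith [ind_nonneg (GoodT c r s X (δ / 32) k S)]
        · by_cases h6 : ∑ v ∈ S, (∑ u ∈ S.erase v, ph c r s(v, u) - k) ^ 2 ≤ 1000 * s ^ 2
          · have h3 : GoodT c r s X (δ / 32) k S := by
              refine ⟨⟨h1.1, h1.2.1, ?_, ?_⟩, h6⟩
              · intro v hv
                have h4 := h1.2.2 v hv
                rw [abs_le] at h4 hkc ⊢
                constructor <;> linarith [h4.1, h4.2, hkc.1, hkc.2]
              · intro v hv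
                push Not at h2
                have h4 := h2 v hv
                rw [← dg_sum] at h4
                have h5 := mul_le_mul_of_nonneg_left h1.2.1 (show 0 ≤ δ / 32 by linarith)
                linarith
            rw [ind_of h1, ind_not h2, ind_of h3]
            linarith
          · push Not at h6
            have h7 : 1 ≤ (1000 * s ^ 2)⁻¹ * ∑ v ∈ S, (∑ u ∈ S.erase v, ph c r s(v, u) - k) ^ 2 := by
              have h8 : (0 : ℝ) < 1000 * s ^ 2 := by positivity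
              rw [inv_mul_eq_div, one_le_div h8]
              exact h6.le
            rw [ind_of h1]
            linarith [ind_nonneg (GoodT c r s X (δ / 32) k S), ind_nonneg (∃ v ∈ S,
              ∑ u ∈ S.erase v, (if s(v, u) ∈ r then (1 : ℝ) else 0) < δ / 8 * s - δ / 16 * s)]
      · rw [ind_not h1]
        linarith [ind_nonneg (GoodT c r s X (δ / 32) k S), ind_nonneg (∃ v ∈ S,
          ∑ u ∈ S.erase v, (if s(v, u) ∈ r then (1 : ℝ) else 0) < δ / 8 * s - δ / 16 * s)]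
    refine le_trans ?_ (Ex_mono hfW hpt)
    rw [Ex_add, Ex_mul_left, Ex_add]
    linarith
  · intro lam hlam
    have h1 := Ex_pair' (f := fun v => θ * f₀ v) (W := W) hfW hlam
    refine h1.trans (Real.exp_le_exp.mpr ?_)
    apply mul_le_mul_of_nonneg_left _ (by linarith)
    have h2 : ∑ v ∈ W, (θ * f₀ v) ^ 2 ≤ θ * s := by
      rw [← hsum, mul_sum]
      apply sum_le_sum
      intro v hv
      have h3 : θ * f₀ v ≤ θ := by
        have := mul_le_mul_of_nonneg_left (hf0 v).2 hθ0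
        linarith
      rw [sq]
      exact mul_le_mul_of_nonneg_right h3 (hfW v hv).1
    refine h2.trans ?_
    rw [le_div_iff₀ (by linarith)]
    have h4 : θ * s * N = s * rs * (θ * q) := by rw [← hqr]; ring
    rw [h4]
    have h5 := mul_le_mul_of_nonneg_left hθq (show 0 ≤ s * rs by positivity)
    have h6 : 0 ≤ s * rs * s := by positivity
    linarith

end PLS
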