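import Pool.Agent.PLS.Cm

/-!
# PLS.Up1: random edge probabilities in `[1/4, 3/4]`, one row

`∫_0^1 w^a (1-w)^(k-a) dw = a! (k-a)!/(k+1)!` (integration by parts, or the Beta integral), the integral over `[1/4, 3/4]` is smaller. `mw n` is the product of the uniform distributions on `[1/4, 3/4]` (`2 * volume` restricted).
-/

set_option autoImplicit false

namespace PLS

open Finset Smo PLR

/-- the uniform distribution on the cube `[1/4, 3/4]^n` -/
noncomputable def mw (n : ℕ) : MeasureTheory.Measure (Fin n → ℝ) :=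
  MeasureTheory.Measure.pi fun _ => (2 : ENNReal) • (MeasureTheory.volume.restrict (Set.Icc (1 / 4 : ℝ) (3 / 4)))

/-- `p_ij = w_min(i,j)` -/
noncomputable def pw {n : ℕ} (w : Fin n → ℝ) (e : Sym2 (Fin n)) : ℝ := w e.inf

private theorem up1_prob : MeasureTheory.IsProbabilityMeasure
    ((2 : ENNReal) • (MeasureTheory.volume.restrict (Set.Icc (1 / 4 : ℝ) (3 / 4)))) := by
  constructor
  rw [MeasureTheory.Measure.smul_apply, MeasureTheory.Measure.restrict_apply_univ, Real.volume_Icc, smul_eq_mul]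
  have h1 : (3 / 4 - 1 / 4 : ℝ) = 1 / 2 := by norm_num
  rw [h1]
  have h2 : (2 : ENNReal) = ENNReal.ofReal 2 := by simp
  rw [h2, ← ENNReal.ofReal_mul (by norm_num)]
  norm_num

instance (n : ℕ) : MeasureTheory.IsProbabilityMeasure (mw n) := by
  unfold mw
  have := up1_prob
  infer_instance

theorem mw_ae (n : ℕ) : ∀ᵐ w ∂(mw n), ∀ i, 1 / 4 ≤ w i ∧ w i ≤ 3 / 4 := by
  rw [MeasureTheory.ae_all_iff]
  intro i
  have h0 := up1_prob
  have h1 : ∀ᵐ x ∂((2 : ENNReal) • (MeasureTheory.volume.restrict (Set.Icc (1 / 4 : ℝ) (3 / 4)))),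
      x ∈ Set.Icc (1 / 4 : ℝ) (3 / 4) :=
    MeasureTheory.Measure.ae_smul_measure (MeasureTheory.ae_restrict_mem measurableSet_Icc) _
  have h2 := (MeasureTheory.Measure.tendsto_eval_ae_ae (μ := fun _ : Fin n =>
    (2 : ENNReal) • (MeasureTheory.volume.restrict (Set.Icc (1 / 4 : ℝ) (3 / 4)))) (i := i)).eventually h1
  exact h2

private theorem up1_int_zero (k : ℕ) : ∫ w in (0 : ℝ)..1, (1 - w) ^ k = 1 / (k + 1) := by
  have h := intervalIntegral.integral_comp_sub_left (fun x : ℝ => x ^ k) (1 : ℝ) (a := 0) (b := 1)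
  rw [h]
  rw [integral_pow]
  simp

private theorem up1_cont (a b : ℕ) : Continuous fun w : ℝ => w ^ a * (1 - w) ^ b := by fun_prop

private theorem up1_rec (a b : ℕ) : ((a : ℝ) + 1) * ∫ w in (0 : ℝ)..1, w ^ a * (1 - w) ^ (b + 1) =
    ((b : ℝ) + 1) * ∫ w in (0 : ℝ)..1, w ^ (a + 1) * (1 - w) ^ b := by
  have hd : ∀ x ∈ Set.uIcc (0 : ℝ) 1, HasDerivAt (fun w : ℝ => w ^ (a + 1) * (1 - w) ^ (b + 1))
      (((a : ℝ) + 1) * (x ^ a * (1 - x) ^ (b + 1)) - ((b : ℝ) + 1) * (x ^ (a + 1) * (1 - x) ^ b)) x := by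
    intro x _
    have h1 : HasDerivAt (fun w : ℝ => w ^ (a + 1)) (((a : ℝ) + 1) * x ^ a) x := by
      have h2 := hasDerivAt_pow (a + 1) x
      simpa using h2
    have h3 : HasDerivAt (fun w : ℝ => 1 - w) (-1) x := by
      simpa using (hasDerivAt_id x).const_sub 1
    have h4 : HasDerivAt (fun w : ℝ => (1 - w) ^ (b + 1)) (((b : ℝ) + 1) * (1 - x) ^ b * (-1)) x := by
      have h5 := h3.fun_pow (b + 1)
      simpa using h5
    have h6 := h1.fun_mul h4
    exact h6.congr_deriv (by ring)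
  have hi := intervalIntegral.integral_eq_sub_of_hasDerivAt hd (by
    apply Continuous.intervalIntegrable
    exact (((up1_cont a (b + 1)).const_mul _)).sub ((up1_cont (a + 1) b).const_mul _))
  rw [intervalIntegral.integral_sub ((((up1_cont a (b + 1)).const_mul _)).intervalIntegrable _ _)
    (((up1_cont (a + 1) b).const_mul _).intervalIntegrable _ _),
    intervalIntegral.integral_const_mul, intervalIntegral.integral_const_mul] at hi
  have h0 : (fun w : ℝ => w ^ (a + 1) * (1 - w) ^ (b + 1)) 1 - (fun w : ℝ => w ^ (a + 1) * (1 - w) ^ (b + 1)) 0 = 0 := by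
    simp
  linarith

private theorem up1_beta (k : ℕ) : ∀ a : ℕ, a ≤ k →
    (k.choose a : ℝ) * ∫ w in (0 : ℝ)..1, w ^ a * (1 - w) ^ (k - a) = 1 / (k + 1) := by
  intro a
  induction a with
  | zero =>
    intro _
    rw [Nat.choose_zero_right, Nat.cast_one, one_mul, Nat.sub_zero, ← up1_int_zero k]
    simp
  | succ a ih =>
    intro h
    have h1 := ih (by omega)
    obtain ⟨b, hb⟩ : ∃ b, k = a + 1 + b := ⟨k - (a + 1), by omega⟩
    have e1 : k - a = b + 1 := by omega
    have e2 : k - (a + 1) = b := by omega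
    rw [e1] at h1
    rw [e2]
    have h2 := up1_rec a b
    have h3 : (k.choose (a + 1) : ℝ) * (a + 1) = k.choose a * (b + 1) := by
      have h4 := Nat.choose_succ_right_eq k a
      rw [e1] at h4
      exact_mod_cast h4
    have h5 : ((b : ℝ) + 1) ≠ 0 := by positivity
    have h6 : ((b : ℝ) + 1) * ((k.choose (a + 1) : ℝ) * ∫ w in (0 : ℝ)..1, w ^ (a + 1) * (1 - w) ^ b) =
        ((b : ℝ) + 1) * (1 / (k + 1)) := by
      rw [← h1]
      calc _ = (k.choose (a + 1) : ℝ) * (((b : ℝ) + 1) * ∫ w in (0 : ℝ)..1, w ^ (a + 1) * (1 - w) ^ b) := by ring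
        _ = (k.choose (a + 1) : ℝ) * (((a : ℝ) + 1) * ∫ w in (0 : ℝ)..1, w ^ a * (1 - w) ^ (b + 1)) := by rw [h2]
        _ = ((k.choose (a + 1) : ℝ) * (a + 1)) * ∫ w in (0 : ℝ)..1, w ^ a * (1 - w) ^ (b + 1) := by ring
        _ = _ := by rw [h3]; ring
    exact mul_left_cancel₀ h5 h6

theorem beta_le {a k : ℕ} (h : a ≤ k) :
    (k.choose a : ℝ) * (2 * ∫ w in Set.Icc (1 / 4 : ℝ) (3 / 4), w ^ a * (1 - w) ^ (k - a)) ≤ 2 / (k + 1) := by
  have h1 := up1_beta k a h
  have h2 : ∫ w in Set.Icc (1 / 4 : ℝ) (3 / 4), w ^ a * (1 - w) ^ (k - a) ≤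
      ∫ w in (0 : ℝ)..1, w ^ a * (1 - w) ^ (k - a) := by
    rw [intervalIntegral.integral_of_le zero_le_one, ← MeasureTheory.integral_Icc_eq_integral_Ioc]
    apply MeasureTheory.setIntegral_mono_set
    · exact (up1_cont a (k - a)).continuousOn.integrableOn_Icc
    · refine (MeasureTheory.ae_restrict_iff' measurableSet_Icc).2 (Filter.Eventually.of_forall fun w hw => ?_)
      have h3 := hw.1
      have h4 : 0 ≤ 1 - w := by linarith [hw.2]
      show 0 ≤ w ^ a * (1 - w) ^ (k - a)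
      positivity
    · exact Filter.Eventually.of_forall (Set.Icc_subset_Icc (by norm_num) (by norm_num))
  calc _ = 2 * ((k.choose a : ℝ) * ∫ w in Set.Icc (1 / 4 : ℝ) (3 / 4), w ^ a * (1 - w) ^ (k - a)) := by ring
    _ ≤ 2 * ((k.choose a : ℝ) * ∫ w in (0 : ℝ)..1, w ^ a * (1 - w) ^ (k - a)) := by
        apply mul_le_mul_of_nonneg_left _ (by norm_num)
        exact mul_le_mul_of_nonneg_left h2 (by positivity)
    _ = 2 / (k + 1) := by rw [h1]; ring

end PLS
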