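import Pool.Agent.PLS.Up1

/-!
# PLS.Up2: sequential exposure with random edge probabilities

Induction on `|S|` for all targets `d`: `i = min S`, `S' = S.erase i`; the pairs `s(i,u)`, `u ∈ S'`, have probability `w i`, the pairs inside `S'` have probabilities `w j`, `j ∈ S'` (`pw`, minimum). `Ex_union`: with `R ⊆ S'` the set of neighbours of `i`:
`Q_w(S, d) = ∑_(R ⊆ S', |R| = d i) (w i)^|R| (1 - w i)^(|S'| - |R|) Q_w(S', d - 1_R)`, and `Q_w(S', d')` does not depend on `w i`. Integrate: (Fubini in the coordinate `i`; or prove by induction the explicit form: `Q_w(S,d)` is a sum over graphs `H` on `S` of `∏_(j in S) (w j)^(a_j) (1 - w j)^(k_j - a_j)`,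
and `∫ ∏ = ∏ ∫` by `MeasureTheory.integral_fintype_prod_eq_prod`): at most `∑_R (2 ∫ w^|R| (1-w)^(|S'|-|R|)) 2^(s-1)/(s-1)! ≤ (2/s) 2^(s-1)/(s-1)!` by `beta_le` (`a = d i`, `k = s - 1`, `choose` many `R`).
`ex_pw_meas`: `w ↦ Ex (pw w) s F` is a polynomial, so continuous and integrable for `mw n`.
-/

set_option autoImplicit false

namespace PLS

open Finset Smo PLR

/-- continuous functions are integrable for `mw n` -/
private theorem int_cont {n : ℕ} {f : (Fin n → ℝ) → ℝ} (hf : Continuous f) :
    MeasureTheory.Integrable f (mw n) := by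
  have hK : IsCompact (Set.pi Set.univ fun _ : Fin n => Set.Icc (1 / 4 : ℝ) (3 / 4)) :=
    isCompact_univ_pi fun _ => isCompact_Icc
  obtain ⟨C, hC⟩ := hK.exists_bound_of_continuousOn hf.continuousOn
  refine MeasureTheory.Integrable.of_bound hf.aestronglyMeasurable C ?_
  filter_upwards [mw_ae n] with w hw
  exact hC w fun j _ => hw j

private theorem cont_ex {n : ℕ} (s : Finset (Sym2 (Fin n))) (F : Finset (Sym2 (Fin n)) → ℝ) :
    Continuous (fun w : Fin n → ℝ => Ex (pw w) s F) := by
  unfold Ex pw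
  refine continuous_finsetSum _ fun α _ => Continuous.mul (continuous_finsetProd _ fun e _ => ?_) continuous_const
  split_ifs
  · exact continuous_apply _
  · exact continuous_const.sub (continuous_apply _)

theorem ex_pw_meas {n : ℕ} (s : Finset (Sym2 (Fin n))) (F : Finset (Sym2 (Fin n)) → ℝ) :
    MeasureTheory.Integrable (fun w : Fin n → ℝ => Ex (pw w) s F) (mw n) :=
  int_cont (cont_ex s F)

/-- the product of powers -/
private noncomputable def GG {n : ℕ} (a b : Fin n → ℕ) (w : Fin n → ℝ) : ℝ :=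
  ∏ j, (w j ^ a j * (1 - w j) ^ b j)

/-- one factor of the integral -/
private noncomputable def bt (a b : ℕ) : ℝ := 2 * ∫ x in Set.Icc (1 / 4 : ℝ) (3 / 4), x ^ a * (1 - x) ^ b

/-- the integral of the product -/
private noncomputable def BB {n : ℕ} (a b : Fin n → ℕ) : ℝ := ∏ j, bt (a j) (b j)

private theorem cont_GG {n : ℕ} (a b : Fin n → ℕ) : Continuous (GG a b) := by
  unfold GG
  fun_prop

private theorem bt_nonneg (a b : ℕ) : 0 ≤ bt a b := by
  unfold bt
  refine mul_nonneg (by norm_num) (MeasureTheory.setIntegral_nonneg measurableSet_Icc fun x hx => ?_)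
  have h1 : 0 ≤ x := by linarith [hx.1]
  have h2 : 0 ≤ 1 - x := by linarith [hx.2]
  positivity

private theorem bt_zero : bt 0 0 = 1 := by
  unfold bt
  simp only [pow_zero, mul_one, MeasureTheory.integral_const, MeasurableSet.univ,
    MeasureTheory.measureReal_restrict_apply, Set.univ_inter, Real.volume_real_Icc, smul_eq_mul]
  norm_num

private theorem int_GG {n : ℕ} (a b : Fin n → ℕ) : ∫ w, GG a b w ∂(mw n) = BB a b := by
  unfold GG mw BB bt
  have hfin : MeasureTheory.IsFiniteMeasure
      ((2 : ENNReal) • (MeasureTheory.volume.restrict (Set.Icc (1 / 4 : ℝ) (3 / 4)))) :=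
    MeasureTheory.Measure.smul_finite _ (by norm_num)
  rw [MeasureTheory.integral_fintype_prod_eq_prod (fun (j : Fin n) (x : ℝ) => x ^ a j * (1 - x) ^ b j)]
  refine prod_congr rfl fun j _ => ?_
  rw [MeasureTheory.integral_smul_measure]
  simp

private theorem Ex_congr_p {E : Type*} [DecidableEq E] {p q : E → ℝ} {s : Finset E} (h : ∀ e ∈ s, p e = q e)
    (F : Finset E → ℝ) : Ex p s F = Ex q s F := by
  unfold Ex
  refine sum_congr rfl fun α _ => ?_
  congr 1
  exact prod_congr rfl fun e he => by rw [h e he]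

private theorem Ex_image {E D : Type*} [DecidableEq E] [DecidableEq D] (p : E → ℝ) {f : D → E}
    (hf : Function.Injective f) (s : Finset D) (G : Finset E → ℝ) :
    Ex p (s.image f) G = Ex (fun u => p (f u)) s (fun R => G (R.image f)) := by
  induction s using Finset.induction_on generalizing G with
  | empty => simp [Ex_empty]
  | insert u s hu ih =>
    have h1 : f u ∉ s.image f := by
      intro h
      obtain ⟨v, hv, hvu⟩ := mem_image.1 h
      exact hu (hf hvu ▸ hv)
    rw [image_insert, Ex_insert p h1, Ex_insert _ hu, ih, ih]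
    simp only [image_insert]

private theorem Ex_const_p {D : Type*} [DecidableEq D] (x : ℝ) (s : Finset D) (G : Finset D → ℝ) :
    Ex (fun _ => x) s G = ∑ R ∈ s.powerset, x ^ R.card * (1 - x) ^ (s.card - R.card) * G R := by
  unfold Ex
  refine sum_congr rfl fun R hR => ?_
  congr 1
  rw [mem_powerset] at hR
  rw [prod_ite, prod_const, prod_const]
  have h1 : s.filter (fun u => u ∈ R) = R := by
    ext u
    rw [mem_filter]
    exact ⟨fun h => h.2, fun h => ⟨hR h, h⟩⟩
  have h2 : s.filter (fun u => u ∉ R) = s \ R := by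
    ext u
    rw [mem_filter, mem_sdiff]
  rw [h1, h2, card_sdiff_of_subset hR]

private theorem pair_inj {n : ℕ} (i : Fin n) : Function.Injective (fun u : Fin n => s(i, u)) := by
  intro u v h
  exact Sym2.congr_right.1 h

private theorem prs_insert' {n : ℕ} {i : Fin n} {S' : Finset (Fin n)} (hi : i ∉ S') :
    prs (insert i S') = (S'.image fun u => s(i, u)) ∪ prs S' := by
  ext e
  induction e using Sym2.ind with
  | _ a b =>
    rw [mem_prs, mem_union, mem_prs, mem_image]
    constructor
    · rintro ⟨ha, hb, hab⟩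
      rcases mem_insert.1 ha with ha1 | ha1
      · rcases mem_insert.1 hb with hb1 | hb1
        · exact absurd (ha1.trans hb1.symm) hab
        · exact Or.inl ⟨b, hb1, by rw [ha1]⟩
      · rcases mem_insert.1 hb with hb1 | hb1
        · exact Or.inl ⟨a, ha1, by rw [hb1]; exact Sym2.eq_swap⟩
        · exact Or.inr ⟨ha1, hb1, hab⟩
    · rintro (⟨u, hu, h⟩ | ⟨ha, hb, hab⟩)
      · rw [Sym2.eq_iff] at h
        have hne : i ≠ u := fun h => hi (h ▸ hu)
        rcases h with ⟨h1, h2⟩ | ⟨h1, h2⟩
        · subst h1 h2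
          exact ⟨mem_insert_self _ _, mem_insert_of_mem hu, hne⟩
        · subst h1 h2
          exact ⟨mem_insert_of_mem hu, mem_insert_self _ _, hne.symm⟩
      · exact ⟨mem_insert_of_mem ha, mem_insert_of_mem hb, hab⟩

private theorem prs_disj {n : ℕ} {i : Fin n} {S' : Finset (Fin n)} (hi : i ∉ S') :
    Disjoint (S'.image fun u => s(i, u)) (prs S') := by
  rw [Finset.disjoint_left]
  intro e he he2
  obtain ⟨u, _, rfl⟩ := mem_image.1 he
  exact hi (mem_prs.1 he2).1

private theorem nb_i {n : ℕ} {i : Fin n} {S' R : Finset (Fin n)} (hi : i ∉ S') (hR : R ⊆ S')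
    {β : Finset (Sym2 (Fin n))} (hβ : β ⊆ prs S') :
    nb ((R.image fun u => s(i, u)) ∪ β) (insert i S') i = R := by
  ext u
  rw [mem_nb, mem_union, mem_image]
  constructor
  · rintro ⟨_, _, ⟨v, hv, h⟩ | h⟩
    · exact (Sym2.congr_right.1 h) ▸ hv
    · exact absurd (mem_prs.1 (hβ h)).1 hi
  · intro hu
    exact ⟨mem_insert_of_mem (hR hu), fun h => hi (h ▸ hR hu), Or.inl ⟨u, hu, rfl⟩⟩

private theorem dg_v {n : ℕ} {i : Fin n} {S' R : Finset (Fin n)} (hi : i ∉ S')
    {β : Finset (Sym2 (Fin n))} (hβ : β ⊆ prs S') {v : Fin n} (hv : v ∈ S') :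
    dg ((R.image fun u => s(i, u)) ∪ β) (insert i S') v = dg β S' v + (if v ∈ R then 1 else 0) := by
  have hvi : v ≠ i := fun h => hi (h ▸ hv)
  have hI : s(v, i) ∈ (R.image fun u => s(i, u)) ∪ β ↔ v ∈ R := by
    rw [mem_union, mem_image]
    constructor
    · rintro (⟨x, hx, h⟩ | h)
      · have h2 : s(i, x) = s(i, v) := h.trans Sym2.eq_swap
        exact (Sym2.congr_right.1 h2) ▸ hx
      · exact absurd (mem_prs.1 (hβ h)).2.1 hi
    · intro h
      exact Or.inl ⟨v, h, Sym2.eq_swap⟩
  have hN : nb ((R.image fun u => s(i, u)) ∪ β) (insert i S') v =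
      if v ∈ R then insert i (nb β S' v) else nb β S' v := by
    ext u
    have key : u ∈ S' → (s(v, u) ∈ (R.image fun u => s(i, u)) ∪ β ↔ s(v, u) ∈ β) := by
      intro hu
      rw [mem_union]
      refine ⟨fun h => h.resolve_left fun h2 => ?_, Or.inr⟩
      obtain ⟨x, hx, h3⟩ := mem_image.1 h2
      rcases Sym2.eq_iff.1 h3 with ⟨h4, _⟩ | ⟨h4, _⟩
      · exact hi (h4 ▸ hv)
      · exact hi (h4 ▸ hu)
    split_ifs with hvR
    · rw [mem_insert, mem_nb, mem_nb, mem_insert]
      constructor
      · rintro ⟨h1 | h1, h2, h3⟩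
        · exact Or.inl h1
        · exact Or.inr ⟨h1, h2, (key h1).1 h3⟩
      · rintro (h1 | ⟨h1, h2, h3⟩)
        · subst h1
          exact ⟨Or.inl rfl, hvi.symm, hI.2 hvR⟩
        · exact ⟨Or.inr h1, h2, (key h1).2 h3⟩
    · rw [mem_nb, mem_nb, mem_insert]
      constructor
      · rintro ⟨h1 | h1, h2, h3⟩
        · subst h1
          exact absurd (hI.1 h3) hvR
        · exact ⟨h1, h2, (key h1).1 h3⟩
      · rintro ⟨h1, h2, h3⟩
        exact ⟨Or.inr h1, h2, (key h1).2 h3⟩
  unfold dg
  rw [hN]
  split_ifs with hvR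
  · rw [card_insert_of_notMem]
    rw [mem_nb]
    exact fun h => hi h.1
  · rfl

/-- the probability -/
private noncomputable def QQ {n : ℕ} (w : Fin n → ℝ) (S : Finset (Fin n)) (d : Fin n → ℤ) : ℝ :=
  Ex (pw w) (prs S) (fun ω => ind (∀ v ∈ S, (dg ω S v : ℤ) = d v))

private theorem QQ_rec {n : ℕ} {i : Fin n} {S' : Finset (Fin n)} (hi : i ∉ S') (hmin : ∀ u ∈ S', i ≤ u)
    (w : Fin n → ℝ) (d : Fin n → ℤ) :
    QQ w (insert i S') d = ∑ R ∈ S'.powerset.filter (fun R => (R.card : ℤ) = d i),
      w i ^ R.card * (1 - w i) ^ (S'.card - R.card) * QQ w S' (fun v => d v - if v ∈ R then 1 else 0) := by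
  unfold QQ
  rw [prs_insert' hi, Ex_union _ (prs_disj hi), Ex_image _ (pair_inj i)]
  have h1 : ∀ u ∈ S', pw w s(i, u) = w i := by
    intro u hu
    unfold pw
    rw [Sym2.inf_mk, inf_eq_left.2 (hmin u hu)]
  rw [Ex_congr_p (q := fun _ => w i) h1, Ex_const_p, sum_filter]
  refine sum_congr rfl fun R hR => ?_
  rw [mem_powerset] at hR
  have h2 : ∀ β ⊆ prs S', ind (∀ v ∈ insert i S', (dg ((R.image fun u => s(i, u)) ∪ β) (insert i S') v : ℤ) = d v) =
      ind ((R.card : ℤ) = d i) * ind (∀ v ∈ S', (dg β S' v : ℤ) = d v - if v ∈ R then 1 else 0) := by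
    intro β hβ
    have e1 : (∀ v ∈ insert i S', (dg ((R.image fun u => s(i, u)) ∪ β) (insert i S') v : ℤ) = d v) ↔
        ((R.card : ℤ) = d i ∧ ∀ v ∈ S', (dg β S' v : ℤ) = d v - if v ∈ R then 1 else 0) := by
      rw [forall_mem_insert]
      refine and_congr ?_ (forall₂_congr fun v hv => ?_)
      · unfold dg
        rw [nb_i hi hR hβ]
      · rw [dg_v hi hβ hv]
        split_ifs <;> push_cast <;> constructor <;> intro h <;> linarith
    by_cases h3 : (R.card : ℤ) = d i
    · by_cases h4 : ∀ v ∈ S', (dg β S' v : ℤ) = d v - if v ∈ R then 1 else 0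
      · rw [ind_of (e1.2 ⟨h3, h4⟩), ind_of h3, ind_of h4, mul_one]
      · rw [ind_not (fun h => h4 (e1.1 h).2), ind_not h4, mul_zero]
    · rw [ind_not (fun h => h3 (e1.1 h).1), ind_not h3, zero_mul]
  rw [Ex_congr _ _ h2, Ex_mul_left]
  split_ifs with h3
  · rw [ind_of h3, one_mul]
  · rw [ind_not h3, zero_mul, mul_zero]

private theorem cont_QQ {n : ℕ} (S : Finset (Fin n)) (d : Fin n → ℤ) :
    Continuous (fun w : Fin n → ℝ => QQ w S d) := cont_ex _ _

private theorem GG_update {n : ℕ} {a b : Fin n → ℕ} {i : Fin n} (ha : a i = 0) (hb : b i = 0) (r t : ℕ)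
    (w : Fin n → ℝ) : GG (Function.update a i r) (Function.update b i t) w = GG a b w * (w i ^ r * (1 - w i) ^ t) := by
  unfold GG
  rw [← mul_prod_erase univ _ (mem_univ i), ← mul_prod_erase univ (fun j => w j ^ a j * (1 - w j) ^ b j) (mem_univ i)]
  have h1 : ∏ j ∈ univ.erase i, (w j ^ Function.update a i r j * (1 - w j) ^ Function.update b i t j) =
      ∏ j ∈ univ.erase i, (w j ^ a j * (1 - w j) ^ b j) := by
    refine prod_congr rfl fun j hj => ?_
    rw [Function.update_of_ne (ne_of_mem_erase hj), Function.update_of_ne (ne_of_mem_erase hj)]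
  rw [h1, Function.update_self, Function.update_self, ha, hb]
  ring

private theorem BB_update {n : ℕ} {a b : Fin n → ℕ} {i : Fin n} (ha : a i = 0) (hb : b i = 0) (r t : ℕ) :
    BB (Function.update a i r) (Function.update b i t) = BB a b * bt r t := by
  unfold BB
  rw [← mul_prod_erase univ _ (mem_univ i), ← mul_prod_erase univ (fun j => bt (a j) (b j)) (mem_univ i)]
  have h1 : ∏ j ∈ univ.erase i, bt (Function.update a i r j) (Function.update b i t j) =
      ∏ j ∈ univ.erase i, bt (a j) (b j) := by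
    refine prod_congr rfl fun j hj => ?_
    rw [Function.update_of_ne (ne_of_mem_erase hj), Function.update_of_ne (ne_of_mem_erase hj)]
  rw [h1, Function.update_self, Function.update_self, ha, hb, bt_zero]
  ring

private theorem main_aux {n : ℕ} : ∀ (m : ℕ) (S : Finset (Fin n)), S.card = m → ∀ (d : Fin n → ℤ) (a b : Fin n → ℕ),
    (∀ j ∈ S, a j = 0 ∧ b j = 0) →
    ∫ w, GG a b w * QQ w S d ∂(mw n) ≤ BB a b * (2 ^ m / (m.factorial : ℝ)) := by
  intro m
  induction m with
  | zero =>
    intro S hS d a b _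
    rw [card_eq_zero] at hS
    subst hS
    have h1 : ∀ w : Fin n → ℝ, GG a b w * QQ w ∅ d = GG a b w := by
      intro w
      have h2 : QQ w ∅ d = 1 := by
        unfold QQ
        have h3 : ∀ α ⊆ prs (∅ : Finset (Fin n)), ind (∀ v ∈ (∅ : Finset (Fin n)), (dg α ∅ v : ℤ) = d v) = 1 :=
          fun α _ => ind_of (by simp)
        rw [Ex_congr _ _ h3, Ex_one]
      rw [h2, mul_one]
    simp only [h1, int_GG]
    simp
  | succ k ih =>
    intro S hS d a b hab
    have hne : S.Nonempty := card_pos.1 (by omega)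
    obtain ⟨i, hi⟩ : ∃ i, i = S.min' hne := ⟨_, rfl⟩
    have hiS : i ∈ S := hi ▸ S.min'_mem hne
    obtain ⟨S', hS'⟩ : ∃ S', S' = S.erase i := ⟨_, rfl⟩
    have hiS' : i ∉ S' := by rw [hS']; exact notMem_erase i S
    have hSS : S = insert i S' := by rw [hS', insert_erase hiS]
    have hk : S'.card = k := by
      rw [hS', card_erase_of_mem hiS, hS]
      rfl
    have hmin : ∀ u ∈ S', i ≤ u := by
      intro u hu
      rw [hi]
      rw [hS'] at hu
      exact S.min'_le u (mem_of_mem_erase hu)
    obtain ⟨hai, hbi⟩ := hab i hiS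
    have hBB : 0 ≤ BB a b := prod_nonneg fun j _ => bt_nonneg _ _
    have e1 : ∀ w : Fin n → ℝ, GG a b w * QQ w S d = ∑ R ∈ S'.powerset.filter (fun R => (R.card : ℤ) = d i),
        GG (Function.update a i R.card) (Function.update b i (k - R.card)) w *
          QQ w S' (fun v => d v - if v ∈ R then 1 else 0) := by
      intro w
      rw [hSS, QQ_rec hiS' hmin, mul_sum, hk]
      refine sum_congr rfl fun R _ => ?_
      rw [GG_update hai hbi]
      ring
    simp only [e1]
    have hI : ∀ R ∈ S'.powerset.filter (fun R => (R.card : ℤ) = d i), MeasureTheory.Integrable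
        (fun w => GG (Function.update a i R.card) (Function.update b i (k - R.card)) w *
          QQ w S' (fun v => d v - if v ∈ R then 1 else 0)) (mw n) :=
      fun R _ => int_cont ((cont_GG _ _).mul (cont_QQ _ _))
    rw [MeasureTheory.integral_finsetSum _ hI]
    have e2 : ∀ R ∈ S'.powerset.filter (fun R => (R.card : ℤ) = d i),
        ∫ w, GG (Function.update a i R.card) (Function.update b i (k - R.card)) w *
          QQ w S' (fun v => d v - if v ∈ R then 1 else 0) ∂(mw n) ≤
        BB a b * (2 ^ k / (k.factorial : ℝ)) * bt R.card (k - R.card) := by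
      intro R _
      have h1 := ih S' hk (fun v => d v - if v ∈ R then 1 else 0) (Function.update a i R.card)
        (Function.update b i (k - R.card)) (by
          intro j hj
          have hji : j ≠ i := fun h => hiS' (h ▸ hj)
          rw [Function.update_of_ne hji, Function.update_of_ne hji]
          exact hab j (by rw [hSS]; exact mem_insert_of_mem hj))
      rw [BB_update hai hbi] at h1
      refine h1.trans (le_of_eq ?_)
      ring
    refine (sum_le_sum e2).trans ?_
    rw [← mul_sum]
    have e3 : ∑ R ∈ S'.powerset.filter (fun R => (R.card : ℤ) = d i), bt R.card (k - R.card) ≤ 2 / ((k : ℝ) + 1) := by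
      by_cases hd : ∃ r : ℕ, (r : ℤ) = d i ∧ r ≤ k
      · obtain ⟨r, hr, hrk⟩ := hd
        have h1 : S'.powerset.filter (fun R => (R.card : ℤ) = d i) = powersetCard r S' := by
          ext R
          rw [mem_filter, mem_powerset, mem_powersetCard, ← hr]
          exact ⟨fun h => ⟨h.1, by exact_mod_cast h.2⟩, fun h => ⟨h.1, by exact_mod_cast h.2⟩⟩
        rw [h1]
        have h2 : ∀ R ∈ powersetCard r S', bt R.card (k - R.card) = bt r (k - r) := by
          intro R hR
          rw [(mem_powersetCard.1 hR).2]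
        rw [sum_congr rfl h2, sum_const, card_powersetCard, hk, nsmul_eq_mul]
        exact beta_le hrk
      · have h1 : S'.powerset.filter (fun R => (R.card : ℤ) = d i) = ∅ := by
          rw [filter_eq_empty_iff]
          intro R hR h
          rw [mem_powerset] at hR
          exact hd ⟨R.card, h, (card_le_card hR).trans hk.le⟩
        rw [h1, sum_empty]
        positivity
    have e4 : BB a b * (2 ^ k / (k.factorial : ℝ)) * (2 / ((k : ℝ) + 1)) =
        BB a b * (2 ^ (k + 1) / ((k + 1).factorial : ℝ)) := by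
      rw [Nat.factorial_succ]
      push_cast
      have h1 : (k.factorial : ℝ) ≠ 0 := by exact_mod_cast k.factorial_ne_zero
      have h2 : (k : ℝ) + 1 ≠ 0 := by positivity
      field_simp
      ring
    rw [← e4]
    exact mul_le_mul_of_nonneg_left e3 (by positivity)

theorem seq_bound {n : ℕ} (S : Finset (Fin n)) (d : Fin n → ℤ) :
    ∫ w, Ex (pw w) (prs S) (fun ω => ind (∀ v ∈ S, (dg ω S v : ℤ) = d v)) ∂(mw n) ≤ 2 ^ S.card / S.card.factorial := by
  have h := main_aux S.card S rfl d (fun _ => 0) (fun _ => 0) (fun _ _ => ⟨rfl, rfl⟩)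
  have h1 : BB (fun _ : Fin n => 0) (fun _ => 0) = 1 := by
    unfold BB
    simp only [bt_zero, prod_const_one]
  have h2 : ∀ w : Fin n → ℝ, GG (fun _ => 0) (fun _ => 0) w = 1 := by
    intro w
    unfold GG
    simp
  simp only [h1, h2, one_mul] at h
  exact h

end PLS
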