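import Pool.Agent.PLS.Up2

/-!
# PLS.Up3: the exponent 1/2 is optimal

First moment: `Ex (pw w) (prs univ) (ind (∃ S, 8 √n ≤ |S| ∧ Reg ω S)) ≤ ∑_(S : 8√n ≤ |S|) ∑_(d < max |S| 1) Ex (pw w) (prs S) (ind (∀ v ∈ S, dg ω S v = d))` (the function depends only on `prs S`: `Ex_union` and `Ex_const`), for `w` in the cube. Integrate over `mw n` (`ex_pw_meas`, `seq_bound`):
at most `∑_(s ≥ 8√n) choose n s * s * 2^s/s!`, `choose n s 2^s ≤ (2n)^s/s!`, and by Stirling (`term_le` in `Results/MP_58b8d6_co/SqrtUpperBound.lean`, with `2n`) each term is at most `exp(2 (e √(2n) - s))/(2π)`; the sum is at most `exp(-√n)` for `n ≥ 1`. Some `w` in the cube has at most the average (`MeasureTheory.exists_le_integral`-like with `mw_ae`). `n = 0`: the bound is 1.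
-/

set_option autoImplicit false

namespace PLS

open Finset Smo PLR

private theorem ex_dep {E : Type*} [DecidableEq E] (p : E → ℝ) {B : Finset E} (s : Finset E) :
    ∀ {F : Finset E → ℝ}, Dep B F → Ex p s F = Ex p (s ∩ B) F := by
  induction s using Finset.induction_on with
  | empty => intro F _; simp
  | insert e s he ih =>
    intro F hF
    by_cases hB : e ∈ B
    · rw [insert_inter_of_mem hB, Ex_insert p he, Ex_insert p (fun h => he (mem_inter.1 h).1),
        ih hF, ih (hF.insert e)]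
    · rw [insert_inter_of_notMem hB, Ex_insert p he, ← ih hF]
      have h1 : Ex p s (fun α => F (insert e α)) = Ex p s F :=
        Ex_congr p s fun α _ => hF.insert_of_notMem hB α
      rw [h1]
      ring

private theorem dep_dg {V : Type*} [DecidableEq V] (S : Finset V) (d : ℤ) :
    Dep (prs S) (fun ω => ind (∀ v ∈ S, (dg ω S v : ℤ) = d)) := by
  intro ω
  have h1 : ∀ v ∈ S, dg (ω ∩ prs S) S v = dg ω S v := by
    intro v hv
    unfold dg
    congr 1
    ext u
    rw [mem_nb, mem_nb, mem_inter, mem_prs]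
    constructor
    · exact fun h => ⟨h.1, h.2.1, h.2.2.1⟩
    · exact fun h => ⟨h.1, h.2.1, h.2.2, hv, h.1, h.2.1.symm⟩
  show ind _ = ind _
  congr 1
  apply propext
  exact forall₂_congr fun v hv => by rw [h1 v hv]

private theorem reg_le {n : ℕ} (ω : Finset (Sym2 (Fin n))) (S : Finset (Fin n)) :
    ind (Reg ω S) ≤ ∑ d ∈ range (max S.card 1), ind (∀ v ∈ S, (dg ω S v : ℤ) = ((d : ℕ) : ℤ)) := by
  by_cases h : Reg ω S
  · obtain ⟨d, hd, hv⟩ : ∃ d ∈ range (max S.card 1), ∀ v ∈ S, (dg ω S v : ℤ) = ((d : ℕ) : ℤ) := by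
      obtain ⟨k, hk⟩ := h
      rcases S.eq_empty_or_nonempty with rfl | ⟨v, hv⟩
      · exact ⟨0, by simp, by simp⟩
      · refine ⟨k, ?_, fun u hu => by rw [hk u hu]⟩
        rw [mem_range, ← hk v hv]
        have h1 : nb ω S v ⊆ S.erase v := by
          intro u hu
          rw [mem_nb] at hu
          exact mem_erase.2 ⟨hu.2.1, hu.1⟩
        have h2 := card_le_card h1
        have h3 := card_erase_lt_of_mem hv
        have h4 : dg ω S v < S.card := lt_of_le_of_lt h2 h3
        exact lt_of_lt_of_le h4 (le_max_left _ _)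
    have h1 := single_le_sum (s := range (max S.card 1))
      (f := fun d : ℕ => ind (∀ v ∈ S, (dg ω S v : ℤ) = ((d : ℕ) : ℤ))) (fun i _ => ind_nonneg _) hd
    have h2 : ind (∀ v ∈ S, (dg ω S v : ℤ) = ((d : ℕ) : ℤ)) = 1 := ind_of hv
    have h3 := ind_le_one (Reg ω S)
    linarith
  · rw [ind_not h]
    exact sum_nonneg fun i _ => ind_nonneg _

private theorem pt_bound {n : ℕ} {w : Fin n → ℝ} (hw : ∀ i, 1 / 4 ≤ w i ∧ w i ≤ 3 / 4) :
    Ex (pw w) (prs univ) (fun ω => ind (∃ S : Finset (Fin n), 8 * Real.sqrt n ≤ S.card ∧ Reg ω S)) ≤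
      ∑ S ∈ (univ : Finset (Finset (Fin n))).filter (fun S => 8 * Real.sqrt n ≤ S.card),
        ∑ d ∈ range (max S.card 1),
          Ex (pw w) (prs S) (fun ω => ind (∀ v ∈ S, (dg ω S v : ℤ) = ((d : ℕ) : ℤ))) := by
  have h1 : ∀ ω : Finset (Sym2 (Fin n)),
      ind (∃ S : Finset (Fin n), 8 * Real.sqrt n ≤ S.card ∧ Reg ω S) ≤
      ∑ S ∈ (univ : Finset (Finset (Fin n))).filter (fun S => 8 * Real.sqrt n ≤ S.card),
        ∑ d ∈ range (max S.card 1), ind (∀ v ∈ S, (dg ω S v : ℤ) = ((d : ℕ) : ℤ)) := by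
    intro ω
    by_cases h : ∃ S : Finset (Fin n), 8 * Real.sqrt n ≤ S.card ∧ Reg ω S
    · obtain ⟨S, hS, hR⟩ := h
      have h2 := single_le_sum
        (s := (univ : Finset (Finset (Fin n))).filter (fun S => 8 * Real.sqrt n ≤ S.card))
        (f := fun S : Finset (Fin n) => ∑ d ∈ range (max S.card 1),
          ind (∀ v ∈ S, (dg ω S v : ℤ) = ((d : ℕ) : ℤ)))
        (fun i _ => sum_nonneg fun j _ => ind_nonneg _) (mem_filter.2 ⟨mem_univ S, hS⟩)
      have h3 := reg_le ω S
      rw [ind_of hR] at h3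
      have h4 := ind_le_one (∃ S : Finset (Fin n), 8 * Real.sqrt n ≤ S.card ∧ Reg ω S)
      exact h4.trans (h3.trans h2)
    · rw [ind_not h]
      exact sum_nonneg fun i _ => sum_nonneg fun j _ => ind_nonneg _
  refine (Ex_mono (fun e _ => ?_) fun ω _ => h1 ω).trans (le_of_eq ?_)
  · have := hw e.inf
    unfold pw
    constructor <;> linarith
  · rw [Ex_sum]
    refine sum_congr rfl fun S _ => ?_
    rw [Ex_sum]
    refine sum_congr rfl fun d _ => ?_
    rw [ex_dep (pw w) (prs univ) (dep_dg S (d : ℤ)), prs_inter, univ_inter]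

private theorem term_le {N : ℝ} (hN : 0 ≤ N) (s : ℕ) (hs : 0 < s) :
    N ^ s / (s.factorial : ℝ) * ((s : ℝ) / (s.factorial : ℝ)) ≤
      1 / (2 * Real.pi) * Real.exp (2 * (Real.exp 1 * √N - s)) := by
  have hs0 : (0 : ℝ) < s := by exact_mod_cast hs
  have hf : (0 : ℝ) < (s.factorial : ℝ) := by positivity
  have hpi := Real.pi_pos
  have he := Real.exp_pos 1
  have h2 := Stirling.le_factorial_stirling s
  have h3 : 2 * Real.pi * s * ((s : ℝ) / Real.exp 1) ^ (2 * s) ≤ (s.factorial : ℝ) ^ 2 := by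
    calc 2 * Real.pi * s * ((s : ℝ) / Real.exp 1) ^ (2 * s)
        = (√(2 * Real.pi * s) * ((s : ℝ) / Real.exp 1) ^ s) ^ 2 := by
          rw [mul_pow, Real.sq_sqrt (by positivity), ← pow_mul, mul_comm s 2]
      _ ≤ (s.factorial : ℝ) ^ 2 := by gcongr
  have h4 : (Real.exp 1 * √N / s) ^ (2 * s) ≤ Real.exp (2 * (Real.exp 1 * √N - s)) := by
    have h5 : Real.exp 1 * √N / s ≤ Real.exp (Real.exp 1 * √N / s - 1) := by
      have := Real.add_one_le_exp (Real.exp 1 * √N / s - 1)
      linarith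
    calc (Real.exp 1 * √N / s) ^ (2 * s) ≤
          (Real.exp (Real.exp 1 * √N / s - 1)) ^ (2 * s) := by gcongr
      _ = Real.exp (2 * (Real.exp 1 * √N - s)) := by
          rw [← Real.exp_nat_mul]
          congr 1
          push_cast
          field_simp
  have h6 : N ^ s = (√N) ^ (2 * s) := by
    rw [pow_mul, Real.sq_sqrt hN]
  calc N ^ s / (s.factorial : ℝ) * ((s : ℝ) / (s.factorial : ℝ))
      = N ^ s * s / (s.factorial : ℝ) ^ 2 := by field_simp
    _ ≤ N ^ s * s / (2 * Real.pi * s * ((s : ℝ) / Real.exp 1) ^ (2 * s)) := by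
        gcongr
    _ = 1 / (2 * Real.pi) * (Real.exp 1 * √N / s) ^ (2 * s) := by
        rw [h6, div_pow, div_pow, mul_pow]
        field_simp
    _ ≤ _ := by gcongr

/-- one term of the first moment sum -/
private theorem one_term {n m : ℕ} (hn : 1 ≤ n) (hm : 8 * Real.sqrt n ≤ m) :
    (n.choose m : ℝ) * ((max m 1 : ℕ) * (2 ^ m / (m.factorial : ℝ))) ≤
      Real.exp (-(8 * Real.sqrt n)) := by
  have hn' : (1 : ℝ) ≤ n := by exact_mod_cast hn
  have hsq : 1 ≤ Real.sqrt n := Real.one_le_sqrt.2 hn'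
  have hm0 : 0 < m := by
    have : (0 : ℝ) < m := by linarith
    exact_mod_cast this
  have hmax : max m 1 = m := max_eq_left hm0
  rw [hmax]
  have h1 : (n.choose m : ℝ) ≤ (n : ℝ) ^ m / (m.factorial : ℝ) := Nat.choose_le_pow_div m n
  have h2 := term_le (N := 2 * n) (by positivity) m hm0
  have h3 : (n.choose m : ℝ) * ((m : ℕ) * (2 ^ m / (m.factorial : ℝ))) ≤
      (2 * (n : ℝ)) ^ m / (m.factorial : ℝ) * ((m : ℝ) / (m.factorial : ℝ)) := by
    calc (n.choose m : ℝ) * ((m : ℕ) * (2 ^ m / (m.factorial : ℝ)))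
        ≤ ((n : ℝ) ^ m / (m.factorial : ℝ)) * ((m : ℕ) * (2 ^ m / (m.factorial : ℝ))) := by
          gcongr
      _ = _ := by
          rw [mul_pow]
          ring
  refine h3.trans (h2.trans ?_)
  have hpi := Real.pi_gt_three
  have h4 : 1 / (2 * Real.pi) ≤ 1 := by
    rw [div_le_one (by positivity)]
    linarith
  have h5 : Real.exp 1 * √(2 * (n : ℝ)) ≤ 4 * Real.sqrt n := by
    have he := Real.exp_one_lt_d9
    have h2s : √(2 : ℝ) ≤ 1.42 := by
      rw [show (1.42 : ℝ) = √(1.42 ^ 2) by rw [Real.sqrt_sq (by norm_num)]]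
      exact Real.sqrt_le_sqrt (by norm_num)
    rw [Real.sqrt_mul (by norm_num : (0 : ℝ) ≤ 2)]
    have h0 := Real.sqrt_nonneg (2 : ℝ)
    have h6 : Real.exp 1 * √2 ≤ 4 := by nlinarith [Real.exp_pos 1]
    calc Real.exp 1 * (√2 * √(n : ℝ)) = (Real.exp 1 * √2) * √(n : ℝ) := by ring
      _ ≤ 4 * √(n : ℝ) := by gcongr
  calc 1 / (2 * Real.pi) * Real.exp (2 * (Real.exp 1 * √(2 * (n : ℝ)) - m))
      ≤ 1 * Real.exp (2 * (Real.exp 1 * √(2 * (n : ℝ)) - m)) := by gcongr
    _ = Real.exp (2 * (Real.exp 1 * √(2 * (n : ℝ)) - m)) := one_mul _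
    _ ≤ Real.exp (-(8 * Real.sqrt n)) := Real.exp_le_exp.2 (by linarith)

private theorem final_num {n : ℕ} (hn : 1 ≤ n) :
    ((n : ℝ) + 1) * Real.exp (-(8 * Real.sqrt n)) ≤ Real.exp (-Real.sqrt n) := by
  have hn' : (1 : ℝ) ≤ n := by exact_mod_cast hn
  have hsq : 1 ≤ Real.sqrt n := Real.one_le_sqrt.2 hn'
  have h1 : (n : ℝ) + 1 ≤ Real.exp (7 * Real.sqrt n) := by
    have h2 : Real.exp (7 * Real.sqrt n) = Real.exp (Real.sqrt n) ^ 7 := by
      rw [← Real.exp_nat_mul]
      norm_num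
    have h3 : 1 + Real.sqrt n ≤ Real.exp (Real.sqrt n) := by
      have := Real.add_one_le_exp (Real.sqrt n)
      linarith
    have h4 : (n : ℝ) = Real.sqrt n ^ 2 := (Real.sq_sqrt (by linarith)).symm
    rw [h2]
    calc (n : ℝ) + 1 ≤ (1 + Real.sqrt n) ^ 2 := by
          rw [add_sq, ← h4]
          linarith
      _ ≤ (1 + Real.sqrt n) ^ 7 := pow_le_pow_right₀ (by linarith) (by norm_num)
      _ ≤ Real.exp (Real.sqrt n) ^ 7 := by gcongr
  calc ((n : ℝ) + 1) * Real.exp (-(8 * Real.sqrt n))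
      ≤ Real.exp (7 * Real.sqrt n) * Real.exp (-(8 * Real.sqrt n)) := by gcongr
    _ = Real.exp (-Real.sqrt n) := by
        rw [← Real.exp_add]
        congr 1
        ring

private theorem sum_num {n : ℕ} (hn : 1 ≤ n) :
    ∑ S ∈ (univ : Finset (Finset (Fin n))).filter (fun S => 8 * Real.sqrt n ≤ S.card),
        ((max S.card 1 : ℕ) : ℝ) * (2 ^ S.card / (S.card.factorial : ℝ)) ≤
      Real.exp (-Real.sqrt n) := by
  classical
  rw [sum_filter]
  have h1 := sum_powerset_apply_card (x := (univ : Finset (Fin n)))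
    (fun m : ℕ => if 8 * Real.sqrt n ≤ (m : ℝ) then
      ((max m 1 : ℕ) : ℝ) * (2 ^ m / (m.factorial : ℝ)) else 0)
  rw [powerset_univ, card_univ, Fintype.card_fin] at h1
  rw [h1]
  refine le_trans (sum_le_sum (g := fun _ => Real.exp (-(8 * Real.sqrt n))) fun m _ => ?_) ?_
  · rw [nsmul_eq_mul]
    split_ifs with h
    · exact one_term hn h
    · rw [mul_zero]
      exact (Real.exp_pos _).le
  · rw [sum_const, card_range, nsmul_eq_mul]
    push_cast
    exact final_num hn

theorem upper_ex (n : ℕ) : ∃ w : Fin n → ℝ, (∀ i, 1 / 4 ≤ w i ∧ w i ≤ 3 / 4) ∧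
    Ex (pw w) (prs univ) (fun ω => ind (∃ S : Finset (Fin n), 8 * Real.sqrt n ≤ S.card ∧ Reg ω S)) ≤
      Real.exp (-Real.sqrt n) := by
  classical
  rcases Nat.eq_zero_or_pos n with rfl | hn
  · refine ⟨fun _ => 1 / 2, fun i => i.elim0, ?_⟩
    have h1 : (prs (univ : Finset (Fin 0))) = ∅ := by
      ext e
      induction e using Sym2.ind with
      | _ a b => exact a.elim0
    rw [h1, Ex_empty]
    simp only [Nat.cast_zero, Real.sqrt_zero, neg_zero, Real.exp_zero]
    exact ind_le_one _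
  set f : (Fin n → ℝ) → ℝ := fun w => Ex (pw w) (prs univ)
    (fun ω => ind (∃ S : Finset (Fin n), 8 * Real.sqrt n ≤ S.card ∧ Reg ω S)) with hf
  have hint : MeasureTheory.Integrable f (mw n) := ex_pw_meas _ _
  have hg : ∀ (S : Finset (Fin n)) (d : ℕ), MeasureTheory.Integrable (fun w : Fin n → ℝ =>
      Ex (pw w) (prs S) (fun ω => ind (∀ v ∈ S, (dg ω S v : ℤ) = ((d : ℕ) : ℤ)))) (mw n) :=
    fun S d => ex_pw_meas _ _
  have h1 : ∫ w, f w ∂(mw n) ≤ Real.exp (-Real.sqrt n) := by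
    calc ∫ w, f w ∂(mw n)
        ≤ ∫ w, (∑ S ∈ (univ : Finset (Finset (Fin n))).filter
            (fun S => 8 * Real.sqrt n ≤ S.card), ∑ d ∈ range (max S.card 1),
            Ex (pw w) (prs S) (fun ω => ind (∀ v ∈ S, (dg ω S v : ℤ) = ((d : ℕ) : ℤ)))) ∂(mw n) := by
          refine MeasureTheory.integral_mono_ae hint ?_ ?_
          · exact MeasureTheory.integrable_finsetSum _ fun S _ =>
              MeasureTheory.integrable_finsetSum _ fun d _ => hg S d
          · filter_upwards [mw_ae n] with w hw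
            exact pt_bound hw
      _ = ∑ S ∈ (univ : Finset (Finset (Fin n))).filter
            (fun S => 8 * Real.sqrt n ≤ S.card), ∑ d ∈ range (max S.card 1),
            ∫ w, Ex (pw w) (prs S)
              (fun ω => ind (∀ v ∈ S, (dg ω S v : ℤ) = ((d : ℕ) : ℤ))) ∂(mw n) := by
          rw [MeasureTheory.integral_finsetSum _ fun S _ =>
            MeasureTheory.integrable_finsetSum _ fun d _ => hg S d]
          refine sum_congr rfl fun S _ => ?_
          rw [MeasureTheory.integral_finsetSum _ fun d _ => hg S d]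
      _ ≤ ∑ S ∈ (univ : Finset (Finset (Fin n))).filter
            (fun S => 8 * Real.sqrt n ≤ S.card), ∑ d ∈ range (max S.card 1),
            (2 ^ S.card / (S.card.factorial : ℝ)) :=
          sum_le_sum fun S _ => sum_le_sum fun d _ => seq_bound S fun _ => ((d : ℕ) : ℤ)
      _ = ∑ S ∈ (univ : Finset (Finset (Fin n))).filter (fun S => 8 * Real.sqrt n ≤ S.card),
            ((max S.card 1 : ℕ) : ℝ) * (2 ^ S.card / (S.card.factorial : ℝ)) := by
          refine sum_congr rfl fun S _ => ?_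
          rw [sum_const, card_range, nsmul_eq_mul]
      _ ≤ Real.exp (-Real.sqrt n) := sum_num hn
  have h2 : (mw n) {w | ¬ ∀ i, 1 / 4 ≤ w i ∧ w i ≤ 3 / 4} = 0 := mw_ae n
  obtain ⟨w, hw, hle⟩ := MeasureTheory.exists_notMem_null_le_integral hint h2
  refine ⟨w, ?_, hle.trans h1⟩
  by_contra hcon
  exact hw hcon

end PLS
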